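import Pool.Agent.H52.P4.Cons2
import Pool.Agent.H25.P4.GfA

/-!
# The thin box of the new label

`nbt_box`: the points of the thin box at `(i, j + 1)` have bounded coordinates over the closed
frame at `(i, j)`. `cons3`: the consumer, for boxes with bounded coordinates.
-/

set_option autoImplicit false

namespace Pool.P4

open Finset Real MvPolynomial
open Pool.Agent.H49.Ent Pool.Agent.H32.Dense Pool.STK Pool.STAT Pool.MIC.Frm Pool.FRM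
open Pool.MIC.Fru (gw nat_gw nat_gw0 atT_tri atT_deg)
open Pool.STAT.Glu (kN)
open Pool.BFL (Pb)

/-- **The thin box at `(i, j + 1)`** over the closed frame at `(i, j)`. -/
theorem nbt_box (n K : ℕ) (C C₁ : ℝ) (hC : 0 ≤ C) (hC₁ : 0 ≤ C₁) :
    ∃ c' : ℝ, 1 ≤ c' ∧
    ∀ (D : NDat2) (K₁ K' J a₀ w₀ z M i j r r' a y : ℕ) (lam gam : ℕ → ℝ) (κ : ℝ)
      (q : D.Ω → ℝ) (E : D.Ω → Prop) (P : D.Γ × D.Γ → ℕ → PN) (Sl Gr : ℕ → Prop),
      Fx D n K K₁ K' J a₀ w₀ z M i j r r' a y lam gam κ C₁ C q E P Sl Gr →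
      j + 1 < M → (∀ l, 0 ≤ gam l) →
      ∀ (U : GnL D) (R : ℕ → Prop) (Q : ℕ), U.Ok n K₁ J a₀ w₀ z M Q R C₁ q →
      ∀ ω, E ω → ∀ m ≤ n, ∀ x : ℕ → ℝ, NBT D U z Q R i (j + 1) (a₀ + i * z) m ω x →
      Bx (D.g i j) (P (bb D i j r ω)) m (exp (c' * z)) x := by
  obtain ⟨c₁, h1, rd⟩ := rad_sp n K C hC
  obtain ⟨c₇, h7, tr7⟩ := sp_trans n K c₁ C₁ h1 hC₁
  have hc₇ : 0 ≤ c₇ := h1.trans h7
  obtain ⟨c₂, h2, bx⟩ := sp_box n K c₇ 0 hc₇ le_rfl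
  have hc₂ : 0 ≤ c₂ := h2
  obtain ⟨c₃, h3, sy⟩ := sp_symm n K C hC
  obtain ⟨c₄, h4, tr⟩ := sp_trans n K C c₃ hC (hC.trans h3)
  have hc₄ : 0 ≤ c₄ := hC.trans h4
  obtain ⟨f, hf⟩ : ∃ f : ℝ, f = c₂ + 2 * C₁ + (C + 2) := ⟨_, rfl⟩
  have hf0 : 0 ≤ f := by rw [hf]; linarith
  obtain ⟨c₅, h5, sy5⟩ := sp_symm n K c₄ hc₄
  obtain ⟨c₆, h6, bx6⟩ := sp_box n K c₅ f (hc₄.trans h5) hf0
  refine ⟨c₆ + 1, by linarith, ?_⟩
  intro D K₁ K' J a₀ w₀ z M i j r r' a y lam gam κ q E P Sl Gr hF hj1 hgam U R Q hU ω hω m hm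
    x hx
  have hzr : (1 : ℝ) ≤ z := by exact_mod_cast hF.z1
  have hO := hF.ok
  have hjM := hF.jM
  have hiM := hF.iM
  have hq := (hF.fr ω hω).1
  have hΦ : ∀ i j ω, Tg K n (D.Φ i j ω) := fun i j ω =>
    ⟨hO.P_tri i j _, fun l _ => (hO.P_deg i j _ l).trans hF.k1⟩
  have hΨ : ∀ i j ω, Tg K n (D.Ψ i j ω) := fun i j ω =>
    ⟨hO.G_tri i j _, fun l _ => (hO.G_deg i j _ l).trans hF.k1⟩
  obtain ⟨V, hV1, hV2, hV3, hV4⟩ := (hF.fr ω hω).2.1.fc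
  have tV : Tg K n V := ⟨hV1, fun l _ => (hV2 l).trans hF.k2⟩
  have V1 : Sp (D.g i (j + 1)) V (D.Φ i (j + 1) ω) n (exp (C * z)) :=
    sp_of_near tV (hΦ _ _ _) fun l hl => hV4 i hiM (j + 1) hj1 l hl
  have V0 : Sp (D.g i j) V (D.Φ i j ω) n (exp (C * z)) :=
    sp_of_near tV (hΦ _ _ _) fun l hl => hV4 i hiM j (by omega) l hl
  have hP := (hF.fr ω hω).2.2
  have tP : Tg K n (P (bb D i j r ω)) := frp_tg hP hF.k2
  have P0 := (frp_sp hO hF.k1 hP hF.k2 (le_refl i)).1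
  -- the box over `Ψ`, then over `V`
  have hpt : (2 : ℝ) ^ (a₀ + i * z) * |x 0 - D.X ω 0| ≤ 1 := by
    have := hx.1
    rw [le_div_iff₀ (by positivity)] at this
    linarith
  obtain ⟨W, hW⟩ : ∃ W, W = uD U n R (D.Ψ i (j + 1) ω) (D.pt ω) := ⟨_, rfl⟩
  have tW : Tg K n W := by
    rw [hW]
    exact tg_uD hU hF.k1 (hΨ i (j + 1) ω) _
  have b1 : Bx (gw (a₀ + i * z) (D.g i (j + 1))) (atT (D.X ω 0) W) m (exp (0 * z)) x := by
    rw [zero_mul, exp_zero]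
    intro k hk
    rcases Nat.eq_zero_or_pos k with hk0 | hk0
    · rw [hk0, nat_gw0, abs_mul, abs_of_pos (by positivity : (0 : ℝ) < 2 ^ (a₀ + i * z))]
      exact hpt
    · rw [nat_gw' _ _ _ _ _ hk0]
      unfold nat
      rw [abs_mul, abs_of_pos (by positivity : (0 : ℝ) < 2 ^ D.g i (j + 1) k)]
      by_cases hc : Ct n R k
      · have h3 := (hx.2 k hk0 hk).2 hc.2.2
        have h4 : (1 : ℝ) / 2 ^ (D.g i (j + 1) k + Q * z) ≤ 1 / 2 ^ D.g i (j + 1) k :=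
          one_div_le_one_div_of_le (by positivity)
            (pow_le_pow_right₀ (by norm_num) (Nat.le_add_right _ _))
        have h5 := h3.trans h4
        rw [hW]
        unfold uD
        rw [sysU_ct hc]
        rw [le_div_iff₀ (by positivity)] at h5
        linarith
      · have hR : R k := by
          by_contra h
          exact hc ⟨hk0, by omega, h⟩
        have h3 := (hx.2 k hk0 hk).1 hR
        rw [hW]
        unfold uD
        rw [sysU_nt hc]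
        rw [le_div_iff₀ (by positivity)] at h3
        linarith
  have sp0 := rd D K₁ J a₀ w₀ z M lam gam κ C₁ q hO hF.k1 hF.z1 i hiM.le (j + 1) hj1.le ω hq V tV
    V1
  have sp1 := u_vis hU hiM.le hj1.le hq
  rw [← hW] at sp1
  have sp := tr7 z _ _ _ _ hzr (tg_atT tV _) (tg_atT (hΨ i (j + 1) ω) _) (tg_atT tW _) sp0 sp1
  have b2 := bx z _ _ _ hzr (tg_atT tV _) (tg_atT tW _) sp m (by omega) x b1
  -- the box over `V` at `(i, j)`
  have b3 : Bx (D.g i j) V m (exp (f * z)) x := by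
    intro k hk
    rcases Nat.eq_zero_or_pos k with hk0 | hk0
    · rw [hk0]
      have := t0_box hO hF.z1 hiM.le (by omega : j ≤ M) hq tV V0 (x := x) (b := 0) (by
        rw [zero_mul, exp_zero]
        exact hx.1)
      rw [abs_of_nonneg hC, abs_zero, add_zero] at this
      exact this.trans (ex_mono (by rw [hf]; linarith) hzr)
    · have a1 := b2 k hk
      rw [nat_gw' _ _ _ _ _ hk0] at a1
      unfold nat at a1 ⊢
      rw [abs_mul, abs_of_pos (by positivity : (0 : ℝ) < 2 ^ D.g i (j + 1) k)] at a1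
      rw [abs_mul, abs_of_pos (by positivity : (0 : ℝ) < 2 ^ D.g i j k)]
      have lv := lev2 hO hiM.le (by omega : j + 1 ≤ M) (i₂ := i) hiM.le (j₂ := j) (by omega) hk0
        (by omega : k ≤ n)
      rw [abs_le] at lv
      push_cast at lv
      have hp : (2 : ℝ) ^ D.g i j k ≤ exp (2 * C₁ * z) * 2 ^ D.g i (j + 1) k := by
        refine pw_le ?_ (by positivity)
        have : 0 ≤ gam k * z := mul_nonneg (hgam k) (by linarith)
        nlinarith [lv.1, lv.2]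
      calc (2 : ℝ) ^ D.g i j k * |x k - eval x (V k)|
          ≤ exp (2 * C₁ * z) * 2 ^ D.g i (j + 1) k * |x k - eval x (V k)| := by gcongr
        _ = exp (2 * C₁ * z) * (2 ^ D.g i (j + 1) k * |x k - eval x (V k)|) := by ring
        _ ≤ exp (2 * C₁ * z) * exp (c₂ * z) := by gcongr
        _ = exp ((2 * C₁ + c₂) * z) := by rw [← exp_add]; ring_nf
        _ ≤ _ := ex_mono (by rw [hf]; linarith) hzr
  -- from `V` to `P`
  have s1 : Sp (D.g i j) (P (bb D i j r ω)) V n (exp (c₄ * z)) :=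
    tr z _ _ _ _ hzr tP (hΦ i j ω) tV P0 (sy z _ _ _ hzr tV (hΦ i j ω) V0)
  have s1' : Sp (D.g i j) (P (bb D i j r ω)) V n (exp (c₅ * z)) :=
    s1.mono le_rfl (ex_mono h5 hzr)
  have b4 := bx6 z _ _ _ hzr tP tV s1' m (by omega) x b3
  exact b4.mono le_rfl (ex_mono (by linarith) hzr)

/-- **The consumer**, for boxes with bounded coordinates. -/
theorem cons3 (n K : ℕ) (C C₁ b₀ : ℝ) (hC : 0 ≤ C) (hC₁ : 0 ≤ C₁) (hb₀ : 1 ≤ b₀) :
    ∃ c' : ℝ, 1 ≤ c' ∧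
    ∀ (D : NDat2) (K₁ K' J a₀ w₀ z M i j r r' a y : ℕ) (lam gam : ℕ → ℝ) (κ : ℝ)
      (q : D.Ω → ℝ) (E : D.Ω → Prop) (P : D.Γ × D.Γ → ℕ → PN) (Sl Gr : ℕ → Prop),
      Fx D n K K₁ K' J a₀ w₀ z M i j r r' a y lam gam κ C₁ C q E P Sl Gr →
      exp (c' * z) ≤ 2 ^ (a * z) → j + 1 < M → (∀ l, 0 ≤ gam l) →
      ∀ (m w A : ℕ) (N₀ δ ρ δT η' : ℝ) (nn : D.Ω → ℕ → ℝ) (S : D.Ω → ℕ → ℕ → ℝ) (t₀ : D.Ω → ℝ)
        (nD nvt e0t e1t nv e0 e1 : D.Ω → ℕ → ℝ) (Ev : D.Ω → Prop)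
        (Bb : D.Ω → (ℕ → ℝ) → Prop), m ≤ n → Gr m → w₀ + j * z ≤ w → 0 ≤ δ → 0 ≤ δT →
        1 ≤ N₀ → (2 : ℝ) ^ w / 2 ^ (a₀ + i * z) ≤ ρ → η' ≤ Pb q Ev →
        (∀ ω, Ev ω → Cvt D n J a₀ z i j r r' a y m w C N₀ δ E P Sl Gr nn S t₀ nD nvt e0t e1t ω) →
        (∀ ω, Ev ω → Cv4 D n z i j r r' y m w C N₀ δ E P Sl Gr nn S t₀ nv e0 e1 ω) →
        (∀ ω, Ev ω → nv ω m = 1) →
        (∀ ω ω', Ev ω → Ev ω' → D.pt ω = D.pt ω' → nD ω = nD ω') →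
        (∀ ω ω', Ev ω → Ev ω' → D.wn J (w₀ + (j + 1) * z) ω = D.wn J (w₀ + (j + 1) * z) ω' →
          t₀ ω = t₀ ω' ∧ nv ω = nv ω' ∧ e0 ω = e0 ω' ∧ e1 ω = e1 ω') →
        (∀ ω, Ev ω → Bb ω (D.X ω)) →
        (∀ ω b, Ev ω → Bb ω b → |b 0 - D.X ω 0| ≤ 1 / 2 ^ (a₀ + i * z) ∧
          Bx (D.g i j) (P (bb D i j r ω)) m (exp (b₀ * z)) b) →
        (∀ ω b t, Ev ω → Bb ω b → Bb ω (Function.update b m t)) →
        (∀ ω ω', Ev ω → Ev ω' → D.pt ω = D.pt ω' → ∀ b, Bb ω b → Bb ω' b) →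
        (∀ ω, Ev ω → ∀ b, Bb ω b →
          |LM D i j r P Sl Gr m w nn t₀ nvt e0t e1t ω b -
            LM D i j r P Sl Gr m w nn t₀ nv e0 e1 ω b| ≤ δT) →
        2 * (2 * δT + exp (c' * z) * (N₀ * (1 / 2 ^ (y * z) + ρ) + δ)) *
          2 ^ (D.g i (j + 1) m + A * z) ≤ 2 ^ D.g i j m →
        LabB D J w₀ z i (j + 1) m A (kN K 2) η' q Bb := by
  obtain ⟨c₂, h2, dif⟩ := hL_dif2 n K C C₁ b₀ hC hC₁ hb₀
  refine ⟨c₂, h2, ?_⟩
  intro D K₁ K' J a₀ w₀ z M i j r r' a y lam gam κ q E P Sl Gr hF haz hj1 hgam m w A N₀ δ ρ δT η' nn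
    S t₀ nD nvt e0t e1t nv e0 e1 Ev Bb hmn hgm hw hδ hδT hN₀ hρ hη hC1 hC4 hnv hpt hwn hBX hBN hBu
    hBp hth hnum
  have hO := hF.ok
  have hm1 := (hF.dic.g1 m hgm).1
  have hiM := hF.iM
  have hjM := hF.jM
  have hq : ∀ ω, Ev ω → 0 < q ω := fun ω h => (hF.fr ω (hC1 ω h).mem).1
  refine labB_of_det hO.isLaw.nonneg Bb Ev hη (fun ω _ h => hBX ω h)
    (hL D i j r P Sl Gr m w t₀ nv e0 e1) ?_ ?_ ?_ ?_
  · intro ω ω' x x' h h' e
    have e1' := bb_wn hO hiM.le hj1.le r ω ω' x x' e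
    obtain ⟨f1, f2, f3, f4⟩ := hwn ω ω' h h' e
    have f5 : D.ln ω = D.ln ω' := by
      simp only [NDat2.wn, Prod.mk.injEq] at e
      exact e.1
    unfold hL
    rw [e1', f1, f2, f3, f4, f5]
  · intro ω x h
    exact hL_deg hO hF.k1 hF.k2 hm1 (hF.fr ω (hC1 ω h).mem).2.2
  · intro ω x h
    rw [hL_own hO x (hF.fr ω (hC1 ω h).mem).2.2.tri hF.dic hgm hmn (hnv ω h), sub_self, abs_zero]
    positivity
  · intro ω ω' x x' h h' hp b hb
    obtain ⟨b₁, hb₁⟩ : ∃ b₁, b₁ = Function.update b m (eval b (P (bb D i j r ω) m)) := ⟨_, rfl⟩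
    have hPt := (hF.fr ω (hC1 ω h).mem).2.2.tri
    have hbl : ∀ l, l ≠ m → b₁ l = b l := fun l hl => by
      rw [hb₁, Function.update_of_ne hl]
    have hB₁ : Bb ω b₁ := by
      rw [hb₁]
      exact hBu ω b _ h hb
    have hN := hBN ω b₁ h hB₁
    have hbx := hN.2
    have hbx' : Bx (D.g i j) (P (bb D i j r ω)) (m + 1) (exp (b₀ * z)) b₁ := by
      intro k hk
      rcases Nat.lt_succ_iff_lt_or_eq.1 hk with h3 | h3
      · exact hbx k h3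
      · rw [h3]
        unfold nat
        rw [Pool.SYS35.eval_congr (hPt m) (b' := b) fun i hi => hbl i (by omega), hb₁,
          Function.update_self, sub_self, mul_zero, abs_zero]
        exact (exp_pos _).le
    have key := dif D K₁ K' J a₀ w₀ z M i j r r' a y lam gam κ q E P Sl Gr hF haz m w N₀ δ ρ δT nn S
      t₀ nD nvt e0t e1t nv e0 e1 hmn hgm hw hδ hN₀ hρ ω ω' (hC1 ω h) (hC1 ω' h') (hC4 ω h)
      (hC4 ω' h') (hnv ω h)
      (hnv ω' h') (rcd_pt hO hiM.le (by omega) r a ω ω' x x' hp)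
      (hO.s_pt (i - r') (by omega) (j + r) hjM.le ω ω' x x' hp) (hpt ω ω' h h' hp) b₁ hN.1 hbx'
      (hth ω h b₁ hB₁) (hth ω' h' b₁ (hBp ω ω' h h' hp b₁ hB₁))
    have hv : ∀ ω, Ev ω → eval b₁ (hL D i j r P Sl Gr m w t₀ nv e0 e1 ω) =
        eval b (hL D i j r P Sl Gr m w t₀ nv e0 e1 ω) := fun ω h =>
      Pool.SYS35.eval_congr (hL_deg hO hF.k1 hF.k2 hm1 (hF.fr ω (hC1 ω h).mem).2.2).2
        fun l hl => hbl l (by omega)
    rw [hv ω h, hv ω' h'] at key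
    obtain ⟨X, hX⟩ : ∃ X : ℝ, X = 2 * δT + exp (c₂ * z) * (N₀ * (1 / 2 ^ (y * z) + ρ) + δ) :=
      ⟨_, rfl⟩
    rw [← hX] at key hnum
    have h2g : (0 : ℝ) < 2 ^ D.g i j m := by positivity
    have h2G : (0 : ℝ) < 2 ^ (D.g i (j + 1) m + A * z) := by positivity
    rw [one_div_mul_one_div, le_div_iff₀ (by positivity)]
    have e3 : |eval b (hL D i j r P Sl Gr m w t₀ nv e0 e1 ω) -
        eval b (hL D i j r P Sl Gr m w t₀ nv e0 e1 ω')| ≤ X / 2 ^ D.g i j m := by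
      rw [le_div_iff₀ h2g]
      linarith
    calc |eval b (hL D i j r P Sl Gr m w t₀ nv e0 e1 ω) -
        eval b (hL D i j r P Sl Gr m w t₀ nv e0 e1 ω')| * (2 * 2 ^ (D.g i (j + 1) m + A * z))
        ≤ X / 2 ^ D.g i j m * (2 * 2 ^ (D.g i (j + 1) m + A * z)) :=
          mul_le_mul_of_nonneg_right e3 (by positivity)
      _ = (2 * X * 2 ^ (D.g i (j + 1) m + A * z)) / 2 ^ D.g i j m := by ring
      _ ≤ 1 := by
          rw [div_le_one h2g]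
          exact hnum

end Pool.P4
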