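import Pool.Agent.H52.P4.Rel

/-!
# The own sheet over a closed frame, in the radius of the time

`P`, `V` are closed frames of a sample, `V` also at the place `R = (i - r', j + r)`. A point whose
slow coordinates are bounded over `P` at `(i, j)` and whose group coordinates are near to the
visible labels at `R`: its coordinates over `P` and `V` are bounded, and its group coordinates over
`V` are small. Two such points with the same slow coordinates over `P` have the same coordinates.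
-/

set_option autoImplicit false

namespace Pool.P4

open Finset Real MvPolynomial
open Pool.Agent.H49.Ent Pool.Agent.H32.Dense Pool.STK Pool.STAT Pool.MIC.Frm Pool.FRM
open Pool.MIC.Fru (gw nat_gw nat_gw0 atT_tri atT_deg)

/-- **Variation.** -/
theorem sp_lip (n K : ℕ) (c b : ℝ) (hc : 0 ≤ c) (hb : 0 ≤ b) : ∃ c' : ℝ, 0 ≤ c' ∧
    ∀ (z : ℝ) (g : ℕ → ℕ) (P V : ℕ → PN), 1 ≤ z → Tg K n P → Tg K n V →
    Sp g P V n (exp (c * z)) → ∀ l ≤ n, ∀ x x' : ℕ → ℝ, Bx g P l (exp (b * z)) x →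
      Bx g P l (exp (b * z)) x' → ∀ δ : ℝ, 0 ≤ δ → (∀ k < l, |nat g P x k - nat g P x' k| ≤ δ) →
      |(eval x (V l) - eval x (P l)) - (eval x' (V l) - eval x' (P l))| ≤
        exp (c' * z) * δ / 2 ^ g l := by
  obtain ⟨C, hC, h⟩ := nrm_dif n K
  obtain ⟨K₂, hK₂⟩ : ∃ K₂ : ℕ, K₂ = K * (K + 1) ^ n := ⟨_, rfl⟩
  refine ⟨(K₂ + 1) * C + K₂ * b + c, by positivity, ?_⟩
  intro z g P V hz hP hV hS l hl x x' hx hx' δ hδ hd
  have hv : (V l - P l).vars ⊆ range l := AdxRow.vars_sub_le (hV.tri l) (hP.tri l)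
  have hdd : (V l - P l).totalDegree ≤ K :=
    (totalDegree_sub _ _).trans (max_le (hV.deg l hl) (hP.deg l hl))
  have hK' : (chr P (V l - P l)).totalDegree ≤ K₂ := by
    refine (chr_deg hP.tri (fun i hi => hP.deg i (by omega)) hv hdd).trans ?_
    rw [hK₂]
    exact Nat.mul_le_mul_left _ (Nat.pow_le_pow_right (Nat.succ_pos _) hl)
  have hbx : ∀ y : ℕ → ℝ, Bx g P l (exp (b * z)) y → ∀ k < l,
      |zs P y k| ≤ exp (b * z) / 2 ^ g k := by
    intro y hy k hk
    have := hy k hk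
    rw [nat_eq, abs_mul, abs_of_pos (by positivity : (0 : ℝ) < 2 ^ g k)] at this
    rw [le_div_iff₀ (by positivity)]
    linarith
  have key := nrm_lip (chr_vars hP.tri hv) hK' g (ex_one hb hz) hδ (hbx x hx) (hbx x' hx')
    (fun k hk => by
      have := hd k hk
      rw [nat_eq, nat_eq, ← mul_sub, abs_mul, abs_of_pos (by positivity : (0 : ℝ) < 2 ^ g k)]
        at this
      rw [le_div_iff₀ (by positivity)]
      linarith)
  rw [chr_eval hP.tri, chr_eval hP.tri, map_sub, map_sub] at key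
  refine key.trans ?_
  have h1 := h g P V (exp (c * z)) hP hV hS l hl
  have hK0 : (0 : ℝ) ≤ K₂ := Nat.cast_nonneg _
  have h2 : K₂ * exp (b * z) ^ K₂ * nrm g (1 / 2) (chr P (V l - P l)) * δ ≤
      (K₂ + 1) * exp (b * z) ^ K₂ * (C * (exp (c * z) / 2 ^ g l)) * δ := by
    refine mul_le_mul_of_nonneg_right ?_ hδ
    refine mul_le_mul ?_ h1 (Pool.SYS35.nrm_nonneg' _ (by norm_num) _) (by positivity)
    exact mul_le_mul_of_nonneg_right (by linarith) (by positivity)
  refine h2.trans ?_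
  have h3 : (K₂ + 1) * exp (b * z) ^ K₂ * (C * (exp (c * z) / 2 ^ g l)) * δ =
      ((K₂ + 1) * C * exp (b * z) ^ K₂ * exp (c * z)) * δ / 2 ^ g l := by ring
  rw [h3]
  refine div_le_div_of_nonneg_right (mul_le_mul_of_nonneg_right ?_ hδ) (by positivity)
  exact ex_le (by nlinarith) K₂ b c hz

/-- The time over a closed frame. -/
theorem t0_box {D : NDat2} {n K K₁ J a₀ w₀ z M : ℕ} {lam gam : ℕ → ℝ} {κ C₁ : ℝ} {q : D.Ω → ℝ}
    (hO : D.Ok2 n K₁ J a₀ w₀ z M lam gam κ C₁ q) (hz : 1 ≤ z) {i j : ℕ} (hi : i ≤ M) (hj : j ≤ M)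
    {ω : D.Ω} (hω : 0 < q ω) {P : ℕ → PN} (hP : Tg K n P) {C b : ℝ}
    (hS : Sp (D.g i j) P (D.Φ i j ω) n (exp (C * z))) {x : ℕ → ℝ}
    (hx : |x 0 - D.X ω 0| ≤ exp (b * z) / 2 ^ (a₀ + i * z)) :
    |nat (D.g i j) P x 0| ≤ exp ((|C| + |b| + 2) * z) := by
  have hzr : (1 : ℝ) ≤ z := by exact_mod_cast hz
  have a1 := hO.hgt i hi j hj ω hω 0 (Nat.zero_le n)
  have hev : ∀ (F : ℕ → PN) (u v : ℕ → ℝ), TriN F → eval u (F 0) = eval v (F 0) :=
    fun F u v hF => Pool.SYS35.eval_congr (hF 0) fun i hi => absurd hi (Nat.not_lt_zero i)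
  have a2 : eval (D.X ω) (D.Φ i j ω 0) = eval x (D.Φ i j ω 0) := hev _ _ _ (hO.P_tri i j _)
  unfold NDat2.rh at a1
  rw [a2] at a1
  have a3 : |x 0 - D.X ω 0| ≤ exp (b * z) / 2 ^ D.g i j 0 := by
    refine hx.trans ?_
    refine div_le_div_of_nonneg_left (exp_pos _).le (by positivity)
      (pow_le_pow_right₀ (by norm_num) ?_)
    rw [hO.g_zero]
    have := hO.thin
    have b1 : j * z ≤ (M + 1) * z := Nat.mul_le_mul_right z (by omega)
    have b2 : 0 ≤ i * z := Nat.zero_le _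
    omega
  have a4 := hS 0 (Nat.zero_le n) x (fun k hk => absurd hk (Nat.not_lt_zero k))
  have a5 : |x 0 - eval x (P 0)| ≤
      (exp (b * z) + 1 + exp (C * z)) / 2 ^ D.g i j 0 := by
    calc |x 0 - eval x (P 0)| = |(x 0 - D.X ω 0) + (D.X ω 0 - eval x (D.Φ i j ω 0)) +
          (eval x (D.Φ i j ω 0) - eval x (P 0))| := by ring_nf
      _ ≤ _ := abs_add_three _ _ _
      _ ≤ exp (b * z) / 2 ^ D.g i j 0 + 1 / 2 ^ D.g i j 0 + exp (C * z) / 2 ^ D.g i j 0 := by
          gcongr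
      _ = _ := by ring
  unfold nat
  rw [abs_mul, abs_of_pos (by positivity : (0 : ℝ) < 2 ^ D.g i j 0)]
  rw [le_div_iff₀ (by positivity)] at a5
  have a6 : exp (b * z) + 1 + exp (C * z) ≤ exp ((|C| + |b| + 2) * z) := by
    have f1 : exp (b * z) ≤ exp ((|C| + |b|) * z) := ex_mono (by
      have := le_abs_self b
      have := abs_nonneg C
      linarith) hzr
    have f2 : exp (C * z) ≤ exp ((|C| + |b|) * z) := ex_mono (by
      have := le_abs_self C
      have := abs_nonneg b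
      linarith) hzr
    have f3 : (1 : ℝ) ≤ exp ((|C| + |b|) * z) := ex_one (by positivity) hzr
    have f4 : (3 : ℝ) ≤ exp (2 * z) := by
      have := Real.add_one_le_exp (2 * (z : ℝ))
      linarith
    calc exp (b * z) + 1 + exp (C * z) ≤ 3 * exp ((|C| + |b|) * z) := by linarith
      _ ≤ exp (2 * z) * exp ((|C| + |b|) * z) := by gcongr
      _ = _ := by rw [← exp_add]; ring_nf
  linarith

/-- The numbers of the places `(i, j)` and `R = (i - r', j + r)`. -/
structure Num (n M i j r r' y : ℕ) (gam : ℕ → ℝ) (Sl Gr : ℕ → Prop) : Prop where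
  i1 : i ≤ M
  j1 : j + r ≤ M
  r1 : r' ≤ i
  s1 : ∀ l, Sl l → gam l * r ≤ r'
  s2 : ∀ l, Gr l → (r' : ℝ) + y ≤ gam l * r
  dic : ∀ l, 1 ≤ l → l ≤ n → Sl l ∨ Gr l

/-- A point near to the own sheet: coordinates before `l`. -/
structure Near (D : NDat2) (a₀ z i j r r' : ℕ) (Sl Gr : ℕ → Prop) (P : ℕ → PN) (ω : D.Ω)
    (B : ℝ) (l : ℕ) (x : ℕ → ℝ) : Prop where
  tm : |x 0 - D.X ω 0| ≤ B / 2 ^ (a₀ + i * z)
  slo : ∀ k, Sl k → k < l → |nat (D.g i j) P x k| ≤ B
  grp : ∀ u, Gr u → u < l → |x u - eval x (D.Ψ (i - r') (j + r) ω u)| ≤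
    B / 2 ^ D.g (i - r') (j + r) u

theorem Near.mono {D : NDat2} {a₀ z i j r r' : ℕ} {Sl Gr : ℕ → Prop} {P : ℕ → PN} {ω : D.Ω}
    {B B' : ℝ} {l l' : ℕ} {x : ℕ → ℝ} (h : Near D a₀ z i j r r' Sl Gr P ω B l x) (hB : B ≤ B')
    (hl : l' ≤ l) : Near D a₀ z i j r r' Sl Gr P ω B' l' x :=
  ⟨h.tm.trans (div_le_div_of_nonneg_right hB (by positivity)),
    fun k h1 h2 => (h.slo k h1 (h2.trans_le hl)).trans hB,
    fun k h1 h2 => (h.grp k h1 (h2.trans_le hl)).trans
      (div_le_div_of_nonneg_right hB (by positivity))⟩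

/-- The frames of a sample: `P` at `(i, j)`, `V` at `(i, j)` and at `R`. -/
structure Frs (D : NDat2) (n K z i j r r' : ℕ) (C : ℝ) (P V : ℕ → PN) (ω : D.Ω) : Prop where
  tP : Tg K n P
  tV : Tg K n V
  P0 : Sp (D.g i j) P (D.Φ i j ω) n (exp (C * z))
  V0 : Sp (D.g i j) V (D.Φ i j ω) n (exp (C * z))
  VR : Sp (D.g (i - r') (j + r)) V (D.Φ (i - r') (j + r) ω) n (exp (C * z))

/-- **The coordinates of a point near to the own sheet.** -/
theorem near_crd (n K : ℕ) (C C₁ b : ℝ) (hC : 0 ≤ C) (hC₁ : 0 ≤ C₁) (hb : 0 ≤ b) :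
    ∃ c' : ℝ, b ≤ c' ∧
    ∀ (D : NDat2) (K₁ J a₀ w₀ z M : ℕ) (lam gam : ℕ → ℝ) (κ : ℝ) (q : D.Ω → ℝ),
    D.Ok2 n K₁ J a₀ w₀ z M lam gam κ C₁ q → K₁ ≤ K → 1 ≤ z →
    (∀ l, 1 ≤ l → l ≤ n → lam l = 1) → ∀ (i j r r' y : ℕ) (Sl Gr : ℕ → Prop),
    Num n M i j r r' y gam Sl Gr → ∀ ω, 0 < q ω → ∀ P V : ℕ → PN,
    Frs D n K z i j r r' C P V ω → ∀ l ≤ n + 1, ∀ x : ℕ → ℝ,
    Near D a₀ z i j r r' Sl Gr P ω (exp (b * z)) l x →
    ∀ k < l, |nat (D.g i j) P x k| ≤ exp (c' * z) ∧ |nat (D.g i j) V x k| ≤ exp (c' * z) ∧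
      |nat (gw (a₀ + (i - r') * z) (D.g (i - r') (j + r))) (atT (D.X ω 0) V) x k| ≤
        exp (c' * z) ∧ (1 ≤ k → Gr k → |nat (D.g i j) V x k| ≤ exp (c' * z) / 2 ^ (y * z)) := by
  -- the frames against each other
  obtain ⟨s₁, hs1, symm⟩ := sp_symm n K C hC
  obtain ⟨s₂, hs2, trans⟩ := sp_trans n K C s₁ hC (hC.trans hs1)
  have hs₂ : 0 ≤ s₂ := hC.trans hs2
  obtain ⟨s₃, hs3, rad⟩ := rad_sp n K C hC
  have main : ∀ m ≤ n + 1, ∃ c' : ℝ, b ≤ c' ∧
      ∀ (D : NDat2) (K₁ J a₀ w₀ z M : ℕ) (lam gam : ℕ → ℝ) (κ : ℝ) (q : D.Ω → ℝ),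
      D.Ok2 n K₁ J a₀ w₀ z M lam gam κ C₁ q → K₁ ≤ K → 1 ≤ z →
      (∀ l, 1 ≤ l → l ≤ n → lam l = 1) → ∀ (i j r r' y : ℕ) (Sl Gr : ℕ → Prop),
      Num n M i j r r' y gam Sl Gr → ∀ ω, 0 < q ω → ∀ P V : ℕ → PN,
      Frs D n K z i j r r' C P V ω → ∀ l ≤ m, ∀ x : ℕ → ℝ,
      Near D a₀ z i j r r' Sl Gr P ω (exp (b * z)) l x →
      ∀ k < l, |nat (D.g i j) P x k| ≤ exp (c' * z) ∧ |nat (D.g i j) V x k| ≤ exp (c' * z) ∧
        |nat (gw (a₀ + (i - r') * z) (D.g (i - r') (j + r))) (atT (D.X ω 0) V) x k| ≤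
          exp (c' * z) ∧ (1 ≤ k → Gr k → |nat (D.g i j) V x k| ≤ exp (c' * z) / 2 ^ (y * z)) := by
    intro m
    induction m with
    | zero =>
      intro _
      refine ⟨b, le_rfl, ?_⟩
      intro D K₁ J a₀ w₀ z M lam gam κ q hO hK hz hlam i j r r' y Sl Gr hN ω hω P V hF l hl x hx
        k hk
      omega
    | succ m ih =>
      intro hm
      obtain ⟨c, hcb, h⟩ := ih (by omega)
      have hc : 0 ≤ c := hb.trans hcb
      obtain ⟨c₁, h1, h1', gB⟩ := sp_grow n K s₂ c hs₂ hc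
      obtain ⟨c₂, h2, h2', gR⟩ := sp_grow n K s₃ c hs3 hc
      have hc₁ : 0 ≤ c₁ := hc.trans h1'
      have hc₂ : 0 ≤ c₂ := hc.trans h2'
      -- one constant
      obtain ⟨e, he⟩ : ∃ e : ℝ, e = C + b + 2 + c + (b + c₁ + 1) + (b + c₂ + 1) + 2 * C₁ +
        (b + c₂ + 1 + 2 * C₁ + c₁ + 1) := ⟨_, rfl⟩
      refine ⟨e, by rw [he]; linarith, ?_⟩
      intro D K₁ J a₀ w₀ z M lam gam κ q hO hK hz hlam i j r r' y Sl Gr hN ω hω P V hF l hl x hx
      have hzr : (1 : ℝ) ≤ z := by exact_mod_cast hz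
      have hz0 : (0 : ℝ) ≤ z := by linarith
      have he' : ∀ t : ℝ, t ≤ e → exp (t * z) ≤ exp (e * z) := fun t ht => ex_mono ht hzr
      have prev : ∀ k < min l m, _ := h D K₁ J a₀ w₀ z M lam gam κ q hO hK hz hlam i j r r' y Sl Gr
        hN ω hω P V hF (min l m) (min_le_right _ _) x (hx.mono le_rfl (min_le_left _ _))
      intro k hk
      rcases Nat.lt_or_ge k m with hkm | hkm
      · obtain ⟨p1, p2, p3, p4⟩ := prev k (lt_min hk hkm)
        have hle := he' c (by rw [he]; linarith)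
        exact ⟨p1.trans hle, p2.trans hle, p3.trans hle, fun a1 a2 =>
          (p4 a1 a2).trans (div_le_div_of_nonneg_right hle (by positivity))⟩
      have hkm' : k = m := by omega
      have hkn : k ≤ n := by omega
      have bxP : Bx (D.g i j) P k (exp (c * z)) x := fun k' hk' =>
        (prev k' (lt_min (hk'.trans hk) (by omega))).1
      have bxR : Bx (gw (a₀ + (i - r') * z) (D.g (i - r') (j + r))) (atT (D.X ω 0) V) k
          (exp (c * z)) x := fun k' hk' => (prev k' (lt_min (hk'.trans hk) (by omega))).2.2.1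
      have hi := hN.i1
      have hj : j ≤ M := by
        have := hN.j1
        omega
      have hiR : i - r' ≤ M := by omega
      have hΦ : Tg K n (D.Φ i j ω) := ⟨hO.P_tri i j _, fun l _ => (hO.P_deg i j _ l).trans hK⟩
      have hPV : Sp (D.g i j) P V n (exp (s₂ * z)) :=
        trans z _ _ _ _ hzr hF.tP hΦ hF.tV hF.P0 (symm z _ _ _ hzr hF.tV hΦ hF.V0)
      have hVR := rad D K₁ J a₀ w₀ z M lam gam κ C₁ q hO hK hz (i - r') hiR (j + r) hN.j1 ω hω V
        hF.tV hF.VR
      have valB := (gB z _ _ _ hzr hF.tP hF.tV hPV k hkn x bxP).1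
      rw [le_div_iff₀ (by positivity), mul_comm] at valB
      -- the coordinate `0`
      rcases Nat.eq_zero_or_pos k with hk0 | hk0
      · rw [hk0]
        have f1 := t0_box hO hz hi hj hω hF.tP hF.P0 hx.tm
        have f2 := t0_box hO hz hi hj hω hF.tV hF.V0 hx.tm
        have hle : exp ((|C| + |b| + 2) * z) ≤ exp (e * z) := he' _ (by
          rw [abs_of_nonneg hC, abs_of_nonneg hb, he]
          linarith)
        refine ⟨f1.trans hle, f2.trans hle, ?_, fun h0 => absurd h0 (by omega)⟩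
        rw [nat_gw0, abs_mul,
          abs_of_pos (by positivity : (0 : ℝ) < 2 ^ (a₀ + (i - r') * z))]
        have f3 := hx.tm
        rw [le_div_iff₀ (by positivity)] at f3
        have f4 : (2 : ℝ) ^ (a₀ + (i - r') * z) ≤ 2 ^ (a₀ + i * z) :=
          pow_le_pow_right₀ (by norm_num)
            (Nat.add_le_add_left (Nat.mul_le_mul_right z (Nat.sub_le _ _)) _)
        have f5 : (2 : ℝ) ^ (a₀ + (i - r') * z) * |x 0 - D.X ω 0| ≤ exp (b * z) := by
          refine (mul_le_mul_of_nonneg_right f4 (abs_nonneg _)).trans ?_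
          linarith
        exact f5.trans (he' b (by rw [he]; linarith))
      -- levels
      have lv := lev2 hO hiR hN.j1 (i₂ := i) hi (j₂ := j) hj hk0 hkn
      rw [hlam k hk0 hkn, Nat.cast_sub hN.r1, Nat.cast_add, abs_le] at lv
      have eV : nat (D.g i j) V x k = nat (D.g i j) P x k -
          2 ^ D.g i j k * (eval x (V k) - eval x (P k)) := by
        unfold nat
        ring
      have eR : nat (gw (a₀ + (i - r') * z) (D.g (i - r') (j + r))) (atT (D.X ω 0) V) x k =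
          nat (D.g (i - r') (j + r)) V x k := nat_gw' _ _ _ _ _ hk0
      rcases hN.dic k hk0 hkn with hsl | hgr
      · -- slow
        have g1 := hx.slo k hsl hk
        have g2 : |nat (D.g i j) V x k| ≤ exp ((|b| + |c₁| + 1) * z) := by
          rw [eV]
          refine (abs_sub _ _).trans ?_
          rw [abs_mul, abs_of_pos (by positivity : (0 : ℝ) < 2 ^ D.g i j k)]
          exact le_trans (by linarith) (ex_add hzr)
        have g3 : |nat (D.g (i - r') (j + r)) V x k| ≤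
            exp (2 * C₁ * z) * exp ((|b| + |c₁| + 1) * z) := by
          have hp : (2 : ℝ) ^ D.g (i - r') (j + r) k ≤ exp (2 * C₁ * z) * 2 ^ D.g i j k := by
            refine pw_le ?_ (by positivity)
            have := mul_le_mul_of_nonneg_right (hN.s1 k hsl) hz0
            nlinarith [lv.1, lv.2]
          have e1 : |nat (D.g (i - r') (j + r)) V x k| =
              2 ^ D.g (i - r') (j + r) k * |x k - eval x (V k)| := by
            unfold nat
            rw [abs_mul, abs_of_pos (by positivity)]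
          have e2 : |nat (D.g i j) V x k| = 2 ^ D.g i j k * |x k - eval x (V k)| := by
            unfold nat
            rw [abs_mul, abs_of_pos (by positivity)]
          rw [e1]
          calc (2 : ℝ) ^ D.g (i - r') (j + r) k * |x k - eval x (V k)|
              ≤ exp (2 * C₁ * z) * 2 ^ D.g i j k * |x k - eval x (V k)| := by gcongr
            _ = exp (2 * C₁ * z) * |nat (D.g i j) V x k| := by rw [e2]; ring
            _ ≤ _ := by gcongr
        rw [abs_of_nonneg hb, abs_of_nonneg hc₁] at g2 g3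
        refine ⟨g1.trans (he' b (by rw [he]; linarith)), g2.trans (he' _ (by rw [he]; linarith)),
          ?_, ?_⟩
        · rw [eR]
          refine g3.trans ?_
          rw [← exp_add, show 2 * C₁ * (z : ℝ) + (b + c₁ + 1) * z = (2 * C₁ + (b + c₁ + 1)) * z by
            ring]
          exact he' _ (by rw [he]; linarith)
        · intro _ hgr
          have := hN.s2 k hgr
          have h5 := hN.s1 k hsl
          have hy : (y : ℝ) ≤ 0 := by linarith
          have hy0 : y = 0 := by exact_mod_cast le_antisymm hy (Nat.cast_nonneg y)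
          rw [hy0, zero_mul, pow_zero, div_one]
          exact g2.trans (he' _ (by rw [he]; linarith))
      · -- group
        have g0 := hx.grp k hgr hk
        have valR := (gR z _ _ _ hzr (tg_atT hF.tV _) (tg_atT
          ⟨hO.G_tri (i - r') (j + r) _, fun l _ => (hO.G_deg (i - r') (j + r) _ l).trans hK⟩ _)
          hVR k hkn x bxR).1
        rw [atT_ne _ _ hk0, atT_ne _ _ hk0, gw_ne _ _ hk0] at valR
        have g1 : |x k - eval x (V k)| ≤
            exp ((|b| + |c₂| + 1) * z) / 2 ^ D.g (i - r') (j + r) k := by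
          calc |x k - eval x (V k)|
              = |(x k - eval x (D.Ψ (i - r') (j + r) ω k)) +
                  (eval x (D.Ψ (i - r') (j + r) ω k) - eval x (V k))| := by ring_nf
            _ ≤ _ := abs_add_le _ _
            _ ≤ exp (b * z) / 2 ^ D.g (i - r') (j + r) k +
                exp (c₂ * z) / 2 ^ D.g (i - r') (j + r) k := add_le_add g0 valR
            _ = (exp (b * z) + exp (c₂ * z)) / 2 ^ D.g (i - r') (j + r) k := by ring
            _ ≤ _ := div_le_div_of_nonneg_right (ex_add hzr) (by positivity)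
        rw [abs_of_nonneg hb, abs_of_nonneg hc₂] at g1
        have hp : (2 : ℝ) ^ (D.g i j k + y * z) ≤
            exp (2 * C₁ * z) * 2 ^ D.g (i - r') (j + r) k := by
          refine pw_le ?_ (by positivity)
          push_cast
          have := mul_le_mul_of_nonneg_right (hN.s2 k hgr) hz0
          nlinarith [lv.1, lv.2]
        have g2 : |nat (D.g i j) V x k| ≤ exp ((2 * C₁ + (b + c₂ + 1)) * z) / 2 ^ (y * z) := by
          unfold nat
          rw [abs_mul, abs_of_pos (by positivity : (0 : ℝ) < 2 ^ D.g i j k),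
            le_div_iff₀ (by positivity)]
          calc (2 : ℝ) ^ D.g i j k * |x k - eval x (V k)| * 2 ^ (y * z)
              = 2 ^ (D.g i j k + y * z) * |x k - eval x (V k)| := by rw [pow_add]; ring
            _ ≤ exp (2 * C₁ * z) * 2 ^ D.g (i - r') (j + r) k *
                (exp ((b + c₂ + 1) * z) / 2 ^ D.g (i - r') (j + r) k) := by gcongr
            _ = exp (2 * C₁ * z) * exp ((b + c₂ + 1) * z) := by field_simp
            _ = _ := by rw [← exp_add]; ring_nf
        have g2' : |nat (D.g i j) V x k| ≤ exp ((2 * C₁ + (b + c₂ + 1)) * z) :=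
          g2.trans (div_le_self (exp_pos _).le (one_le_pow₀ (by norm_num)))
        have g3 : |nat (D.g i j) P x k| ≤ exp ((b + c₂ + 1 + 2 * C₁ + c₁ + 1) * z) := by
          have e1 : nat (D.g i j) P x k = nat (D.g i j) V x k +
              2 ^ D.g i j k * (eval x (V k) - eval x (P k)) := by
            unfold nat
            ring
          rw [e1]
          refine (abs_add_le _ _).trans ?_
          rw [abs_mul, abs_of_pos (by positivity : (0 : ℝ) < 2 ^ D.g i j k)]
          refine le_trans (add_le_add g2' valB) ((ex_add hzr).trans (ex_mono ?_ hzr))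
          rw [abs_of_nonneg (by positivity), abs_of_nonneg hc₁]
          linarith
        refine ⟨g3.trans (he' _ (by rw [he]; linarith)), g2'.trans (he' _ (by rw [he]; linarith)),
          ?_, fun _ _ => g2.trans (div_le_div_of_nonneg_right (he' _ (by rw [he]; linarith))
            (by positivity))⟩
        rw [eR]
        unfold nat
        rw [abs_mul, abs_of_pos (by positivity : (0 : ℝ) < 2 ^ D.g (i - r') (j + r) k)]
        rw [le_div_iff₀ (by positivity)] at g1
        refine le_trans (by linarith) (he' (b + c₂ + 1) (by rw [he]; linarith))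
  obtain ⟨c', h1, h⟩ := main (n + 1) le_rfl
  exact ⟨c', h1, h⟩

/-- **Two points near to the own sheet** with the same slow coordinates over `P`. -/
theorem near_two (n K : ℕ) (C C₁ b : ℝ) (hC : 0 ≤ C) (hC₁ : 0 ≤ C₁) (hb : 0 ≤ b) :
    ∃ c' : ℝ, 0 ≤ c' ∧
    ∀ (D : NDat2) (K₁ J a₀ w₀ z M : ℕ) (lam gam : ℕ → ℝ) (κ : ℝ) (q : D.Ω → ℝ),
    D.Ok2 n K₁ J a₀ w₀ z M lam gam κ C₁ q → K₁ ≤ K → 1 ≤ z →
    (∀ l, 1 ≤ l → l ≤ n → lam l = 1) → ∀ (i j r r' y : ℕ) (Sl Gr : ℕ → Prop),
    Num n M i j r r' y gam Sl Gr → ∀ ω, 0 < q ω → ∀ P V : ℕ → PN,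
    Frs D n K z i j r r' C P V ω → ∀ l ≤ n + 1, ∀ x x' : ℕ → ℝ,
    Near D a₀ z i j r r' Sl Gr P ω (exp (b * z)) l x →
    Near D a₀ z i j r r' Sl Gr P ω (exp (b * z)) l x' →
    (∀ k, Sl k → k < l → nat (D.g i j) P x k = nat (D.g i j) P x' k) →
    ∀ k < l, |nat (D.g i j) P x k - nat (D.g i j) P x' k| ≤
      exp (c' * z) * (1 / 2 ^ (y * z) + 2 ^ (w₀ + j * z) * |x 0 - x' 0|) := by
  obtain ⟨s₁, hs1, symm⟩ := sp_symm n K C hC
  obtain ⟨s₂, hs2, trans⟩ := sp_trans n K C s₁ hC (hC.trans hs1)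
  have hs₂ : 0 ≤ s₂ := hC.trans hs2
  obtain ⟨b₁, hb1, crd⟩ := near_crd n K C C₁ b hC hC₁ hb
  have hb₁ : 0 ≤ b₁ := hb.trans hb1
  obtain ⟨c₁, h1, lip⟩ := sp_lip n K s₂ b₁ hs₂ hb₁
  have main : ∀ m ≤ n + 1, ∃ c' : ℝ, 0 ≤ c' ∧
      ∀ (D : NDat2) (K₁ J a₀ w₀ z M : ℕ) (lam gam : ℕ → ℝ) (κ : ℝ) (q : D.Ω → ℝ),
      D.Ok2 n K₁ J a₀ w₀ z M lam gam κ C₁ q → K₁ ≤ K → 1 ≤ z →
      (∀ l, 1 ≤ l → l ≤ n → lam l = 1) → ∀ (i j r r' y : ℕ) (Sl Gr : ℕ → Prop),
      Num n M i j r r' y gam Sl Gr → ∀ ω, 0 < q ω → ∀ P V : ℕ → PN,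
      Frs D n K z i j r r' C P V ω → ∀ l ≤ m, ∀ x x' : ℕ → ℝ,
      Near D a₀ z i j r r' Sl Gr P ω (exp (b * z)) l x →
      Near D a₀ z i j r r' Sl Gr P ω (exp (b * z)) l x' →
      (∀ k, Sl k → k < l → nat (D.g i j) P x k = nat (D.g i j) P x' k) →
      ∀ k < l, |nat (D.g i j) P x k - nat (D.g i j) P x' k| ≤
        exp (c' * z) * (1 / 2 ^ (y * z) + 2 ^ (w₀ + j * z) * |x 0 - x' 0|) := by
    intro m
    induction m with
    | zero =>
      intro _
      refine ⟨0, le_rfl, ?_⟩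
      intro D K₁ J a₀ w₀ z M lam gam κ q hO hK hz hlam i j r r' y Sl Gr hN ω hω P V hF l hl x x'
        hx hx' hsl k hk
      omega
    | succ m ih =>
      intro hm
      obtain ⟨c, hc, h⟩ := ih (by omega)
      obtain ⟨e, he⟩ : ∃ e : ℝ, e = c + (b₁ + (c₁ + c) + 2) := ⟨_, rfl⟩
      refine ⟨e, by rw [he]; linarith, ?_⟩
      intro D K₁ J a₀ w₀ z M lam gam κ q hO hK hz hlam i j r r' y Sl Gr hN ω hω P V hF l hl x x'
        hx hx' hsl
      have hzr : (1 : ℝ) ≤ z := by exact_mod_cast hz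
      obtain ⟨ε, hε⟩ : ∃ ε : ℝ, ε = 1 / 2 ^ (y * z) + 2 ^ (w₀ + j * z) * |x 0 - x' 0| := ⟨_, rfl⟩
      have hε0 : 0 ≤ ε := by rw [hε]; positivity
      rw [← hε]
      have he' : ∀ t : ℝ, t ≤ e → exp (t * z) ≤ exp (e * z) := fun t ht => ex_mono ht hzr
      have prev : ∀ k < min l m, _ := h D K₁ J a₀ w₀ z M lam gam κ q hO hK hz hlam i j r r' y Sl Gr
        hN ω hω P V hF (min l m) (min_le_right _ _) x x' (hx.mono le_rfl (min_le_left _ _))
        (hx'.mono le_rfl (min_le_left _ _)) fun k h1 h2 => hsl k h1 (h2.trans_le (min_le_left _ _))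
      rw [← hε] at prev
      intro k hk
      rcases Nat.lt_or_ge k m with hkm | hkm
      · exact (prev k (lt_min hk hkm)).trans
          (mul_le_mul_of_nonneg_right (he' c (by rw [he]; linarith)) hε0)
      have hkm' : k = m := by omega
      have hkn : k ≤ n := by omega
      have hi := hN.i1
      have hj : j ≤ M := by
        have := hN.j1
        omega
      rcases Nat.eq_zero_or_pos k with hk0 | hk0
      · rw [hk0]
        have e1 : nat (D.g i j) P x 0 - nat (D.g i j) P x' 0 =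
            2 ^ (w₀ + j * z) * (x 0 - x' 0) := by
          have : eval x (P 0) = eval x' (P 0) :=
            Pool.SYS35.eval_congr (hF.tP.tri 0) fun i hi => absurd hi (Nat.not_lt_zero i)
          unfold nat
          rw [this, hO.g_zero]
          ring
        rw [e1, abs_mul, abs_of_pos (by positivity : (0 : ℝ) < 2 ^ (w₀ + j * z))]
        have e2 : (2 : ℝ) ^ (w₀ + j * z) * |x 0 - x' 0| ≤ ε := by
          rw [hε]
          have : (0 : ℝ) ≤ 1 / 2 ^ (y * z) := by positivity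
          linarith
        have e3 : (1 : ℝ) ≤ exp (e * z) := ex_one (by rw [he]; linarith) hzr
        nlinarith
      rcases hN.dic k hk0 hkn with hs | hgr
      · rw [hsl k hs hk, sub_self, abs_zero]
        positivity
      -- group
      have cx := crd D K₁ J a₀ w₀ z M lam gam κ q hO hK hz hlam i j r r' y Sl Gr hN ω hω P V hF l
        (by omega) x hx
      have cx' := crd D K₁ J a₀ w₀ z M lam gam κ q hO hK hz hlam i j r r' y Sl Gr hN ω hω P V hF l
        (by omega) x' hx'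
      have hΦ : Tg K n (D.Φ i j ω) := ⟨hO.P_tri i j _, fun l _ => (hO.P_deg i j _ l).trans hK⟩
      have hPV : Sp (D.g i j) P V n (exp (s₂ * z)) :=
        trans z _ _ _ _ hzr hF.tP hΦ hF.tV hF.P0 (symm z _ _ _ hzr hF.tV hΦ hF.V0)
      have hl := lip z _ _ _ hzr hF.tP hF.tV hPV k hkn x x' (fun k' hk' => (cx k' (hk'.trans hk)).1)
        (fun k' hk' => (cx' k' (hk'.trans hk)).1) (exp (c * z) * ε) (by positivity)
        (fun k' hk' => prev k' (lt_min (hk'.trans hk) (by omega)))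
      rw [le_div_iff₀ (by positivity), mul_comm] at hl
      have e1 : nat (D.g i j) P x k - nat (D.g i j) P x' k =
          (nat (D.g i j) V x k - nat (D.g i j) V x' k) + 2 ^ D.g i j k *
            ((eval x (V k) - eval x (P k)) - (eval x' (V k) - eval x' (P k))) := by
        unfold nat
        ring
      rw [e1]
      refine (abs_add_le _ _).trans ?_
      rw [abs_mul, abs_of_pos (by positivity : (0 : ℝ) < 2 ^ D.g i j k)]
      have f1 : |nat (D.g i j) V x k - nat (D.g i j) V x' k| ≤ 2 * exp (b₁ * z) * ε := by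
        refine (abs_sub _ _).trans ?_
        have a1 := (cx k hk).2.2.2 hk0 hgr
        have a2 := (cx' k hk).2.2.2 hk0 hgr
        have a3 : exp (b₁ * z) / 2 ^ (y * z) ≤ exp (b₁ * z) * ε := by
          rw [div_eq_mul_one_div]
          refine mul_le_mul_of_nonneg_left ?_ (exp_pos _).le
          rw [hε]
          have : (0 : ℝ) ≤ 2 ^ (w₀ + j * z) * |x 0 - x' 0| := by positivity
          linarith
        linarith
      have f2 : 2 * exp (b₁ * z) + exp (c₁ * z) * exp (c * z) ≤ exp (e * z) := by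
        rw [← exp_add, show c₁ * (z : ℝ) + c * z = (c₁ + c) * z by ring]
        have f3 : (2 : ℝ) ≤ exp (1 * z) := by
          have := Real.add_one_le_exp (1 * (z : ℝ))
          linarith
        have f4 : 2 * exp (b₁ * z) ≤ exp ((b₁ + 1) * z) := by
          calc 2 * exp (b₁ * z) ≤ exp (1 * z) * exp (b₁ * z) := by gcongr
            _ = _ := by rw [← exp_add]; ring_nf
        refine (add_le_add f4 le_rfl).trans ((ex_add hzr).trans (he' _ ?_))
        rw [abs_of_nonneg (by linarith), abs_of_nonneg (by linarith), he]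
        linarith
      calc |nat (D.g i j) V x k - nat (D.g i j) V x' k| + 2 ^ D.g i j k *
            |eval x (V k) - eval x (P k) - (eval x' (V k) - eval x' (P k))|
          ≤ 2 * exp (b₁ * z) * ε + exp (c₁ * z) * (exp (c * z) * ε) := add_le_add f1 hl
        _ = (2 * exp (b₁ * z) + exp (c₁ * z) * exp (c * z)) * ε := by ring
        _ ≤ _ := mul_le_mul_of_nonneg_right f2 hε0
  obtain ⟨c', h1, h⟩ := main (n + 1) le_rfl
  exact ⟨c', h1, h⟩

end Pool.P4
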