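import Pool.Agent.H52.P4.Chr

/-!
# The change of the chart, slow coordinates backwards
-/

set_option autoImplicit false

namespace Pool.P4

open Finset Real MvPolynomial
open Pool.Agent.H49.Ent Pool.Agent.H32.Dense Pool.STK Pool.STAT Pool.MIC.Frm Pool.FRM
open Pool.MIC.Fru (gw nat_gw nat_gw0 atT_tri atT_deg)

/-- **Slow coordinates over the closed frame**, from the ones over the visible frame. -/
theorem slo_conv (n K : ℕ) (C C₁ : ℝ) (hC : 0 ≤ C) (hC₁ : 0 ≤ C₁) :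
    ∃ c' : ℝ, 0 ≤ c' ∧
    ∀ (D : NDat2) (K₁ K' J a₀ w₀ z M i j r r' a y : ℕ) (lam gam : ℕ → ℝ) (κ : ℝ)
      (q : D.Ω → ℝ) (E : D.Ω → Prop) (P : D.Γ × D.Γ → ℕ → PN) (Sl Gr : ℕ → Prop),
      Fx D n K K₁ K' J a₀ w₀ z M i j r r' a y lam gam κ C₁ C q E P Sl Gr →
      exp (c' * z) ≤ 2 ^ (a * z) →
      ∀ ω ω', E ω → E ω' → bb D i j r ω = bb D i j r ω' → D.T ω = D.T ω' → ∀ σ : ℝ, 0 ≤ σ →
        (∀ k, Sl k → |zd D i j r a E P ω k - zd D i j r a E P ω' k| ≤ σ) →
        ∀ k, Sl k → |ze D i j r P ω k - ze D i j r P ω' k| ≤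
          exp (c' * z) * (σ + 1 / 2 ^ (y * z)) := by
  obtain ⟨c₀, h0, hR⟩ := rep_rly n K C C₁ C hC hC₁ hC
  have hn0 : (0 : ℝ) ≤ n := Nat.cast_nonneg n
  obtain ⟨e₁, he₁⟩ : ∃ e : ℝ, e = (n + 4) + c₀ + C := ⟨_, rfl⟩
  have he₁0 : 0 ≤ e₁ := by rw [he₁]; positivity
  obtain ⟨e, he⟩ : ∃ e : ℝ, e = c₀ + (n + 1) * e₁ := ⟨_, rfl⟩
  refine ⟨e, by rw [he]; positivity, ?_⟩
  intro D K₁ K' J a₀ w₀ z M i j r r' a y lam gam κ q E P Sl Gr hF haz ω ω' hω hω' hbb hT σ hσ hsl
  have hzr : (1 : ℝ) ≤ z := by exact_mod_cast hF.z1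
  have he' : ∀ t : ℝ, t ≤ e → exp (t * z) ≤ exp (e * z) := fun t ht => ex_mono ht hzr
  obtain ⟨-, hW⟩ := hR D K₁ K' J a₀ w₀ z M i j r r' a y lam gam κ q E P Sl Gr hF
    ((he' c₀ (by
      rw [he]
      have : 0 ≤ ((n : ℝ) + 1) * e₁ := by positivity
      linarith)).trans haz)
  have hj : j ≤ M := by
    have := hF.jM
    omega
  have hE1 : (1 : ℝ) ≤ exp (c₀ * z) := ex_one h0 hzr
  have hC1 : (1 : ℝ) ≤ exp (C * z) := ex_one hC hzr
  obtain ⟨hWt, hRω⟩ := hW ω hω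
  have hx0 : D.X ω 0 = D.X ω' 0 := X0_eq hF.ok hT
  have hrc : rcd D i j r a ω = rcd D i j r a ω' := rcd_det hF.ok hF.iM.le hj r a ω ω'
    (hF.fr ω hω).1 (hF.fr ω' hω').1 (by simp only [hbb, hT])
  obtain ⟨W, hWd⟩ : ∃ W, W = vfr D i j r a E P (rcd D i j r a ω) := ⟨_, rfl⟩
  obtain ⟨Q, hQ⟩ : ∃ Q, Q = P (bb D i j r ω) := ⟨_, rfl⟩
  obtain ⟨d, hd⟩ : ∃ d, d = gw (a₀ + i * z) (D.g i j) := ⟨_, rfl⟩
  have hQt : TriN Q := by
    rw [hQ]
    exact (hF.fr ω hω).2.2.tri
  have bx := bx_X hF hω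
  have bx' := bx_X hF hω'
  rw [← hx0, ← hbb] at bx'
  rw [← hWd] at hWt hRω
  rw [← hQ] at bx bx' hRω
  rw [← hd] at bx bx' hRω
  have hQa : TriN (atT (D.X ω 0) Q) := atT_tri hQt _
  have z1 : ∀ k, 1 ≤ k → ze D i j r P ω k = nat d (atT (D.X ω 0) Q) (D.X ω) k := fun k hk => by
    rw [hd, hQ, nat_gw' _ _ _ _ _ hk]
    rfl
  have z2 : ∀ k, 1 ≤ k → ze D i j r P ω' k = nat d (atT (D.X ω 0) Q) (D.X ω') k := fun k hk => by
    rw [hd, hQ, nat_gw' _ _ _ _ _ hk, hbb]
    rfl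
  have w1 : ∀ k, 1 ≤ k → zd D i j r a E P ω k = nat d (atT (D.X ω 0) W) (D.X ω) k :=
    fun k hk => by
      rw [hd, hWd, nat_gw' _ _ _ _ _ hk]
      rfl
  have w2 : ∀ k, 1 ≤ k → zd D i j r a E P ω' k = nat d (atT (D.X ω 0) W) (D.X ω') k :=
    fun k hk => by
      rw [hd, hWd, nat_gw' _ _ _ _ _ hk, hrc]
      rfl
  obtain ⟨A, hA⟩ : ∃ A : ℝ, A = exp (c₀ * z) := ⟨_, rfl⟩
  obtain ⟨B, hB⟩ : ∃ B : ℝ, B = exp (C * z) := ⟨_, rfl⟩
  obtain ⟨ε, hε⟩ : ∃ ε : ℝ, ε = σ + 1 / 2 ^ (y * z) := ⟨_, rfl⟩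
  have hy0 : (0 : ℝ) ≤ 1 / 2 ^ (y * z) := by positivity
  have hε0 : 0 ≤ ε := by rw [hε]; positivity
  have hσε : σ ≤ ε := by rw [hε]; linarith
  have hyε : 1 / 2 ^ (y * z) ≤ ε := by rw [hε]; linarith
  have hA1 : 1 ≤ A := by rw [hA]; exact hE1
  have hB1 : 1 ≤ B := by rw [hB]; exact hC1
  have hτ : exp (c₀ * z) / 2 ^ (a * z) ≤ A * ε := by
    have : exp (c₀ * z) / 2 ^ (a * z) ≤ exp (c₀ * z) * (1 / 2 ^ (y * z)) := by
      rw [mul_one_div]
      refine div_le_div_of_nonneg_left (exp_pos _).le (by positivity)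
        (pow_le_pow_right₀ (by norm_num) (Nat.mul_le_mul_right z hF.ya))
    rw [hA]
    exact this.trans (mul_le_mul_of_nonneg_left hyε (exp_pos _).le)
  rw [← hε]
  obtain ⟨N1, hN1⟩ : ∃ N1 : ℝ, N1 = n + 1 := ⟨_, rfl⟩
  have hN11 : 1 ≤ N1 := by rw [hN1]; linarith
  obtain ⟨Z, hZ⟩ : ∃ Z : ℝ, Z = 6 * N1 * (A * B) := ⟨_, rfl⟩
  have hAB : 1 ≤ A * B := one_le_mul_of_one_le_of_one_le hA1 hB1
  have hZ1 : 1 ≤ Z := by
    rw [hZ]
    nlinarith
  have key : ∀ N : ℕ, ∀ l, Sl l → l < N → |ze D i j r P ω l - ze D i j r P ω' l| ≤ Z ^ N * ε := by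
    intro N
    induction N with
    | zero => exact fun l _ h => absurd h (Nat.not_lt_zero _)
    | succ N ih =>
      intro l hl hlN
      have hl1 := hF.dic.s1 l hl
      have a1 := dif_change hRω (v := l) (by omega) (bx.mono (by omega) le_rfl)
        (bx'.mono (by omega) le_rfl)
      rw [← w1 l hl1.1, ← w2 l hl1.1, ← z1 l hl1.1, ← z2 l hl1.1] at a1
      have hZN : (1 : ℝ) ≤ Z ^ N := one_le_pow₀ hZ1
      have hb : ∀ k ∈ range l, |kap d (atT (D.X ω 0) Q) (atT (D.X ω 0) W) l k *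
          (nat d (atT (D.X ω 0) Q) (D.X ω) k - nat d (atT (D.X ω 0) Q) (D.X ω') k)| ≤
          A * (Z ^ N * ε) + A * ε * (2 * B) := by
        intro k hk
        rw [mem_range] at hk
        rcases Nat.eq_zero_or_pos k with hk0 | hk0
        · rw [hk0, nat_zero_eq hQa hx0, sub_self, mul_zero, abs_zero]
          positivity
        rw [abs_mul]
        rcases hF.num.dic k hk0 (by omega) with hs | hg
        · have b0 := ih k hs (by omega)
          rw [z1 k hk0, z2 k hk0] at b0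
          have b1 := mul_le_mul (hRω.bd l (by omega) k) b0 (abs_nonneg _) (exp_pos _).le
          rw [← hA] at b1
          have : 0 ≤ A * ε * (2 * B) := by positivity
          linarith
        · have b1 := hRω.sm l hl1.1 (by omega) k hk0 (by omega) (by
            have := hF.num.s1 l hl
            have := hF.num.s2 k hg
            linarith)
          have b2 : |nat d (atT (D.X ω 0) Q) (D.X ω) k - nat d (atT (D.X ω 0) Q) (D.X ω') k| ≤
              2 * B := by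
            refine (abs_sub _ _).trans ?_
            have := bx k (by omega)
            have := bx' k (by omega)
            rw [hB]
            linarith
          have b3 : exp (c₀ * z) / 2 ^ (y * z) ≤ A * ε := by
            rw [div_eq_mul_one_div, hA]
            exact mul_le_mul_of_nonneg_left hyε (exp_pos _).le
          have b4 := mul_le_mul (b1.trans b3) b2 (abs_nonneg _) (by positivity)
          have : 0 ≤ A * (Z ^ N * ε) := by positivity
          linarith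
      have a2 := (sum_bd _ _ hb).trans (mul_le_mul_of_nonneg_right (by
          rw [card_range, hN1]
          have : l ≤ n + 1 := by omega
          exact_mod_cast this : ((#(range l) : ℕ) : ℝ) ≤ N1) (by positivity))
      have a3 := (hsl l hl).trans hσε
      obtain ⟨s, hs⟩ : ∃ s : ℝ, s = ∑ k ∈ range l,
        kap d (atT (D.X ω 0) Q) (atT (D.X ω 0) W) l k *
        (nat d (atT (D.X ω 0) Q) (D.X ω) k - nat d (atT (D.X ω 0) Q) (D.X ω') k) := ⟨_, rfl⟩
      rw [← hs] at a1 a2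
      obtain ⟨v, hv⟩ : ∃ v, v = zd D i j r a E P ω l - zd D i j r a E P ω' l := ⟨_, rfl⟩
      obtain ⟨p, hp⟩ : ∃ p, p = ze D i j r P ω l - ze D i j r P ω' l := ⟨_, rfl⟩
      rw [← hv, ← hp] at a1
      rw [← hv] at a3
      rw [← hp]
      have e1 : p = v + s - (v - (p - s)) := by ring
      have e2 : |p| ≤ |v| + |s| + |v - (p - s)| := by
        conv_lhs => rw [e1]
        exact (abs_sub _ _).trans (add_le_add (abs_add_le _ _) le_rfl)
      have e3 : |p| ≤ ε + N1 * (A * (Z ^ N * ε) + A * ε * (2 * B)) + 2 * (A * ε) := by linarith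
      refine e3.trans ?_
      obtain ⟨Y, hY⟩ : ∃ Y : ℝ, Y = Z ^ N * ε := ⟨_, rfl⟩
      have hYε : ε ≤ Y := by rw [hY]; nlinarith
      have hY0 : 0 ≤ Y := hε0.trans hYε
      have eZ : Z ^ (N + 1) * ε = Y * Z := by
        rw [hY]
        ring
      rw [eZ, ← hY, hZ]
      have f1 : ε ≤ N1 * (A * B) * Y := by
        have : 1 ≤ N1 * (A * B) := one_le_mul_of_one_le_of_one_le hN11 hAB
        nlinarith
      have f2 : N1 * (A * Y) ≤ N1 * (A * B) * Y := by
        have h3 : A * Y ≤ A * B * Y := by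
          have : A ≤ A * B := by nlinarith
          exact mul_le_mul_of_nonneg_right this hY0
        calc N1 * (A * Y) ≤ N1 * (A * B * Y) := mul_le_mul_of_nonneg_left h3 (by linarith)
          _ = _ := by ring
      have f3 : N1 * (A * ε * (2 * B)) ≤ 2 * (N1 * (A * B) * Y) := by
        have : 0 ≤ N1 * (A * B) := by positivity
        calc N1 * (A * ε * (2 * B)) = 2 * (N1 * (A * B) * ε) := by ring
          _ ≤ 2 * (N1 * (A * B) * Y) := by
            have := mul_le_mul_of_nonneg_left hYε this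
            linarith
      have f4 : 2 * (A * ε) ≤ 2 * (N1 * (A * B) * Y) := by
        have h3 : A * ε ≤ A * Y := mul_le_mul_of_nonneg_left hYε (by linarith)
        have h4 : A * Y ≤ N1 * (A * Y) := by
          have : 0 ≤ A * Y := by positivity
          nlinarith
        linarith
      have e5 : Y * (6 * N1 * (A * B)) = 6 * (N1 * (A * B) * Y) := by ring
      have e6 : N1 * (A * Y + A * ε * (2 * B)) = N1 * (A * Y) + N1 * (A * ε * (2 * B)) := by ring
      rw [e5, e6]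
      linarith
  intro k hk
  refine (key (n + 1) k hk (by
    have := (hF.dic.s1 k hk).2
    omega)).trans ?_
  refine mul_le_mul_of_nonneg_right ?_ hε0
  have g1 : Z ≤ exp (e₁ * z) := by
    have h6 : (6 : ℝ) ≤ exp (3 * z) := by
      have h2 : (2 : ℝ) ≤ exp (1 * z) := by
        have := Real.add_one_le_exp (1 * (z : ℝ))
        linarith
      calc (6 : ℝ) ≤ 2 * 2 * 2 := by norm_num
        _ ≤ exp (1 * z) * exp (1 * z) * exp (1 * z) := by gcongr
        _ = _ := by rw [← exp_add, ← exp_add]; ring_nf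
    have h3 : N1 ≤ exp ((n + 1) * z) := by
      have := Real.add_one_le_exp (((n : ℝ) + 1) * z)
      rw [hN1]
      nlinarith
    rw [hZ, hA, hB, he₁]
    calc 6 * N1 * (exp (c₀ * z) * exp (C * z)) ≤
        exp (3 * z) * exp ((n + 1) * z) * (exp (c₀ * z) * exp (C * z)) := by gcongr
      _ = _ := by
        rw [← exp_add, ← exp_add, ← exp_add]
        ring_nf
  calc Z ^ (n + 1) ≤ exp (e₁ * z) ^ (n + 1) := pow_le_pow_left₀ (by linarith) g1 _
    _ = exp ((n + 1) * e₁ * z) := by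
        rw [← Real.exp_nat_mul]
        congr 1
        push_cast
        ring
    _ ≤ _ := he' _ (by rw [he]; linarith)

end Pool.P4
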