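import Pool.Agent.H52.P4.Chr

/-!
# Samples with the same exact point

`hat D E ω`: one fixed sample of `E` with the same exact point. Two samples with the same visible
labels at a deeper radius have near coordinates over the visible frame.
-/

set_option autoImplicit false

namespace Pool.P4

open Finset Real MvPolynomial
open Pool.Agent.H49.Ent Pool.Agent.H32.Dense Pool.STK Pool.STAT Pool.MIC.Frm Pool.FRM
open Pool.MIC.Fru (gw nat_gw nat_gw0 atT_tri atT_deg)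

open Classical in
/-- One sample of `E` with the exact point `x`. -/
noncomputable def hatx (D : NDat2) (E : D.Ω → Prop) (x : D.Ξ) (ω₀ : D.Ω) : D.Ω :=
  if h : ∃ ω, E ω ∧ D.pt ω = x then h.choose else ω₀

/-- One fixed sample of `E` with the same exact point. -/
noncomputable def hat (D : NDat2) (E : D.Ω → Prop) (ω : D.Ω) : D.Ω := hatx D E (D.pt ω) ω

theorem hat_E {D : NDat2} {E : D.Ω → Prop} {ω : D.Ω} (hω : E ω) :
    E (hat D E ω) ∧ D.pt (hat D E ω) = D.pt ω := by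
  have h : ∃ ω', E ω' ∧ D.pt ω' = D.pt ω := ⟨ω, hω, rfl⟩
  unfold hat hatx
  rw [dif_pos h]
  exact h.choose_spec

theorem hatx_eq {D : NDat2} {E : D.Ω → Prop} {x : D.Ξ} {ω₀ ω₁ : D.Ω}
    (h : ∃ ω, E ω ∧ D.pt ω = x) : hatx D E x ω₀ = hatx D E x ω₁ := by
  unfold hatx
  rw [dif_pos h, dif_pos h]

theorem hat_eq {D : NDat2} {E : D.Ω → Prop} {ω ω' : D.Ω} (hω : E ω) (h : D.pt ω = D.pt ω') :
    hat D E ω = hat D E ω' := by
  unfold hat
  rw [← h]
  exact hatx_eq ⟨ω, hω, rfl⟩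

/-- The time, the record and the deeper labels of the fixed sample. -/
theorem hat_rcd {D : NDat2} {n K J a₀ w₀ z M : ℕ} {lam gam : ℕ → ℝ} {κ C₁ : ℝ} {q : D.Ω → ℝ}
    (hO : D.Ok2 n K J a₀ w₀ z M lam gam κ C₁ q) {i j : ℕ} (hi : i ≤ M) (hj : j ≤ M) (r a : ℕ)
    {E : D.Ω → Prop} (hE : ∀ ω, E ω → 0 < q ω) {ω : D.Ω} (hω : E ω) :
    rcd D i j r a (hat D E ω) = rcd D i j r a ω ∧
      ∀ i' ≤ M, ∀ j' ≤ M, D.s i' j' (hat D E ω) = D.s i' j' ω := by
  obtain ⟨h1, h2⟩ := hat_E hω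
  exact ⟨rcd_pt hO hi hj r a _ _ (hE _ h1) (hE _ hω) h2,
    fun i' hi' j' hj' => hO.s_pt i' hi' j' hj' _ _ (hE _ h1) (hE _ hω) h2⟩

/-- **Two samples with the same record and the same label at `(i + U, j)`.** -/
theorem zd_two (n K : ℕ) (C C₁ : ℝ) (hC : 0 ≤ C) (hC₁ : 0 ≤ C₁) :
    ∃ c' : ℝ, 0 ≤ c' ∧
    ∀ (D : NDat2) (K₁ K' J a₀ w₀ z M i j r r' a y : ℕ) (lam gam : ℕ → ℝ) (κ : ℝ)
      (q : D.Ω → ℝ) (E : D.Ω → Prop) (P : D.Γ × D.Γ → ℕ → PN) (Sl Gr : ℕ → Prop),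
      Fx D n K K₁ K' J a₀ w₀ z M i j r r' a y lam gam κ C₁ C q E P Sl Gr →
      ∀ U, i + U < M → ∀ ω ω', E ω → E ω' → rcd D i j r a ω = rcd D i j r a ω' →
        D.s (i + U) j ω = D.s (i + U) j ω' → ∀ l, 1 ≤ l → l ≤ n →
        |zd D i j r a E P ω l - zd D i j r a E P ω' l| ≤ exp (c' * z) / 2 ^ (U * z) := by
  obtain ⟨c₁, h1, hr⟩ := rad_two n K C hC
  obtain ⟨c₂, hc₂⟩ : ∃ c₂ : ℝ, c₂ = c₁ + 2 * C₁ := ⟨_, rfl⟩
  have h2 : 0 ≤ c₂ := by rw [hc₂]; linarith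
  obtain ⟨c₃, h3, lip⟩ := sp_lip n K c₁ c₂ h1 h2
  refine ⟨c₂ + c₃ + 1, by linarith, ?_⟩
  intro D K₁ K' J a₀ w₀ z M i j r r' a y lam gam κ q E P Sl Gr hF U hU ω ω' hω hω' hrc hsU l hl1 hln
  have hzr : (1 : ℝ) ≤ z := by exact_mod_cast hF.z1
  have hO := hF.ok
  have hj : j ≤ M := by
    have := hF.jM
    omega
  obtain ⟨V, hV1, hV2, hV3, hV4⟩ := (hF.fr ω hω).2.1.fc
  obtain ⟨V', hV1', hV2', hV3', hV4'⟩ := (hF.fr ω' hω').2.1.fc
  obtain ⟨ω₂, hω₂, hrc₂, hW⟩ := vfr_ex i j r a P hω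
  have tV : Tg K n V := ⟨hV1, fun l _ => (hV2 l).trans hF.k2⟩
  have tV' : Tg K n V' := ⟨hV1', fun l _ => (hV2' l).trans hF.k2⟩
  have hΦ : ∀ i j ω, Tg K n (D.Φ i j ω) := fun i j ω =>
    ⟨hO.P_tri i j _, fun l _ => (hO.P_deg i j _ l).trans hF.k1⟩
  have hT : D.T ω = D.T ω' := congrArg Prod.fst hrc
  have hx0 : D.X ω 0 = D.X ω' 0 := X0_eq hO hT
  have hT₂ : D.T ω₂ = D.T ω := congrArg Prod.fst hrc₂
  have hs₂ : D.s i j ω₂ = D.s i j ω := congrArg (fun p => p.2.1) hrc₂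
  -- the deeper place
  have e1 := hr D K₁ J a₀ w₀ z M lam gam κ C₁ q hO hF.k1 hF.z1 (i + U) hU.le j hj ω' ω
    (hF.fr ω' hω').1 (hF.fr ω hω).1 hT.symm hsU.symm V' V tV' tV
    (sp_of_near tV' (hΦ _ _ _) fun l hl => hV4' (i + U) hU j (by
      have := hF.jM
      omega) l hl)
    (sp_of_near tV (hΦ _ _ _) fun l hl => hV4 (i + U) hU j (by
      have := hF.jM
      omega) l hl)
  have bx' : ∀ m, m ≤ n + 1 → Bx (gw (a₀ + (i + U) * z) (D.g (i + U) j)) (atT (D.X ω' 0) V') m 1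
      (D.X ω') := by
    intro m hm k hk
    rcases Nat.eq_zero_or_pos k with hk0 | hk0
    · rw [hk0, nat_gw0, sub_self, mul_zero, abs_zero]
      exact zero_le_one
    · rw [nat_gw' _ _ _ _ _ hk0]
      unfold nat
      rw [hV3' k (by omega), sub_self, mul_zero, abs_zero]
      exact zero_le_one
  obtain ⟨δ, hδ⟩ : ∃ δ : ℝ, δ = exp (c₂ * z) / 2 ^ (U * z) := ⟨_, rfl⟩
  have hδ0 : 0 ≤ δ := by rw [hδ]; positivity
  have hVX' : ∀ k, 1 ≤ k → k ≤ n → |nat (D.g i j) V (D.X ω') k| ≤ δ := by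
    intro k hk1 hkn
    have f1 := e1 k hkn (D.X ω') (bx' k (by omega))
    rw [atT_ne _ _ hk1, atT_ne _ _ hk1, hV3' k hkn, gw_ne _ _ hk1] at f1
    unfold nat
    rw [abs_mul, abs_of_pos (by positivity : (0 : ℝ) < 2 ^ D.g i j k), abs_sub_comm, hδ,
      le_div_iff₀ (by positivity)]
    have lv := lev2 hO hU.le hj (i₂ := i) hF.iM.le (j₂ := j) hj hk1 hkn
    rw [hF.lam1 k hk1 hkn, abs_le] at lv
    push_cast at lv
    have hp : (2 : ℝ) ^ (D.g i j k + U * z) ≤ exp (2 * C₁ * z) * 2 ^ D.g (i + U) j k := by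
      refine pw_le ?_ (by positivity)
      push_cast
      nlinarith [lv.1, lv.2]
    calc (2 : ℝ) ^ D.g i j k * |eval (D.X ω') (V k) - D.X ω' k| * 2 ^ (U * z)
        = 2 ^ (D.g i j k + U * z) * |eval (D.X ω') (V k) - D.X ω' k| := by
          rw [pow_add]
          ring
      _ ≤ exp (2 * C₁ * z) * 2 ^ D.g (i + U) j k * (exp (c₁ * z) / 2 ^ D.g (i + U) j k) := by
          gcongr
      _ = exp (2 * C₁ * z) * exp (c₁ * z) := by field_simp
      _ = _ := by rw [← exp_add, hc₂]; ring_nf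
  have hδ1 : δ ≤ exp (c₂ * z) := by
    rw [hδ]
    exact div_le_self (exp_pos _).le (one_le_pow₀ (by norm_num))
  -- the visible frame
  have hP₂ := (hF.fr ω₂ hω₂).2.2
  have e2 := hr D K₁ J a₀ w₀ z M lam gam κ C₁ q hO hF.k1 hF.z1 i hF.iM.le j hj ω ω₂
    (hF.fr ω hω).1 (hF.fr ω₂ hω₂).1 hT₂.symm hs₂.symm V (P (bb D i j r ω₂)) tV
    (frp_tg hP₂ hF.k2)
    (sp_of_near tV (hΦ _ _ _) fun l hl => hV4 i hF.iM j (by
      have := hF.jM
      omega) l hl) (frp_sp hO hF.k1 hP₂ hF.k2 le_rfl).1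
  rw [← hW] at e2
  obtain ⟨W, hWd⟩ : ∃ W, W = vfr D i j r a E P (rcd D i j r a ω) := ⟨_, rfl⟩
  rw [← hWd] at e2
  have tW : Tg K n W := by
    rw [hWd, hW]
    exact frp_tg hP₂ hF.k2
  have bX : ∀ m, m ≤ n + 1 → Bx (gw (a₀ + i * z) (D.g i j)) (atT (D.X ω 0) V) m (exp (c₂ * z))
      (D.X ω) := by
    intro m hm k hk
    rcases Nat.eq_zero_or_pos k with hk0 | hk0
    · rw [hk0, nat_gw0, sub_self, mul_zero, abs_zero]
      exact (exp_pos _).le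
    · rw [nat_gw' _ _ _ _ _ hk0]
      unfold nat
      rw [hV3 k (by omega), sub_self, mul_zero, abs_zero]
      exact (exp_pos _).le
  have bX' : ∀ m, m ≤ n + 1 → Bx (gw (a₀ + i * z) (D.g i j)) (atT (D.X ω 0) V) m (exp (c₂ * z))
      (D.X ω') := by
    intro m hm k hk
    rcases Nat.eq_zero_or_pos k with hk0 | hk0
    · rw [hk0, nat_gw0, hx0, sub_self, mul_zero, abs_zero]
      exact (exp_pos _).le
    · rw [nat_gw' _ _ _ _ _ hk0]
      exact (hVX' k hk0 (by omega)).trans hδ1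
  have key := lip z _ _ _ hzr (tg_atT tV _) (tg_atT tW _) e2 l hln (D.X ω) (D.X ω')
    (bX l (by omega)) (bX' l (by omega)) δ hδ0 (fun k hk => by
      rcases Nat.eq_zero_or_pos k with hk0 | hk0
      · rw [hk0, nat_gw0, nat_gw0, hx0, sub_self, abs_zero]
        exact hδ0
      · rw [nat_gw' _ _ _ _ _ hk0, nat_gw' _ _ _ _ _ hk0]
        have e : nat (D.g i j) V (D.X ω) k = 0 := by
          unfold nat
          rw [hV3 k (by omega), sub_self, mul_zero]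
        rw [e, zero_sub, abs_neg]
        exact hVX' k hk0 (by omega))
  rw [atT_ne _ _ hl1, atT_ne _ _ hl1, gw_ne _ _ hl1, le_div_iff₀ (by positivity), mul_comm] at key
  have e3 : zd D i j r a E P ω l - zd D i j r a E P ω' l =
      -nat (D.g i j) V (D.X ω') l - 2 ^ D.g i j l * ((eval (D.X ω) (W l) - eval (D.X ω) (V l)) -
        (eval (D.X ω') (W l) - eval (D.X ω') (V l))) := by
    have e : nat (D.g i j) V (D.X ω) l = 0 := by
      unfold nat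
      rw [hV3 l hln, sub_self, mul_zero]
    unfold zd
    rw [← hrc, ← hWd, nat_change (D.g i j) V W (D.X ω), nat_change (D.g i j) V W (D.X ω'), e]
    ring
  rw [e3]
  refine (abs_sub _ _).trans ?_
  rw [abs_neg, abs_mul, abs_of_pos (by positivity : (0 : ℝ) < 2 ^ D.g i j l)]
  refine (add_le_add (hVX' l hl1 hln) key).trans ?_
  have h5 : 1 + exp (c₃ * z) ≤ exp ((c₃ + 1) * z) := by
    have g1 : (1 : ℝ) ≤ exp (c₃ * z) := ex_one h3 hzr
    have g2 : (2 : ℝ) ≤ exp (1 * z) := by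
      have := Real.add_one_le_exp (1 * (z : ℝ))
      linarith
    calc 1 + exp (c₃ * z) ≤ 2 * exp (c₃ * z) := by linarith
      _ ≤ exp (1 * z) * exp (c₃ * z) := by gcongr
      _ = _ := by rw [← exp_add]; ring_nf
  calc δ + exp (c₃ * z) * δ = (1 + exp (c₃ * z)) * δ := by ring
    _ ≤ exp ((c₃ + 1) * z) * δ := mul_le_mul_of_nonneg_right h5 hδ0
    _ = _ := by
        rw [hδ, ← mul_div_assoc, ← exp_add]
        ring_nf

end Pool.P4
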