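import Mathlib

/-!
# The label of a cell: the numbers
-/

set_option autoImplicit false

namespace Pool.P4

open Real

/-- **The numbers** of `lab_cell`: sizes `2 ^ (w₁ X)`, errors `2 ^ (- x₂ X)`, `X = B U z`. -/
theorem num_cell (c' w₁ x₂ : ℝ) (A : ℕ) (h₁ : w₁ < 1) (h₂ : 0 < x₂) :
    ∃ U₀ : ℕ, ∀ (B U z y X : ℕ) (ε δ : ℝ), U₀ ≤ U → 1 ≤ B → 1 ≤ z → X = B * U * z →
      (2 : ℝ) ^ X ≤ 2 ^ (y * z) → ε ≤ (2 : ℝ) ^ (-((w₁ + x₂) * X)) →
      δ ≤ (2 : ℝ) ^ (-(x₂ * X)) →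
      exp (c' * z) * ((2 : ℝ) ^ (w₁ * X) * (1 / 2 ^ (y * z) + 1 / 2 ^ X + ε) + δ) *
        2 ^ (A * z) ≤ 1 := by
  obtain ⟨θ, hθ⟩ : ∃ θ : ℝ, θ = min (1 - w₁) x₂ := ⟨_, rfl⟩
  have hθ0 : 0 < θ := by rw [hθ]; exact lt_min (by linarith) h₂
  have hθ1 : θ ≤ 1 - w₁ := by rw [hθ]; exact min_le_left _ _
  have hθ2 : θ ≤ x₂ := by rw [hθ]; exact min_le_right _ _
  have hlog : 0 < Real.log 2 := Real.log_pos (by norm_num)
  refine ⟨⌈(c' + A + 3) / (θ * Real.log 2)⌉₊, ?_⟩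
  intro B U z y X ε δ hU hB hz hX hyX hε hδ
  have hzr : (1 : ℝ) ≤ z := by exact_mod_cast hz
  have hBr : (1 : ℝ) ≤ B := by exact_mod_cast hB
  have hX0 : (0 : ℝ) ≤ X := Nat.cast_nonneg X
  have two : ∀ x : ℝ, (2 : ℝ) ^ x = exp (Real.log 2 * x) := fun x => by
    rw [Real.rpow_def_of_pos (by norm_num)]
  have hT : ∀ x : ℝ, x ≤ -(θ * X) → (2 : ℝ) ^ x ≤ (2 : ℝ) ^ (-(θ * X)) := fun x hx =>
    Real.rpow_le_rpow_of_exponent_le (by norm_num) hx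
  have hm : ∀ a b : ℝ, θ ≤ a → b = -(a * X) → (2 : ℝ) ^ b ≤ (2 : ℝ) ^ (-(θ * X)) := by
    intro a b ha hb
    refine hT b ?_
    rw [hb]
    have := mul_le_mul_of_nonneg_right ha hX0
    linarith
  have e1 : (1 : ℝ) / 2 ^ X = (2 : ℝ) ^ (-(X : ℝ)) := by
    rw [Real.rpow_neg (by norm_num), Real.rpow_natCast, one_div]
  have k1 : (2 : ℝ) ^ (w₁ * X) * (1 / 2 ^ X) ≤ (2 : ℝ) ^ (-(θ * X)) := by
    rw [e1, ← Real.rpow_add (by norm_num)]
    exact hm (1 - w₁) _ hθ1 (by ring)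
  have hN : 0 < (2 : ℝ) ^ (w₁ * X) := Real.rpow_pos_of_pos (by norm_num) _
  have k2 : (2 : ℝ) ^ (w₁ * X) * (1 / 2 ^ (y * z)) ≤ (2 : ℝ) ^ (-(θ * X)) :=
    (mul_le_mul_of_nonneg_left (one_div_le_one_div_of_le (by positivity) hyX) hN.le).trans k1
  have k3 : (2 : ℝ) ^ (w₁ * X) * ε ≤ (2 : ℝ) ^ (-(θ * X)) := by
    refine (mul_le_mul_of_nonneg_left hε hN.le).trans ?_
    rw [← Real.rpow_add (by norm_num)]
    exact hm x₂ _ hθ2 (by ring)
  have k4 : δ ≤ (2 : ℝ) ^ (-(θ * X)) := hδ.trans (hm x₂ _ hθ2 rfl)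
  have k5 : (2 : ℝ) ^ (w₁ * X) * (1 / 2 ^ (y * z) + 1 / 2 ^ X + ε) + δ ≤
      4 * (2 : ℝ) ^ (-(θ * X)) := by
    rw [mul_add, mul_add]
    linarith
  have k6 : (2 : ℝ) ^ (A * z) ≤ exp (A * z) := by
    have h1 : (2 : ℝ) ^ (A * z) = exp (((A * z : ℕ) : ℝ) * Real.log 2) := by
      rw [exp_nat_mul, exp_log (by norm_num)]
    rw [h1]
    refine exp_le_exp.2 ?_
    push_cast
    have h2 : Real.log 2 ≤ 1 := by linarith [Real.log_two_lt_d9]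
    have h3 : (0 : ℝ) ≤ A * z := by positivity
    nlinarith
  have hT0 : 0 < (2 : ℝ) ^ (-(θ * X)) := Real.rpow_pos_of_pos (by norm_num) _
  have k7 : (4 : ℝ) ≤ exp (3 * z) := by
    have := Real.add_one_le_exp (3 * (z : ℝ))
    linarith
  have hUr : (c' + A + 3) / (θ * Real.log 2) ≤ U := (Nat.le_ceil _).trans (by exact_mod_cast hU)
  rw [div_le_iff₀ (by positivity)] at hUr
  have k8 : (c' + A + 3) * z ≤ Real.log 2 * (θ * X) := by
    have h1 : (X : ℝ) = B * U * z := by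
      rw [hX]
      push_cast
      ring
    rw [h1]
    have h2 : (c' + A + 3) * z ≤ U * (θ * Real.log 2) * z :=
      mul_le_mul_of_nonneg_right hUr (by linarith)
    have h3 : (U : ℝ) * (θ * Real.log 2) * z ≤ B * (U * (θ * Real.log 2) * z) :=
      le_mul_of_one_le_left (by positivity) hBr
    linarith
  calc exp (c' * z) * ((2 : ℝ) ^ (w₁ * X) * (1 / 2 ^ (y * z) + 1 / 2 ^ X + ε) + δ) *
        2 ^ (A * z)
      ≤ exp (c' * z) * (4 * (2 : ℝ) ^ (-(θ * X))) * exp (A * z) := by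
        refine mul_le_mul (mul_le_mul_of_nonneg_left k5 (exp_pos _).le) k6 (by positivity)
          (by positivity)
    _ ≤ exp (c' * z) * (exp (3 * z) * (2 : ℝ) ^ (-(θ * X))) * exp (A * z) := by
        refine mul_le_mul_of_nonneg_right (mul_le_mul_of_nonneg_left
          (mul_le_mul_of_nonneg_right k7 hT0.le) (exp_pos _).le) (exp_pos _).le
    _ = exp ((c' + A + 3) * z - Real.log 2 * (θ * X)) := by
        rw [two, show (c' + A + 3) * z - Real.log 2 * (θ * X) =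
          c' * z + (3 * z + Real.log 2 * (-(θ * X))) + A * z by ring, exp_add, exp_add, exp_add]
    _ ≤ 1 := by
        rw [exp_le_one_iff]
        linarith

end Pool.P4
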