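import Pool.Agent.H52.P4.Lam

/-!
# Two frames: transversal directions and the radius of the time

`MM`: the matrix of the change of the frame in the group. `tra_one`: the functional of a label in
the directions of the group is the visible covector. `et`: the functionals of two samples at the
exact time. `rt`: the radius of the time.
-/

set_option autoImplicit false

namespace Pool.P4

open Finset Real MvPolynomial
open Pool.Agent.H49.Ent Pool.Agent.H32.Dense Pool.STK Pool.STAT Pool.MIC.Frm Pool.FRM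
open Pool.MIC.Fru (gw nat_gw nat_gw0 atT_tri atT_deg)

/-- The matrix of the change of the frame `P` to the frame `W`. -/
noncomputable def MM (d : ℕ → ℕ) (P W : ℕ → PN) (v u : ℕ) : ℝ :=
  (if v = u then 1 else 0) - kap d P W v u

theorem kap_zero {d : ℕ → ℕ} {P W : ℕ → PN} (hP : TriN P) (hW : TriN W) {l k : ℕ} (h : l ≤ k) :
    kap d P W l k = 0 := by
  have hv : (chr P (W l - P l)).vars ⊆ range l := chr_vars hP (AdxRow.vars_sub_le (hW l) (hP l))
  have h1 : Finsupp.single k 1 ∉ (chr P (W l - P l)).support := by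
    intro hs
    have h2 : k ∈ (Finsupp.single k 1 : ℕ →₀ ℕ).support := by
      rw [Finsupp.mem_support_iff, Finsupp.single_eq_same]
      exact one_ne_zero
    have := Pool.SYS35.vars_of_mem hv hs h2
    omega
  unfold kap
  rw [notMem_support_iff.1 h1, mul_zero]

theorem nat_zero_eq {d : ℕ → ℕ} {P : ℕ → PN} (hP : TriN P) {x x' : ℕ → ℝ} (h : x 0 = x' 0) :
    nat d P x 0 = nat d P x' 0 := by
  unfold nat
  rw [h, Pool.SYS35.eval_congr (hP 0) (b := x) (b' := x')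
    fun i hi => absurd hi (Nat.not_lt_zero i)]

theorem nat_change (d : ℕ → ℕ) (P W : ℕ → PN) (x : ℕ → ℝ) (l : ℕ) :
    nat d W x l = nat d P x l - 2 ^ d l * (eval x (W l) - eval x (P l)) := by
  unfold nat
  ring

section

variable {n y z r m : ℕ} {gam : ℕ → ℝ} {d : ℕ → ℕ} {P W : ℕ → PN} {B E τ : ℝ}
  {Sl Gr : ℕ → Prop} {x x' : ℕ → ℝ}

open Classical in
/-- The linear part, split into the group and the slow coordinates. -/
theorem kap_split (hP : TriN P) (hW : TriN W)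
    (dic : ∀ l, 1 ≤ l → l ≤ n → Sl l ∨ Gr l) (hm : m ≤ n) (h0 : x 0 = x' 0) {A : ℝ}
    (hA0 : 0 ≤ A) {v : ℕ}
    (hA : ∀ k, Sl k → k < m + 1 → |kap d P W v k * (nat d P x k - nat d P x' k)| ≤ A)
    (hv : v < m + 1) :
    |∑ k ∈ range v, kap d P W v k * (nat d P x k - nat d P x' k) -
      ∑ u ∈ (range (m + 1)).filter Gr, kap d P W v u * (nat d P x u - nat d P x' u)| ≤
      (m + 1) * A := by
  obtain ⟨f, hf⟩ : ∃ f : ℕ → ℝ, f = fun k => kap d P W v k * (nat d P x k - nat d P x' k) :=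
    ⟨_, rfl⟩
  have e1 : ∑ k ∈ range v, kap d P W v k * (nat d P x k - nat d P x' k) =
      ∑ k ∈ range (m + 1), f k := by
    rw [hf]
    refine Finset.sum_subset (Finset.range_mono hv.le) fun k _ hk' => ?_
    rw [mem_range] at hk'
    rw [kap_zero hP hW (by omega), zero_mul]
  have e2 : ∑ u ∈ (range (m + 1)).filter Gr, kap d P W v u * (nat d P x u - nat d P x' u) =
      ∑ u ∈ (range (m + 1)).filter Gr, f u := by rw [hf]
  rw [e1, e2, ← Finset.sum_filter_add_sum_filter_not (range (m + 1)) Gr f, add_sub_cancel_left]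
  have h1 : ∀ k ∈ (range (m + 1)).filter (fun k => ¬ Gr k), |f k| ≤ A := by
    intro k hk
    rw [mem_filter, mem_range] at hk
    rcases Nat.eq_zero_or_pos k with hk0 | hk0
    · rw [hf]
      simp only
      rw [hk0, nat_zero_eq hP h0, sub_self, mul_zero, abs_zero]
      exact hA0
    · rcases dic k hk0 (by omega) with h | h
      · rw [hf]
        exact hA k h hk.1
      · exact absurd h hk.2
  refine (sum_bd _ _ h1).trans (mul_le_mul_of_nonneg_right ?_ hA0)
  have : #((range (m + 1)).filter (fun k => ¬ Gr k)) ≤ m + 1 :=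
    (Finset.card_filter_le _ _).trans (card_range _).le
  exact_mod_cast this

/-- The difference of the coordinates over `W`, from the one over `P`. -/
theorem dif_change (hR : Rly n y z r gam d P W B E τ) {v : ℕ} (hv : v ≤ n) (hx : Bx d P v B x)
    (hx' : Bx d P v B x') :
    |(nat d W x v - nat d W x' v) - ((nat d P x v - nat d P x' v) -
      ∑ k ∈ range v, kap d P W v k * (nat d P x k - nat d P x' k))| ≤ 2 * τ := by
  rw [← kaf_sub, nat_change d P W x, nat_change d P W x']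
  have a1 := hR.aff v hv x hx
  have a2 := hR.aff v hv x' hx'
  have e : nat d P x v - 2 ^ d v * (eval x (W v) - eval x (P v)) -
      (nat d P x' v - 2 ^ d v * (eval x' (W v) - eval x' (P v))) -
      (nat d P x v - nat d P x' v - (kaf d P W v x - kaf d P W v x')) =
      (2 ^ d v * (eval x' (W v) - eval x' (P v)) - kaf d P W v x') -
        (2 ^ d v * (eval x (W v) - eval x (P v)) - kaf d P W v x) := by ring
  rw [e]
  refine (abs_sub _ _).trans ?_
  linarith

open Classical in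
/-- **Transversal directions**: the covector `nv` over `P` is the covector `nD` over `W`. -/
theorem tra_one (hR : Rly n y z r gam d P W B E τ) (hP : TriN P) (hW : TriN W)
    (dic : ∀ l, 1 ≤ l → l ≤ n → Sl l ∨ Gr l) (hm : m ≤ n) (h0 : x 0 = x' 0)
    (hx : Bx d P (m + 1) B x) (hx' : Bx d P (m + 1) B x') {σ : ℝ} (hσ0 : 0 ≤ σ) (hE : 0 ≤ E)
    (hσ : ∀ k, Sl k → k < m + 1 → |nat d P x k - nat d P x' k| ≤ σ)
    {N₀ δ : ℝ} (hN : 0 ≤ N₀) (hδ : 0 ≤ δ) {nD nv : ℕ → ℝ} (hnD : ∀ v, |nD v| ≤ N₀)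
    (hc3 : ∀ u, Gr u → u < m + 1 →
      |∑ v ∈ (range (m + 1)).filter Gr, nD v * MM d P W v u - nv u| ≤ δ) :
    |∑ u ∈ (range (m + 1)).filter Gr, nv u * (nat d P x u - nat d P x' u) -
      ∑ v ∈ (range (m + 1)).filter Gr, nD v * (nat d W x v - nat d W x' v)| ≤
      (m + 1) * (2 * B * δ + N₀ * (2 * τ + (m + 1) * (E * σ))) := by
  obtain ⟨G, hG⟩ : ∃ G : Finset ℕ, G = (range (m + 1)).filter Gr := ⟨_, rfl⟩
  obtain ⟨p, hp⟩ : ∃ p : ℕ → ℝ, p = fun u => nat d P x u - nat d P x' u := ⟨_, rfl⟩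
  obtain ⟨ω, hω⟩ : ∃ ω : ℕ → ℝ, ω = fun u => nat d W x u - nat d W x' u := ⟨_, rfl⟩
  have hGm : ∀ u ∈ G, u < m + 1 ∧ Gr u := fun u hu => by
    rw [hG, mem_filter, mem_range] at hu
    exact hu
  have hp' : ∀ u, nat d P x u - nat d P x' u = p u := fun u => by rw [hp]
  have hω' : ∀ u, nat d W x u - nat d W x' u = ω u := fun u => by rw [hω]
  simp only [hp', hω'] at hσ ⊢
  rw [← hG] at hc3 ⊢
  have hpB : ∀ u ∈ G, |p u| ≤ 2 * B := by
    intro u hu
    rw [← hp']
    refine (abs_sub _ _).trans ?_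
    have := hx u (hGm u hu).1
    have := hx' u (hGm u hu).1
    linarith
  -- the coordinates over `W`
  have h1 : ∀ v ∈ G, |ω v - ∑ u ∈ G, MM d P W v u * p u| ≤ 2 * τ + (m + 1) * (E * σ) := by
    intro v hv
    obtain ⟨hvm, hvG⟩ := hGm v hv
    have a1 := dif_change hR (v := v) (by omega) (hx.mono (by omega) le_rfl)
      (hx'.mono (by omega) le_rfl)
    have a2 := kap_split (d := d) (P := P) (W := W) (Sl := Sl) (Gr := Gr) hP hW dic hm h0
      (A := E * σ) (by positivity) (v := v) (fun k hk hkm => by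
        rw [abs_mul]
        refine mul_le_mul (hR.bd v (by omega) k) ?_ (abs_nonneg _) hE
        rw [hp']
        exact hσ k hk hkm) hvm
    simp only [hp', hω'] at a1 a2
    rw [← hG] at a2
    have e : ∑ u ∈ G, MM d P W v u * p u = p v - ∑ u ∈ G, kap d P W v u * p u := by
      unfold MM
      simp only [sub_mul, Finset.sum_sub_distrib, ite_mul, one_mul, zero_mul]
      rw [Finset.sum_ite_eq, if_pos hv]
    rw [e]
    have e2 : ω v - (p v - ∑ u ∈ G, kap d P W v u * p u) =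
        (ω v - (p v - ∑ k ∈ range v, kap d P W v k * p k)) -
          (∑ k ∈ range v, kap d P W v k * p k - ∑ u ∈ G, kap d P W v u * p u) := by ring
    rw [e2]
    exact (abs_sub _ _).trans (add_le_add a1 a2)
  have id : ∑ u ∈ G, nv u * p u - ∑ v ∈ G, nD v * ω v =
      -(∑ u ∈ G, (∑ v ∈ G, nD v * MM d P W v u - nv u) * p u) -
        ∑ v ∈ G, nD v * (ω v - ∑ u ∈ G, MM d P W v u * p u) := by
    have f1 : ∑ u ∈ G, (∑ v ∈ G, nD v * MM d P W v u) * p u =
        ∑ v ∈ G, nD v * ∑ u ∈ G, MM d P W v u * p u := by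
      simp only [Finset.sum_mul, Finset.mul_sum]
      rw [Finset.sum_comm]
      refine Finset.sum_congr rfl fun u _ => Finset.sum_congr rfl fun k _ => ?_
      ring
    simp only [sub_mul, Finset.sum_sub_distrib, mul_sub]
    rw [f1]
    ring
  rw [id]
  have b1 : |∑ u ∈ G, (∑ v ∈ G, nD v * MM d P W v u - nv u) * p u| ≤ #G * (δ * (2 * B)) :=
    sum_bd _ _ fun u hu => by
      rw [abs_mul]
      exact mul_le_mul (hc3 u (hGm u hu).2 (hGm u hu).1) (hpB u hu) (abs_nonneg _) hδ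
  have b2 : |∑ v ∈ G, nD v * (ω v - ∑ u ∈ G, MM d P W v u * p u)| ≤
      #G * (N₀ * (2 * τ + (m + 1) * (E * σ))) := sum_bd _ _ fun v hv => by
    rw [abs_mul]
    exact mul_le_mul (hnD v) (h1 v hv) (abs_nonneg _) hN
  have hcard : (#G : ℝ) ≤ m + 1 := by
    have : #G ≤ m + 1 := by
      rw [hG]
      exact (Finset.card_filter_le _ _).trans (card_range _).le
    exact_mod_cast this
  have c1 : 0 ≤ δ * (2 * B) + N₀ * (2 * τ + (m + 1) * (E * σ)) := by
    rcases Finset.eq_empty_or_nonempty G with hG0 | ⟨u, hu⟩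
    · have hB0 : 0 ≤ B := (abs_nonneg _).trans (hx 0 (Nat.succ_pos m))
      have hτ : 0 ≤ 2 * τ := by
        have := (abs_nonneg _).trans (hR.aff 0 (Nat.zero_le n) x
          (fun k hk => absurd hk (Nat.not_lt_zero k)))
        linarith
      positivity
    · have hB0 : 0 ≤ B := (abs_nonneg _).trans (hx 0 (Nat.succ_pos m))
      have := (abs_nonneg _).trans (h1 u hu)
      positivity
  calc |-(∑ u ∈ G, (∑ v ∈ G, nD v * MM d P W v u - nv u) * p u) -
        ∑ v ∈ G, nD v * (ω v - ∑ u ∈ G, MM d P W v u * p u)|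
      ≤ |-(∑ u ∈ G, (∑ v ∈ G, nD v * MM d P W v u - nv u) * p u)| +
        |∑ v ∈ G, nD v * (ω v - ∑ u ∈ G, MM d P W v u * p u)| := abs_sub _ _
    _ ≤ #G * (δ * (2 * B)) + #G * (N₀ * (2 * τ + (m + 1) * (E * σ))) := by
        rw [abs_neg]
        exact add_le_add b1 b2
    _ = #G * (δ * (2 * B) + N₀ * (2 * τ + (m + 1) * (E * σ))) := by ring
    _ ≤ (m + 1) * (δ * (2 * B) + N₀ * (2 * τ + (m + 1) * (E * σ))) :=
        mul_le_mul_of_nonneg_right hcard c1
    _ = _ := by ring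

/-- **Slow coordinates** over the frame of the other sample. -/
theorem slow_dif (hR : Rly n y z r gam d P W B E τ) (hP : TriN P) (hW : TriN W)
    (hD : Dic n Sl Gr) (dic : ∀ l, 1 ≤ l → l ≤ n → Sl l ∨ Gr l) {r' : ℝ}
    (hs : ∀ l, Sl l → gam l * r ≤ r') (hg : ∀ l, Gr l → r' + y ≤ gam l * r) (hm : m ≤ n)
    (h0 : x 0 = x' 0) (hx : Bx d P (m + 1) B x) (hx' : Bx d P (m + 1) B x') (hB : 0 ≤ B)
    (hE : 0 ≤ E) (hsl : ∀ k, Sl k → k < m + 1 → nat d P x k = nat d P x' k) :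
    ∀ l, Sl l → l < m + 1 → |nat d W x l - nat d W x' l| ≤
      2 * τ + (m + 1) * (E / 2 ^ (y * z) * (2 * B)) := by
  classical
  intro l hl hlm
  have hl1 := hD.s1 l hl
  have a1 := dif_change hR (v := l) (by omega) (hx.mono (by omega) le_rfl)
    (hx'.mono (by omega) le_rfl)
  rw [hsl l hl hlm, sub_self, zero_sub] at a1
  have a2 := kap_split (d := d) (P := P) (W := W) (Sl := Sl) (Gr := Gr) hP hW dic hm h0
    (A := 0) le_rfl (v := l) (fun k hk hkm => by
      rw [hsl k hk hkm, sub_self, mul_zero, abs_zero]) hlm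
  rw [mul_zero] at a2
  have a3 := abs_nonpos_iff.1 a2
  have a4 : ∑ k ∈ range l, kap d P W l k * (nat d P x k - nat d P x' k) =
      ∑ u ∈ (range (m + 1)).filter Gr, kap d P W l u * (nat d P x u - nat d P x' u) := by
    linarith
  rw [a4] at a1
  have a5 : |∑ u ∈ (range (m + 1)).filter Gr, kap d P W l u * (nat d P x u - nat d P x' u)| ≤
      #((range (m + 1)).filter Gr) * (E / 2 ^ (y * z) * (2 * B)) := sum_bd _ _ fun u hu => by
    rw [mem_filter, mem_range] at hu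
    have hu1 := hD.g1 u hu.2
    rw [abs_mul]
    refine mul_le_mul (hR.sm l hl1.1 (by omega) u hu1.1 hu1.2 ?_) ?_ (abs_nonneg _) (by positivity)
    · have := hs l hl
      have := hg u hu.2
      linarith
    · refine (abs_sub _ _).trans ?_
      have := hx u hu.1
      have := hx' u hu.1
      linarith
  have hcard : (#((range (m + 1)).filter Gr) : ℝ) ≤ m + 1 := by
    have : #((range (m + 1)).filter Gr) ≤ m + 1 :=
      (Finset.card_filter_le _ _).trans (card_range _).le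
    exact_mod_cast this
  have a6 : (#((range (m + 1)).filter Gr) : ℝ) * (E / 2 ^ (y * z) * (2 * B)) ≤
      (m + 1) * (E / 2 ^ (y * z) * (2 * B)) := mul_le_mul_of_nonneg_right hcard (by positivity)
  obtain ⟨s, hs'⟩ : ∃ s : ℝ, s = ∑ u ∈ (range (m + 1)).filter Gr, kap d P W l u *
    (nat d P x u - nat d P x' u) := ⟨_, rfl⟩
  rw [← hs'] at a1 a5
  calc |nat d W x l - nat d W x' l| = |(nat d W x l - nat d W x' l - -s) + -s| := by ring_nf
    _ ≤ |nat d W x l - nat d W x' l - -s| + |-s| := abs_add_le _ _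
    _ ≤ 2 * τ + |s| := by rw [abs_neg]; exact add_le_add a1 le_rfl
    _ ≤ _ := by linarith

end

open Classical in
/-- The functional with the levels of the radius. -/
theorem lam_gw {n : ℕ} {Sl Gr : ℕ → Prop} (hD : Dic n Sl Gr) (a : ℕ) (t : ℝ) (g : ℕ → ℕ)
    (P : ℕ → PN) (m w : ℕ) (t₀ : ℝ) (nv e0 e1 : ℕ → ℝ) (x : ℕ → ℝ) :
    Lam (gw a g) (atT t P) Sl Gr m w t₀ nv e0 e1 x = Lam g P Sl Gr m w t₀ nv e0 e1 x := by
  unfold Lam
  congr 1
  · refine Finset.sum_congr rfl fun u hu => ?_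
    rw [mem_filter] at hu
    rw [nat_gw' _ _ _ _ _ (hD.g1 u hu.2).1]
  · refine Finset.sum_congr rfl fun u hu => ?_
    rw [mem_filter] at hu
    rw [nat_gw' _ _ _ _ _ (hD.s1 u hu.2).1]

open Classical in
/-- The difference of the functional at two points with the same time. -/
theorem lam_sub (g : ℕ → ℕ) (P : ℕ → PN) (Sl Gr : ℕ → Prop) (m w : ℕ) (t₀ : ℝ)
    (nv e0 e1 : ℕ → ℝ) {x x' : ℕ → ℝ} (h0 : x 0 = x' 0) :
    Lam g P Sl Gr m w t₀ nv e0 e1 x - Lam g P Sl Gr m w t₀ nv e0 e1 x' =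
      ∑ u ∈ (range (m + 1)).filter Gr, nv u * (nat g P x u - nat g P x' u) -
      ∑ k ∈ (range m).filter Sl, (e0 k + e1 k * (2 ^ w * (x 0 - t₀))) *
        (nat g P x k - nat g P x' k) := by
  unfold Lam
  rw [h0]
  simp only [mul_sub, Finset.sum_sub_distrib]
  ring

open Classical in
/-- **The exact time**: `P`, `P'` the frames of two samples, `W` the visible frame. -/
theorem et {n y z r m w : ℕ} {gam : ℕ → ℝ} {d : ℕ → ℕ} {P P' W : ℕ → PN} {B B' E τ : ℝ}
    {Sl Gr : ℕ → Prop} {x x' : ℕ → ℝ} (hR : Rly n y z r gam d P W B E τ)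
    (hR' : Rly n y z r gam d P' W B' E τ) (hRR : Rly n y z r gam d P P' B E τ)
    (hP : TriN P) (hP' : TriN P') (hW : TriN W)
    (hD : Dic n Sl Gr) (dic : ∀ l, 1 ≤ l → l ≤ n → Sl l ∨ Gr l) {r' : ℝ}
    (hs : ∀ l, Sl l → gam l * r ≤ r') (hg : ∀ l, Gr l → r' + y ≤ gam l * r) (hm : m ≤ n)
    (h0 : x 0 = x' 0) (hx : Bx d P (m + 1) B x) (hx' : Bx d P (m + 1) B x')
    (hy : Bx d P' (m + 1) B' x) (hy' : Bx d P' (m + 1) B' x') (hB : 0 ≤ B) (hE : 1 ≤ E)
    (hτ : 0 ≤ τ) (hsl : ∀ k, Sl k → k < m + 1 → nat d P x k = nat d P x' k)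
    {N₀ δ t₀ t₀' : ℝ} (hN : 0 ≤ N₀) (hδ : 0 ≤ δ) {nD nv nv' e0 e0' e1 e1' : ℕ → ℝ}
    (hnD : ∀ v, |nD v| ≤ N₀)
    (he : ∀ k, Sl k → k < m → |e0' k + e1' k * (2 ^ w * (x 0 - t₀'))| ≤ N₀)
    (hc3 : ∀ u, Gr u → u < m + 1 →
      |∑ v ∈ (range (m + 1)).filter Gr, nD v * MM d P W v u - nv u| ≤ δ)
    (hc3' : ∀ u, Gr u → u < m + 1 →
      |∑ v ∈ (range (m + 1)).filter Gr, nD v * MM d P' W v u - nv' u| ≤ δ) :
    |(Lam d P' Sl Gr m w t₀' nv' e0' e1' x - Lam d P' Sl Gr m w t₀' nv' e0' e1' x') -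
      (Lam d P Sl Gr m w t₀ nv e0 e1 x - Lam d P Sl Gr m w t₀ nv e0 e1 x')| ≤
      (m + 1) * (2 * (B + B') * δ + 3 * N₀ * (2 * τ + (m + 1) * (E * (2 * τ + (m + 1) *
        (E / 2 ^ (y * z) * (2 * B)))))) := by
  obtain ⟨σ, hσ⟩ : ∃ σ : ℝ, σ = 2 * τ + (m + 1) * (E / 2 ^ (y * z) * (2 * B)) := ⟨_, rfl⟩
  have hE0 : 0 ≤ E := by linarith
  have hσ0 : 0 ≤ σ := by rw [hσ]; positivity
  have sd := slow_dif hRR hP hP' hD dic hs hg hm h0 hx hx' hB hE0 hsl
  rw [← hσ] at sd ⊢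
  have t1 := tra_one hR hP hW dic hm h0 hx hx' (σ := 0) le_rfl hE0 (fun k h1 h2 => by
    rw [hsl k h1 h2, sub_self, abs_zero]) hN hδ hnD hc3
  have t2 := tra_one hR' hP' hW dic hm h0 hy hy' hσ0 hE0 sd hN hδ hnD hc3'
  rw [lam_sub d P' Sl Gr m w t₀' nv' e0' e1' h0, lam_sub d P Sl Gr m w t₀ nv e0 e1 h0]
  have z1 : ∑ k ∈ (range m).filter Sl, (e0 k + e1 k * (2 ^ w * (x 0 - t₀))) *
      (nat d P x k - nat d P x' k) = 0 := by
    refine Finset.sum_eq_zero fun k hk => ?_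
    rw [mem_filter, mem_range] at hk
    rw [hsl k hk.2 (by omega), sub_self, mul_zero]
  have z2 : |∑ k ∈ (range m).filter Sl, (e0' k + e1' k * (2 ^ w * (x 0 - t₀'))) *
      (nat d P' x k - nat d P' x' k)| ≤ (m + 1) * (N₀ * σ) := by
    refine (sum_bd _ _ fun k hk => ?_).trans (mul_le_mul_of_nonneg_right ?_ (by positivity))
    · rw [mem_filter, mem_range] at hk
      rw [abs_mul]
      exact mul_le_mul (he k hk.2 hk.1) (sd k hk.2 (by omega)) (abs_nonneg _) hN
    · have : #((range m).filter Sl) ≤ m + 1 :=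
        (Finset.card_filter_le _ _).trans ((card_range _).le.trans (Nat.le_succ m))
      exact_mod_cast this
  rw [z1, sub_zero]
  obtain ⟨A, hA⟩ : ∃ A : ℝ, A = ∑ u ∈ (range (m + 1)).filter Gr,
    nv u * (nat d P x u - nat d P x' u) := ⟨_, rfl⟩
  obtain ⟨A', hA'⟩ : ∃ A' : ℝ, A' = ∑ u ∈ (range (m + 1)).filter Gr,
    nv' u * (nat d P' x u - nat d P' x' u) := ⟨_, rfl⟩
  obtain ⟨V, hV⟩ : ∃ V : ℝ, V = ∑ v ∈ (range (m + 1)).filter Gr,
    nD v * (nat d W x v - nat d W x' v) := ⟨_, rfl⟩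
  obtain ⟨Z, hZ⟩ : ∃ Z : ℝ, Z = ∑ k ∈ (range m).filter Sl,
    (e0' k + e1' k * (2 ^ w * (x 0 - t₀'))) * (nat d P' x k - nat d P' x' k) := ⟨_, rfl⟩
  rw [← hA, ← hV] at t1
  rw [← hA', ← hV] at t2
  rw [← hZ] at z2
  rw [← hA, ← hA', ← hZ]
  have hm0 : (0 : ℝ) ≤ m := Nat.cast_nonneg m
  have q1 : |A' - Z - A| ≤ |A' - V| + |A - V| + |Z| := by
    have e : A' - Z - A = (A' - V) - (A - V) - Z := by ring
    rw [e]
    exact (abs_sub _ _).trans (add_le_add (abs_sub _ _) le_rfl)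
  refine q1.trans ?_
  have q2 : (m + 1) * (N₀ * σ) ≤ (m + 1) * (N₀ * (2 * τ + (m + 1) * (E * σ))) := by
    refine mul_le_mul_of_nonneg_left (mul_le_mul_of_nonneg_left ?_ hN) (by linarith)
    have s1 : σ ≤ E * σ := by nlinarith
    have s2 : E * σ ≤ (m + 1) * (E * σ) := by
      have : 0 ≤ E * σ := by positivity
      nlinarith
    linarith
  have q3 : (m + 1) * (2 * B * δ + N₀ * (2 * τ + (m + 1) * (E * 0))) ≤
      (m + 1) * (2 * B * δ + N₀ * (2 * τ + (m + 1) * (E * σ))) := by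
    refine mul_le_mul_of_nonneg_left (add_le_add le_rfl (mul_le_mul_of_nonneg_left ?_ hN))
      (by linarith)
    have : 0 ≤ (m + 1) * (E * σ) := by positivity
    linarith
  nlinarith [t1, t2, z2, q2, q3]

end Pool.P4
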