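import Pool.Agent.H52.P4.Rcd
import Pool.Agent.H36.LBL.Cov

/-!
# The change of the chart, from the closed frame to the visible frame

`zd`: the coordinates of the exact point over the visible frame. For two samples with the same
closed contexts and the same time: the group coordinates over the visible frame are the linear
image of the ones over the closed frame, if the slow coordinates are near; the slow coordinates
over the visible frame are near.
-/

set_option autoImplicit false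

namespace Pool.P4

open Finset Real MvPolynomial
open Pool.Agent.H49.Ent Pool.Agent.H32.Dense Pool.STK Pool.STAT Pool.MIC.Frm Pool.FRM
open Pool.MIC.Fru (gw nat_gw nat_gw0 atT_tri atT_deg)
open Pool.LBL (Uni)

/-! ### Unipotent matrices -/

/-- The inverse of a unipotent matrix is bounded. -/
theorem uni_inv {c : ℕ} {M : Matrix (Fin c) (Fin c) ℝ} (h : Uni M) {G : ℝ} (hG : 0 ≤ G)
    (hM : ∀ i j, |M i j| ≤ G) (i j : Fin c) : |M⁻¹ i j| ≤ (1 + c * G) ^ c := by
  have hdet : IsUnit M.det := by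
    rw [h.det]
    exact isUnit_one
  have hmul : M * M⁻¹ = 1 := Matrix.mul_nonsing_inv _ hdet
  have h1 : (1 : ℝ) ≤ 1 + c * G := by
    have : 0 ≤ (c : ℝ) * G := by positivity
    linarith
  have key : ∀ N : ℕ, ∀ i : Fin c, i.1 < N → |M⁻¹ i j| ≤ (1 + c * G) ^ N := by
    intro N
    induction N with
    | zero => exact fun i hi => absurd hi (Nat.not_lt_zero _)
    | succ N ih =>
      intro i hi
      have e1 : ∑ k, M i k * M⁻¹ k j = (1 : Matrix (Fin c) (Fin c) ℝ) i j := by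
        rw [← Matrix.mul_apply, hmul]
      have e2 : ∑ k, M i k * M⁻¹ k j = M⁻¹ i j + ∑ k ∈ univ.erase i, M i k * M⁻¹ k j := by
        rw [← Finset.add_sum_erase _ _ (mem_univ i), h.one, one_mul]
      have e3 : |∑ k ∈ univ.erase i, M i k * M⁻¹ k j| ≤ c * (G * (1 + c * G) ^ N) := by
        refine (Finset.abs_sum_le_sum_abs _ _).trans ?_
        have f1 : ∀ k ∈ univ.erase i, |M i k * M⁻¹ k j| ≤ G * (1 + c * G) ^ N := by
          intro k hk
          have hne : k ≠ i := (Finset.mem_erase.1 hk).1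
          rcases lt_or_gt_of_ne hne with h2 | h2
          · rw [abs_mul]
            exact mul_le_mul (hM i k) (ih k (by have : k.1 < i.1 := h2; omega)) (abs_nonneg _) hG
          · rw [h.zero i k h2, zero_mul, abs_zero]
            positivity
        refine (Finset.sum_le_sum f1).trans ?_
        rw [Finset.sum_const, nsmul_eq_mul]
        refine mul_le_mul_of_nonneg_right ?_ (by positivity)
        have : #(univ.erase i) ≤ c := (Finset.card_le_univ _).trans (Fintype.card_fin c).le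
        exact_mod_cast this
      have e4 : |(1 : Matrix (Fin c) (Fin c) ℝ) i j| ≤ 1 := by
        rw [Matrix.one_apply]
        split_ifs
        · rw [abs_one]
        · rw [abs_zero]
          exact zero_le_one
      have e5 : M⁻¹ i j = (1 : Matrix (Fin c) (Fin c) ℝ) i j -
          ∑ k ∈ univ.erase i, M i k * M⁻¹ k j := by
        rw [← e1, e2]
        ring
      rw [e5]
      refine (abs_sub _ _).trans ((add_le_add e4 e3).trans ?_)
      have f2 : (1 : ℝ) ≤ (1 + c * G) ^ N := one_le_pow₀ h1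
      rw [pow_succ]
      nlinarith
  exact key c i i.2

/-! ### The place -/

/-- **The data of a place**: frames and numbers. -/
structure Fx (D : NDat2) (n K K₁ K' J a₀ w₀ z M i j r r' a y : ℕ) (lam gam : ℕ → ℝ)
    (κ C₁ C : ℝ) (q : D.Ω → ℝ) (E : D.Ω → Prop) (P : D.Γ × D.Γ → ℕ → PN)
    (Sl Gr : ℕ → Prop) : Prop where
  ok : D.Ok2 n K₁ J a₀ w₀ z M lam gam κ C₁ q
  k1 : K₁ ≤ K
  k2 : K' ≤ K
  z1 : 1 ≤ z
  lam1 : ∀ l, 1 ≤ l → l ≤ n → lam l = 1
  num : Num n M i j r r' y gam Sl Gr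
  iM : i < M
  jM : j + r < M
  ai : a ≤ i
  rj : r ≤ j
  ya : y ≤ a
  dic : Dic n Sl Gr
  fr : ∀ ω, E ω → 0 < q ω ∧ GoodS D n K' w₀ z M C ω ∧ FrP D n K' z i j r C (P (bb D i j r ω)) ω
  bz : ∀ ω, E ω → ∀ l, 1 ≤ l → l ≤ n → |ze D i j r P ω l| ≤ exp (C * z)

/-- The coordinates of the exact point over the visible frame. -/
noncomputable def zd (D : NDat2) (i j r a : ℕ) (E : D.Ω → Prop) (P : D.Γ × D.Γ → ℕ → PN)
    (ω : D.Ω) (l : ℕ) : ℝ :=
  nat (D.g i j) (vfr D i j r a E P (rcd D i j r a ω)) (D.X ω) l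

/-- The change of the chart, from the closed frame `P β` to the visible frame of the record. -/
noncomputable def cM (D : NDat2) (J a₀ z i j r a : ℕ) (E : D.Ω → Prop) (P : D.Γ × D.Γ → ℕ → PN)
    (β : D.Γ × D.Γ) (σ : ℕ × (D.S × (D.S × D.S))) (v u : ℕ) : ℝ :=
  MM (gw (a₀ + i * z) (D.g i j)) (atT ((σ.1 : ℝ) / 2 ^ J) (P β))
    (atT ((σ.1 : ℝ) / 2 ^ J) (vfr D i j r a E P σ)) v u

section

variable {D : NDat2} {n K K₁ K' J a₀ w₀ z M i j r r' a y : ℕ} {lam gam : ℕ → ℝ} {κ C₁ C : ℝ}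
  {q : D.Ω → ℝ} {E : D.Ω → Prop} {P : D.Γ × D.Γ → ℕ → PN} {Sl Gr : ℕ → Prop}

/-- Two samples with the same time. -/
theorem X0_eq (hO : D.Ok2 n K₁ J a₀ w₀ z M lam gam κ C₁ q) {ω ω' : D.Ω} (h : D.T ω = D.T ω') :
    D.X ω 0 = D.X ω' 0 := by
  rw [hO.X_zero, hO.X_zero, h]

/-- The box of the exact point. -/
theorem bx_X (hF : Fx D n K K₁ K' J a₀ w₀ z M i j r r' a y lam gam κ C₁ C q E P Sl Gr)
    {ω : D.Ω} (hω : E ω) : Bx (gw (a₀ + i * z) (D.g i j)) (atT (D.X ω 0) (P (bb D i j r ω)))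
      (n + 1) (exp (C * z)) (D.X ω) := by
  intro k hk
  rcases Nat.eq_zero_or_pos k with hk0 | hk0
  · rw [hk0, nat_gw0, sub_self, mul_zero, abs_zero]
    exact (exp_pos _).le
  · rw [nat_gw' _ _ _ _ _ hk0]
    exact hF.bz ω hω k hk0 (by omega)

/-- A representative of the record, and the relation. -/
theorem rep_rly (n K : ℕ) (C C₁ b : ℝ) (hC : 0 ≤ C) (hC₁ : 0 ≤ C₁) (hb : 0 ≤ b) :
    ∃ c' : ℝ, 0 ≤ c' ∧
    ∀ (D : NDat2) (K₁ K' J a₀ w₀ z M i j r r' a y : ℕ) (lam gam : ℕ → ℝ) (κ : ℝ)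
      (q : D.Ω → ℝ) (E : D.Ω → Prop) (P : D.Γ × D.Γ → ℕ → PN) (Sl Gr : ℕ → Prop),
      Fx D n K K₁ K' J a₀ w₀ z M i j r r' a y lam gam κ C₁ C q E P Sl Gr →
      exp (c' * z) ≤ 2 ^ (a * z) →
      (∀ ω ω', E ω → E ω' → rcd D i j r a ω = rcd D i j r a ω' →
        Rly n y z r gam (gw (a₀ + i * z) (D.g i j)) (atT (D.X ω 0) (P (bb D i j r ω)))
          (atT (D.X ω 0) (P (bb D i j r ω'))) (exp (b * z)) (exp (c' * z))
          (exp (c' * z) / 2 ^ (a * z))) ∧
      (∀ ω, E ω → TriN (vfr D i j r a E P (rcd D i j r a ω)) ∧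
        Rly n y z r gam (gw (a₀ + i * z) (D.g i j)) (atT (D.X ω 0) (P (bb D i j r ω)))
          (atT (D.X ω 0) (vfr D i j r a E P (rcd D i j r a ω))) (exp (b * z)) (exp (c' * z))
          (exp (c' * z) / 2 ^ (a * z))) := by
  obtain ⟨c', h0, h⟩ := rly_rcd n K C C₁ b hC hC₁ hb
  refine ⟨c', h0, ?_⟩
  intro D K₁ K' J a₀ w₀ z M i j r r' a y lam gam κ q E P Sl Gr hF haz
  have hj : j ≤ M := by
    have := hF.jM
    omega
  have key : ∀ ω ω', E ω → E ω' → rcd D i j r a ω = rcd D i j r a ω' →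
      Rly n y z r gam (gw (a₀ + i * z) (D.g i j)) (atT (D.X ω 0) (P (bb D i j r ω)))
          (atT (D.X ω 0) (P (bb D i j r ω'))) (exp (b * z)) (exp (c' * z))
          (exp (c' * z) / 2 ^ (a * z)) := fun ω ω' hω hω' hr =>
    h D K₁ K' J a₀ w₀ z M lam gam κ q hF.ok hF.k1 hF.k2 hF.z1 hF.lam1 i hF.iM.le j hj a hF.ai r
      hF.rj y haz ω ω' (hF.fr ω hω).1 (hF.fr ω' hω').1 hr _ _ (hF.fr ω hω).2.2 (hF.fr ω' hω').2.2
  refine ⟨key, fun ω hω => ?_⟩
  obtain ⟨ω', h1, h2, h3⟩ := vfr_ex i j r a P hω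
  rw [h3]
  exact ⟨(hF.fr ω' h1).2.2.tri, key ω ω' hω h1 h2.symm⟩

open Classical in
/-- **The change of the chart.** -/
theorem chr_dif (n K : ℕ) (C C₁ : ℝ) (hC : 0 ≤ C) (hC₁ : 0 ≤ C₁) :
    ∃ c' : ℝ, 0 ≤ c' ∧
    ∀ (D : NDat2) (K₁ K' J a₀ w₀ z M i j r r' a y : ℕ) (lam gam : ℕ → ℝ) (κ : ℝ)
      (q : D.Ω → ℝ) (E : D.Ω → Prop) (P : D.Γ × D.Γ → ℕ → PN) (Sl Gr : ℕ → Prop),
      Fx D n K K₁ K' J a₀ w₀ z M i j r r' a y lam gam κ C₁ C q E P Sl Gr →
      exp (c' * z) ≤ 2 ^ (a * z) →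
      (∀ ω, E ω → ∀ v ≤ n, ∀ u, |cM D J a₀ z i j r a E P (bb D i j r ω) (rcd D i j r a ω) v u| ≤
        exp (c' * z)) ∧
      (∀ ω ω', E ω → E ω' → bb D i j r ω = bb D i j r ω' → D.T ω = D.T ω' → ∀ σ : ℝ, 0 ≤ σ →
        (∀ k, Sl k → |ze D i j r P ω k - ze D i j r P ω' k| ≤ σ) →
        (∀ k, Sl k → |zd D i j r a E P ω k - zd D i j r a E P ω' k| ≤
          exp (c' * z) * (σ + 1 / 2 ^ (y * z))) ∧
        ∀ v, Gr v → |(zd D i j r a E P ω v - zd D i j r a E P ω' v) -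
          ∑ u ∈ (range (n + 1)).filter Gr,
            cM D J a₀ z i j r a E P (bb D i j r ω) (rcd D i j r a ω) v u *
              (ze D i j r P ω u - ze D i j r P ω' u)| ≤ exp (c' * z) * (σ + 1 / 2 ^ (y * z))) := by
  obtain ⟨c₀, h0, hR⟩ := rep_rly n K C C₁ C hC hC₁ hC
  obtain ⟨e, he⟩ : ∃ e : ℝ, e = (2 * n + 5) + 2 * c₀ + C + 1 := ⟨_, rfl⟩
  have hn0 : (0 : ℝ) ≤ n := Nat.cast_nonneg n
  refine ⟨e, by rw [he]; positivity, ?_⟩
  intro D K₁ K' J a₀ w₀ z M i j r r' a y lam gam κ q E P Sl Gr hF haz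
  have hzr : (1 : ℝ) ≤ z := by exact_mod_cast hF.z1
  have he' : ∀ t : ℝ, t ≤ e → exp (t * z) ≤ exp (e * z) := fun t ht => ex_mono ht hzr
  obtain ⟨-, hW⟩ := hR D K₁ K' J a₀ w₀ z M i j r r' a y lam gam κ q E P Sl Gr hF
    ((he' c₀ (by rw [he]; linarith)).trans haz)
  have hX : ∀ ω, ((rcd D i j r a ω).1 : ℝ) / 2 ^ J = D.X ω 0 := fun ω => (hF.ok.X_zero ω).symm
  have hE1 : (1 : ℝ) ≤ exp (c₀ * z) := ex_one h0 hzr
  have h2 : (2 : ℝ) ≤ exp (1 * z) := by
    have := Real.add_one_le_exp (1 * (z : ℝ))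
    linarith
  constructor
  · intro ω hω v hv u
    unfold cM MM
    rw [hX]
    have := (hW ω hω).2.bd v hv u
    refine (abs_sub _ _).trans ?_
    have h3 : |(if v = u then (1 : ℝ) else 0)| ≤ 1 := by
      split_ifs
      · rw [abs_one]
      · rw [abs_zero]
        exact zero_le_one
    calc |(if v = u then (1 : ℝ) else 0)| + |kap (gw (a₀ + i * z) (D.g i j))
          (atT (D.X ω 0) (P (bb D i j r ω)))
          (atT (D.X ω 0) (vfr D i j r a E P (rcd D i j r a ω))) v u|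
        ≤ 1 + exp (c₀ * z) := add_le_add h3 this
      _ ≤ 2 * exp (c₀ * z) := by linarith
      _ ≤ exp (1 * z) * exp (c₀ * z) := by gcongr
      _ = exp ((1 + c₀) * z) := by rw [← exp_add]; ring_nf
      _ ≤ _ := he' _ (by rw [he]; linarith)
  intro ω ω' hω hω' hbb hT σ hσ hsl
  have hj : j ≤ M := by
    have := hF.jM
    omega
  obtain ⟨hWt, hRω⟩ := hW ω hω
  have hx0 : D.X ω 0 = D.X ω' 0 := X0_eq hF.ok hT
  have hrc : rcd D i j r a ω = rcd D i j r a ω' := rcd_det hF.ok hF.iM.le hj r a ω ω'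
    (hF.fr ω hω).1 (hF.fr ω' hω').1 (by simp only [hbb, hT])
  obtain ⟨W, hWd⟩ : ∃ W, W = vfr D i j r a E P (rcd D i j r a ω) := ⟨_, rfl⟩
  obtain ⟨Q, hQ⟩ : ∃ Q, Q = P (bb D i j r ω) := ⟨_, rfl⟩
  obtain ⟨d, hd⟩ : ∃ d, d = gw (a₀ + i * z) (D.g i j) := ⟨_, rfl⟩
  have hQt : TriN Q := by
    rw [hQ]
    exact (hF.fr ω hω).2.2.tri
  have bx := bx_X hF hω
  have bx' := bx_X hF hω'
  rw [← hx0, ← hbb] at bx'
  rw [← hWd] at hWt hRω
  rw [← hQ] at bx bx' hRω
  rw [← hd] at bx bx' hRω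
  have hQa : TriN (atT (D.X ω 0) Q) := atT_tri hQt _
  have hWa : TriN (atT (D.X ω 0) W) := atT_tri hWt _
  have z1 : ∀ k, 1 ≤ k → ze D i j r P ω k = nat d (atT (D.X ω 0) Q) (D.X ω) k := fun k hk => by
    rw [hd, hQ, nat_gw' _ _ _ _ _ hk]
    rfl
  have z2 : ∀ k, 1 ≤ k → ze D i j r P ω' k = nat d (atT (D.X ω 0) Q) (D.X ω') k := fun k hk => by
    rw [hd, hQ, nat_gw' _ _ _ _ _ hk, hbb]
    rfl
  have w1 : ∀ k, 1 ≤ k → zd D i j r a E P ω k = nat d (atT (D.X ω 0) W) (D.X ω) k :=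
    fun k hk => by
      rw [hd, hWd, nat_gw' _ _ _ _ _ hk]
      rfl
  have w2 : ∀ k, 1 ≤ k → zd D i j r a E P ω' k = nat d (atT (D.X ω 0) W) (D.X ω') k :=
    fun k hk => by
      rw [hd, hWd, nat_gw' _ _ _ _ _ hk, hrc]
      rfl
  have hτ : exp (c₀ * z) / 2 ^ (a * z) ≤ exp (c₀ * z) * (1 / 2 ^ (y * z)) := by
    rw [mul_one_div]
    refine div_le_div_of_nonneg_left (exp_pos _).le (by positivity)
      (pow_le_pow_right₀ (by norm_num) (Nat.mul_le_mul_right z hF.ya))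
  have hy0 : (0 : ℝ) ≤ 1 / 2 ^ (y * z) := by positivity
  have hsl' : ∀ k, Sl k → |nat d (atT (D.X ω 0) Q) (D.X ω) k -
      nat d (atT (D.X ω 0) Q) (D.X ω') k| ≤ σ := fun k hk => by
    rw [← z1 k (hF.dic.s1 k hk).1, ← z2 k (hF.dic.s1 k hk).1]
    exact hsl k hk
  -- the constants
  have hN : ((n : ℝ) + 1) * (n + 1) ≤ exp ((2 * n + 2) * z) := by
    have h3 : (n : ℝ) + 1 ≤ exp ((n + 1) * z) := by
      have := Real.add_one_le_exp (((n : ℝ) + 1) * z)
      nlinarith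
    calc ((n : ℝ) + 1) * (n + 1) ≤ exp ((n + 1) * z) * exp ((n + 1) * z) := by gcongr
      _ = _ := by rw [← exp_add]; ring_nf
  have hN1 : (1 : ℝ) ≤ (n + 1) * (n + 1) := by nlinarith
  obtain ⟨ε, hε⟩ : ∃ ε : ℝ, ε = σ + 1 / 2 ^ (y * z) := ⟨_, rfl⟩
  have hε0 : 0 ≤ ε := by rw [hε]; positivity
  have hσε : σ ≤ ε := by rw [hε]; linarith
  have hyε : 1 / 2 ^ (y * z) ≤ ε := by rw [hε]; linarith
  rw [← hε]
  constructor
  · -- slow
    intro l hl
    have hl1 := hF.dic.s1 l hl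
    rw [w1 l hl1.1, w2 l hl1.1]
    have a1 := dif_change hRω (v := l) (by omega) (bx.mono (by omega) le_rfl)
      (bx'.mono (by omega) le_rfl)
    have a2 : |∑ k ∈ range l, kap d (atT (D.X ω 0) Q) (atT (D.X ω 0) W) l k *
        (nat d (atT (D.X ω 0) Q) (D.X ω) k - nat d (atT (D.X ω 0) Q) (D.X ω') k)| ≤
        (n + 1) * (exp (c₀ * z) * ε + exp (c₀ * z) * ε * (2 * exp (C * z))) := by
      have hb : ∀ k ∈ range l, |kap d (atT (D.X ω 0) Q) (atT (D.X ω 0) W) l k *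
          (nat d (atT (D.X ω 0) Q) (D.X ω) k - nat d (atT (D.X ω 0) Q) (D.X ω') k)| ≤
          exp (c₀ * z) * ε + exp (c₀ * z) * ε * (2 * exp (C * z)) := by
        intro k hk
        rw [mem_range] at hk
        rcases Nat.eq_zero_or_pos k with hk0 | hk0
        · rw [hk0, nat_zero_eq hQa hx0, sub_self, mul_zero, abs_zero]
          positivity
        rw [abs_mul]
        rcases hF.num.dic k hk0 (by omega) with hs | hg
        · have b1 := mul_le_mul (hRω.bd l (by omega) k) ((hsl' k hs).trans hσε) (abs_nonneg _)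
            (exp_pos _).le
          have : 0 ≤ exp (c₀ * z) * ε * (2 * exp (C * z)) := by positivity
          linarith
        · have b1 := hRω.sm l hl1.1 (by omega) k hk0 (by omega) (by
            have := hF.num.s1 l hl
            have := hF.num.s2 k hg
            linarith)
          have b2 : |nat d (atT (D.X ω 0) Q) (D.X ω) k - nat d (atT (D.X ω 0) Q) (D.X ω') k| ≤
              2 * exp (C * z) := by
            refine (abs_sub _ _).trans ?_
            have := bx k (by omega)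
            have := bx' k (by omega)
            linarith
          have b3 : exp (c₀ * z) / 2 ^ (y * z) ≤ exp (c₀ * z) * ε := by
            rw [div_eq_mul_one_div]
            exact mul_le_mul_of_nonneg_left hyε (exp_pos _).le
          have b4 := mul_le_mul (b1.trans b3) b2 (abs_nonneg _) (by positivity)
          have : 0 ≤ exp (c₀ * z) * ε := by positivity
          linarith
      refine (sum_bd _ _ hb).trans (mul_le_mul_of_nonneg_right ?_ (by positivity))
      rw [card_range]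
      have : l ≤ n + 1 := by omega
      exact_mod_cast this
    have a3 := hsl' l hl
    have a4 : exp (c₀ * z) / 2 ^ (a * z) ≤ exp (c₀ * z) * ε :=
      hτ.trans (mul_le_mul_of_nonneg_left hyε (exp_pos _).le)
    obtain ⟨p, hp⟩ : ∃ p : ℝ, p = nat d (atT (D.X ω 0) Q) (D.X ω) l -
      nat d (atT (D.X ω 0) Q) (D.X ω') l := ⟨_, rfl⟩
    obtain ⟨s, hs⟩ : ∃ s : ℝ, s = ∑ k ∈ range l, kap d (atT (D.X ω 0) Q) (atT (D.X ω 0) W) l k *
        (nat d (atT (D.X ω 0) Q) (D.X ω) k - nat d (atT (D.X ω 0) Q) (D.X ω') k) := ⟨_, rfl⟩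
    obtain ⟨v, hv⟩ : ∃ v : ℝ, v = nat d (atT (D.X ω 0) W) (D.X ω) l -
      nat d (atT (D.X ω 0) W) (D.X ω') l := ⟨_, rfl⟩
    rw [← hp, ← hs, ← hv] at a1
    rw [← hs] at a2
    rw [← hp] at a3
    rw [← hv]
    have e1 : v = (v - (p - s)) + (p - s) := by ring
    have e2 : |v| ≤ |v - (p - s)| + (|p| + |s|) := by
      conv_lhs => rw [e1]
      exact (abs_add_le _ _).trans (add_le_add le_rfl (abs_sub _ _))
    have e3 : |v| ≤ 2 * (exp (c₀ * z) * ε) + (ε + (n + 1) * (exp (c₀ * z) * ε +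
        exp (c₀ * z) * ε * (2 * exp (C * z)))) := by linarith
    have hC1 : (1 : ℝ) ≤ exp (C * z) := ex_one hC hzr
    have e4 : 2 * (exp (c₀ * z) * ε) + (ε + (n + 1) * (exp (c₀ * z) * ε +
        exp (c₀ * z) * ε * (2 * exp (C * z)))) ≤
        6 * ((n + 1) * (n + 1)) * (exp (c₀ * z) * exp (C * z)) * ε := by
      obtain ⟨A, hA⟩ : ∃ A : ℝ, A = exp (c₀ * z) * ε := ⟨_, rfl⟩
      have hA0 : ε ≤ A := by rw [hA]; nlinarith
      have hA1 : 0 ≤ A := hε0.trans hA0
      have hAC : A ≤ A * exp (C * z) := by nlinarith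
      have hn1 : (n : ℝ) + 1 ≤ (n + 1) * (n + 1) := by nlinarith
      have f1 : (n + 1) * (A + A * (2 * exp (C * z))) ≤
          ((n + 1) * (n + 1)) * (3 * (A * exp (C * z))) := by
        refine mul_le_mul hn1 (by nlinarith) (by positivity) (by positivity)
      have f2 : 2 * A + ε ≤ ((n + 1) * (n + 1)) * (3 * (A * exp (C * z))) := by
        have : 0 ≤ A * exp (C * z) := by positivity
        nlinarith
      rw [← hA]
      have e5 : 6 * ((n + 1) * (n + 1)) * (exp (c₀ * z) * exp (C * z)) * ε =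
          ((n + 1) * (n + 1)) * (3 * (A * exp (C * z))) +
          ((n + 1) * (n + 1)) * (3 * (A * exp (C * z))) := by
        rw [hA]
        ring
      rw [e5]
      linarith
    refine e3.trans (e4.trans ?_)
    refine mul_le_mul_of_nonneg_right ?_ hε0
    have h6 : (6 : ℝ) ≤ exp (3 * z) := by
      calc (6 : ℝ) ≤ 2 * 2 * 2 := by norm_num
        _ ≤ exp (1 * z) * exp (1 * z) * exp (1 * z) := by gcongr
        _ = _ := by rw [← exp_add, ← exp_add]; ring_nf
    calc 6 * (((n : ℝ) + 1) * (n + 1)) * (exp (c₀ * z) * exp (C * z))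
        ≤ exp (3 * z) * exp ((2 * n + 2) * z) * (exp (c₀ * z) * exp (C * z)) := by gcongr
      _ = exp ((3 + (2 * n + 2) + c₀ + C) * z) := by
          rw [← exp_add, ← exp_add, ← exp_add]
          ring_nf
      _ ≤ _ := he' _ (by rw [he]; linarith)
  · -- the group
    intro v hv
    have hv1 := hF.dic.g1 v hv
    have a1 := tra_one (Sl := Sl) (Gr := Gr) (m := n) hRω hQa hWa hF.num.dic le_rfl hx0 bx bx'
      (σ := σ) hσ (exp_pos _).le (fun k hk _ => hsl' k hk) (N₀ := 1) (δ := 0) zero_le_one le_rfl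
      (nD := fun u => if u = v then 1 else 0)
      (nv := fun u => MM d (atT (D.X ω 0) Q) (atT (D.X ω 0) W) v u) (fun u => by
        split_ifs
        · rw [abs_one]
        · rw [abs_zero]
          exact zero_le_one) (fun u _ _ => by
        simp only [ite_mul, one_mul, zero_mul]
        rw [Finset.sum_ite_eq', if_pos (by
          rw [mem_filter, mem_range]
          exact ⟨by omega, hv⟩), sub_self, abs_zero])
    have a2 : ∑ u ∈ (range (n + 1)).filter Gr, (fun u => if u = v then (1 : ℝ) else 0) u *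
        (nat d (atT (D.X ω 0) W) (D.X ω) u - nat d (atT (D.X ω 0) W) (D.X ω') u) =
        zd D i j r a E P ω v - zd D i j r a E P ω' v := by
      simp only [ite_mul, one_mul, zero_mul]
      rw [Finset.sum_ite_eq', if_pos (by
          rw [mem_filter, mem_range]
          exact ⟨by omega, hv⟩), w1 v hv1.1, w2 v hv1.1]
    have a3 : ∑ u ∈ (range (n + 1)).filter Gr,
        cM D J a₀ z i j r a E P (bb D i j r ω) (rcd D i j r a ω) v u *
          (ze D i j r P ω u - ze D i j r P ω' u) = ∑ u ∈ (range (n + 1)).filter Gr,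
        (fun u => MM d (atT (D.X ω 0) Q) (atT (D.X ω 0) W) v u) u *
        (nat d (atT (D.X ω 0) Q) (D.X ω) u - nat d (atT (D.X ω 0) Q) (D.X ω') u) := by
      refine Finset.sum_congr rfl fun u hu => ?_
      rw [mem_filter] at hu
      have hu1 := hF.dic.g1 u hu.2
      rw [z1 u hu1.1, z2 u hu1.1]
      unfold cM
      rw [hX, ← hWd, ← hQ, ← hd]
    rw [a2] at a1
    rw [a3, abs_sub_comm]
    refine a1.trans ?_
    rw [mul_zero, zero_add, one_mul]
    have b1 : 2 * (exp (c₀ * z) / 2 ^ (a * z)) + (n + 1) * (exp (c₀ * z) * σ) ≤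
        3 * (n + 1) * (exp (c₀ * z) * ε) := by
      have b2 : exp (c₀ * z) / 2 ^ (a * z) ≤ exp (c₀ * z) * ε :=
        hτ.trans (mul_le_mul_of_nonneg_left hyε (exp_pos _).le)
      have b3 : exp (c₀ * z) * σ ≤ exp (c₀ * z) * ε :=
        mul_le_mul_of_nonneg_left hσε (exp_pos _).le
      have b4 : 0 ≤ exp (c₀ * z) * ε := by positivity
      nlinarith
    calc ((n : ℝ) + 1) * (2 * (exp (c₀ * z) / 2 ^ (a * z)) + (n + 1) * (exp (c₀ * z) * σ))
        ≤ (n + 1) * (3 * (n + 1) * (exp (c₀ * z) * ε)) := by gcongr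
      _ = 3 * ((n + 1) * (n + 1)) * exp (c₀ * z) * ε := by ring
      _ ≤ exp (3 * z) * exp ((2 * n + 2) * z) * exp (c₀ * z) * ε := by
          have h3 : (3 : ℝ) ≤ exp (3 * z) := by
            have := Real.add_one_le_exp (3 * (z : ℝ))
            linarith
          gcongr
      _ = exp ((3 + (2 * n + 2) + c₀) * z) * ε := by
          rw [← exp_add, ← exp_add]
          ring_nf
      _ ≤ _ := mul_le_mul_of_nonneg_right (he' _ (by rw [he]; linarith)) hε0

end

end Pool.P4
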