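import Pool.Agent.H52.P4.Cons

/-!
# The consumer, second form

The functional of the line has its own slopes, affine in the time; nothing is asked of the path.
-/

set_option autoImplicit false

namespace Pool.P4

open Finset Real MvPolynomial
open Pool.Agent.H49.Ent Pool.Agent.H32.Dense Pool.STK Pool.STAT Pool.MIC.Frm Pool.FRM
open Pool.MIC.Fru (gw nat_gw nat_gw0 atT_tri atT_deg)
open Pool.STAT.Glu (kN)
open Pool.BFL (Pb)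

open Classical in
/-- A sample of the final event: the functional of the line. -/
structure Cv4 (D : NDat2) (n z i j r r' y m w : ℕ) (C N₀ δ : ℝ) (E : D.Ω → Prop)
    (P : D.Γ × D.Γ → ℕ → PN) (Sl Gr : ℕ → Prop) (nn : D.Ω → ℕ → ℝ) (S : D.Ω → ℕ → ℕ → ℝ)
    (t₀ : D.Ω → ℝ) (nv e0 e1 : D.Ω → ℕ → ℝ) (ω : D.Ω) : Prop where
  mem : E ω
  tS : ∀ u k, u ≤ k → S ω u k = 0
  sheet : ∀ Bx : ℝ, 1 ≤ Bx → ∀ b : ℕ → ℝ, b 0 = D.X ω 0 →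
    (∀ k, Sl k → |nat (D.g i j) (P (bb D i j r ω)) b k| ≤ exp (Bx * z)) →
    (∀ u, Gr u → b u = eval b (D.Ψ (i - r') (j + r) ω u)) →
    ∀ u, Gr u → |nat (D.g i j) (P (bb D i j r ω)) b u - (nn ω u +
      ∑ k ∈ (range n).filter Sl, S ω u k * nat (D.g i j) (P (bb D i j r ω)) b k)| ≤
      exp (C * Bx * z) * (exp (C * z) / 2 ^ (y * z))
  bv : ∀ v, |nv ω v| ≤ N₀
  b0 : ∀ v, |e0 ω v| ≤ N₀
  b1 : ∀ v, |e1 ω v| ≤ N₀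
  c4 : ∀ k, Sl k → k < m → |∑ u ∈ (range (m + 1)).filter Gr, nv ω u * S ω u k -
    (e0 ω k + e1 ω k * (2 ^ w * (D.X ω 0 - t₀ ω)))| ≤ δ

/-- **Points of the own sheet**, seen from one sample. -/
theorem own_four (n K : ℕ) (C C₁ b : ℝ) (hC : 0 ≤ C) (hC₁ : 0 ≤ C₁) (hb : 1 ≤ b) :
    ∃ c' : ℝ, b ≤ c' ∧
    ∀ (D : NDat2) (K₁ K' J a₀ w₀ z M i j r r' a y : ℕ) (lam gam : ℕ → ℝ) (κ : ℝ)
      (q : D.Ω → ℝ) (E : D.Ω → Prop) (P : D.Γ × D.Γ → ℕ → PN) (Sl Gr : ℕ → Prop),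
      Fx D n K K₁ K' J a₀ w₀ z M i j r r' a y lam gam κ C₁ C q E P Sl Gr →
      ∀ (m w : ℕ) (N₀ δ ρ : ℝ) (nn : D.Ω → ℕ → ℝ) (S : D.Ω → ℕ → ℕ → ℝ) (t₀ : D.Ω → ℝ)
        (nv e0 e1 : D.Ω → ℕ → ℝ), m ≤ n → w₀ + j * z ≤ w → 0 ≤ δ → 1 ≤ N₀ →
      ∀ ω, Cv4 D n z i j r r' y m w C N₀ δ E P Sl Gr nn S t₀ nv e0 e1 ω →
      ∀ p : ℕ → ℝ, Near D a₀ z i j r r' Sl Gr (P (bb D i j r ω)) ω (exp (b * z)) (m + 1) p →
      2 ^ w * |p 0 - D.X ω 0| ≤ ρ →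
      |Lam (D.g i j) (P (bb D i j r ω)) Sl Gr m w (t₀ ω) (nv ω) (e0 ω) (e1 ω) p -
        lc Gr m (nv ω) (nn ω)| ≤ exp (c' * z) * (N₀ * (1 / 2 ^ (y * z) + ρ) + δ) := by
  have hb0 : 0 ≤ b := by linarith
  obtain ⟨c₁, h1, own⟩ := lam_own n K C C₁ b hC hC₁ hb0
  have hCb : 0 ≤ C * b + C := by positivity
  refine ⟨c₁ + (C * b + C) + 1 + b, by linarith, ?_⟩
  intro D K₁ K' J a₀ w₀ z M i j r r' a y lam gam κ q E P Sl Gr hF m w N₀ δ ρ nn S t₀ nv e0 e1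
    hm hw hδ hN₀ ω hω p hp hρ
  have hzr : (1 : ℝ) ≤ z := by exact_mod_cast hF.z1
  have hρ0 : 0 ≤ ρ := le_trans (by positivity) hρ
  obtain ⟨V, hV⟩ := frs_of hF hω.mem
  have := own D K₁ J a₀ w₀ z M lam gam κ q hF.ok hF.k1 hF.z1 hF.lam1 i j r r' y Sl Gr hF.num
    hF.dic ω (hF.fr ω hω.mem).1 _ V hV (nn ω) (S ω) (exp ((C * b + C) * z) * (1 / 2 ^ (y * z)))
    (by
      intro x h0 hsl hgr u hu
      refine (hω.sheet b hb x h0 hsl hgr u hu).trans (le_of_eq ?_)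
      rw [mul_one_div, ← mul_div_assoc, ← exp_add]
      ring_nf) hω.tS m w (t₀ ω) N₀ δ ρ (nv ω) (e0 ω) (e1 ω) hm hw (by positivity) hδ hN₀ hω.bv
    hω.b1 hω.c4 p hp hρ
  refine this.trans ((absorb hzr hCb (by linarith) (by positivity) hρ0 hδ).trans ?_)
  refine mul_le_mul_of_nonneg_right (ex_mono (by linarith) hzr) ?_
  have : 0 ≤ N₀ := by linarith
  positivity

/-- **Two samples with the same exact point.** -/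
theorem hL_dif2 (n K : ℕ) (C C₁ b : ℝ) (hC : 0 ≤ C) (hC₁ : 0 ≤ C₁) (hb : 1 ≤ b) :
    ∃ c' : ℝ, 1 ≤ c' ∧
    ∀ (D : NDat2) (K₁ K' J a₀ w₀ z M i j r r' a y : ℕ) (lam gam : ℕ → ℝ) (κ : ℝ)
      (q : D.Ω → ℝ) (E : D.Ω → Prop) (P : D.Γ × D.Γ → ℕ → PN) (Sl Gr : ℕ → Prop),
      Fx D n K K₁ K' J a₀ w₀ z M i j r r' a y lam gam κ C₁ C q E P Sl Gr →
      exp (c' * z) ≤ 2 ^ (a * z) →
      ∀ (m w : ℕ) (N₀ δ ρ δT : ℝ) (nn : D.Ω → ℕ → ℝ) (S : D.Ω → ℕ → ℕ → ℝ) (t₀ : D.Ω → ℝ)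
        (nD nvt e0t e1t nv e0 e1 : D.Ω → ℕ → ℝ), m ≤ n → Gr m → w₀ + j * z ≤ w → 0 ≤ δ →
        1 ≤ N₀ → (2 : ℝ) ^ w / 2 ^ (a₀ + i * z) ≤ ρ →
      ∀ ω ω', Cvt D n J a₀ z i j r r' a y m w C N₀ δ E P Sl Gr nn S t₀ nD nvt e0t e1t ω →
      Cvt D n J a₀ z i j r r' a y m w C N₀ δ E P Sl Gr nn S t₀ nD nvt e0t e1t ω' →
      Cv4 D n z i j r r' y m w C N₀ δ E P Sl Gr nn S t₀ nv e0 e1 ω →
      Cv4 D n z i j r r' y m w C N₀ δ E P Sl Gr nn S t₀ nv e0 e1 ω' →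
      nv ω m = 1 → nv ω' m = 1 →
      rcd D i j r a ω = rcd D i j r a ω' → D.s (i - r') (j + r) ω = D.s (i - r') (j + r) ω' →
      nD ω = nD ω' → ∀ x : ℕ → ℝ, |x 0 - D.X ω 0| ≤ 1 / 2 ^ (a₀ + i * z) →
      Bx (D.g i j) (P (bb D i j r ω)) (m + 1) (exp (b * z)) x →
      |LM D i j r P Sl Gr m w nn t₀ nvt e0t e1t ω x -
        LM D i j r P Sl Gr m w nn t₀ nv e0 e1 ω x| ≤ δT →
      |LM D i j r P Sl Gr m w nn t₀ nvt e0t e1t ω' x -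
        LM D i j r P Sl Gr m w nn t₀ nv e0 e1 ω' x| ≤ δT →
      2 ^ D.g i j m * |eval x (hL D i j r P Sl Gr m w t₀ nv e0 e1 ω) -
        eval x (hL D i j r P Sl Gr m w t₀ nv e0 e1 ω')| ≤
        2 * δT + exp (c' * z) * (N₀ * (1 / 2 ^ (y * z) + ρ) + δ) := by
  obtain ⟨c₁, h1, pn⟩ := path_near n K C C₁ hC
  obtain ⟨c₂, h2, own⟩ := own_four n K C C₁ c₁ hC hC₁ h1
  obtain ⟨c₃, h3, ga⟩ := gd_all n K C C₁ b hC hC₁ hb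
  refine ⟨c₂ + c₃ + 2, by linarith, ?_⟩
  intro D K₁ K' J a₀ w₀ z M i j r r' a y lam gam κ q E P Sl Gr hF haz m w N₀ δ ρ δT nn S t₀ nD nvt
    e0t e1t nv e0 e1 hm hgm hw hδ hN₀ hρ ω ω' hω hω' gω gω' hnv hnv' hrc hsR hnD x hx0 hx ht1 ht2
  have hzr : (1 : ℝ) ≤ z := by exact_mod_cast hF.z1
  have hTT : D.T ω = D.T ω' := congrArg Prod.fst hrc
  have hX0 : D.X ω 0 = D.X ω' 0 := X0_eq hF.ok hTT
  have hPt : TriN (P (bb D i j r ω)) := (hF.fr ω hω.mem).2.2.tri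
  have hPt' : TriN (P (bb D i j r ω')) := (hF.fr ω' hω'.mem).2.2.tri
  have hρ0 : 0 ≤ ρ := le_trans (by positivity) hρ
  have hpw : (2 : ℝ) ^ w * |x 0 - D.X ω 0| ≤ ρ := by
    refine le_trans ?_ hρ
    calc (2 : ℝ) ^ w * |x 0 - D.X ω 0| ≤ 2 ^ w * (1 / 2 ^ (a₀ + i * z)) := by gcongr
      _ = _ := by ring
  have pp0 : ∀ (x : D.Λ) (t : ℝ), pp D x t 0 = t := fun x t => by
    unfold pp
    rw [if_pos rfl]
  have k1 := ga D K₁ K' J a₀ w₀ z M i j r r' a y lam gam κ q E P Sl Gr hF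
    ((ex_mono (by linarith) hzr).trans haz) m w N₀ δ ρ nn S t₀ nD nvt e0t e1t hm hw hδ hN₀ hρ ω ω'
    hω hω' hrc hsR hnD x hx0 hx
  have k2 := own D K₁ K' J a₀ w₀ z M i j r r' a y lam gam κ q E P Sl Gr hF m w N₀ δ ρ nn S t₀
    nv e0 e1 hm hw hδ hN₀ ω gω (pp D (D.ln ω) (x 0))
    ((pn D K₁ K' J a₀ w₀ z M i j r r' a y lam gam κ q E P Sl Gr hF ω hω.mem (x 0) hx0).mono le_rfl
      (by omega)) (by rw [pp0]; exact hpw)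
  have k3 := own D K₁ K' J a₀ w₀ z M i j r r' a y lam gam κ q E P Sl Gr hF m w N₀ δ ρ nn S t₀
    nv e0 e1 hm hw hδ hN₀ ω' gω' (pp D (D.ln ω') (x 0))
    ((pn D K₁ K' J a₀ w₀ z M i j r r' a y lam gam κ q E P Sl Gr hF ω' hω'.mem (x 0)
      (by rw [← hX0]; exact hx0)).mono le_rfl (by omega))
    (by rw [pp0, ← hX0]; exact hpw)
  have e1' := hL_eval (w := w) (t₀ := t₀) (e0 := e0) (e1 := e1) (Sl := Sl) hPt hgm hnv x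
  have e2' := hL_eval (w := w) (t₀ := t₀) (e0 := e0) (e1 := e1) (Sl := Sl) hPt' hgm hnv' x
  obtain ⟨U, hU⟩ : ∃ U : D.Ω → (ℕ → ℝ) → ℝ, U = LM D i j r P Sl Gr m w nn t₀ nvt e0t e1t :=
    ⟨_, rfl⟩
  obtain ⟨V, hV⟩ : ∃ V : D.Ω → (ℕ → ℝ) → ℝ, V = LM D i j r P Sl Gr m w nn t₀ nv e0 e1 :=
    ⟨_, rfl⟩
  rw [← hU, ← hV] at ht1 ht2
  have eU : ∀ ω x, Lam (D.g i j) (P (bb D i j r ω)) Sl Gr m w (t₀ ω) (nvt ω) (e0t ω) (e1t ω) x -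
    lc Gr m (nvt ω) (nn ω) = U ω x := fun ω x => by rw [hU]; rfl
  have eV : ∀ ω x, Lam (D.g i j) (P (bb D i j r ω)) Sl Gr m w (t₀ ω) (nv ω) (e0 ω) (e1 ω) x =
    V ω x + lc Gr m (nv ω) (nn ω) := fun ω x => by
      rw [hV]
      unfold LM
      ring
  rw [eU, eU] at k1
  rw [eV, add_sub_cancel_right] at k2 k3
  rw [eV, eV, add_sub_add_right_eq_sub] at e1' e2'
  obtain ⟨X, hX⟩ : ∃ X : ℝ, X = N₀ * (1 / 2 ^ (y * z) + ρ) + δ := ⟨_, rfl⟩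
  have hX0' : 0 ≤ X := by
    rw [hX]
    have : 0 ≤ N₀ := by linarith
    positivity
  rw [← hX] at k1 k2 k3 ⊢
  obtain ⟨H, hH⟩ : ∃ H : ℝ, H = eval x (hL D i j r P Sl Gr m w t₀ nv e0 e1 ω) := ⟨_, rfl⟩
  obtain ⟨H', hH'⟩ : ∃ H' : ℝ, H' = eval x (hL D i j r P Sl Gr m w t₀ nv e0 e1 ω') := ⟨_, rfl⟩
  rw [← hH] at e1'
  rw [← hH'] at e2'
  rw [← hH, ← hH']
  obtain ⟨p, hp⟩ : ∃ p, p = pp D (D.ln ω) (x 0) := ⟨_, rfl⟩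
  obtain ⟨p', hp'⟩ : ∃ p', p' = pp D (D.ln ω') (x 0) := ⟨_, rfl⟩
  rw [← hp] at k2 e1'
  rw [← hp'] at k3 e2'
  have h2 : (0 : ℝ) < 2 ^ D.g i j m := by positivity
  have id : 2 ^ D.g i j m * (H - H') = (U ω' x - U ω x) - (U ω' x - V ω' x) + (U ω x - V ω x) -
      V ω' p' + V ω p := by
    have : 2 ^ D.g i j m * (H - H') = 2 ^ D.g i j m * (x m - H') - 2 ^ D.g i j m * (x m - H) := by
      ring
    rw [this, e1', e2']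
    ring
  have e3 : 2 ^ D.g i j m * |H - H'| = |2 ^ D.g i j m * (H - H')| := by
    rw [abs_mul, abs_of_pos h2]
  rw [e3, id]
  have q1 : |(U ω' x - U ω x) - (U ω' x - V ω' x) + (U ω x - V ω x) - V ω' p' + V ω p| ≤
      exp (c₃ * z) * X + δT + δT + exp (c₂ * z) * X + exp (c₂ * z) * X := by
    rw [abs_le] at ht1 ht2 k1 k2 k3 ⊢
    constructor
    · linarith [ht1.1, ht2.2, k1.1, k2.1, k3.2]
    · linarith [ht1.2, ht2.1, k1.2, k2.2, k3.1]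
  refine q1.trans ?_
  have g1 : exp (c₃ * z) ≤ exp ((c₂ + c₃) * z) := ex_mono (by linarith) hzr
  have g2 : exp (c₂ * z) ≤ exp ((c₂ + c₃) * z) := ex_mono (by linarith) hzr
  have g3 : 3 * exp ((c₂ + c₃) * z) ≤ exp ((c₂ + c₃ + 2) * z) := by
    have h3 : (3 : ℝ) ≤ exp (2 * z) := by
      have := Real.add_one_le_exp (2 * (z : ℝ))
      linarith
    calc 3 * exp ((c₂ + c₃) * z) ≤ exp (2 * z) * exp ((c₂ + c₃) * z) := by gcongr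
      _ = _ := by rw [← exp_add]; ring_nf
  have g4 := mul_le_mul_of_nonneg_right g1 hX0'
  have g5 := mul_le_mul_of_nonneg_right g2 hX0'
  have g6 := mul_le_mul_of_nonneg_right g3 hX0'
  linarith

/-- **The consumer**, second form. -/
theorem cons2 (n K : ℕ) (C C₁ : ℝ) (hC : 0 ≤ C) (hC₁ : 0 ≤ C₁) :
    ∃ c' : ℝ, 1 ≤ c' ∧
    ∀ (D : NDat2) (K₁ K' J a₀ w₀ z M i j r r' a y : ℕ) (lam gam : ℕ → ℝ) (κ : ℝ)
      (q : D.Ω → ℝ) (E : D.Ω → Prop) (P : D.Γ × D.Γ → ℕ → PN) (Sl Gr : ℕ → Prop),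
      Fx D n K K₁ K' J a₀ w₀ z M i j r r' a y lam gam κ C₁ C q E P Sl Gr →
      exp (c' * z) ≤ 2 ^ (a * z) → j + 1 < M → (∀ l, 0 ≤ gam l) →
      ∀ (m w A : ℕ) (N₀ δ ρ δT η' : ℝ) (nn : D.Ω → ℕ → ℝ) (S : D.Ω → ℕ → ℕ → ℝ) (t₀ : D.Ω → ℝ)
        (nD nvt e0t e1t nv e0 e1 : D.Ω → ℕ → ℝ) (Ev : D.Ω → Prop)
        (Bb : D.Ω → (ℕ → ℝ) → Prop), m ≤ n → Gr m → w₀ + j * z ≤ w → 0 ≤ δ → 0 ≤ δT →
        1 ≤ N₀ → (2 : ℝ) ^ w / 2 ^ (a₀ + i * z) ≤ ρ → η' ≤ Pb q Ev →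
        (∀ ω, Ev ω → Cvt D n J a₀ z i j r r' a y m w C N₀ δ E P Sl Gr nn S t₀ nD nvt e0t e1t ω) →
        (∀ ω, Ev ω → Cv4 D n z i j r r' y m w C N₀ δ E P Sl Gr nn S t₀ nv e0 e1 ω) →
        (∀ ω, Ev ω → nv ω m = 1) →
        (∀ ω ω', Ev ω → Ev ω' → D.pt ω = D.pt ω' → nD ω = nD ω') →
        (∀ ω ω', Ev ω → Ev ω' → D.wn J (w₀ + (j + 1) * z) ω = D.wn J (w₀ + (j + 1) * z) ω' →
          t₀ ω = t₀ ω' ∧ nv ω = nv ω' ∧ e0 ω = e0 ω' ∧ e1 ω = e1 ω') →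
        (∀ ω, Ev ω → Bb ω (D.X ω)) →
        (∀ ω b, Ev ω → Bb ω b → D.NB i (j + 1) (a₀ + i * z) m ω b) →
        (∀ ω b t, Ev ω → Bb ω b → Bb ω (Function.update b m t)) →
        (∀ ω ω', Ev ω → Ev ω' → D.pt ω = D.pt ω' → ∀ b, Bb ω b → Bb ω' b) →
        (∀ ω, Ev ω → ∀ b, Bb ω b →
          |LM D i j r P Sl Gr m w nn t₀ nvt e0t e1t ω b -
            LM D i j r P Sl Gr m w nn t₀ nv e0 e1 ω b| ≤ δT) →
        2 * (2 * δT + exp (c' * z) * (N₀ * (1 / 2 ^ (y * z) + ρ) + δ)) *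
          2 ^ (D.g i (j + 1) m + A * z) ≤ 2 ^ D.g i j m →
        LabB D J w₀ z i (j + 1) m A (kN K 2) η' q Bb := by
  obtain ⟨c₁, h1, nb⟩ := nb_box n K C C₁ hC hC₁
  obtain ⟨c₂, h2, dif⟩ := hL_dif2 n K C C₁ c₁ hC hC₁ h1
  refine ⟨c₂, h2, ?_⟩
  intro D K₁ K' J a₀ w₀ z M i j r r' a y lam gam κ q E P Sl Gr hF haz hj1 hgam m w A N₀ δ ρ δT η' nn
    S t₀ nD nvt e0t e1t nv e0 e1 Ev Bb hmn hgm hw hδ hδT hN₀ hρ hη hC1 hC4 hnv hpt hwn hBX hBN hBu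
    hBp hth hnum
  have hO := hF.ok
  have hm1 := (hF.dic.g1 m hgm).1
  have hiM := hF.iM
  have hjM := hF.jM
  have hq : ∀ ω, Ev ω → 0 < q ω := fun ω h => (hF.fr ω (hC1 ω h).mem).1
  refine labB_of_det hO.isLaw.nonneg Bb Ev hη (fun ω _ h => hBX ω h)
    (hL D i j r P Sl Gr m w t₀ nv e0 e1) ?_ ?_ ?_ ?_
  · intro ω ω' x x' h h' e
    have e1' := bb_wn hO hiM.le hj1.le r ω ω' x x' e
    obtain ⟨f1, f2, f3, f4⟩ := hwn ω ω' h h' e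
    have f5 : D.ln ω = D.ln ω' := by
      simp only [NDat2.wn, Prod.mk.injEq] at e
      exact e.1
    unfold hL
    rw [e1', f1, f2, f3, f4, f5]
  · intro ω x h
    exact hL_deg hO hF.k1 hF.k2 hm1 (hF.fr ω (hC1 ω h).mem).2.2
  · intro ω x h
    rw [hL_own hO x (hF.fr ω (hC1 ω h).mem).2.2.tri hF.dic hgm hmn (hnv ω h), sub_self, abs_zero]
    positivity
  · intro ω ω' x x' h h' hp b hb
    obtain ⟨b₁, hb₁⟩ : ∃ b₁, b₁ = Function.update b m (eval b (P (bb D i j r ω) m)) := ⟨_, rfl⟩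
    have hPt := (hF.fr ω (hC1 ω h).mem).2.2.tri
    have hbl : ∀ l, l ≠ m → b₁ l = b l := fun l hl => by
      rw [hb₁, Function.update_of_ne hl]
    have hB₁ : Bb ω b₁ := by
      rw [hb₁]
      exact hBu ω b _ h hb
    have hN := hBN ω b₁ h hB₁
    have hbx := nb D K₁ K' J a₀ w₀ z M i j r r' a y lam gam κ q E P Sl Gr hF hj1 hgam ω
      (hC1 ω h).mem m hmn b₁ hN
    have hbx' : Bx (D.g i j) (P (bb D i j r ω)) (m + 1) (exp (c₁ * z)) b₁ := by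
      intro k hk
      rcases Nat.lt_succ_iff_lt_or_eq.1 hk with h3 | h3
      · exact hbx k h3
      · rw [h3]
        unfold nat
        rw [Pool.SYS35.eval_congr (hPt m) (b' := b) fun i hi => hbl i (by omega), hb₁,
          Function.update_self, sub_self, mul_zero, abs_zero]
        exact (exp_pos _).le
    have key := dif D K₁ K' J a₀ w₀ z M i j r r' a y lam gam κ q E P Sl Gr hF haz m w N₀ δ ρ δT nn S
      t₀ nD nvt e0t e1t nv e0 e1 hmn hgm hw hδ hN₀ hρ ω ω' (hC1 ω h) (hC1 ω' h') (hC4 ω h)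
      (hC4 ω' h') (hnv ω h)
      (hnv ω' h') (rcd_pt hO hiM.le (by omega) r a ω ω' x x' hp)
      (hO.s_pt (i - r') (by omega) (j + r) hjM.le ω ω' x x' hp) (hpt ω ω' h h' hp) b₁ hN.1 hbx'
      (hth ω h b₁ hB₁) (hth ω' h' b₁ (hBp ω ω' h h' hp b₁ hB₁))
    have hv : ∀ ω, Ev ω → eval b₁ (hL D i j r P Sl Gr m w t₀ nv e0 e1 ω) =
        eval b (hL D i j r P Sl Gr m w t₀ nv e0 e1 ω) := fun ω h =>
      Pool.SYS35.eval_congr (hL_deg hO hF.k1 hF.k2 hm1 (hF.fr ω (hC1 ω h).mem).2.2).2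
        fun l hl => hbl l (by omega)
    rw [hv ω h, hv ω' h'] at key
    obtain ⟨X, hX⟩ : ∃ X : ℝ, X = 2 * δT + exp (c₂ * z) * (N₀ * (1 / 2 ^ (y * z) + ρ) + δ) :=
      ⟨_, rfl⟩
    rw [← hX] at key hnum
    have h2g : (0 : ℝ) < 2 ^ D.g i j m := by positivity
    have h2G : (0 : ℝ) < 2 ^ (D.g i (j + 1) m + A * z) := by positivity
    rw [one_div_mul_one_div, le_div_iff₀ (by positivity)]
    have e3 : |eval b (hL D i j r P Sl Gr m w t₀ nv e0 e1 ω) -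
        eval b (hL D i j r P Sl Gr m w t₀ nv e0 e1 ω')| ≤ X / 2 ^ D.g i j m := by
      rw [le_div_iff₀ h2g]
      linarith
    calc |eval b (hL D i j r P Sl Gr m w t₀ nv e0 e1 ω) -
        eval b (hL D i j r P Sl Gr m w t₀ nv e0 e1 ω')| * (2 * 2 ^ (D.g i (j + 1) m + A * z))
        ≤ X / 2 ^ D.g i j m * (2 * 2 ^ (D.g i (j + 1) m + A * z)) :=
          mul_le_mul_of_nonneg_right e3 (by positivity)
      _ = (2 * X * 2 ^ (D.g i (j + 1) m + A * z)) / 2 ^ D.g i j m := by ring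
      _ ≤ 1 := by
          rw [div_le_one h2g]
          exact hnum

end Pool.P4
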