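import Pool.Agent.H52.P4.Cons2
import Pool.Agent.H89.P4.V8
import Pool.Agent.H25.P4.GfC

/-!
# The label of a cell: lemmas

Digits and real slopes; sums over the group and over the slow coordinates; the known covectors with
a later leading coordinate have small coefficients.
-/

set_option autoImplicit false

namespace Pool.P4

open Finset Real MvPolynomial
open Pool.Agent.H49.Ent Pool.Agent.H32.Dense Pool.STK Pool.STAT Pool.MIC.Frm Pool.FRM
open Pool.MIC.Fru (gw nat_gw nat_gw0 atT_tri atT_deg)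
open Pool.LBL (Ld)
open Pool.BFL (Pb)

/-! ### Digits and real slopes -/

/-- The digits of a slope. -/
theorem dig_E {X z : ℕ} {C s : ℝ} (h : |s| ≤ exp (C * z)) :
    |(dg X (s * (2 * Ry z C) / Rg z C) : ℝ) / 2 ^ X - exp (-(C * z)) * s| ≤ 1 / 2 ^ X := by
  have e1 : s * (2 * Ry z C) / Rg z C = exp (-(C * z)) * s := by
    unfold Ry Rg
    have h1 : exp (2 * C * z) = exp (C * z) * exp (C * z) := by
      rw [← exp_add]
      ring_nf
    rw [h1, exp_neg]
    have h2 : exp (C * z) ≠ 0 := (exp_pos _).ne'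
    field_simp
  have h2 : |exp (-(C * z)) * s| ≤ 1 := by
    rw [abs_mul, abs_of_pos (exp_pos _), exp_neg, inv_mul_le_iff₀ (exp_pos _), mul_one]
    exact h
  have h3 := dg_near (X := X) h2
  rw [e1]
  have hX : (0 : ℝ) < 2 ^ X := by positivity
  have e2 : (dg X (exp (-(C * z)) * s) : ℝ) / 2 ^ X - exp (-(C * z)) * s =
      ((dg X (exp (-(C * z)) * s) : ℝ) - 2 ^ X * (exp (-(C * z)) * s)) / 2 ^ X := by
    field_simp
  rw [e2, abs_div, abs_of_pos hX]
  exact div_le_div_of_nonneg_right h3 hX.le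

/-- **From digits to real slopes**: a functional of the slopes which is affine in the time. -/
theorem dig_fun {c X z : ℕ} {C N δ τ : ℝ} {t : ℤ} {f s : Fin c → ℝ} {a0 a1 : ℝ} (hC : 0 ≤ C)
    (hs : ∀ i, |s i| ≤ exp (C * z)) (hf : ∀ i, |f i| ≤ N) (hN : 0 ≤ N) (ha : |a1| * 2 ^ X ≤ N)
    (ht : |(t : ℝ) - 2 ^ X * τ| ≤ 1)
    (h : |∑ i, f i * ((dg X (s i * (2 * Ry z C) / Rg z C) : ℝ) / 2 ^ X) - a0 - a1 * t| ≤ δ) :
    |∑ i, f i * s i - (exp (C * z) * a0 + exp (C * z) * 2 ^ X * a1 * τ)| ≤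
      exp (C * z) * (δ + (c + 1) * (N / 2 ^ X)) := by
  have hX : (0 : ℝ) < 2 ^ X := by positivity
  have he := exp_pos (C * z)
  have k1 : |∑ i, f i * ((dg X (s i * (2 * Ry z C) / Rg z C) : ℝ) / 2 ^ X) -
      ∑ i, f i * (exp (-(C * z)) * s i)| ≤ c * (N * (1 / 2 ^ X)) := by
    rw [← Finset.sum_sub_distrib]
    refine (Finset.abs_sum_le_sum_abs _ _).trans ?_
    have : ∀ i ∈ (univ : Finset (Fin c)), |f i * ((dg X (s i * (2 * Ry z C) / Rg z C) : ℝ) /
        2 ^ X) - f i * (exp (-(C * z)) * s i)| ≤ N * (1 / 2 ^ X) := by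
      intro i _
      rw [← mul_sub, abs_mul]
      exact mul_le_mul (hf i) (dig_E (hs i)) (abs_nonneg _) hN
    refine (Finset.sum_le_sum this).trans (le_of_eq ?_)
    rw [Finset.sum_const, Finset.card_univ, Fintype.card_fin, nsmul_eq_mul]
  have k2 : |a1 * t - a1 * (2 ^ X * τ)| ≤ N / 2 ^ X := by
    rw [← mul_sub, abs_mul, le_div_iff₀ hX]
    calc |a1| * |(t : ℝ) - 2 ^ X * τ| * 2 ^ X ≤ |a1| * 1 * 2 ^ X := by gcongr
      _ ≤ N := by rw [mul_one]; exact ha
  have e1 : ∑ i, f i * s i = exp (C * z) * ∑ i, f i * (exp (-(C * z)) * s i) := by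
    rw [Finset.mul_sum]
    refine Finset.sum_congr rfl fun i _ => ?_
    rw [exp_neg]
    field_simp
  have e2 : ∑ i, f i * s i - (exp (C * z) * a0 + exp (C * z) * 2 ^ X * a1 * τ) =
      exp (C * z) * (∑ i, f i * (exp (-(C * z)) * s i) - a0 - a1 * (2 ^ X * τ)) := by
    rw [e1]
    ring
  rw [e2, abs_mul, abs_of_pos he]
  refine mul_le_mul_of_nonneg_left ?_ he.le
  have e3 : (c : ℝ) * (N * (1 / 2 ^ X)) = c * (N / 2 ^ X) := by ring
  rw [e3] at k1
  rw [abs_le] at h k1 k2 ⊢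
  constructor
  · linarith [h.1, k1.2, k2.2]
  · linarith [h.2, k1.1, k2.1]

/-! ### From `Fin c` to coordinates -/

/-- A function of the coordinates from a function on `Fin c`. -/
noncomputable def ug {c : ℕ} (gs : Fin c → ℕ) (f : Fin c → ℝ) : ℕ → ℝ := Function.extend gs f 0

theorem ug_gs {c : ℕ} {gs : Fin c → ℕ} (h : Function.Injective gs) (f : Fin c → ℝ) (i : Fin c) :
    ug gs f (gs i) = f i := h.extend_apply f 0 i

theorem ug_bd {c : ℕ} {gs : Fin c → ℕ} (h : Function.Injective gs) {f : Fin c → ℝ} {B : ℝ}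
    (hB : 0 ≤ B) (hf : ∀ i, |f i| ≤ B) (u : ℕ) : |ug gs f u| ≤ B := by
  by_cases hu : ∃ i, gs i = u
  · obtain ⟨i, rfl⟩ := hu
    rw [ug_gs h]
    exact hf i
  · unfold ug
    rw [Function.extend_apply' _ _ _ hu, Pi.zero_apply, abs_zero]
    exact hB

section

variable {D : NDat2} {n K K' J a₀ w₀ z M w i j r r' r'' y X : ℕ} {lam gam : ℕ → ℝ}
  {κ C₁ C : ℝ} {q : D.Ω → ℝ} {E : D.Ω → Prop} {P : D.Γ × D.Γ → ℕ → PN}
  {S : D.Ω → ℕ → ℕ → ℝ} {c k : ℕ} {ys : Fin k → ℕ} {gs : Fin c → ℕ}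
  (H : Hyp D n K K' J a₀ w₀ z M w i j r r' r'' y X lam gam κ C₁ C q E P S ys gs)

include H

open Classical in
/-- The sum over the group up to `gs l`. -/
theorem Hyp.sum_gl (l : Fin c) (φ : ℕ → ℝ) :
    ∑ u ∈ (range (gs l + 1)).filter (gr gam n), φ u = ∑ i ∈ univ.filter (fun i => i ≤ l),
      φ (gs i) := by
  have h1 : (range (gs l + 1)).filter (gr gam n) =
      (univ.filter (fun i : Fin c => i ≤ l)).map ⟨gs, H.gs_in.injective⟩ := by
    ext u
    simp only [mem_filter, mem_range, mem_map, mem_univ, true_and, Function.Embedding.coeFn_mk]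
    constructor
    · intro h
      obtain ⟨i, rfl⟩ := H.gs_on u h.2
      exact ⟨i, H.gs_in.le_iff_le.1 (by omega), rfl⟩
    · rintro ⟨v, h, rfl⟩
      have := H.gs_in.le_iff_le.2 h
      exact ⟨by omega, H.gs_gr v⟩
  rw [h1, Finset.sum_map]
  rfl

open Classical in
/-- The sum over the group, for a function with leading coordinate `l`. -/
theorem Hyp.sum_ug {l : Fin c} {f : Fin c → ℝ} (hf : ∀ i, l < i → f i = 0) (φ : ℕ → ℝ) :
    ∑ u ∈ (range (gs l + 1)).filter (gr gam n), ug gs f u * φ u = ∑ i, f i * φ (gs i) := by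
  rw [H.sum_gl l fun u => ug gs f u * φ u]
  have e : ∀ i, ug gs f (gs i) = f i := fun i => ug_gs H.gs_in.injective f i
  simp only [e]
  refine Finset.sum_subset (Finset.filter_subset _ _) fun i _ hi => ?_
  rw [mem_filter] at hi
  push Not at hi
  rw [hf i (hi (mem_univ i)), zero_mul]

open Classical in
/-- The sum over the slow coordinates. -/
theorem Hyp.sum_ys (m : ℕ) (φ : ℕ → ℝ) :
    ∑ u ∈ (range m).filter (sl gam n), φ u = ∑ a ∈ univ.filter (fun a => ys a < m),
      φ (ys a) := by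
  have h1 : (range m).filter (sl gam n) =
      (univ.filter (fun a : Fin k => ys a < m)).map ⟨ys, H.ys_in⟩ := by
    ext u
    simp only [mem_filter, mem_range, mem_map, mem_univ, true_and, Function.Embedding.coeFn_mk]
    constructor
    · intro h
      obtain ⟨i, rfl⟩ := H.ys_on u h.2
      exact ⟨i, h.1, rfl⟩
    · rintro ⟨v, h, rfl⟩
      exact ⟨h, H.ys_sl v⟩
  rw [h1, Finset.sum_map]
  rfl

end

/-! ### The known covectors with a later leading coordinate -/

/-- **Small coefficients**: the sum vanishes after `l`. -/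
theorem tri_small {c : ℕ} {Fz : Finset (Fin c)} {f : Fin c → Fin c → ℝ} {G ε : ℝ} {l : Fin c}
    {r : Fin c → ℝ} (hG : 0 ≤ G) (hε : 0 ≤ ε) (hf : ∀ g ∈ Fz, Ld g (f g) ∧ ∀ i, |f g i| ≤ G)
    (h : ∀ i, l < i → |∑ g ∈ Fz, r g * f g i| ≤ ε) :
    ∀ g ∈ Fz, l < g → |r g| ≤ (1 + c * G) ^ c * ε := by
  have h1 : (1 : ℝ) ≤ 1 + c * G := by
    have : 0 ≤ (c : ℝ) * G := by positivity
    linarith
  have key : ∀ N : ℕ, ∀ g ∈ Fz, l < g → c ≤ g.1 + N → |r g| ≤ (1 + c * G) ^ N * ε := by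
    intro N
    induction N with
    | zero =>
      intro g _ _ hc
      have := g.2
      omega
    | succ N ih =>
      intro g hg hlg hc
      have e1 : ∑ g' ∈ Fz, r g' * f g' g = r g + ∑ g' ∈ Fz.erase g, r g' * f g' g := by
        rw [← Finset.add_sum_erase _ _ hg, (hf g hg).1.1, mul_one]
      have e2 : |∑ g' ∈ Fz.erase g, r g' * f g' g| ≤ c * (((1 + c * G) ^ N * ε) * G) := by
        refine (Finset.abs_sum_le_sum_abs _ _).trans ?_
        have f1 : ∀ g' ∈ Fz.erase g, |r g' * f g' g| ≤ ((1 + c * G) ^ N * ε) * G := by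
          intro g' hg'
          rw [Finset.mem_erase] at hg'
          rcases lt_or_gt_of_ne hg'.1 with h2 | h2
          · rw [(hf g' hg'.2).1.2 g h2, mul_zero, abs_zero]
            positivity
          · rw [abs_mul]
            exact mul_le_mul (ih g' hg'.2 (hlg.trans h2) (by
              have : g.1 < g'.1 := h2
              omega)) ((hf g' hg'.2).2 g) (abs_nonneg _) (by positivity)
        refine (Finset.sum_le_sum f1).trans ?_
        rw [Finset.sum_const, nsmul_eq_mul]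
        refine mul_le_mul_of_nonneg_right ?_ (by positivity)
        have : #(Fz.erase g) ≤ c := (Finset.card_le_univ _).trans (Fintype.card_fin c).le
        exact_mod_cast this
      have e3 := h g hlg
      rw [e1] at e3
      have e4 : |r g| ≤ ε + c * (((1 + c * G) ^ N * ε) * G) := by
        rw [abs_le] at e2 e3 ⊢
        constructor <;> linarith [e2.1, e2.2, e3.1, e3.2]
      have f2 : (1 : ℝ) ≤ (1 + c * G) ^ N := one_le_pow₀ h1
      rw [pow_succ]
      nlinarith
  intro g hg hlg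
  exact key c g hg hlg (by omega)

/-- The known covectors before `l` suffice. -/
theorem cut_sum {c : ℕ} {Fz : Finset (Fin c)} {f : Fin c → Fin c → ℝ} {G ε : ℝ} {l : Fin c}
    {r v : Fin c → ℝ} (hG : 0 ≤ G) (hε : 0 ≤ ε) (hl : l ∉ Fz)
    (hf : ∀ g ∈ Fz, Ld g (f g) ∧ ∀ i, |f g i| ≤ G) (hv : ∀ i, l < i → v i = 0)
    (h : ∀ i, |v i + ∑ g ∈ Fz, r g * f g i| ≤ ε) (i : Fin c) :
    |v i + ∑ g ∈ Fz.filter (fun g => g < l), r g * f g i| ≤
      ε + c * ((1 + c * G) ^ c * ε * G) := by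
  have h1 := tri_small hG hε hf (l := l) (r := r) (fun i hi => by
    have := h i
    rwa [hv i hi, zero_add] at this)
  have e1 : ∑ g ∈ Fz, r g * f g i = ∑ g ∈ Fz.filter (fun g => g < l), r g * f g i +
      ∑ g ∈ Fz.filter (fun g => ¬ g < l), r g * f g i :=
    (Finset.sum_filter_add_sum_filter_not _ _ _).symm
  have e2 : |∑ g ∈ Fz.filter (fun g => ¬ g < l), r g * f g i| ≤
      c * ((1 + c * G) ^ c * ε * G) := by
    refine (Finset.abs_sum_le_sum_abs _ _).trans ?_
    have f1 : ∀ g ∈ Fz.filter (fun g => ¬ g < l), |r g * f g i| ≤ (1 + c * G) ^ c * ε * G := by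
      intro g hg
      rw [mem_filter] at hg
      have hne : g ≠ l := fun h => hl (h ▸ hg.1)
      have hlg : l < g := lt_of_le_of_ne (not_lt.1 hg.2) (Ne.symm hne)
      rw [abs_mul]
      exact mul_le_mul (h1 g hg.1 hlg) ((hf g hg.1).2 i) (abs_nonneg _) (by positivity)
    refine (Finset.sum_le_sum f1).trans ?_
    rw [Finset.sum_const, nsmul_eq_mul]
    refine mul_le_mul_of_nonneg_right ?_ (by positivity)
    have : #(Fz.filter (fun g => ¬ g < l)) ≤ c :=
      (Finset.card_le_univ _).trans (Fintype.card_fin c).le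
    exact_mod_cast this
  have e3 := h i
  rw [e1] at e3
  rw [abs_le] at e2 e3 ⊢
  constructor <;> linarith [e2.1, e2.2, e3.1, e3.2]

end Pool.P4
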