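import Pool.Agent.H52.P4.Glue0

/-!
# The label of a cell: the known covectors on the thin box

`brk_bd`: a known covector on a box, relative to the own sheet. `dif_LM`: the difference of the
total functional and of the functional of the line.
-/

set_option autoImplicit false

namespace Pool.P4

open Finset Real MvPolynomial
open Pool.Agent.H49.Ent Pool.Agent.H32.Dense Pool.STK Pool.STAT Pool.MIC.Frm Pool.FRM
open Pool.MIC.Fru (gw nat_gw nat_gw0 atT_tri atT_deg)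
open Pool.LBL (Ld)
open Pool.BFL (Pb)

/-- Linear combinations. -/
theorem lin_split {c : ℕ} {ι : Type} (F : Finset ι) (r : ι → ℝ) (v : Fin c → ℝ)
    (f : ι → Fin c → ℝ) (h : Fin c → ℝ) :
    ∑ i, (v i - ∑ g ∈ F, r g * f g i) * h i =
      ∑ i, v i * h i - ∑ g ∈ F, r g * ∑ i, f g i * h i := by
  have e1 : ∀ i, (v i - ∑ g ∈ F, r g * f g i) * h i =
      v i * h i - ∑ g ∈ F, r g * (f g i * h i) := by
    intro i
    rw [sub_mul, Finset.sum_mul]
    congr 1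
    exact Finset.sum_congr rfl fun g _ => by ring
  simp only [e1]
  rw [Finset.sum_sub_distrib, Finset.sum_comm]
  congr 1
  refine Finset.sum_congr rfl fun g _ => ?_
  rw [Finset.mul_sum]

/-- A sum of bounded terms. -/
theorem sum_le_c {c : ℕ} {F : Finset (Fin c)} {x : Fin c → ℝ} {B : ℝ} (hB : 0 ≤ B)
    (h : ∀ g ∈ F, |x g| ≤ B) : |∑ g ∈ F, x g| ≤ c * B := by
  refine (Finset.abs_sum_le_sum_abs _ _).trans ((Finset.sum_le_sum h).trans ?_)
  rw [Finset.sum_const, nsmul_eq_mul]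
  refine mul_le_mul_of_nonneg_right ?_ hB
  have : #F ≤ c := (Finset.card_le_univ _).trans (Fintype.card_fin c).le
  exact_mod_cast this

/-- **A known covector on a box**, relative to the own sheet. -/
theorem brk_bd {c k : ℕ} {A : Finset (Fin k)} {f : Fin c → ℝ} {s : Fin c → Fin k → ℝ}
    {P0 P1 : Fin k → ℝ} {xb xe : Fin c → ℝ} {yb ye : Fin k → ℝ} {t tb ρ ε G B B₀ : ℝ}
    (hε : 0 ≤ ε) (hB₀ : 0 ≤ B₀) (hG : 0 ≤ G) (hB : 0 ≤ B) (hρ : 0 ≤ ρ)
    (hP : ∀ a, a ∉ A → P0 a = 0 ∧ P1 a = 0) (hP1 : ∀ a, |P1 a| ≤ G)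
    (hyb : ∀ a ∈ A, |yb a| ≤ B) (hye : ∀ a, |ye a| ≤ B₀) (ht : |t - tb| ≤ ρ)
    (haf : ∀ a, |∑ i, f i * s i a - (P0 a + P1 a * t)| ≤ ε)
    (hbx : |∑ i, f i * (xb i - xe i) - ∑ a, (P0 a + P1 a * t) * (yb a - ye a)| ≤ ε) :
    |∑ i, f i * (xb i - (xe i - ∑ a, s i a * ye a)) - ∑ a ∈ A, (P0 a + P1 a * tb) * yb a| ≤
      ε + k * (ε * B₀) + k * (G * ρ * B) := by
  have e1 : ∑ i, f i * (xb i - (xe i - ∑ a, s i a * ye a)) =
      ∑ i, f i * (xb i - xe i) + ∑ a, (∑ i, f i * s i a) * ye a := by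
    have f1 : ∀ i, f i * (xb i - (xe i - ∑ a, s i a * ye a)) =
        f i * (xb i - xe i) + ∑ a, f i * s i a * ye a := by
      intro i
      have : ∑ a, f i * s i a * ye a = f i * ∑ a, s i a * ye a := by
        rw [Finset.mul_sum]
        exact Finset.sum_congr rfl fun a _ => by ring
      rw [this]
      ring
    simp only [f1]
    rw [Finset.sum_add_distrib]
    congr 1
    rw [Finset.sum_comm]
    exact Finset.sum_congr rfl fun a _ => by rw [Finset.sum_mul]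
  have e2 : ∑ a, (P0 a + P1 a * t) * (yb a - ye a) =
      ∑ a ∈ A, (P0 a + P1 a * t) * yb a - ∑ a, (P0 a + P1 a * t) * ye a := by
    have f1 : ∑ a ∈ A, (P0 a + P1 a * t) * yb a = ∑ a, (P0 a + P1 a * t) * yb a := by
      refine Finset.sum_subset (Finset.subset_univ _) fun a _ ha => ?_
      rw [(hP a ha).1, (hP a ha).2]
      ring
    rw [f1, ← Finset.sum_sub_distrib]
    exact Finset.sum_congr rfl fun a _ => by ring
  have k1 : |∑ a, (∑ i, f i * s i a) * ye a - ∑ a, (P0 a + P1 a * t) * ye a| ≤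
      k * (ε * B₀) := by
    rw [← Finset.sum_sub_distrib]
    refine sum_le_c (by positivity) fun a _ => ?_
    rw [← sub_mul, abs_mul]
    exact mul_le_mul (haf a) (hye a) (abs_nonneg _) hε
  have k2 : |∑ a ∈ A, (P0 a + P1 a * t) * yb a - ∑ a ∈ A, (P0 a + P1 a * tb) * yb a| ≤
      k * (G * ρ * B) := by
    rw [← Finset.sum_sub_distrib]
    refine sum_le_c (by positivity) fun a ha => ?_
    have : (P0 a + P1 a * t) * yb a - (P0 a + P1 a * tb) * yb a = P1 a * (t - tb) * yb a := by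
      ring
    rw [this, abs_mul, abs_mul]
    exact mul_le_mul (mul_le_mul (hP1 a) ht (abs_nonneg _) hG) (hyb a ha) (abs_nonneg _)
      (by positivity)
  rw [e1]
  rw [e2] at hbx
  rw [abs_le] at hbx k1 k2 ⊢
  constructor
  · linarith [hbx.1, k1.1, k2.1]
  · linarith [hbx.2, k1.2, k2.2]

section

variable {D : NDat2} {n K K' J a₀ w₀ z M w i j r r' r'' y X : ℕ} {lam gam : ℕ → ℝ}
  {κ C₁ C : ℝ} {q : D.Ω → ℝ} {E : D.Ω → Prop} {P : D.Γ × D.Γ → ℕ → PN}
  {S : D.Ω → ℕ → ℕ → ℝ} {c k : ℕ} {ys : Fin k → ℕ} {gs : Fin c → ℕ}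
  (H : Hyp D n K K' J a₀ w₀ z M w i j r r' r'' y X lam gam κ C₁ C q E P S ys gs)

include H

open Classical in
/-- The height over the own sheet, over `Fin k`. -/
theorem Hyp.nn_eq (ω : D.Ω) (u : ℕ) : nn D n i j r gam P S ω u =
    ze D i j r P ω u - ∑ a, S ω u (ys a) * ze D i j r P ω (ys a) := by
  unfold nn
  rw [H.sum_ys n fun k => S ω u k * ze D i j r P ω k]
  congr 1
  refine Finset.sum_congr ?_ fun _ _ => rfl
  refine Finset.filter_true_of_mem fun a _ => ?_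
  exact (H.ys_sl a).2.1

open Classical in
/-- The functional of a covector with leading coordinate `l`. -/
theorem Hyp.LM_eq {l : Fin c} {f : Fin c → ℝ} (hf : ∀ i, l < i → f i = 0) (g0 g1 : Fin k → ℝ)
    {t₀ : D.Ω → ℝ} {nv e0 e1 : D.Ω → ℕ → ℝ} {ω : D.Ω} (h1 : nv ω = ug gs f)
    (h2 : e0 ω = ug ys g0) (h3 : e1 ω = ug ys g1) (x : ℕ → ℝ) :
    LM D i j r P (sl gam n) (gr gam n) (gs l) w (nn D n i j r gam P S) t₀ nv e0 e1 ω x =
      ∑ u, f u * (nat (D.g i j) (P (bb D i j r ω)) x (gs u) -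
        (ze D i j r P ω (gs u) - ∑ a, S ω (gs u) (ys a) * ze D i j r P ω (ys a))) -
      ∑ a ∈ univ.filter (fun a => ys a < gs l), (g0 a + g1 a * (2 ^ w * (x 0 - t₀ ω))) *
        nat (D.g i j) (P (bb D i j r ω)) x (ys a) := by
  unfold LM Lam lc
  rw [h1, h2, h3, H.sum_ug hf, H.sum_ug hf, H.sum_ys (gs l) fun k =>
    (ug ys g0 k + ug ys g1 k * (2 ^ w * (x 0 - t₀ ω))) * nat (D.g i j) (P (bb D i j r ω)) x k]
  have e : ∀ (g : Fin k → ℝ) a, ug ys g (ys a) = g a := fun g a => ug_gs H.ys_in g a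
  simp only [e]
  have e2 : ∑ u, f u * (nat (D.g i j) (P (bb D i j r ω)) x (gs u) -
      (ze D i j r P ω (gs u) - ∑ a, S ω (gs u) (ys a) * ze D i j r P ω (ys a))) =
      ∑ u, f u * nat (D.g i j) (P (bb D i j r ω)) x (gs u) -
      ∑ u, f u * nn D n i j r gam P S ω (gs u) := by
    rw [← Finset.sum_sub_distrib]
    refine Finset.sum_congr rfl fun u _ => ?_
    rw [H.nn_eq ω (gs u)]
    ring
  rw [e2]
  ring

open Classical in
/-- **The difference of the total functional and of the functional of the line.** -/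
theorem Hyp.dif_LM {l : Fin c} {F : Finset (Fin c)} {v : Fin c → ℝ} {f : Fin c → Fin c → ℝ}
    {rr : Fin c → ℝ} {g0 g1 : Fin k → ℝ} {p0 p1 : Fin c → Fin k → ℝ}
    (hv : ∀ i, l < i → v i = 0) (hf : ∀ g ∈ F, ∀ i, l < i → f g i = 0)
    {t₀ : D.Ω → ℝ} {nv e0 e1 nvt e0t e1t : D.Ω → ℕ → ℝ} {ω : D.Ω} (h1 : nv ω = ug gs v)
    (h2 : e0 ω = ug ys g0) (h3 : e1 ω = ug ys g1)
    (h1t : nvt ω = ug gs (fun u => v u - ∑ g ∈ F, rr g * f g u))
    (h2t : e0t ω = ug ys (fun a => g0 a - ∑ g ∈ F, rr g * p0 g a))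
    (h3t : e1t ω = ug ys (fun a => g1 a - ∑ g ∈ F, rr g * p1 g a)) (x : ℕ → ℝ) :
    LM D i j r P (sl gam n) (gr gam n) (gs l) w (nn D n i j r gam P S) t₀ nvt e0t e1t ω x -
      LM D i j r P (sl gam n) (gr gam n) (gs l) w (nn D n i j r gam P S) t₀ nv e0 e1 ω x =
      - ∑ g ∈ F, rr g * (∑ u, f g u * (nat (D.g i j) (P (bb D i j r ω)) x (gs u) -
          (ze D i j r P ω (gs u) - ∑ a, S ω (gs u) (ys a) * ze D i j r P ω (ys a))) -
        ∑ a ∈ univ.filter (fun a => ys a < gs l), (p0 g a + p1 g a * (2 ^ w * (x 0 - t₀ ω))) *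
          nat (D.g i j) (P (bb D i j r ω)) x (ys a)) := by
  rw [H.LM_eq hv g0 g1 h1 h2 h3 x, H.LM_eq (l := l) (f := fun u => v u - ∑ g ∈ F, rr g * f g u)
    (fun i hi => by
      rw [hv i hi, Finset.sum_eq_zero fun g hg => by rw [hf g hg i hi, mul_zero], sub_zero]) _ _
    h1t h2t h3t x, lin_split]
  obtain ⟨A, hA⟩ : ∃ A : Finset (Fin k), A = univ.filter (fun a => ys a < gs l) := ⟨_, rfl⟩
  obtain ⟨T, hT⟩ : ∃ T : ℝ, T = 2 ^ w * (x 0 - t₀ ω) := ⟨_, rfl⟩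
  obtain ⟨Y, hY⟩ : ∃ Y : Fin k → ℝ, Y = fun a => nat (D.g i j) (P (bb D i j r ω)) x (ys a) :=
    ⟨_, rfl⟩
  have eY : ∀ a, nat (D.g i j) (P (bb D i j r ω)) x (ys a) = Y a := fun a => by rw [hY]
  simp only [eY]
  rw [← hA, ← hT]
  have e1 : ∑ a ∈ A, (g0 a - ∑ g ∈ F, rr g * p0 g a + (g1 a - ∑ g ∈ F, rr g * p1 g a) * T) *
      Y a = ∑ a ∈ A, (g0 a + g1 a * T) * Y a -
        ∑ g ∈ F, rr g * ∑ a ∈ A, (p0 g a + p1 g a * T) * Y a := by
    have f1 : ∀ a, (g0 a - ∑ g ∈ F, rr g * p0 g a + (g1 a - ∑ g ∈ F, rr g * p1 g a) * T) *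
        Y a = (g0 a + g1 a * T) * Y a - ∑ g ∈ F, rr g * ((p0 g a + p1 g a * T) * Y a) := by
      intro a
      have f2 : ∑ g ∈ F, rr g * ((p0 g a + p1 g a * T) * Y a) =
          (∑ g ∈ F, rr g * p0 g a) * Y a + (∑ g ∈ F, rr g * p1 g a) * T * Y a := by
        rw [Finset.sum_mul, mul_assoc, Finset.sum_mul, ← Finset.sum_add_distrib]
        exact Finset.sum_congr rfl fun g _ => by ring
      rw [f2]
      ring
    simp only [f1]
    rw [Finset.sum_sub_distrib, Finset.sum_comm]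
    congr 1
    exact Finset.sum_congr rfl fun g _ => by rw [Finset.mul_sum]
  rw [e1]
  have e2 : ∀ (a b : Fin c → ℝ), ∑ g ∈ F, rr g * (a g - b g) =
      ∑ g ∈ F, rr g * a g - ∑ g ∈ F, rr g * b g := fun a b => by
    rw [← Finset.sum_sub_distrib]
    exact Finset.sum_congr rfl fun g _ => by ring
  rw [e2]
  ring

end

end Pool.P4
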