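import Pool.Agent.H41.FRM.Cmp

/-!
# The affine part of a polynomial with two scales

A polynomial which is bounded at a coarse scale is affine at a fine scale, up to the square of the
ratio of the scales.
-/

set_option autoImplicit false

namespace Pool.P4

open Finset Real MvPolynomial
open Pool.STK Pool.STAT Pool.MIC.Frm Pool.FRM
open Pool.SYS35 (nrm_nonneg')

/-- The affine part, in the variables before `m`. -/
noncomputable def aff (F : PN) (m : ℕ) (ζ : ℕ → ℝ) : ℝ :=
  coeff 0 F + ∑ k ∈ range m, coeff (Finsupp.single k 1) F * ζ k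

/-- The exponents of degree at most one. -/
theorem small_exp {m : ℕ} {F : PN} (hv : F.vars ⊆ range m) {α : ℕ →₀ ℕ} (hα : α ∈ F.support)
    (h : α.degree < 2) : α = 0 ∨ ∃ k < m, α = Finsupp.single k 1 := by
  rcases Nat.lt_or_ge α.degree 1 with h1 | h1
  · exact Or.inl ((Finsupp.degree_eq_zero_iff α).1 (by omega))
  · right
    have h2 : α.degree = 1 := by omega
    obtain ⟨k, hk⟩ := (Finsupp.sum_eq_one_iff α).1 h2
    refine ⟨k, ?_, hk⟩
    have h3 : k ∈ α.support := by
      rw [hk, Finsupp.mem_support_iff, Finsupp.single_eq_same]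
      exact one_ne_zero
    exact Pool.SYS35.vars_of_mem hv hα h3

/-- **The affine part.** -/
theorem aff_le {m K : ℕ} {F : PN} (hv : F.vars ⊆ range m) (hK : F.totalDegree ≤ K)
    (d d₁ : ℕ → ℕ) {ρ B S : ℝ} (hB : 1 ≤ B) (hρ : 0 ≤ ρ) (hρ1 : ρ ≤ 1)
    (hd : ∀ k < m, (1 : ℝ) / 2 ^ d k ≤ ρ * (1 / 2 ^ d₁ k)) (hS : nrm d₁ (1 / 2) F ≤ S)
    {ζ : ℕ → ℝ} (hζ : ∀ k < m, |ζ k| ≤ B / 2 ^ d k) :
    |eval ζ F - aff F m ζ| ≤ B ^ K * ρ ^ 2 * S := by
  classical
  have hB0 : 0 ≤ B := by linarith
  obtain ⟨f, hf⟩ : ∃ f : (ℕ →₀ ℕ) → ℝ, f = fun α => coeff α F * ∏ i ∈ α.support, ζ i ^ α i :=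
    ⟨_, rfl⟩
  have e0 : eval ζ F = ∑ α ∈ F.support, f α := by
    rw [eval_eq, hf]
  -- the part of degree at most one
  have e1 : ∑ α ∈ F.support with α.degree < 2, f α = aff F m ζ := by
    obtain ⟨T, hT⟩ : ∃ T : Finset (ℕ →₀ ℕ), T = insert 0 ((range m).image
      fun k => Finsupp.single k 1) := ⟨_, rfl⟩
    have hs : F.support.filter (fun α => α.degree < 2) ⊆ T := by
      intro α hα
      rw [mem_filter] at hα
      rw [hT, mem_insert, mem_image]
      rcases small_exp hv hα.1 hα.2 with h | ⟨k, hk, h⟩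
      · exact Or.inl h
      · exact Or.inr ⟨k, mem_range.2 hk, h.symm⟩
    have hdeg : ∀ α ∈ T, α.degree < 2 := by
      intro α hα
      rw [hT, mem_insert, mem_image] at hα
      rcases hα with h | ⟨k, _, h⟩
      · rw [h, map_zero]
        exact two_pos
      · rw [← h, Finsupp.degree_single]
        exact one_lt_two
    have h1 : ∑ α ∈ F.support with α.degree < 2, f α = ∑ α ∈ T, f α := by
      refine Finset.sum_subset hs fun α hα hn => ?_
      have : α ∉ F.support := fun h => hn (mem_filter.2 ⟨h, hdeg α hα⟩)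
      rw [hf]
      simp only
      rw [notMem_support_iff.1 this, zero_mul]
    rw [h1, hT, Finset.sum_insert, Finset.sum_image]
    · unfold aff
      rw [hf]
      simp only [Finsupp.support_zero, Finset.prod_empty, mul_one]
      congr 1
      refine Finset.sum_congr rfl fun k _ => ?_
      rw [Finsupp.support_single k one_ne_zero, Finset.prod_singleton, Finsupp.single_eq_same,
        pow_one]
    · intro a _ b _ h
      simp only at h
      exact (Finsupp.single_left_injective one_ne_zero) h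
    · rw [mem_image]
      rintro ⟨k, _, h⟩
      have := congrArg (fun g : ℕ →₀ ℕ => g k) h
      simp only [Finsupp.single_eq_same, Finsupp.coe_zero, Pi.zero_apply] at this
      exact one_ne_zero this
  have e2 : eval ζ F - aff F m ζ = ∑ α ∈ F.support with ¬ α.degree < 2, f α := by
    rw [e0, ← e1, ← Finset.sum_filter_add_sum_filter_not F.support (fun α => α.degree < 2) f]
    ring
  rw [e2]
  have h4 : ∀ α ∈ F.support.filter (fun α => ¬ α.degree < 2), |f α| ≤
      B ^ K * ρ ^ 2 * (|coeff α F| * (1 / 2) ^ Finsupp.weight d₁ α) := by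
    intro α hα
    rw [mem_filter] at hα
    have hle : ∀ i ∈ α.support, i < m := fun i hi => Pool.SYS35.vars_of_mem hv hα.1 hi
    rw [hf]
    simp only
    rw [abs_mul, Finset.abs_prod]
    have h1 : (∏ i ∈ α.support, |ζ i ^ α i|) ≤
        ∏ i ∈ α.support, (B ^ α i * (ρ ^ α i * (1 / 2) ^ (α i * d₁ i))) := by
      refine Finset.prod_le_prod (fun _ _ => abs_nonneg _) fun i hi => ?_
      rw [abs_pow, mul_comm (α i) (d₁ i), pow_mul, ← mul_pow, ← mul_pow]
      refine pow_le_pow_left₀ (abs_nonneg _) ?_ _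
      rw [half_pow]
      refine (hζ i (hle i hi)).trans ?_
      have := mul_le_mul_of_nonneg_left (hd i (hle i hi)) hB0
      rw [mul_one_div] at this
      exact this
    have h2 : (∏ i ∈ α.support, (B ^ α i * (ρ ^ α i * (1 / 2 : ℝ) ^ (α i * d₁ i)))) =
        B ^ (∑ i ∈ α.support, α i) * (ρ ^ (∑ i ∈ α.support, α i) *
          (1 / 2) ^ Finsupp.weight d₁ α) := by
      rw [Finset.prod_mul_distrib, Finset.prod_mul_distrib, Finset.prod_pow_eq_pow_sum,
        Finset.prod_pow_eq_pow_sum, Finset.prod_pow_eq_pow_sum]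
      congr 2
    have h3 : (∑ i ∈ α.support, α i) ≤ K := (le_totalDegree hα.1).trans hK
    have h5 : 2 ≤ ∑ i ∈ α.support, α i := by
      have := hα.2
      rw [Finsupp.degree_apply] at this
      omega
    have h6 : ρ ^ (∑ i ∈ α.support, α i) ≤ ρ ^ 2 := pow_le_pow_of_le_one hρ hρ1 h5
    calc |coeff α F| * ∏ i ∈ α.support, |ζ i ^ α i|
        ≤ |coeff α F| * (B ^ (∑ i ∈ α.support, α i) * (ρ ^ (∑ i ∈ α.support, α i) *
          (1 / 2) ^ Finsupp.weight d₁ α)) :=
          mul_le_mul_of_nonneg_left (h1.trans h2.le) (abs_nonneg _)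
      _ ≤ |coeff α F| * (B ^ K * (ρ ^ 2 * (1 / 2) ^ Finsupp.weight d₁ α)) := by
          refine mul_le_mul_of_nonneg_left ?_ (abs_nonneg _)
          exact mul_le_mul (pow_le_pow_right₀ hB h3)
            (mul_le_mul_of_nonneg_right h6 (by positivity)) (by positivity) (by positivity)
      _ = _ := by ring
  refine (Finset.abs_sum_le_sum_abs _ _).trans ((Finset.sum_le_sum h4).trans ?_)
  rw [← Finset.mul_sum]
  have h7 : ∑ α ∈ F.support with ¬ α.degree < 2, |coeff α F| * (1 / 2) ^ Finsupp.weight d₁ α ≤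
      nrm d₁ (1 / 2) F := by
    unfold nrm
    refine Finset.sum_le_sum_of_subset_of_nonneg (Finset.filter_subset _ _) fun α _ _ => ?_
    positivity
  exact mul_le_mul_of_nonneg_left (h7.trans hS) (by positivity)

/-- The coefficients of the affine part. -/
theorem aff_coeff {F : PN} (d : ℕ → ℕ) {S : ℝ} (hS : nrm d (1 / 2) F ≤ S) (k : ℕ) :
    |coeff (Finsupp.single k 1) F| ≤ S * 2 ^ d k := by
  have h := (coeff_le_nrm d (by norm_num : (0 : ℝ) ≤ 1 / 2) F (Finsupp.single k 1)).trans hS
  rw [Finsupp.weight_single, one_smul, half_pow, mul_one_div, div_le_iff₀ (by positivity)] at h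
  exact h

theorem aff_sub (F : PN) (m : ℕ) (ζ ζ' : ℕ → ℝ) :
    aff F m ζ - aff F m ζ' = ∑ k ∈ range m, coeff (Finsupp.single k 1) F * (ζ k - ζ' k) := by
  unfold aff
  have : ∑ k ∈ range m, coeff (Finsupp.single k 1) F * (ζ k - ζ' k) =
      ∑ k ∈ range m, coeff (Finsupp.single k 1) F * ζ k -
        ∑ k ∈ range m, coeff (Finsupp.single k 1) F * ζ' k := by
    rw [← Finset.sum_sub_distrib]
    exact Finset.sum_congr rfl fun k _ => by ring
  rw [this]
  ring

end Pool.P4
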