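import Pool.Agent.H19.STAT.Sys2

/-!
# A new label from a deterministic polynomial

`E` is an event of probability `≥ η'` and `H` a polynomial of the sample. On `E`, `H` is a function
of the line and of the window, it contains the own point, and two samples with the same exact point
have the same `H` up to the precision on the natural box. Then `H` is a new label.
-/

set_option autoImplicit false

namespace Pool.P4

open Finset MvPolynomial
open Pool.Agent.H49.Ent Pool.Agent.H32.Dense Pool.STK Pool.STAT Pool.KS3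
open Pool.BFL (Pb)

open Classical in
/-- The value of `H` at one sample of the event with the value `x` of `f`. -/
noncomputable def pick {Ω Ξ : Type} (S : Ω → Prop) (f : Ω → Ξ) (H : Ω → PN) (x : Ξ) : PN :=
  if h : ∃ ω, S ω ∧ f ω = x then H h.choose else 0

theorem pick_spec {Ω Ξ : Type} {S : Ω → Prop} {f : Ω → Ξ} {H : Ω → PN} {ω : Ω} (hω : S ω) :
    ∃ ω', S ω' ∧ f ω' = f ω ∧ pick S f H (f ω) = H ω' := by
  have h : ∃ ω', S ω' ∧ f ω' = f ω := ⟨ω, hω, rfl⟩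
  refine ⟨h.choose, h.choose_spec.1, h.choose_spec.2, ?_⟩
  unfold pick
  rw [dif_pos h]

theorem pick_deg {Ω Ξ : Type} {S : Ω → Prop} {f : Ω → Ξ} {H : Ω → PN} {K' l : ℕ}
    (h : ∀ ω, S ω → (H ω).totalDegree ≤ K' ∧ (H ω).vars ⊆ range l) (x : Ξ) :
    (pick S f H x).totalDegree ≤ K' ∧ (pick S f H x).vars ⊆ range l := by
  unfold pick
  split_ifs with hx
  · exact h _ hx.choose_spec.1
  · rw [totalDegree_zero, vars_0]
    exact ⟨Nat.zero_le _, Finset.empty_subset _⟩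

/-- **A new label.** -/
theorem lab_of_det {D : NDat2} {J a₀ w₀ z i j l A K' : ℕ} {η' : ℝ} {q : D.Ω → ℝ}
    (hq : ∀ ω, 0 ≤ q ω)
    (hnb : ∀ ω, 0 < q ω → D.NB i j (a₀ + i * z) l ω (D.X ω))
    (E : D.Ω → Prop) (hE : η' ≤ Pb q E) (H : D.Ω → PN)
    (hw : ∀ ω ω', 0 < q ω → 0 < q ω' → E ω → E ω' →
      D.wn J (w₀ + j * z) ω = D.wn J (w₀ + j * z) ω' → H ω = H ω')
    (hd : ∀ ω, 0 < q ω → E ω → (H ω).totalDegree ≤ K' ∧ (H ω).vars ⊆ range l)
    (hX : ∀ ω, 0 < q ω → E ω → |D.X ω l - eval (D.X ω) (H ω)| ≤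
      1 / 2 * (1 / 2 ^ (D.g i j l + A * z)))
    (hm : ∀ ω ω', 0 < q ω → 0 < q ω' → E ω → E ω' → D.pt ω = D.pt ω' → ∀ b : ℕ → ℝ,
      D.NB i j (a₀ + i * z) l ω b → |eval b (H ω) - eval b (H ω')| ≤
        1 / 2 * (1 / 2 ^ (D.g i j l + A * z))) :
    D.NewLab2 J a₀ w₀ z i j l A K' η' q := by
  classical
  obtain ⟨S, hS⟩ : ∃ S : D.Ω → Prop, S = fun ω => 0 < q ω ∧ E ω := ⟨_, rfl⟩
  have hd' : ∀ ω, S ω → (H ω).totalDegree ≤ K' ∧ (H ω).vars ⊆ range l := fun ω h => by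
    rw [hS] at h
    exact hd ω h.1 h.2
  refine ⟨pick S D.pt H, pick S (D.wn J (w₀ + j * z)) H, pick_deg hd', pick_deg hd', ?_⟩
  refine hE.trans ?_
  unfold Pb
  refine Finset.sum_le_sum fun ω _ => ?_
  by_cases h1 : E ω
  · rw [if_pos h1]
    rcases (hq ω).eq_or_lt with h0 | h0
    · rw [← h0]
      split_ifs
      exacts [le_rfl, le_rfl]
    have hSω : S ω := by rw [hS]; exact ⟨h0, h1⟩
    rw [if_pos]
    obtain ⟨ω₁, a1, a2, a3⟩ := pick_spec (f := D.pt) (H := H) hSω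
    obtain ⟨ω₂, b1, b2, b3⟩ := pick_spec (f := D.wn J (w₀ + j * z)) (H := H) hSω
    rw [hS] at a1 b1
    rw [a3, b3, hw ω₂ ω b1.1 h0 b1.2 h1 b2]
    have hp := hm ω ω₁ h0 a1.1 h1 a1.2 a2.symm
    refine ⟨?_, fun b hb => ?_⟩
    · have e1 := hX ω h0 h1
      have e2 := hp (D.X ω) (hnb ω h0)
      calc |D.X ω l - eval (D.X ω) (H ω₁)|
          = |(D.X ω l - eval (D.X ω) (H ω)) + (eval (D.X ω) (H ω) - eval (D.X ω) (H ω₁))| := by
            ring_nf
        _ ≤ _ := abs_add_le _ _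
        _ ≤ 1 / 2 * (1 / 2 ^ (D.g i j l + A * z)) + 1 / 2 * (1 / 2 ^ (D.g i j l + A * z)) :=
            add_le_add e1 e2
        _ = _ := by ring
    · have e2 := hp b hb
      rw [abs_sub_comm]
      refine e2.trans ?_
      have : (0 : ℝ) ≤ 1 / 2 ^ (D.g i j l + A * z) := by positivity
      linarith
  · rw [if_neg h1]
    split_ifs
    exacts [hq ω, le_rfl]

end Pool.P4
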