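import Pool.Agent.H52.P4.Hln
import Pool.Agent.H52.P4.Lab

/-!
# The consumer: a new label from the covector

`LabB`: a new label on a family of boxes. `cons`: on an event, a visible covector which is the
image of a covector of the line, with slopes affine in the time: a new label at `(i, j + 1)`.
-/

set_option autoImplicit false

namespace Pool.P4

open Finset Real MvPolynomial
open Pool.Agent.H49.Ent Pool.Agent.H32.Dense Pool.STK Pool.STAT Pool.MIC.Frm Pool.FRM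
open Pool.MIC.Fru (gw nat_gw nat_gw0 atT_tri atT_deg)
open Pool.STAT.Glu (kN)
open Pool.BFL (Pb)

/-- A new label on the boxes `Bb`. -/
def LabB (D : NDat2) (J w₀ z i j l A K' : ℕ) (η' : ℝ) (q : D.Ω → ℝ)
    (Bb : D.Ω → (ℕ → ℝ) → Prop) : Prop :=
  ∃ (Gn : D.Ξ → PN) (Hn : D.Λ × ℕ → PN),
    (∀ x, (Gn x).totalDegree ≤ K' ∧ (Gn x).vars ⊆ range l) ∧
    (∀ x, (Hn x).totalDegree ≤ K' ∧ (Hn x).vars ⊆ range l) ∧
    η' ≤ Pb q (fun ω =>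
      |D.X ω l - eval (D.X ω) (Gn (D.pt ω))| ≤ 1 / 2 ^ (D.g i j l + A * z) ∧
      ∀ b : ℕ → ℝ, Bb ω b →
        |eval b (Gn (D.pt ω)) - eval b (Hn (D.wn J (w₀ + j * z) ω))| ≤
          1 / 2 ^ (D.g i j l + A * z))

/-- **A new label**, from polynomials of the samples. -/
theorem labB_of_det {D : NDat2} {J w₀ z i j l A K' : ℕ} {η' : ℝ} {q : D.Ω → ℝ}
    (hq : ∀ ω, 0 ≤ q ω) (Bb : D.Ω → (ℕ → ℝ) → Prop)
    (E : D.Ω → Prop) (hE : η' ≤ Pb q E) (hnb : ∀ ω, 0 < q ω → E ω → Bb ω (D.X ω))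
    (H : D.Ω → PN)
    (hw : ∀ ω ω', 0 < q ω → 0 < q ω' → E ω → E ω' →
      D.wn J (w₀ + j * z) ω = D.wn J (w₀ + j * z) ω' → H ω = H ω')
    (hd : ∀ ω, 0 < q ω → E ω → (H ω).totalDegree ≤ K' ∧ (H ω).vars ⊆ range l)
    (hX : ∀ ω, 0 < q ω → E ω → |D.X ω l - eval (D.X ω) (H ω)| ≤
      1 / 2 * (1 / 2 ^ (D.g i j l + A * z)))
    (hm : ∀ ω ω', 0 < q ω → 0 < q ω' → E ω → E ω' → D.pt ω = D.pt ω' → ∀ b : ℕ → ℝ,
      Bb ω b → |eval b (H ω) - eval b (H ω')| ≤ 1 / 2 * (1 / 2 ^ (D.g i j l + A * z))) :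
    LabB D J w₀ z i j l A K' η' q Bb := by
  classical
  obtain ⟨S, hS⟩ : ∃ S : D.Ω → Prop, S = fun ω => 0 < q ω ∧ E ω := ⟨_, rfl⟩
  have hd' : ∀ ω, S ω → (H ω).totalDegree ≤ K' ∧ (H ω).vars ⊆ range l := fun ω h => by
    rw [hS] at h
    exact hd ω h.1 h.2
  refine ⟨pick S D.pt H, pick S (D.wn J (w₀ + j * z)) H, pick_deg hd', pick_deg hd', ?_⟩
  refine hE.trans ?_
  unfold Pb
  refine Finset.sum_le_sum fun ω _ => ?_
  by_cases h1 : E ω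
  · rw [if_pos h1]
    rcases (hq ω).eq_or_lt with h0 | h0
    · rw [← h0]
      split_ifs
      exacts [le_rfl, le_rfl]
    have hSω : S ω := by rw [hS]; exact ⟨h0, h1⟩
    rw [if_pos]
    obtain ⟨ω₁, a1, a2, a3⟩ := pick_spec (f := D.pt) (H := H) hSω
    obtain ⟨ω₂, b1, b2, b3⟩ := pick_spec (f := D.wn J (w₀ + j * z)) (H := H) hSω
    rw [hS] at a1 b1
    rw [a3, b3, hw ω₂ ω b1.1 h0 b1.2 h1 b2]
    have hp := hm ω ω₁ h0 a1.1 h1 a1.2 a2.symm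
    refine ⟨?_, fun b hb => ?_⟩
    · have e1 := hX ω h0 h1
      have e2 := hp (D.X ω) (hnb ω h0 h1)
      calc |D.X ω l - eval (D.X ω) (H ω₁)|
          = |(D.X ω l - eval (D.X ω) (H ω)) + (eval (D.X ω) (H ω) - eval (D.X ω) (H ω₁))| := by
            ring_nf
        _ ≤ _ := abs_add_le _ _
        _ ≤ 1 / 2 * (1 / 2 ^ (D.g i j l + A * z)) + 1 / 2 * (1 / 2 ^ (D.g i j l + A * z)) :=
            add_le_add e1 e2
        _ = _ := by ring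
    · have e2 := hp b hb
      rw [abs_sub_comm]
      refine e2.trans ?_
      have : (0 : ℝ) ≤ 1 / 2 ^ (D.g i j l + A * z) := by positivity
      linarith
  · rw [if_neg h1]
    split_ifs
    exacts [hq ω, le_rfl]

/-- Shorter windows know longer windows. -/
theorem win_le {J w w' T T' : ℕ} (hw : w ≤ w') (hJ : w' ≤ J)
    (h : T / 2 ^ (J - w') = T' / 2 ^ (J - w')) : T / 2 ^ (J - w) = T' / 2 ^ (J - w) := by
  have e : (2 : ℕ) ^ (J - w) = 2 ^ (J - w') * 2 ^ (w' - w) := by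
    rw [← pow_add]
    congr 1
    omega
  rw [e, ← Nat.div_div_eq_div_mul, ← Nat.div_div_eq_div_mul, h]

theorem bb_wn {D : NDat2} {n K J a₀ w₀ z M : ℕ} {lam gam : ℕ → ℝ} {κ C₁ : ℝ} {q : D.Ω → ℝ}
    (hO : D.Ok2 n K J a₀ w₀ z M lam gam κ C₁ q) {i j : ℕ} (hi : i ≤ M) (hj : j + 1 ≤ M) (r : ℕ) :
    Det q (D.wn J (w₀ + (j + 1) * z)) (bb D i j r) := by
  intro ω ω' x x' h
  simp only [NDat2.wn, Prod.mk.injEq] at h
  have hJ : w₀ + (j + 1) * z ≤ J := by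
    have h1 := hO.thin
    have h2 := hO.top
    have h3 : (j + 1) * z ≤ (M + 1) * z := Nat.mul_le_mul_right z (by omega)
    omega
  have key : ∀ j' ≤ j, D.wn J (w₀ + j' * z) ω = D.wn J (w₀ + j' * z) ω' := fun j' hj' => by
    simp only [NDat2.wn, Prod.mk.injEq]
    exact ⟨h.1, win_le (Nat.add_le_add_left (Nat.mul_le_mul_right z (by omega)) _) hJ h.2⟩
  simp only [bb, Prod.mk.injEq]
  exact ⟨hO.c_wn i hi j (by omega) ω ω' x x' (key j le_rfl),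
    hO.c_wn (i - 1) (by omega) (j - r) (by omega) ω ω' x x' (key (j - r) (Nat.sub_le _ _))⟩

/-- The exact point is on the polynomial. -/
theorem hL_own {D : NDat2} {n K₁ J a₀ w₀ z M i j r m w : ℕ} {lam gam : ℕ → ℝ} {κ C₁ : ℝ}
    {q : D.Ω → ℝ} (hO : D.Ok2 n K₁ J a₀ w₀ z M lam gam κ C₁ q) {P : D.Γ × D.Γ → ℕ → PN}
    {Sl Gr : ℕ → Prop} {t₀ : D.Ω → ℝ} {nv e0 e1 : D.Ω → ℕ → ℝ} {ω : D.Ω} (hω : 0 < q ω)
    (hP : TriN (P (bb D i j r ω))) (hD : Dic n Sl Gr) (hm : Gr m) (hmn : m ≤ n)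
    (hnv : nv ω m = 1) :
    eval (D.X ω) (hL D i j r P Sl Gr m w t₀ nv e0 e1 ω) = D.X ω m := by
  have h := hL_eval (w := w) (t₀ := t₀) (e0 := e0) (e1 := e1) (Sl := Sl) hP hm hnv (D.X ω)
  have e : ∀ l ≤ n, pp D (D.ln ω) (D.X ω 0) l = D.X ω l := by
    intro l hl
    unfold pp
    split_ifs with h0
    · rw [h0]
    · exact (hO.str ω hω l hl).symm
  have e2 : ∀ u ≤ n, nat (D.g i j) (P (bb D i j r ω)) (pp D (D.ln ω) (D.X ω 0)) u =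
      nat (D.g i j) (P (bb D i j r ω)) (D.X ω) u := by
    intro u hu
    unfold nat
    rw [e u hu, Pool.SYS35.eval_congr (hP u) fun i hi => e i (by omega)]
  have e3 : Lam (D.g i j) (P (bb D i j r ω)) Sl Gr m w (t₀ ω) (nv ω) (e0 ω) (e1 ω)
        (pp D (D.ln ω) (D.X ω 0)) =
      Lam (D.g i j) (P (bb D i j r ω)) Sl Gr m w (t₀ ω) (nv ω) (e0 ω) (e1 ω) (D.X ω) := by
    classical
    unfold Lam
    rw [e 0 (Nat.zero_le n)]
    congr 1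
    · refine Finset.sum_congr rfl fun u hu => ?_
      rw [mem_filter, mem_range] at hu
      rw [e2 u (by omega)]
    · refine Finset.sum_congr rfl fun u hu => ?_
      rw [mem_filter, mem_range] at hu
      rw [e2 u (by omega)]
  rw [e3, sub_self] at h
  have h2 : (2 : ℝ) ^ D.g i j m ≠ 0 := by positivity
  have := (mul_eq_zero.1 h).resolve_left h2
  linarith

/-- **The consumer.** -/
theorem cons (n K : ℕ) (C C₁ : ℝ) (hC : 0 ≤ C) (hC₁ : 0 ≤ C₁) :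
    ∃ c' : ℝ, 1 ≤ c' ∧
    ∀ (D : NDat2) (K₁ K' J a₀ w₀ z M i j r r' a y : ℕ) (lam gam : ℕ → ℝ) (κ : ℝ)
      (q : D.Ω → ℝ) (E : D.Ω → Prop) (P : D.Γ × D.Γ → ℕ → PN) (Sl Gr : ℕ → Prop),
      Fx D n K K₁ K' J a₀ w₀ z M i j r r' a y lam gam κ C₁ C q E P Sl Gr →
      exp (c' * z) ≤ 2 ^ (a * z) → j + 1 < M → (∀ l, 0 ≤ gam l) →
      ∀ (m w A : ℕ) (N₀ δ ρ δT η' : ℝ) (nn : D.Ω → ℕ → ℝ) (S : D.Ω → ℕ → ℕ → ℝ) (t₀ : D.Ω → ℝ)
        (nD nvt e0t e1t nv e0 e1 : D.Ω → ℕ → ℝ) (Ev : D.Ω → Prop)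
        (Bb : D.Ω → (ℕ → ℝ) → Prop), m ≤ n → Gr m → w₀ + j * z ≤ w → 0 ≤ δ → 0 ≤ δT →
        1 ≤ N₀ → (2 : ℝ) ^ w / 2 ^ (a₀ + i * z) ≤ ρ → η' ≤ Pb q Ev →
        (∀ ω, Ev ω → Cvt D n J a₀ z i j r r' a y m w C N₀ δ E P Sl Gr nn S t₀ nD nvt e0t e1t ω) →
        (∀ ω, Ev ω → nv ω m = 1) →
        (∀ ω ω', Ev ω → Ev ω' → D.pt ω = D.pt ω' → nD ω = nD ω') →
        (∀ ω ω', Ev ω → Ev ω' → D.wn J (w₀ + (j + 1) * z) ω = D.wn J (w₀ + (j + 1) * z) ω' →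
          t₀ ω = t₀ ω' ∧ nv ω = nv ω' ∧ e0 ω = e0 ω' ∧ e1 ω = e1 ω') →
        (∀ ω, Ev ω → Bb ω (D.X ω)) →
        (∀ ω b, Ev ω → Bb ω b → D.NB i (j + 1) (a₀ + i * z) m ω b) →
        (∀ ω b t, Ev ω → Bb ω b → Bb ω (Function.update b m t)) →
        (∀ ω ω', Ev ω → Ev ω' → D.pt ω = D.pt ω' → ∀ b, Bb ω b →
          |LM D i j r P Sl Gr m w nn t₀ nvt e0t e1t ω' b -
            LM D i j r P Sl Gr m w nn t₀ nv e0 e1 ω' b| ≤ δT) →
        (∀ ω, Ev ω → ∀ t : ℝ, |t - D.X ω 0| ≤ 1 / 2 ^ (a₀ + i * z) →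
          |LM D i j r P Sl Gr m w nn t₀ nvt e0t e1t ω (pp D (D.ln ω) t) -
            LM D i j r P Sl Gr m w nn t₀ nv e0 e1 ω (pp D (D.ln ω) t)| ≤ δT) →
        2 * (4 * δT + exp (c' * z) * (N₀ * (1 / 2 ^ (y * z) + ρ) + δ)) *
          2 ^ (D.g i (j + 1) m + A * z) ≤ 2 ^ D.g i j m →
        LabB D J w₀ z i (j + 1) m A (kN K 2) η' q Bb := by
  obtain ⟨c₁, h1, nb⟩ := nb_box n K C C₁ hC hC₁
  obtain ⟨c₂, h2, dif⟩ := hL_dif n K C C₁ c₁ hC hC₁ h1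
  refine ⟨c₂, h2, ?_⟩
  intro D K₁ K' J a₀ w₀ z M i j r r' a y lam gam κ q E P Sl Gr hF haz hj1 hgam m w A N₀ δ ρ δT η' nn
    S t₀ nD nvt e0t e1t nv e0 e1 Ev Bb hmn hgm hw hδ hδT hN₀ hρ hη hC1 hnv hpt hwn hBX hBN hBu hth
    hpth hnum
  have hO := hF.ok
  have hm1 := (hF.dic.g1 m hgm).1
  have hiM := hF.iM
  have hjM := hF.jM
  have hq : ∀ ω, Ev ω → 0 < q ω := fun ω h => (hF.fr ω (hC1 ω h).mem).1
  refine labB_of_det hO.isLaw.nonneg Bb Ev hη (fun ω _ h => hBX ω h)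
    (hL D i j r P Sl Gr m w t₀ nv e0 e1) ?_ ?_ ?_ ?_
  · intro ω ω' x x' h h' e
    have e1' := bb_wn hO hiM.le hj1.le r ω ω' x x' e
    obtain ⟨f1, f2, f3, f4⟩ := hwn ω ω' h h' e
    have f5 : D.ln ω = D.ln ω' := by
      simp only [NDat2.wn, Prod.mk.injEq] at e
      exact e.1
    unfold hL
    rw [e1', f1, f2, f3, f4, f5]
  · intro ω x h
    exact hL_deg hO hF.k1 hF.k2 hm1 (hF.fr ω (hC1 ω h).mem).2.2
  · intro ω x h
    rw [hL_own hO x (hF.fr ω (hC1 ω h).mem).2.2.tri hF.dic hgm hmn (hnv ω h), sub_self, abs_zero]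
    positivity
  · intro ω ω' x x' h h' hp b hb
    obtain ⟨b₁, hb₁⟩ : ∃ b₁, b₁ = Function.update b m (eval b (P (bb D i j r ω) m)) := ⟨_, rfl⟩
    have hPt := (hF.fr ω (hC1 ω h).mem).2.2.tri
    have hbl : ∀ l, l ≠ m → b₁ l = b l := fun l hl => by
      rw [hb₁, Function.update_of_ne hl]
    have hB₁ : Bb ω b₁ := by
      rw [hb₁]
      exact hBu ω b _ h hb
    have hN := hBN ω b₁ h hB₁
    have hbx := nb D K₁ K' J a₀ w₀ z M i j r r' a y lam gam κ q E P Sl Gr hF hj1 hgam ω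
      (hC1 ω h).mem m hmn b₁ hN
    have hbx' : Bx (D.g i j) (P (bb D i j r ω)) (m + 1) (exp (c₁ * z)) b₁ := by
      intro k hk
      rcases Nat.lt_succ_iff_lt_or_eq.1 hk with h3 | h3
      · exact hbx k h3
      · rw [h3]
        unfold nat
        rw [Pool.SYS35.eval_congr (hPt m) (b' := b) fun i hi => hbl i (by omega), hb₁,
          Function.update_self, sub_self, mul_zero, abs_zero]
        exact (exp_pos _).le
    have hT : D.T ω = D.T ω' := hO.pt_T ω ω' x x' hp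
    have hX0 : D.X ω 0 = D.X ω' 0 := X0_eq hO hT
    have key := dif D K₁ K' J a₀ w₀ z M i j r r' a y lam gam κ q E P Sl Gr hF haz m w N₀ δ ρ δT nn S
      t₀ nD nvt e0t e1t nv e0 e1 hmn hgm hw hδ hN₀ hρ ω ω' (hC1 ω h) (hC1 ω' h') (hnv ω h)
      (hnv ω' h') (rcd_pt hO hiM.le (by omega) r a ω ω' x x' hp)
      (hO.s_pt (i - r') (by omega) (j + r) hjM.le ω ω' x x' hp) (hpt ω ω' h h' hp) b₁ hN.1 hbx'
      (hth ω ω h h rfl b₁ hB₁) (hth ω ω' h h' hp b₁ hB₁) (hpth ω h (b₁ 0) hN.1)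
      (hpth ω' h' (b₁ 0) (by rw [← hX0]; exact hN.1))
    have hv : ∀ ω, Ev ω → eval b₁ (hL D i j r P Sl Gr m w t₀ nv e0 e1 ω) =
        eval b (hL D i j r P Sl Gr m w t₀ nv e0 e1 ω) := fun ω h =>
      Pool.SYS35.eval_congr (hL_deg hO hF.k1 hF.k2 hm1 (hF.fr ω (hC1 ω h).mem).2.2).2
        fun l hl => hbl l (by omega)
    rw [hv ω h, hv ω' h'] at key
    obtain ⟨X, hX⟩ : ∃ X : ℝ, X = 4 * δT + exp (c₂ * z) * (N₀ * (1 / 2 ^ (y * z) + ρ) + δ) :=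
      ⟨_, rfl⟩
    rw [← hX] at key hnum
    have h2g : (0 : ℝ) < 2 ^ D.g i j m := by positivity
    have h2G : (0 : ℝ) < 2 ^ (D.g i (j + 1) m + A * z) := by positivity
    rw [one_div_mul_one_div, le_div_iff₀ (by positivity)]
    have e3 : |eval b (hL D i j r P Sl Gr m w t₀ nv e0 e1 ω) -
        eval b (hL D i j r P Sl Gr m w t₀ nv e0 e1 ω')| ≤ X / 2 ^ D.g i j m := by
      rw [le_div_iff₀ h2g]
      linarith
    calc |eval b (hL D i j r P Sl Gr m w t₀ nv e0 e1 ω) -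
        eval b (hL D i j r P Sl Gr m w t₀ nv e0 e1 ω')| * (2 * 2 ^ (D.g i (j + 1) m + A * z))
        ≤ X / 2 ^ D.g i j m * (2 * 2 ^ (D.g i (j + 1) m + A * z)) :=
          mul_le_mul_of_nonneg_right e3 (by positivity)
      _ = (2 * X * 2 ^ (D.g i (j + 1) m + A * z)) / 2 ^ D.g i j m := by ring
      _ ≤ 1 := by
          rw [div_le_one h2g]
          exact hnum

end Pool.P4
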