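import Pool.Agent.H52.P4.Nbx
import Pool.Agent.H55.GEN.GluP

/-!
# The polynomial of the new label

`hL`: the value of the coordinate `m` on the level set of the functional through the path of the
line. Two samples with the same exact point have near polynomials.
-/

set_option autoImplicit false

namespace Pool.P4

open Finset Real MvPolynomial
open Pool.Agent.H49.Ent Pool.Agent.H32.Dense Pool.STK Pool.STAT Pool.MIC.Frm Pool.FRM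
open Pool.MIC.Fru (gw nat_gw nat_gw0 atT_tri atT_deg)
open Pool.STAT.Glu (hN hv kN eval_hN hN_deg hN_vars pps)

open Classical in
/-- The shape of the level sets. -/
noncomputable def shp (Sl Gr : ℕ → Prop) (g : ℕ → ℕ) (c₀ : ℝ) (m w : ℕ) (t₀ : ℝ)
    (nv e0 e1 : ℕ → ℝ) : PN :=
  ∑ k ∈ (range m).filter Sl,
    (C (e0 k) + C (e1 k) * (C (2 ^ w / 2 ^ g 0) * X 0 + C (2 ^ w * (c₀ - t₀)))) * X k -
  ∑ u ∈ (range m).filter Gr, C (nv u) * X u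

open Classical in
theorem shp_deg (Sl Gr : ℕ → Prop) (g : ℕ → ℕ) (c₀ : ℝ) (m w : ℕ) (t₀ : ℝ) (nv e0 e1 : ℕ → ℝ) :
    (shp Sl Gr g c₀ m w t₀ nv e0 e1).totalDegree ≤ 2 := by
  unfold shp
  refine (totalDegree_sub _ _).trans (max_le ?_ ?_)
  · refine totalDegree_finsetSum_le fun k _ => ?_
    refine (totalDegree_mul _ _).trans ?_
    rw [totalDegree_X]
    have h1 : (C (e0 k) + C (e1 k) * (C (2 ^ w / 2 ^ g 0) * X 0 + C (2 ^ w * (c₀ - t₀))) :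
        PN).totalDegree ≤ 1 := by
      refine (totalDegree_add _ _).trans (max_le ?_ ?_)
      · rw [totalDegree_C]
        exact zero_le_one
      · refine (totalDegree_mul _ _).trans ?_
        rw [totalDegree_C, zero_add]
        refine (totalDegree_add _ _).trans (max_le ?_ ?_)
        · refine (totalDegree_mul _ _).trans ?_
          rw [totalDegree_C, totalDegree_X]
        · rw [totalDegree_C]
          exact zero_le_one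
    omega
  · refine totalDegree_finsetSum_le fun k _ => ?_
    refine (totalDegree_mul _ _).trans ?_
    rw [totalDegree_C, totalDegree_X]
    omega

open Classical in
theorem shp_vars {Sl Gr : ℕ → Prop} (g : ℕ → ℕ) (c₀ : ℝ) {m : ℕ} (hm : 1 ≤ m) (w : ℕ) (t₀ : ℝ)
    (nv e0 e1 : ℕ → ℝ) : (shp Sl Gr g c₀ m w t₀ nv e0 e1).vars ⊆ range m := by
  unfold shp
  refine (vars_sub_subset _).trans (Finset.union_subset ?_ ?_)
  · refine (vars_sum_subset _ _).trans (Finset.biUnion_subset.2 fun k hk => ?_)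
    rw [mem_filter, mem_range] at hk
    refine AdxRow.vars_mul_le (AdxRow.vars_add_le (AdxRow.vars_C_le _) (AdxRow.vars_mul_le
      (AdxRow.vars_C_le _) (AdxRow.vars_add_le (AdxRow.vars_mul_le (AdxRow.vars_C_le _)
      (AdxRow.vars_X_le hm)) (AdxRow.vars_C_le _)))) (AdxRow.vars_X_le hk.1)
  · refine (vars_sum_subset _ _).trans (Finset.biUnion_subset.2 fun k hk => ?_)
    rw [mem_filter, mem_range] at hk
    exact AdxRow.vars_mul_le (AdxRow.vars_C_le _) (AdxRow.vars_X_le hk.1)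

open Classical in
/-- The functional from the shape. -/
theorem lam_shp {n : ℕ} {Sl Gr : ℕ → Prop} {g : ℕ → ℕ} {P : ℕ → PN} (hP : TriN P) {m : ℕ} (hm : Gr m)
    (w : ℕ) (t₀ : ℝ) {nv : ℕ → ℝ} (hnv : nv m = 1) (e0 e1 : ℕ → ℝ) (x x₀ : ℕ → ℝ) :
    Lam g P Sl Gr m w t₀ nv e0 e1 x =
      nat g P x m - eval (nat g P x) (shp Sl Gr g (eval x₀ (P 0)) m w t₀ nv e0 e1) := by
  have e : (range (m + 1)).filter Gr = insert m ((range m).filter Gr) := by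
    ext u
    simp only [mem_filter, mem_range, mem_insert]
    constructor
    · rintro ⟨h1, h2⟩
      rcases Nat.lt_succ_iff_lt_or_eq.1 h1 with h3 | h3
      · exact Or.inr ⟨h3, h2⟩
      · exact Or.inl h3
    · rintro (h1 | ⟨h1, h2⟩)
      · rw [h1]
        exact ⟨Nat.lt_succ_self m, hm⟩
      · exact ⟨by omega, h2⟩
  have hc : eval x₀ (P 0) = eval x (P 0) :=
    Pool.SYS35.eval_congr (hP 0) fun i hi => absurd hi (Nat.not_lt_zero i)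
  have h0 : nat g P x 0 = 2 ^ g 0 * (x 0 - eval x (P 0)) := rfl
  unfold Lam shp
  rw [e, Finset.sum_insert (by
    rw [mem_filter, mem_range]
    exact fun h => absurd h.1 (lt_irrefl m)), hnv, one_mul]
  simp only [map_sub, map_sum, map_mul, map_add, eval_C, eval_X]
  rw [hc, h0]
  have h2 : (2 : ℝ) ^ g 0 ≠ 0 := by positivity
  have e1' : ∀ k, (e0 k + e1 k * (2 ^ w / 2 ^ g 0 * (2 ^ g 0 * (x 0 - eval x (P 0))) +
      2 ^ w * (eval x (P 0) - t₀))) = e0 k + e1 k * (2 ^ w * (x 0 - t₀)) := by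
    intro k
    field_simp
    ring
  simp only [e1']
  ring

/-- The polynomial. -/
noncomputable def hL (D : NDat2) (i j r : ℕ) (P : D.Γ × D.Γ → ℕ → PN) (Sl Gr : ℕ → Prop)
    (m w : ℕ) (t₀ : D.Ω → ℝ) (nv e0 e1 : D.Ω → ℕ → ℝ) (ω : D.Ω) : PN :=
  hN (D.g i j) (P (bb D i j r ω)) m
    (shp Sl Gr (D.g i j) (eval (fun _ => 0) (P (bb D i j r ω) 0)) m w (t₀ ω) (nv ω) (e0 ω) (e1 ω))
    (D.pa (D.ln ω))

theorem pps_pp (D : NDat2) (x : D.Λ) (t : ℝ) : pps (D.pa x) t = pp D x t := by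
  funext l
  unfold pps Pool.STAT.Glu.pth pp
  split_ifs
  · rw [Polynomial.eval_X]
  · rfl

/-- **The value of the polynomial.** -/
theorem hL_eval {D : NDat2} {i j r : ℕ} {P : D.Γ × D.Γ → ℕ → PN} {Sl Gr : ℕ → Prop} {m w : ℕ}
    {t₀ : D.Ω → ℝ} {nv e0 e1 : D.Ω → ℕ → ℝ} {ω : D.Ω} (hP : TriN (P (bb D i j r ω)))
    (hm : Gr m) (hnv : nv ω m = 1) (x : ℕ → ℝ) :
    2 ^ D.g i j m * (x m - eval x (hL D i j r P Sl Gr m w t₀ nv e0 e1 ω)) =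
      Lam (D.g i j) (P (bb D i j r ω)) Sl Gr m w (t₀ ω) (nv ω) (e0 ω) (e1 ω) x -
      Lam (D.g i j) (P (bb D i j r ω)) Sl Gr m w (t₀ ω) (nv ω) (e0 ω) (e1 ω)
        (pp D (D.ln ω) (x 0)) := by
  unfold hL
  rw [eval_hN, pps_pp]
  rw [lam_shp (n := 0) hP hm w (t₀ ω) hnv (e0 ω) (e1 ω) x (fun _ => 0),
    lam_shp (n := 0) hP hm w (t₀ ω) hnv (e0 ω) (e1 ω) (pp D (D.ln ω) (x 0)) (fun _ => 0)]
  have e : ∀ b : ℕ → ℝ, Pool.STAT.CLO.nc (D.g i j) (P (bb D i j r ω)) b =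
      nat (D.g i j) (P (bb D i j r ω)) b := fun b => rfl
  unfold hv
  rw [e, e]
  unfold nat
  have h2 : (2 : ℝ) ^ D.g i j m ≠ 0 := by positivity
  field_simp
  ring

theorem hL_deg {D : NDat2} {n K K₁ K' J a₀ w₀ z M i j r : ℕ} {lam gam : ℕ → ℝ} {κ C₁ C : ℝ}
    {q : D.Ω → ℝ} (hO : D.Ok2 n K₁ J a₀ w₀ z M lam gam κ C₁ q) (hK₁ : K₁ ≤ K) (hK : K' ≤ K)
    {P : D.Γ × D.Γ → ℕ → PN} {Sl Gr : ℕ → Prop} {m w : ℕ} (hm : 1 ≤ m)
    {t₀ : D.Ω → ℝ} {nv e0 e1 : D.Ω → ℕ → ℝ} {ω : D.Ω}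
    (hP : FrP D n K' z i j r C (P (bb D i j r ω)) ω) :
    (hL D i j r P Sl Gr m w t₀ nv e0 e1 ω).totalDegree ≤ kN K 2 ∧
      (hL D i j r P Sl Gr m w t₀ nv e0 e1 ω).vars ⊆ range m :=
  ⟨hN_deg (fun l => (hP.deg l).trans hK) (fun l => (hO.pa_deg _ l).trans hK₁) (shp_deg _ _ _ _ _ _ _ _ _ _),
    hN_vars hm hP.tri (shp_vars _ _ hm _ _ _ _ _)⟩

/-- The functional minus its value on the own sheet. -/
noncomputable def LM (D : NDat2) (i j r : ℕ) (P : D.Γ × D.Γ → ℕ → PN) (Sl Gr : ℕ → Prop)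
    (m w : ℕ) (nn : D.Ω → ℕ → ℝ) (t₀ : D.Ω → ℝ) (nv e0 e1 : D.Ω → ℕ → ℝ) (ω : D.Ω)
    (x : ℕ → ℝ) : ℝ :=
  Lam (D.g i j) (P (bb D i j r ω)) Sl Gr m w (t₀ ω) (nv ω) (e0 ω) (e1 ω) x -
    lc Gr m (nv ω) (nn ω)

/-- **Two samples with the same exact point.** `nvt, e0t, e1t`: the total functional, whose
covector is the image of the visible one. `nv, e0, e1`: the functional of the line. Their
difference is `≤ δT` at the points which are used. -/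
theorem hL_dif (n K : ℕ) (C C₁ b : ℝ) (hC : 0 ≤ C) (hC₁ : 0 ≤ C₁) (hb : 1 ≤ b) :
    ∃ c' : ℝ, 1 ≤ c' ∧
    ∀ (D : NDat2) (K₁ K' J a₀ w₀ z M i j r r' a y : ℕ) (lam gam : ℕ → ℝ) (κ : ℝ)
      (q : D.Ω → ℝ) (E : D.Ω → Prop) (P : D.Γ × D.Γ → ℕ → PN) (Sl Gr : ℕ → Prop),
      Fx D n K K₁ K' J a₀ w₀ z M i j r r' a y lam gam κ C₁ C q E P Sl Gr →
      exp (c' * z) ≤ 2 ^ (a * z) →
      ∀ (m w : ℕ) (N₀ δ ρ δT : ℝ) (nn : D.Ω → ℕ → ℝ) (S : D.Ω → ℕ → ℕ → ℝ) (t₀ : D.Ω → ℝ)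
        (nD nvt e0t e1t nv e0 e1 : D.Ω → ℕ → ℝ), m ≤ n → Gr m → w₀ + j * z ≤ w → 0 ≤ δ →
        1 ≤ N₀ → (2 : ℝ) ^ w / 2 ^ (a₀ + i * z) ≤ ρ →
      ∀ ω ω', Cvt D n J a₀ z i j r r' a y m w C N₀ δ E P Sl Gr nn S t₀ nD nvt e0t e1t ω →
      Cvt D n J a₀ z i j r r' a y m w C N₀ δ E P Sl Gr nn S t₀ nD nvt e0t e1t ω' →
      nv ω m = 1 → nv ω' m = 1 →
      rcd D i j r a ω = rcd D i j r a ω' → D.s (i - r') (j + r) ω = D.s (i - r') (j + r) ω' →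
      nD ω = nD ω' → ∀ x : ℕ → ℝ, |x 0 - D.X ω 0| ≤ 1 / 2 ^ (a₀ + i * z) →
      Bx (D.g i j) (P (bb D i j r ω)) (m + 1) (exp (b * z)) x →
      |LM D i j r P Sl Gr m w nn t₀ nvt e0t e1t ω x -
        LM D i j r P Sl Gr m w nn t₀ nv e0 e1 ω x| ≤ δT →
      |LM D i j r P Sl Gr m w nn t₀ nvt e0t e1t ω' x -
        LM D i j r P Sl Gr m w nn t₀ nv e0 e1 ω' x| ≤ δT →
      |LM D i j r P Sl Gr m w nn t₀ nvt e0t e1t ω (pp D (D.ln ω) (x 0)) -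
        LM D i j r P Sl Gr m w nn t₀ nv e0 e1 ω (pp D (D.ln ω) (x 0))| ≤ δT →
      |LM D i j r P Sl Gr m w nn t₀ nvt e0t e1t ω' (pp D (D.ln ω') (x 0)) -
        LM D i j r P Sl Gr m w nn t₀ nv e0 e1 ω' (pp D (D.ln ω') (x 0))| ≤ δT →
      2 ^ D.g i j m * |eval x (hL D i j r P Sl Gr m w t₀ nv e0 e1 ω) -
        eval x (hL D i j r P Sl Gr m w t₀ nv e0 e1 ω')| ≤
        4 * δT + exp (c' * z) * (N₀ * (1 / 2 ^ (y * z) + ρ) + δ) := by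
  obtain ⟨c₁, h1, pn⟩ := path_near n K C C₁ hC
  obtain ⟨c₂, h2, own⟩ := own_one n K C C₁ c₁ hC hC₁ h1
  obtain ⟨c₃, h3, ga⟩ := gd_all n K C C₁ b hC hC₁ hb
  refine ⟨c₂ + c₃ + 2, by linarith, ?_⟩
  intro D K₁ K' J a₀ w₀ z M i j r r' a y lam gam κ q E P Sl Gr hF haz m w N₀ δ ρ δT nn S t₀ nD nvt
    e0t e1t nv e0 e1 hm hgm hw hδ hN₀ hρ ω ω' hω hω' hnv hnv' hrc hsR hnD x hx0 hx ht1 ht2 ht3 ht4
  have hzr : (1 : ℝ) ≤ z := by exact_mod_cast hF.z1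
  have hTT : D.T ω = D.T ω' := congrArg Prod.fst hrc
  have hX0 : D.X ω 0 = D.X ω' 0 := X0_eq hF.ok hTT
  have hPt : TriN (P (bb D i j r ω)) := (hF.fr ω hω.mem).2.2.tri
  have hPt' : TriN (P (bb D i j r ω')) := (hF.fr ω' hω'.mem).2.2.tri
  have hρ0 : 0 ≤ ρ := le_trans (by positivity) hρ
  have hpw : (2 : ℝ) ^ w * |x 0 - D.X ω 0| ≤ ρ := by
    refine le_trans ?_ hρ
    calc (2 : ℝ) ^ w * |x 0 - D.X ω 0| ≤ 2 ^ w * (1 / 2 ^ (a₀ + i * z)) := by gcongr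
      _ = _ := by ring
  have pp0 : ∀ (x : D.Λ) (t : ℝ), pp D x t 0 = t := fun x t => by
    unfold pp
    rw [if_pos rfl]
  have k1 := ga D K₁ K' J a₀ w₀ z M i j r r' a y lam gam κ q E P Sl Gr hF
    ((ex_mono (by linarith) hzr).trans haz) m w N₀ δ ρ nn S t₀ nD nvt e0t e1t hm hw hδ hN₀ hρ ω ω'
    hω hω' hrc hsR hnD x hx0 hx
  have k2 := (own D K₁ K' J a₀ w₀ z M i j r r' a y lam gam κ q E P Sl Gr hF m w N₀ δ ρ nn S t₀
    nD nvt e0t e1t hm hw hδ hN₀ ω hω (pp D (D.ln ω) (x 0))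
    ((pn D K₁ K' J a₀ w₀ z M i j r r' a y lam gam κ q E P Sl Gr hF ω hω.mem (x 0) hx0).mono le_rfl
      (by omega)) (by rw [pp0]; exact hpw)).1
  have k3 := (own D K₁ K' J a₀ w₀ z M i j r r' a y lam gam κ q E P Sl Gr hF m w N₀ δ ρ nn S t₀
    nD nvt e0t e1t hm hw hδ hN₀ ω' hω' (pp D (D.ln ω') (x 0))
    ((pn D K₁ K' J a₀ w₀ z M i j r r' a y lam gam κ q E P Sl Gr hF ω' hω'.mem (x 0)
      (by rw [← hX0]; exact hx0)).mono le_rfl (by omega))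
    (by rw [pp0, ← hX0]; exact hpw)).1
  have e1' := hL_eval (w := w) (t₀ := t₀) (e0 := e0) (e1 := e1) (Sl := Sl) hPt hgm hnv x
  have e2' := hL_eval (w := w) (t₀ := t₀) (e0 := e0) (e1 := e1) (Sl := Sl) hPt' hgm hnv' x
  obtain ⟨U, hU⟩ : ∃ U : D.Ω → (ℕ → ℝ) → ℝ, U = LM D i j r P Sl Gr m w nn t₀ nvt e0t e1t :=
    ⟨_, rfl⟩
  obtain ⟨V, hV⟩ : ∃ V : D.Ω → (ℕ → ℝ) → ℝ, V = LM D i j r P Sl Gr m w nn t₀ nv e0 e1 :=
    ⟨_, rfl⟩
  rw [← hU, ← hV] at ht1 ht2 ht3 ht4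
  have eU : ∀ ω x, Lam (D.g i j) (P (bb D i j r ω)) Sl Gr m w (t₀ ω) (nvt ω) (e0t ω) (e1t ω) x -
    lc Gr m (nvt ω) (nn ω) = U ω x := fun ω x => by rw [hU]; rfl
  have eV : ∀ ω x, Lam (D.g i j) (P (bb D i j r ω)) Sl Gr m w (t₀ ω) (nv ω) (e0 ω) (e1 ω) x =
    V ω x + lc Gr m (nv ω) (nn ω) := fun ω x => by
      rw [hV]
      unfold LM
      ring
  rw [eU, eU] at k1
  rw [eU] at k2 k3
  rw [eV, eV, add_sub_add_right_eq_sub] at e1' e2'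
  obtain ⟨X, hX⟩ : ∃ X : ℝ, X = N₀ * (1 / 2 ^ (y * z) + ρ) + δ := ⟨_, rfl⟩
  have hX0' : 0 ≤ X := by
    rw [hX]
    have : 0 ≤ N₀ := by linarith
    positivity
  rw [← hX] at k1 k2 k3 ⊢
  obtain ⟨H, hH⟩ : ∃ H : ℝ, H = eval x (hL D i j r P Sl Gr m w t₀ nv e0 e1 ω) := ⟨_, rfl⟩
  obtain ⟨H', hH'⟩ : ∃ H' : ℝ, H' = eval x (hL D i j r P Sl Gr m w t₀ nv e0 e1 ω') := ⟨_, rfl⟩
  rw [← hH] at e1'
  rw [← hH'] at e2'
  rw [← hH, ← hH']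
  obtain ⟨p, hp⟩ : ∃ p, p = pp D (D.ln ω) (x 0) := ⟨_, rfl⟩
  obtain ⟨p', hp'⟩ : ∃ p', p' = pp D (D.ln ω') (x 0) := ⟨_, rfl⟩
  rw [← hp] at ht3 k2 e1'
  rw [← hp'] at ht4 k3 e2'
  have h2 : (0 : ℝ) < 2 ^ D.g i j m := by positivity
  have id : 2 ^ D.g i j m * (H - H') = (U ω' x - U ω x) - (U ω' x - V ω' x) + (U ω x - V ω x) +
      (U ω' p' - V ω' p') - U ω' p' - (U ω p - V ω p) + U ω p := by
    have : 2 ^ D.g i j m * (H - H') = 2 ^ D.g i j m * (x m - H') - 2 ^ D.g i j m * (x m - H) := by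
      ring
    rw [this, e1', e2']
    ring
  have e3 : 2 ^ D.g i j m * |H - H'| = |2 ^ D.g i j m * (H - H')| := by
    rw [abs_mul, abs_of_pos h2]
  rw [e3, id]
  have q1 : |(U ω' x - U ω x) - (U ω' x - V ω' x) + (U ω x - V ω x) +
      (U ω' p' - V ω' p') - U ω' p' - (U ω p - V ω p) + U ω p| ≤
      exp (c₃ * z) * X + δT + δT + δT + exp (c₂ * z) * X + δT + exp (c₂ * z) * X := by
    rw [abs_le] at ht1 ht2 ht3 ht4 k1 k2 k3 ⊢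
    constructor
    · linarith [ht1.1, ht2.2, ht3.2, ht4.1, k1.1, k2.1, k3.2]
    · linarith [ht1.2, ht2.1, ht3.1, ht4.2, k1.2, k2.2, k3.1]
  refine q1.trans ?_
  have g1 : exp (c₃ * z) ≤ exp ((c₂ + c₃) * z) := ex_mono (by linarith) hzr
  have g2 : exp (c₂ * z) ≤ exp ((c₂ + c₃) * z) := ex_mono (by linarith) hzr
  have g3 : 3 * exp ((c₂ + c₃) * z) ≤ exp ((c₂ + c₃ + 2) * z) := by
    have h3 : (3 : ℝ) ≤ exp (2 * z) := by
      have := Real.add_one_le_exp (2 * (z : ℝ))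
      linarith
    calc 3 * exp ((c₂ + c₃) * z) ≤ exp (2 * z) * exp ((c₂ + c₃) * z) := by gcongr
      _ = _ := by rw [← exp_add]; ring_nf
  have g4 := mul_le_mul_of_nonneg_right g1 hX0'
  have g5 := mul_le_mul_of_nonneg_right g2 hX0'
  have g6 := mul_le_mul_of_nonneg_right g3 hX0'
  linarith

end Pool.P4
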