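import Pool.Agent.H52.P4.Own

/-!
# The functional of a label on the own sheet

`Lam x`: the combination of the group coordinates up to `m` with the covector `nv`, minus the slow
coordinates with the slopes `e0 + e1 τ`. On the own sheet it is a constant.
-/

set_option autoImplicit false

namespace Pool.P4

open Finset Real MvPolynomial
open Pool.Agent.H49.Ent Pool.Agent.H32.Dense Pool.STK Pool.STAT Pool.MIC.Frm Pool.FRM
open Pool.MIC.Fru (gw nat_gw nat_gw0 atT_tri atT_deg)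

open Classical in
/-- The functional. -/
noncomputable def Lam (g : ℕ → ℕ) (P : ℕ → PN) (Sl Gr : ℕ → Prop) (m w : ℕ) (t₀ : ℝ)
    (nv e0 e1 : ℕ → ℝ) (x : ℕ → ℝ) : ℝ :=
  ∑ u ∈ (range (m + 1)).filter Gr, nv u * nat g P x u -
    ∑ k ∈ (range m).filter Sl, (e0 k + e1 k * (2 ^ w * (x 0 - t₀))) * nat g P x k

open Classical in
/-- The value on the own sheet. -/
noncomputable def lc (Gr : ℕ → Prop) (m : ℕ) (nv nn : ℕ → ℝ) : ℝ :=
  ∑ u ∈ (range (m + 1)).filter Gr, nv u * nn u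

open Classical in
/-- The own sheet at the exact time: the statement which is used. -/
def Sht (D : NDat2) (n z i j r r' : ℕ) (Sl Gr : ℕ → Prop) (P : ℕ → PN) (ω : D.Ω)
    (nn : ℕ → ℝ) (S : ℕ → ℕ → ℝ) (b τ : ℝ) : Prop :=
  ∀ x : ℕ → ℝ, x 0 = D.X ω 0 → (∀ k, Sl k → |nat (D.g i j) P x k| ≤ exp (b * z)) →
    (∀ u, Gr u → x u = eval x (D.Ψ (i - r') (j + r) ω u)) →
    ∀ u, Gr u → |nat (D.g i j) P x u - (nn u +
      ∑ k ∈ (range n).filter Sl, S u k * nat (D.g i j) P x k)| ≤ τ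

/-- Slow coordinates and the group. -/
structure Dic (n : ℕ) (Sl Gr : ℕ → Prop) : Prop where
  s1 : ∀ k, Sl k → 1 ≤ k ∧ k < n
  g1 : ∀ u, Gr u → 1 ≤ u ∧ u ≤ n
  dis : ∀ k, Sl k → ¬ Gr k

open Classical in
/-- The own sheet over slow coordinates, as a system. -/
noncomputable def qsys (Gr : ℕ → Prop) (t : ℝ) (P F : ℕ → PN) (l : ℕ) : PN :=
  if Gr l then F l else if l = 0 then C t else P l

theorem qsys_tri {Gr : ℕ → Prop} {t : ℝ} {P F : ℕ → PN} (hP : TriN P) (hF : TriN F) :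
    TriN (qsys Gr t P F) := by
  intro l
  unfold qsys
  split_ifs with h1 h2
  · exact hF l
  · rw [vars_C]
    exact Finset.empty_subset _
  · exact hP l

open Classical in
/-- The point of the own sheet, at the time `t`, with the slow coordinates of `x` before `m`. -/
noncomputable def xsh (Sl Gr : ℕ → Prop) (t : ℝ) (P F : ℕ → PN) (m : ℕ) (x : ℕ → ℝ) : ℕ → ℝ :=
  ps (qsys Gr t P F) (fun k => if Sl k ∧ k < m then zs P x k else 0)

section xsh

variable {n : ℕ} {Sl Gr : ℕ → Prop} {t : ℝ} {P F : ℕ → PN} {m : ℕ} {x : ℕ → ℝ}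

theorem xsh_zero (hD : Dic n Sl Gr) (hP : TriN P) (hF : TriN F) : xsh Sl Gr t P F m x 0 = t := by
  unfold xsh
  rw [ps_eq (qsys_tri hP hF)]
  have h0 : ¬ Gr 0 := fun h => absurd (hD.g1 0 h).1 (by omega)
  have h1 : ¬ (Sl 0 ∧ 0 < m) := fun h => absurd (hD.s1 0 h.1).1 (by omega)
  simp only [if_neg h1, add_zero]
  unfold qsys
  rw [if_neg h0, if_pos rfl, eval_C]

open Classical in
theorem xsh_slow (hD : Dic n Sl Gr) (hP : TriN P) (hF : TriN F) {k : ℕ} (hk : Sl k) :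
    zs P (xsh Sl Gr t P F m x) k = if k < m then zs P x k else 0 := by
  have e : xsh Sl Gr t P F m x k = _ := ps_eq (qsys_tri hP hF) _ k
  have h1 : ¬ Gr k := hD.dis k hk
  have h2 : k ≠ 0 := by
    have := (hD.s1 k hk).1
    omega
  have e2 : qsys Gr t P F k = P k := by
    unfold qsys
    rw [if_neg h1, if_neg h2]
  rw [e2] at e
  unfold zs at *
  rw [e]
  have : eval (ps (qsys Gr t P F) fun k => if Sl k ∧ k < m then x k - eval x (P k) else 0) (P k) =
      eval (xsh Sl Gr t P F m x) (P k) := rfl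
  rw [this, add_sub_cancel_left]
  by_cases h3 : k < m
  · rw [if_pos ⟨hk, h3⟩, if_pos h3]
  · rw [if_neg (fun h => h3 h.2), if_neg h3]

theorem xsh_grp (hD : Dic n Sl Gr) (hP : TriN P) (hF : TriN F) {u : ℕ} (hu : Gr u) :
    xsh Sl Gr t P F m x u = eval (xsh Sl Gr t P F m x) (F u) := by
  have e : xsh Sl Gr t P F m x u = _ := ps_eq (qsys_tri hP hF) _ u
  have h1 : ¬ (Sl u ∧ u < m) := fun h => hD.dis u h.1 hu
  have e2 : qsys Gr t P F u = F u := by
    unfold qsys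
    rw [if_pos hu]
  rw [e2] at e
  simp only [if_neg h1, add_zero] at e
  exact e

end xsh

/-- A sum with few terms. -/
theorem sum_bd {ι : Type} (s : Finset ι) (f : ι → ℝ) {B : ℝ} (h : ∀ i ∈ s, |f i| ≤ B) :
    |∑ i ∈ s, f i| ≤ s.card * B := by
  refine (Finset.abs_sum_le_sum_abs _ _).trans ((Finset.sum_le_sum h).trans (le_of_eq ?_))
  rw [Finset.sum_const, nsmul_eq_mul]

open Classical in
/-- **The functional is constant on the own sheet.** -/
theorem lam_own (n K : ℕ) (C C₁ b : ℝ) (hC : 0 ≤ C) (hC₁ : 0 ≤ C₁) (hb : 0 ≤ b) :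
    ∃ c' : ℝ, 0 ≤ c' ∧
    ∀ (D : NDat2) (K₁ J a₀ w₀ z M : ℕ) (lam gam : ℕ → ℝ) (κ : ℝ) (q : D.Ω → ℝ),
    D.Ok2 n K₁ J a₀ w₀ z M lam gam κ C₁ q → K₁ ≤ K → 1 ≤ z →
    (∀ l, 1 ≤ l → l ≤ n → lam l = 1) → ∀ (i j r r' y : ℕ) (Sl Gr : ℕ → Prop),
    Num n M i j r r' y gam Sl Gr → Dic n Sl Gr → ∀ ω, 0 < q ω → ∀ P V : ℕ → PN,
    Frs D n K z i j r r' C P V ω → ∀ (nn : ℕ → ℝ) (S : ℕ → ℕ → ℝ) (τ : ℝ),
    Sht D n z i j r r' Sl Gr P ω nn S b τ → (∀ u k, u ≤ k → S u k = 0) →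
    ∀ (m w : ℕ) (t₀ N₀ δ ρ : ℝ) (nv e0 e1 : ℕ → ℝ), m ≤ n → w₀ + j * z ≤ w → 0 ≤ τ → 0 ≤ δ →
    1 ≤ N₀ → (∀ u, |nv u| ≤ N₀) → (∀ u, |e1 u| ≤ N₀) →
    (∀ k, Sl k → k < m → |∑ u ∈ (range (m + 1)).filter Gr, nv u * S u k -
      (e0 k + e1 k * (2 ^ w * (D.X ω 0 - t₀)))| ≤ δ) →
    ∀ x : ℕ → ℝ, Near D a₀ z i j r r' Sl Gr P ω (exp (b * z)) (m + 1) x →
    2 ^ w * |x 0 - D.X ω 0| ≤ ρ →
    |Lam (D.g i j) P Sl Gr m w t₀ nv e0 e1 x - lc Gr m nv nn| ≤
      exp (c' * z) * (N₀ * (1 / 2 ^ (y * z) + ρ + τ) + δ) := by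
  obtain ⟨c₁, h1, h⟩ := near_two n K C C₁ b hC hC₁ hb
  obtain ⟨c₂, hc₂⟩ : ∃ c₂ : ℝ, c₂ = 2 * n + 2 + (c₁ + b + 1) := ⟨_, rfl⟩
  refine ⟨c₂, by rw [hc₂]; positivity, ?_⟩
  intro D K₁ J a₀ w₀ z M lam gam κ q hO hK hz hlam i j r r' y Sl Gr hN hD ω hω P V hF nn S τ hsh hS0
    m w t₀ N₀ δ ρ nv e0 e1 hm hw hτ hδ hN₀ hnv he1 hc4 x hx hρ
  have hzr : (1 : ℝ) ≤ z := by exact_mod_cast hz
  have hρ0 : 0 ≤ ρ := le_trans (by positivity) hρ
  obtain ⟨F, hF'⟩ : ∃ F : ℕ → PN, F = D.Ψ (i - r') (j + r) ω := ⟨_, rfl⟩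
  have hFt : TriN F := by
    rw [hF']
    exact hO.G_tri _ _ _
  have hPt := hF.tP.tri
  obtain ⟨x', hx'⟩ : ∃ x' : ℕ → ℝ, x' = xsh Sl Gr (D.X ω 0) P F (m + 1) x := ⟨_, rfl⟩
  have e0' : x' 0 = D.X ω 0 := by rw [hx']; exact xsh_zero hD hPt hFt
  have esl : ∀ k, Sl k → k < m + 1 → nat (D.g i j) P x' k = nat (D.g i j) P x k := by
    intro k hk hkm
    rw [nat_eq, nat_eq, hx', xsh_slow hD hPt hFt hk, if_pos hkm]
  have esl' : ∀ k, Sl k → ¬ k < m + 1 → nat (D.g i j) P x' k = 0 := by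
    intro k hk hkm
    rw [nat_eq, hx', xsh_slow hD hPt hFt hk, if_neg hkm, mul_zero]
  have egr : ∀ u, Gr u → x' u = eval x' (D.Ψ (i - r') (j + r) ω u) := by
    intro u hu
    rw [← hF']
    have := xsh_grp (t := D.X ω 0) (m := m + 1) (x := x) hD hPt hFt hu
    rw [← hx'] at this
    exact this
  have hx'n : Near D a₀ z i j r r' Sl Gr P ω (exp (b * z)) (m + 1) x' := by
    refine ⟨?_, fun k h1 h2 => ?_, fun u h1 h2 => ?_⟩
    · rw [e0', sub_self, abs_zero]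
      positivity
    · rw [esl k h1 h2]
      exact hx.slo k h1 h2
    · rw [← egr u h1, sub_self, abs_zero]
      positivity
  -- two points
  have two := h D K₁ J a₀ w₀ z M lam gam κ q hO hK hz hlam i j r r' y Sl Gr hN ω hω P V hF (m + 1)
    (by omega) x x' hx hx'n (fun k h1 h2 => (esl k h1 h2).symm)
  -- the sheet
  have sh := hsh x' e0' (fun k hk => by
    by_cases hkm : k < m + 1
    · rw [esl k hk hkm]
      exact hx.slo k hk hkm
    · rw [esl' k hk hkm, abs_zero]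
      exact (exp_pos _).le) egr
  -- the slow part of the sheet
  have ssum : ∀ u, u ≤ m → ∑ k ∈ (range n).filter Sl, S u k * nat (D.g i j) P x' k =
      ∑ k ∈ (range m).filter Sl, S u k * nat (D.g i j) P x k := by
    intro u hu
    have hsub : (range m).filter Sl ⊆ (range n).filter Sl := by
      intro k hk
      rw [mem_filter, mem_range] at hk ⊢
      exact ⟨by omega, hk.2⟩
    rw [← Finset.sum_subset hsub]
    · refine Finset.sum_congr rfl fun k hk => ?_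
      rw [mem_filter, mem_range] at hk
      rw [esl k hk.2 (by omega)]
    · intro k hk hk'
      rw [mem_filter, mem_range] at hk hk'
      have : ¬ k < m := fun hh => hk' ⟨hh, hk.2⟩
      rw [hS0 u k (by omega), zero_mul]
  -- the identity
  obtain ⟨E, hE⟩ : ∃ E : ℕ → ℝ, E = fun u => nat (D.g i j) P x u - (nn u +
      ∑ k ∈ (range m).filter Sl, S u k * nat (D.g i j) P x k) := ⟨_, rfl⟩
  have hEb : ∀ u ∈ (range (m + 1)).filter Gr, |nv u * E u| ≤
      N₀ * (exp (c₁ * z) * (1 / 2 ^ (y * z) + ρ) + τ) := by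
    intro u hu
    rw [mem_filter, mem_range] at hu
    rw [abs_mul]
    refine mul_le_mul (hnv u) ?_ (abs_nonneg _) (by linarith)
    have a1 := two u (by omega)
    have a2 := sh u hu.2
    rw [ssum u (by omega)] at a2
    have a3 : (2 : ℝ) ^ (w₀ + j * z) * |x 0 - x' 0| ≤ ρ := by
      rw [e0']
      refine le_trans (mul_le_mul_of_nonneg_right (pow_le_pow_right₀ (by norm_num) hw)
        (abs_nonneg _)) hρ
    have e : E u = (nat (D.g i j) P x u - nat (D.g i j) P x' u) +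
        (nat (D.g i j) P x' u - (nn u +
          ∑ k ∈ (range m).filter Sl, S u k * nat (D.g i j) P x k)) := by
      rw [hE]
      ring
    rw [e]
    refine (abs_add_le _ _).trans (add_le_add (a1.trans ?_) a2)
    refine mul_le_mul_of_nonneg_left ?_ (exp_pos _).le
    linarith
  have id : Lam (D.g i j) P Sl Gr m w t₀ nv e0 e1 x - lc Gr m nv nn =
      ∑ u ∈ (range (m + 1)).filter Gr, nv u * E u +
      ∑ k ∈ (range m).filter Sl, (∑ u ∈ (range (m + 1)).filter Gr, nv u * S u k -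
        (e0 k + e1 k * (2 ^ w * (x 0 - t₀)))) * nat (D.g i j) P x k := by
    have hE' : ∀ u, nat (D.g i j) P x u = E u + nn u +
        ∑ k ∈ (range m).filter Sl, S u k * nat (D.g i j) P x k := fun u => by
      rw [hE]
      ring
    unfold Lam lc
    have f1 : ∑ u ∈ (range (m + 1)).filter Gr, nv u * nat (D.g i j) P x u =
        ∑ u ∈ (range (m + 1)).filter Gr, nv u * E u +
        ∑ u ∈ (range (m + 1)).filter Gr, nv u * nn u +
        ∑ k ∈ (range m).filter Sl, (∑ u ∈ (range (m + 1)).filter Gr, nv u * S u k) *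
          nat (D.g i j) P x k := by
      have f2 : ∑ k ∈ (range m).filter Sl, (∑ u ∈ (range (m + 1)).filter Gr, nv u * S u k) *
          nat (D.g i j) P x k = ∑ u ∈ (range (m + 1)).filter Gr, nv u *
            ∑ k ∈ (range m).filter Sl, S u k * nat (D.g i j) P x k := by
        simp only [Finset.sum_mul, Finset.mul_sum]
        rw [Finset.sum_comm]
        refine Finset.sum_congr rfl fun u _ => Finset.sum_congr rfl fun k _ => ?_
        ring
      rw [f2, ← Finset.sum_add_distrib, ← Finset.sum_add_distrib]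
      refine Finset.sum_congr rfl fun u _ => ?_
      rw [hE' u]
      ring
    rw [f1]
    simp only [sub_mul, Finset.sum_sub_distrib]
    ring
  rw [id]
  have g1 := sum_bd _ _ hEb
  have g2 : ∀ k ∈ (range m).filter Sl, |(∑ u ∈ (range (m + 1)).filter Gr, nv u * S u k -
      (e0 k + e1 k * (2 ^ w * (x 0 - t₀)))) * nat (D.g i j) P x k| ≤
      (δ + N₀ * ρ) * exp (b * z) := by
    intro k hk
    rw [mem_filter, mem_range] at hk
    rw [abs_mul]
    refine mul_le_mul ?_ (hx.slo k hk.2 (by omega)) (abs_nonneg _) (by positivity)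
    have a1 := hc4 k hk.2 hk.1
    have e : ∑ u ∈ (range (m + 1)).filter Gr, nv u * S u k -
        (e0 k + e1 k * (2 ^ w * (x 0 - t₀))) =
        (∑ u ∈ (range (m + 1)).filter Gr, nv u * S u k -
          (e0 k + e1 k * (2 ^ w * (D.X ω 0 - t₀)))) - e1 k * (2 ^ w * (x 0 - D.X ω 0)) := by ring
    rw [e]
    refine (abs_sub _ _).trans (add_le_add a1 ?_)
    rw [abs_mul, abs_mul, abs_of_pos (by positivity : (0 : ℝ) < 2 ^ w)]
    exact mul_le_mul (he1 k) hρ (by positivity) (by linarith)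
  have g3 := sum_bd _ _ g2
  refine (abs_add_le _ _).trans ((add_le_add g1 g3).trans ?_)
  have k1 : ((#((range (m + 1)).filter Gr) : ℕ) : ℝ) ≤ n + 1 := by
    have : #((range (m + 1)).filter Gr) ≤ m + 1 := (Finset.card_filter_le _ _).trans
      (card_range _).le
    exact_mod_cast this.trans (by omega)
  have k2 : ((#((range m).filter Sl) : ℕ) : ℝ) ≤ n + 1 := by
    have : #((range m).filter Sl) ≤ m := (Finset.card_filter_le _ _).trans (card_range _).le
    exact_mod_cast this.trans (by omega)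
  obtain ⟨X₀, hX₀⟩ : ∃ X₀ : ℝ, X₀ = N₀ * (1 / 2 ^ (y * z) + ρ + τ) + δ := ⟨_, rfl⟩
  have hX0 : 0 ≤ X₀ := by rw [hX₀]; positivity
  have hp : (0 : ℝ) ≤ 1 / 2 ^ (y * z) := by positivity
  have m1 : N₀ * (exp (c₁ * z) * (1 / 2 ^ (y * z) + ρ) + τ) ≤ exp (c₁ * z) * X₀ := by
    have hE1 : 1 ≤ exp (c₁ * z) := ex_one h1 hzr
    have : N₀ * (exp (c₁ * z) * (1 / 2 ^ (y * z) + ρ) + τ) ≤
        N₀ * (exp (c₁ * z) * (1 / 2 ^ (y * z) + ρ) + exp (c₁ * z) * τ) := by
      refine mul_le_mul_of_nonneg_left ?_ (by linarith)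
      nlinarith
    refine this.trans ?_
    rw [hX₀]
    have : 0 ≤ exp (c₁ * z) * δ := by positivity
    nlinarith
  have m2 : (δ + N₀ * ρ) * exp (b * z) ≤ exp (b * z) * X₀ := by
    rw [mul_comm]
    refine mul_le_mul_of_nonneg_left ?_ (exp_pos _).le
    rw [hX₀]
    have f1 : 0 ≤ N₀ * (1 / 2 ^ (y * z)) := by positivity
    have f2 : 0 ≤ N₀ * τ := by positivity
    nlinarith
  have m3 : exp (c₁ * z) * X₀ + exp (b * z) * X₀ ≤ exp ((c₁ + b + 1) * z) * X₀ := by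
    rw [← add_mul]
    refine mul_le_mul_of_nonneg_right ?_ hX0
    have := ex_add (c := c₁) (c' := b) hzr
    rwa [abs_of_nonneg h1, abs_of_nonneg hb] at this
  have hn1 : (0 : ℝ) ≤ (n : ℝ) + 1 := by positivity
  have m4 : ((n : ℝ) + 1) ≤ exp ((2 * n + 2) * z) := by
    have := Real.add_one_le_exp ((2 * (n : ℝ) + 2) * z)
    nlinarith [Nat.cast_nonneg (α := ℝ) n]
  calc (#((range (m + 1)).filter Gr) : ℝ) * (N₀ * (exp (c₁ * z) * (1 / 2 ^ (y * z) + ρ) + τ)) +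
        (#((range m).filter Sl) : ℝ) * ((δ + N₀ * ρ) * exp (b * z))
      ≤ (n + 1) * (exp (c₁ * z) * X₀) + (n + 1) * (exp (b * z) * X₀) := by
        refine add_le_add (mul_le_mul k1 m1 (by positivity) hn1)
          (mul_le_mul k2 m2 (by positivity) hn1)
    _ = (n + 1) * (exp (c₁ * z) * X₀ + exp (b * z) * X₀) := by ring
    _ ≤ exp ((2 * n + 2) * z) * (exp ((c₁ + b + 1) * z) * X₀) := by
        refine mul_le_mul m4 m3 (by positivity) (exp_pos _).le
    _ = exp (c₂ * z) * X₀ := by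
        rw [← mul_assoc, ← exp_add, hc₂]
        ring_nf
    _ = _ := by rw [hX₀]

end Pool.P4
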