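import Pool.Agent.H52.P4.Tra

/-!
# The radius of the time

The difference of the functionals of two samples, in the direction of the time, is the same at all
the points, up to small errors.
-/

set_option autoImplicit false

namespace Pool.P4

open Finset Real MvPolynomial
open Pool.Agent.H49.Ent Pool.Agent.H32.Dense Pool.STK Pool.STAT Pool.MIC.Frm Pool.FRM
open Pool.MIC.Fru (gw nat_gw nat_gw0 atT_tri atT_deg)

section

variable {n y z r m : ℕ} {gam : ℕ → ℝ} {d : ℕ → ℕ} {P W : ℕ → PN} {B E τ : ℝ}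
  {Sl Gr : ℕ → Prop} {x x' : ℕ → ℝ}

/-- Two points with the same coordinates over `P`, times apart. -/
theorem dif_time (hR : Rly n y z r gam d P W B E τ) (hm : m ≤ n) (hx : Bx d P (m + 1) B x)
    (hx' : Bx d P (m + 1) B x') (hxx : ∀ k, 1 ≤ k → k < m + 1 → nat d P x k = nat d P x' k)
    {v : ℕ} (hv1 : 1 ≤ v) (hv : v < m + 1) :
    |(nat d W x v - nat d W x' v) + kap d P W v 0 * (nat d P x 0 - nat d P x' 0)| ≤ 2 * τ := by
  have a1 := dif_change hR (v := v) (by omega) (hx.mono (by omega) le_rfl)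
    (hx'.mono (by omega) le_rfl)
  have a2 : ∑ k ∈ range v, kap d P W v k * (nat d P x k - nat d P x' k) =
      kap d P W v 0 * (nat d P x 0 - nat d P x' 0) := by
    refine Finset.sum_eq_single 0 (fun k hk hk0 => ?_) (fun h => ?_)
    · rw [mem_range] at hk
      rw [hxx k (by omega) (by omega), sub_self, mul_zero]
    · exact absurd (mem_range.2 hv1) h
  rw [a2, hxx v hv1 hv, sub_self, zero_sub, sub_neg_eq_add] at a1
  exact a1

open Classical in
/-- The difference of the functional at two points. -/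
theorem lam_two (g : ℕ → ℕ) (P : ℕ → PN) (Sl Gr : ℕ → Prop) (m w : ℕ) (t₀ : ℝ)
    (nv e0 e1 : ℕ → ℝ) (x x' : ℕ → ℝ) :
    Lam g P Sl Gr m w t₀ nv e0 e1 x - Lam g P Sl Gr m w t₀ nv e0 e1 x' =
      ∑ u ∈ (range (m + 1)).filter Gr, nv u * (nat g P x u - nat g P x' u) -
      ∑ k ∈ (range m).filter Sl, (e0 k + e1 k * (2 ^ w * (x' 0 - t₀))) *
        (nat g P x k - nat g P x' k) -
      ∑ k ∈ (range m).filter Sl, e1 k * (2 ^ w * (x 0 - x' 0)) * nat g P x k := by
  unfold Lam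
  simp only [mul_sub, Finset.sum_sub_distrib, sub_mul, add_mul, mul_add, Finset.sum_add_distrib]
  ring

end

open Classical in
/-- **The radius of the time.** -/
theorem rt_dif {n y z r m w : ℕ} {gam : ℕ → ℝ} {d : ℕ → ℕ} {P P' : ℕ → PN} {B B' E τ : ℝ}
    {Sl Gr : ℕ → Prop} {x x' p p' : ℕ → ℝ} (hR : Rly n y z r gam d P P' B E τ)
    (hP : TriN P) (hD : Dic n Sl Gr) (hm : m ≤ n)
    (h0 : x 0 = p 0) (h0' : x' 0 = p' 0)
    (hx : Bx d P (m + 1) B x) (hx' : Bx d P (m + 1) B x')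
    (hp : Bx d P (m + 1) B p) (hp' : Bx d P (m + 1) B p')
    (hy : Bx d P' (m + 1) B' x) (hq : Bx d P' (m + 1) B' p)
    (hxx : ∀ k, 1 ≤ k → k < m + 1 → nat d P x k = nat d P x' k)
    (hpp : ∀ k, 1 ≤ k → k < m + 1 → nat d P p k = nat d P p' k)
    (hτ : 0 ≤ τ)
    {N₀ ρ t₀ t₀' : ℝ} (hN : 0 ≤ N₀) {nv nv' e0 e0' e1 e1' : ℕ → ℝ}
    (hnv : ∀ v, |nv' v| ≤ N₀) (he1 : ∀ v, |e1 v| ≤ N₀) (he1' : ∀ v, |e1' v| ≤ N₀)
    (he : ∀ k, Sl k → k < m → |e0' k + e1' k * (2 ^ w * (x' 0 - t₀'))| ≤ N₀)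
    (hρ : 2 ^ w * |x 0 - x' 0| ≤ ρ) :
    |((Lam d P' Sl Gr m w t₀' nv' e0' e1' x - Lam d P Sl Gr m w t₀ nv e0 e1 x) -
        (Lam d P' Sl Gr m w t₀' nv' e0' e1' x' - Lam d P Sl Gr m w t₀ nv e0 e1 x')) -
      ((Lam d P' Sl Gr m w t₀' nv' e0' e1' p - Lam d P Sl Gr m w t₀ nv e0 e1 p) -
        (Lam d P' Sl Gr m w t₀' nv' e0' e1' p' - Lam d P Sl Gr m w t₀ nv e0 e1 p'))| ≤
      (m + 1) * (8 * (N₀ * τ) + 2 * (N₀ * ρ * (B + B'))) := by
  have hρ0 : 0 ≤ ρ := le_trans (by positivity) hρ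
  have hB0 : 0 ≤ B := (abs_nonneg _).trans (hx 0 (Nat.succ_pos m))
  have hB0' : 0 ≤ B' := (abs_nonneg _).trans (hy 0 (Nat.succ_pos m))
  have hm0 : (0 : ℝ) ≤ m := Nat.cast_nonneg m
  have z0 : nat d P x 0 - nat d P x' 0 = nat d P p 0 - nat d P p' 0 := by
    rw [nat_zero_eq hP h0, nat_zero_eq hP h0']
  -- the defects
  obtain ⟨θ, hθ⟩ : ∃ θ : ℕ → ℝ, θ = fun v => (nat d P' x v - nat d P' x' v) -
    (nat d P' p v - nat d P' p' v) := ⟨_, rfl⟩
  have hθb : ∀ v, 1 ≤ v → v < m + 1 → |θ v| ≤ 4 * τ := by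
    intro v hv1 hv
    have a1 := dif_time hR hm hx hx' hxx hv1 hv
    have a2 := dif_time hR hm hp hp' hpp hv1 hv
    rw [z0] at a1
    rw [hθ]
    simp only
    have e : nat d P' x v - nat d P' x' v - (nat d P' p v - nat d P' p' v) =
        (nat d P' x v - nat d P' x' v + kap d P P' v 0 * (nat d P p 0 - nat d P p' 0)) -
        (nat d P' p v - nat d P' p' v + kap d P P' v 0 * (nat d P p 0 - nat d P p' 0)) := by ring
    rw [e]
    refine (abs_sub _ _).trans ?_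
    linarith
  have id : ((Lam d P' Sl Gr m w t₀' nv' e0' e1' x - Lam d P Sl Gr m w t₀ nv e0 e1 x) -
        (Lam d P' Sl Gr m w t₀' nv' e0' e1' x' - Lam d P Sl Gr m w t₀ nv e0 e1 x')) -
      ((Lam d P' Sl Gr m w t₀' nv' e0' e1' p - Lam d P Sl Gr m w t₀ nv e0 e1 p) -
        (Lam d P' Sl Gr m w t₀' nv' e0' e1' p' - Lam d P Sl Gr m w t₀ nv e0 e1 p')) =
      ∑ u ∈ (range (m + 1)).filter Gr, nv' u * θ u -
      ∑ k ∈ (range m).filter Sl, (e0' k + e1' k * (2 ^ w * (x' 0 - t₀'))) * θ k -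
      ∑ k ∈ (range m).filter Sl, e1' k * (2 ^ w * (x 0 - x' 0)) *
        (nat d P' x k - nat d P' p k) +
      ∑ k ∈ (range m).filter Sl, e1 k * (2 ^ w * (x 0 - x' 0)) *
        (nat d P x k - nat d P p k) := by
    have i1 := lam_two d P' Sl Gr m w t₀' nv' e0' e1' x x'
    have i2 := lam_two d P' Sl Gr m w t₀' nv' e0' e1' p p'
    have i3 := lam_two d P Sl Gr m w t₀ nv e0 e1 x x'
    have i4 := lam_two d P Sl Gr m w t₀ nv e0 e1 p p'
    have s1 : ∑ u ∈ (range (m + 1)).filter Gr, nv u * (nat d P x u - nat d P x' u) = 0 := by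
      refine Finset.sum_eq_zero fun u hu => ?_
      rw [mem_filter, mem_range] at hu
      rw [hxx u (hD.g1 u hu.2).1 hu.1, sub_self, mul_zero]
    have s2 : ∑ u ∈ (range (m + 1)).filter Gr, nv u * (nat d P p u - nat d P p' u) = 0 := by
      refine Finset.sum_eq_zero fun u hu => ?_
      rw [mem_filter, mem_range] at hu
      rw [hpp u (hD.g1 u hu.2).1 hu.1, sub_self, mul_zero]
    have s3 : ∀ (F : ℕ → ℝ), ∑ k ∈ (range m).filter Sl, F k * (nat d P x k - nat d P x' k) = 0 := by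
      intro F
      refine Finset.sum_eq_zero fun u hu => ?_
      rw [mem_filter, mem_range] at hu
      rw [hxx u (hD.s1 u hu.2).1 (by omega), sub_self, mul_zero]
    have s4 : ∀ (F : ℕ → ℝ), ∑ k ∈ (range m).filter Sl, F k * (nat d P p k - nat d P p' k) = 0 := by
      intro F
      refine Finset.sum_eq_zero fun u hu => ?_
      rw [mem_filter, mem_range] at hu
      rw [hpp u (hD.s1 u hu.2).1 (by omega), sub_self, mul_zero]
    rw [s1, s3] at i3
    rw [s2, s4] at i4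
    rw [← h0, ← h0'] at i2 i4
    have e : ((Lam d P' Sl Gr m w t₀' nv' e0' e1' x - Lam d P Sl Gr m w t₀ nv e0 e1 x) -
        (Lam d P' Sl Gr m w t₀' nv' e0' e1' x' - Lam d P Sl Gr m w t₀ nv e0 e1 x')) -
      ((Lam d P' Sl Gr m w t₀' nv' e0' e1' p - Lam d P Sl Gr m w t₀ nv e0 e1 p) -
        (Lam d P' Sl Gr m w t₀' nv' e0' e1' p' - Lam d P Sl Gr m w t₀ nv e0 e1 p')) =
      ((Lam d P' Sl Gr m w t₀' nv' e0' e1' x - Lam d P' Sl Gr m w t₀' nv' e0' e1' x') -
       (Lam d P' Sl Gr m w t₀' nv' e0' e1' p - Lam d P' Sl Gr m w t₀' nv' e0' e1' p')) -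
      ((Lam d P Sl Gr m w t₀ nv e0 e1 x - Lam d P Sl Gr m w t₀ nv e0 e1 x') -
       (Lam d P Sl Gr m w t₀ nv e0 e1 p - Lam d P Sl Gr m w t₀ nv e0 e1 p')) := by ring
    rw [e, i1, i2, i3, i4, hθ]
    simp only [mul_sub, Finset.sum_sub_distrib]
    ring
  rw [id]
  have g1 : |∑ u ∈ (range (m + 1)).filter Gr, nv' u * θ u| ≤
      #((range (m + 1)).filter Gr) * (N₀ * (4 * τ)) := sum_bd _ _ fun u hu => by
    rw [mem_filter, mem_range] at hu
    rw [abs_mul]
    exact mul_le_mul (hnv u) (hθb u (hD.g1 u hu.2).1 hu.1) (abs_nonneg _) hN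
  have g2 : |∑ k ∈ (range m).filter Sl, (e0' k + e1' k * (2 ^ w * (x' 0 - t₀'))) * θ k| ≤
      #((range m).filter Sl) * (N₀ * (4 * τ)) := sum_bd _ _ fun u hu => by
    rw [mem_filter, mem_range] at hu
    rw [abs_mul]
    exact mul_le_mul (he u hu.2 hu.1) (hθb u (hD.s1 u hu.2).1 (by omega)) (abs_nonneg _) hN
  have htm : ∀ (F : ℕ → ℝ), (∀ v, |F v| ≤ N₀) → ∀ k, |F k * (2 ^ w * (x 0 - x' 0))| ≤ N₀ * ρ := by
    intro F hF k
    rw [abs_mul, abs_mul, abs_of_pos (by positivity : (0 : ℝ) < 2 ^ w)]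
    exact mul_le_mul (hF k) hρ (by positivity) hN
  have g3 : |∑ k ∈ (range m).filter Sl, e1' k * (2 ^ w * (x 0 - x' 0)) *
      (nat d P' x k - nat d P' p k)| ≤ #((range m).filter Sl) * (N₀ * ρ * (2 * B')) :=
    sum_bd _ _ fun u hu => by
      rw [mem_filter, mem_range] at hu
      rw [abs_mul]
      refine mul_le_mul (htm _ he1' u) ?_ (abs_nonneg _) (by positivity)
      refine (abs_sub _ _).trans ?_
      have := hy u (by omega)
      have := hq u (by omega)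
      linarith
  have g4 : |∑ k ∈ (range m).filter Sl, e1 k * (2 ^ w * (x 0 - x' 0)) *
      (nat d P x k - nat d P p k)| ≤ #((range m).filter Sl) * (N₀ * ρ * (2 * B)) :=
    sum_bd _ _ fun u hu => by
      rw [mem_filter, mem_range] at hu
      rw [abs_mul]
      refine mul_le_mul (htm _ he1 u) ?_ (abs_nonneg _) (by positivity)
      refine (abs_sub _ _).trans ?_
      have := hx u (by omega)
      have := hp u (by omega)
      linarith
  have k1 : ((#((range (m + 1)).filter Gr) : ℕ) : ℝ) ≤ m + 1 := by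
    have : #((range (m + 1)).filter Gr) ≤ m + 1 := (Finset.card_filter_le _ _).trans
      (card_range _).le
    exact_mod_cast this
  have k2 : ((#((range m).filter Sl) : ℕ) : ℝ) ≤ m + 1 := by
    have : #((range m).filter Sl) ≤ m := (Finset.card_filter_le _ _).trans (card_range _).le
    exact_mod_cast this.trans (Nat.le_succ m)
  have r1 := g1.trans (mul_le_mul_of_nonneg_right k1 (by positivity))
  have r2 := g2.trans (mul_le_mul_of_nonneg_right k2 (by positivity))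
  have r3 := g3.trans (mul_le_mul_of_nonneg_right k2 (by positivity))
  have r4 := g4.trans (mul_le_mul_of_nonneg_right k2 (by positivity))
  refine (abs_add_le _ _).trans ((add_le_add ((abs_sub _ _).trans (add_le_add
    ((abs_sub _ _).trans (add_le_add r1 r2)) r3)) r4).trans (le_of_eq ?_))
  ring

end Pool.P4
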