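import Pool.Agent.H52.P4.Hat
import Pool.Agent.H52.P4.Rad

/-!
# Two samples with the same exact point: the functionals agree on the box of the radius

`Cvt`: what is known about a sample of the final event: the own sheet, the covectors `nD` (visible)
and `nv` (of the line), the slopes `e0 + e1 τ`.
-/

set_option autoImplicit false

namespace Pool.P4

open Finset Real MvPolynomial
open Pool.Agent.H49.Ent Pool.Agent.H32.Dense Pool.STK Pool.STAT Pool.MIC.Frm Pool.FRM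
open Pool.MIC.Fru (gw nat_gw nat_gw0 atT_tri atT_deg)

theorem Rly.mono {n y z r : ℕ} {gam : ℕ → ℝ} {d : ℕ → ℕ} {P V : ℕ → PN} {B B' E E' τ τ' : ℝ}
    (h : Rly n y z r gam d P V B E τ) (hB : B' ≤ B) (hE : E ≤ E') (hτ : τ ≤ τ') :
    Rly n y z r gam d P V B' E' τ' where
  aff l hl x hx := (h.aff l hl x (hx.mono le_rfl hB)).trans hτ
  bd l hl k := (h.bd l hl k).trans hE
  sm l h1 h2 k h3 h4 h5 := (h.sm l h1 h2 k h3 h4 h5).trans
    (div_le_div_of_nonneg_right hE (by positivity))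
  box l hl x hx k hk := (h.box l hl x (hx.mono le_rfl hB) k hk).trans hE

/-! ### The point with the same coordinates at another time -/

open Classical in
/-- The point with the coordinates of `x` over `P`, at the time `t`. -/
noncomputable def att (P : ℕ → PN) (t : ℝ) (x : ℕ → ℝ) : ℕ → ℝ :=
  ps P (fun k => if k = 0 then t - eval x (P 0) else zs P x k)

theorem att_zero {P : ℕ → PN} (hP : TriN P) (t : ℝ) (x : ℕ → ℝ) : att P t x 0 = t := by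
  unfold att
  rw [ps_eq hP]
  simp only [if_true]
  rw [Pool.SYS35.eval_congr (hP 0) (b' := x) fun i hi => absurd hi (Nat.not_lt_zero i)]
  ring

theorem att_zs {P : ℕ → PN} (hP : TriN P) (t : ℝ) (x : ℕ → ℝ) {k : ℕ} (hk : 1 ≤ k) :
    zs P (att P t x) k = zs P x k := by
  unfold att
  rw [zs_ps hP]
  simp only [show k ≠ 0 by omega, if_false]

theorem att_nat {P : ℕ → PN} (hP : TriN P) (t t' : ℝ) (w : ℕ) (g : ℕ → ℕ) (x : ℕ → ℝ) {k : ℕ}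
    (hk : 1 ≤ k) :
    nat (gw w g) (atT t' P) (att P t x) k = nat (gw w g) (atT t' P) x k := by
  rw [nat_gw' _ _ _ _ _ hk, nat_gw' _ _ _ _ _ hk, nat_eq, nat_eq, att_zs hP t x hk]

theorem att_bx {P : ℕ → PN} (hP : TriN P) (t : ℝ) (w : ℕ) (g : ℕ → ℕ) {x : ℕ → ℝ} {m : ℕ}
    {B : ℝ} (hx : Bx (gw w g) (atT t P) m B x) (hB : 0 ≤ B) :
    Bx (gw w g) (atT t P) m B (att P t x) := by
  intro k hk
  rcases Nat.eq_zero_or_pos k with hk0 | hk0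
  · rw [hk0, nat_gw0, att_zero hP, sub_self, mul_zero, abs_zero]
    exact hB
  · rw [att_nat hP _ _ _ _ _ hk0]
    exact hx k hk

/-! ### The samples -/

open Classical in
/-- A sample of the final event. -/
structure Cvt (D : NDat2) (n J a₀ z i j r r' a y m w : ℕ) (C N₀ δ : ℝ) (E : D.Ω → Prop)
    (P : D.Γ × D.Γ → ℕ → PN) (Sl Gr : ℕ → Prop) (nn : D.Ω → ℕ → ℝ) (S : D.Ω → ℕ → ℕ → ℝ)
    (t₀ : D.Ω → ℝ) (nD nv e0 e1 : D.Ω → ℕ → ℝ) (ω : D.Ω) : Prop where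
  mem : E ω
  tS : ∀ u k, u ≤ k → S ω u k = 0
  sheet : ∀ Bx : ℝ, 1 ≤ Bx → ∀ b : ℕ → ℝ, b 0 = D.X ω 0 →
    (∀ k, Sl k → |nat (D.g i j) (P (bb D i j r ω)) b k| ≤ exp (Bx * z)) →
    (∀ u, Gr u → b u = eval b (D.Ψ (i - r') (j + r) ω u)) →
    ∀ u, Gr u → |nat (D.g i j) (P (bb D i j r ω)) b u - (nn ω u +
      ∑ k ∈ (range n).filter Sl, S ω u k * nat (D.g i j) (P (bb D i j r ω)) b k)| ≤
      exp (C * Bx * z) * (exp (C * z) / 2 ^ (y * z))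
  bn : ∀ v, |nD ω v| ≤ N₀
  bv : ∀ v, |nv ω v| ≤ N₀
  b0 : ∀ v, |e0 ω v| ≤ N₀
  b1 : ∀ v, |e1 ω v| ≤ N₀
  tm : |2 ^ w * (D.X ω 0 - t₀ ω)| ≤ 1
  c3 : ∀ u, Gr u → u < m + 1 → |∑ v ∈ (range (m + 1)).filter Gr, nD ω v *
    cM D J a₀ z i j r a E P (bb D i j r ω) (rcd D i j r a ω) v u - nv ω u| ≤ δ
  c4 : ∀ k, Sl k → k < m → |∑ u ∈ (range (m + 1)).filter Gr, nv ω u * S ω u k -
    (e0 ω k + e1 ω k * (2 ^ w * (D.X ω 0 - t₀ ω)))| ≤ δ

theorem frs_of {D : NDat2} {n K K₁ K' J a₀ w₀ z M i j r r' a y : ℕ} {lam gam : ℕ → ℝ}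
    {κ C₁ C : ℝ} {q : D.Ω → ℝ} {E : D.Ω → Prop} {P : D.Γ × D.Γ → ℕ → PN} {Sl Gr : ℕ → Prop}
    (hF : Fx D n K K₁ K' J a₀ w₀ z M i j r r' a y lam gam κ C₁ C q E P Sl Gr) {ω : D.Ω}
    (hω : E ω) : ∃ V, Frs D n K z i j r r' C (P (bb D i j r ω)) V ω := by
  obtain ⟨V, hV1, hV2, hV3, hV4⟩ := (hF.fr ω hω).2.1.fc
  have hO := hF.ok
  have tV : Tg K n V := ⟨hV1, fun l _ => (hV2 l).trans hF.k2⟩
  have hΦ : ∀ i j ω, Tg K n (D.Φ i j ω) := fun i j ω =>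
    ⟨hO.P_tri i j _, fun l _ => (hO.P_deg i j _ l).trans hF.k1⟩
  have hP := (hF.fr ω hω).2.2
  have hjM := hF.jM
  have hiM := hF.iM
  exact ⟨V, frp_tg hP hF.k2, tV, (frp_sp hO hF.k1 hP hF.k2 le_rfl).1,
    sp_of_near tV (hΦ _ _ _) fun l hl => hV4 i hF.iM j (by omega) l hl,
    sp_of_near tV (hΦ _ _ _) fun l hl => hV4 (i - r') (by omega) (j + r) hF.jM l hl⟩

/-- Absorb the error of the sheet. -/
theorem absorb {c₁ e z N h ρ δ : ℝ} (hz : 1 ≤ z) (he : 0 ≤ e) (hN : 0 ≤ N) (hh : 0 ≤ h)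
    (hρ : 0 ≤ ρ) (hδ : 0 ≤ δ) :
    exp (c₁ * z) * (N * (h + ρ + exp (e * z) * h) + δ) ≤
      exp ((c₁ + e + 1) * z) * (N * (h + ρ) + δ) := by
  have h1 : (1 : ℝ) ≤ exp (e * z) := ex_one he hz
  have h2 : (2 : ℝ) ≤ exp (1 * z) := by
    have := Real.add_one_le_exp (1 * z)
    linarith
  have h3 : N * (h + ρ + exp (e * z) * h) + δ ≤ exp ((e + 1) * z) * (N * (h + ρ) + δ) := by
    have h4 : 2 * exp (e * z) ≤ exp ((e + 1) * z) := by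
      calc 2 * exp (e * z) ≤ exp (1 * z) * exp (e * z) := by gcongr
        _ = _ := by rw [← exp_add]; ring_nf
    have h5 : h + ρ + exp (e * z) * h ≤ 2 * exp (e * z) * (h + ρ) := by nlinarith
    have h6 : N * (h + ρ + exp (e * z) * h) ≤ N * (2 * exp (e * z) * (h + ρ)) :=
      mul_le_mul_of_nonneg_left h5 hN
    have h7 : δ ≤ 2 * exp (e * z) * δ := by nlinarith
    have h8 : 0 ≤ N * (h + ρ) + δ := by positivity
    calc N * (h + ρ + exp (e * z) * h) + δ ≤ 2 * exp (e * z) * (N * (h + ρ) + δ) := by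
          nlinarith
      _ ≤ _ := mul_le_mul_of_nonneg_right h4 h8
  calc exp (c₁ * z) * (N * (h + ρ + exp (e * z) * h) + δ)
      ≤ exp (c₁ * z) * (exp ((e + 1) * z) * (N * (h + ρ) + δ)) :=
        mul_le_mul_of_nonneg_left h3 (exp_pos _).le
    _ = _ := by
        rw [← mul_assoc, ← exp_add]
        ring_nf

/-- **Points of the own sheet**, seen from one sample. -/
theorem own_one (n K : ℕ) (C C₁ b : ℝ) (hC : 0 ≤ C) (hC₁ : 0 ≤ C₁) (hb : 1 ≤ b) :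
    ∃ c' : ℝ, b ≤ c' ∧
    ∀ (D : NDat2) (K₁ K' J a₀ w₀ z M i j r r' a y : ℕ) (lam gam : ℕ → ℝ) (κ : ℝ)
      (q : D.Ω → ℝ) (E : D.Ω → Prop) (P : D.Γ × D.Γ → ℕ → PN) (Sl Gr : ℕ → Prop),
      Fx D n K K₁ K' J a₀ w₀ z M i j r r' a y lam gam κ C₁ C q E P Sl Gr →
      ∀ (m w : ℕ) (N₀ δ ρ : ℝ) (nn : D.Ω → ℕ → ℝ) (S : D.Ω → ℕ → ℕ → ℝ) (t₀ : D.Ω → ℝ)
        (nD nv e0 e1 : D.Ω → ℕ → ℝ), m ≤ n → w₀ + j * z ≤ w → 0 ≤ δ → 1 ≤ N₀ →
      ∀ ω, Cvt D n J a₀ z i j r r' a y m w C N₀ δ E P Sl Gr nn S t₀ nD nv e0 e1 ω →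
      ∀ p : ℕ → ℝ, Near D a₀ z i j r r' Sl Gr (P (bb D i j r ω)) ω (exp (b * z)) (m + 1) p →
      2 ^ w * |p 0 - D.X ω 0| ≤ ρ →
      |Lam (D.g i j) (P (bb D i j r ω)) Sl Gr m w (t₀ ω) (nv ω) (e0 ω) (e1 ω) p -
        lc Gr m (nv ω) (nn ω)| ≤ exp (c' * z) * (N₀ * (1 / 2 ^ (y * z) + ρ) + δ) ∧
      Bx (D.g i j) (P (bb D i j r ω)) (m + 1) (exp (c' * z)) p := by
  have hb0 : 0 ≤ b := by linarith
  obtain ⟨c₁, h1, own⟩ := lam_own n K C C₁ b hC hC₁ hb0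
  obtain ⟨c₂, h2, crd⟩ := near_crd n K C C₁ b hC hC₁ hb0
  refine ⟨c₁ + (C * b + C) + 1 + c₂, by
    have : 0 ≤ C * b := mul_nonneg hC hb0
    linarith, ?_⟩
  intro D K₁ K' J a₀ w₀ z M i j r r' a y lam gam κ q E P Sl Gr hF m w N₀ δ ρ nn S t₀ nD nv e0 e1
    hm hw hδ hN₀ ω hω p hp hρ
  have hzr : (1 : ℝ) ≤ z := by exact_mod_cast hF.z1
  have hρ0 : 0 ≤ ρ := le_trans (by positivity) hρ
  obtain ⟨V, hV⟩ := frs_of hF hω.mem
  have hCb : 0 ≤ C * b + C := by positivity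
  constructor
  · have := own D K₁ J a₀ w₀ z M lam gam κ q hF.ok hF.k1 hF.z1 hF.lam1 i j r r' y Sl Gr hF.num
      hF.dic ω (hF.fr ω hω.mem).1 _ V hV (nn ω) (S ω) (exp ((C * b + C) * z) * (1 / 2 ^ (y * z)))
      (by
        intro x h0 hsl hgr u hu
        refine (hω.sheet b hb x h0 hsl hgr u hu).trans (le_of_eq ?_)
        rw [mul_one_div, ← mul_div_assoc, ← exp_add]
        ring_nf) hω.tS m w (t₀ ω) N₀ δ ρ (nv ω) (e0 ω) (e1 ω) hm hw (by positivity) hδ hN₀ hω.bv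
      hω.b1 hω.c4 p hp hρ
    refine this.trans ((absorb hzr hCb (by linarith) (by positivity) hρ0 hδ).trans ?_)
    refine mul_le_mul_of_nonneg_right (ex_mono (by linarith) hzr) ?_
    have : 0 ≤ N₀ := by linarith
    positivity
  · intro k hk
    have := (crd D K₁ J a₀ w₀ z M lam gam κ q hF.ok hF.k1 hF.z1 hF.lam1 i j r r' y Sl Gr hF.num ω
      (hF.fr ω hω.mem).1 _ V hV (m + 1) (by omega) p hp k hk).1
    exact this.trans (ex_mono (by linarith) hzr)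

end Pool.P4
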