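import Pool.Agent.H52.P4.Mat

/-!
# Two samples with the same exact point: the functionals agree on the box of the radius
-/

set_option autoImplicit false

namespace Pool.P4

open Finset Real MvPolynomial
open Pool.Agent.H49.Ent Pool.Agent.H32.Dense Pool.STK Pool.STAT Pool.MIC.Frm Pool.FRM
open Pool.MIC.Fru (gw nat_gw nat_gw0 atT_tri atT_deg)

/-- The box with the levels of the radius. -/
theorem bx_gw {g : ℕ → ℕ} {P : ℕ → PN} {m w : ℕ} {B T : ℝ} {x : ℕ → ℝ} (h : Bx g P m B x)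
    (h0 : 2 ^ w * |x 0 - T| ≤ B) : Bx (gw w g) (atT T P) m B x := by
  intro k hk
  rcases Nat.eq_zero_or_pos k with hk0 | hk0
  · rw [hk0, nat_gw0, abs_mul, abs_of_pos (by positivity : (0 : ℝ) < 2 ^ w)]
    exact h0
  · rw [nat_gw' _ _ _ _ _ hk0]
    exact h k hk

/-- **Points of the own sheet**, seen from two samples. -/
theorem own_two (n K : ℕ) (C C₁ b : ℝ) (hC : 0 ≤ C) (hC₁ : 0 ≤ C₁) (hb : 1 ≤ b) :
    ∃ c' : ℝ, b ≤ c' ∧
    ∀ (D : NDat2) (K₁ K' J a₀ w₀ z M i j r r' a y : ℕ) (lam gam : ℕ → ℝ) (κ : ℝ)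
      (q : D.Ω → ℝ) (E : D.Ω → Prop) (P : D.Γ × D.Γ → ℕ → PN) (Sl Gr : ℕ → Prop),
      Fx D n K K₁ K' J a₀ w₀ z M i j r r' a y lam gam κ C₁ C q E P Sl Gr →
      exp (c' * z) ≤ 2 ^ (a * z) →
      ∀ (m w : ℕ) (N₀ δ ρ : ℝ) (nn : D.Ω → ℕ → ℝ) (S : D.Ω → ℕ → ℕ → ℝ) (t₀ : D.Ω → ℝ)
        (nD nv e0 e1 : D.Ω → ℕ → ℝ), m ≤ n → w₀ + j * z ≤ w → 0 ≤ δ → 1 ≤ N₀ →
        (2 : ℝ) ^ w / 2 ^ (a₀ + i * z) ≤ ρ →
      ∀ ω ω', Cvt D n J a₀ z i j r r' a y m w C N₀ δ E P Sl Gr nn S t₀ nD nv e0 e1 ω →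
      Cvt D n J a₀ z i j r r' a y m w C N₀ δ E P Sl Gr nn S t₀ nD nv e0 e1 ω' →
      rcd D i j r a ω = rcd D i j r a ω' → D.s (i - r') (j + r) ω = D.s (i - r') (j + r) ω' →
      ∀ p : ℕ → ℝ, |p 0 - D.X ω 0| ≤ 1 / 2 ^ (a₀ + i * z) →
      (∀ k, Sl k → k < m + 1 → |nat (D.g i j) (P (bb D i j r ω)) p k| ≤ exp (b * z)) →
      (∀ u, Gr u → u < m + 1 → p u = eval p (D.Ψ (i - r') (j + r) ω u)) →
      |Lam (D.g i j) (P (bb D i j r ω)) Sl Gr m w (t₀ ω) (nv ω) (e0 ω) (e1 ω) p -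
        lc Gr m (nv ω) (nn ω)| ≤ exp (c' * z) * (N₀ * (1 / 2 ^ (y * z) + ρ) + δ) ∧
      |Lam (D.g i j) (P (bb D i j r ω')) Sl Gr m w (t₀ ω') (nv ω') (e0 ω') (e1 ω') p -
        lc Gr m (nv ω') (nn ω')| ≤ exp (c' * z) * (N₀ * (1 / 2 ^ (y * z) + ρ) + δ) ∧
      Bx (gw (a₀ + i * z) (D.g i j)) (atT (D.X ω 0) (P (bb D i j r ω))) (m + 1)
        (exp (c' * z)) p ∧
      Bx (gw (a₀ + i * z) (D.g i j)) (atT (D.X ω 0) (P (bb D i j r ω'))) (m + 1)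
        (exp (c' * z)) p := by
  obtain ⟨c₁, h1, o1⟩ := own_one n K C C₁ b hC hC₁ hb
  have hc₁ : 0 ≤ c₁ := by linarith
  obtain ⟨c₂, h2, rl⟩ := rep_rly n K C C₁ c₁ hC hC₁ hc₁
  obtain ⟨c₃, h3, o3⟩ := own_one n K C C₁ (c₂ + 1) hC hC₁ (by linarith)
  obtain ⟨e, he⟩ : ∃ e : ℝ, e = c₁ + c₂ + c₃ := ⟨_, rfl⟩
  refine ⟨e, by rw [he]; linarith, ?_⟩
  intro D K₁ K' J a₀ w₀ z M i j r r' a y lam gam κ q E P Sl Gr hF haz m w N₀ δ ρ nn S t₀ nD nv e0 e1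
    hm hw hδ hN₀ hρ ω ω' hω hω' hrc hsR p hp0 hps hpg
  have hzr : (1 : ℝ) ≤ z := by exact_mod_cast hF.z1
  have he' : ∀ t : ℝ, t ≤ e → exp (t * z) ≤ exp (e * z) := fun t ht => ex_mono ht hzr
  have hT : D.T ω = D.T ω' := congrArg Prod.fst hrc
  have hx0 : D.X ω 0 = D.X ω' 0 := X0_eq hF.ok hT
  have hρ0 : 0 ≤ ρ := le_trans (by positivity) hρ
  have hΨ : D.Ψ (i - r') (j + r) ω' = D.Ψ (i - r') (j + r) ω := by
    unfold NDat2.Ψ
    rw [hsR]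
  have h2i : (0 : ℝ) < 2 ^ (a₀ + i * z) := by positivity
  have hpr : (2 : ℝ) ^ (a₀ + i * z) * |p 0 - D.X ω 0| ≤ 1 := by
    rw [le_div_iff₀ h2i] at hp0
    linarith
  have hpw : (2 : ℝ) ^ w * |p 0 - D.X ω 0| ≤ ρ := by
    refine le_trans ?_ hρ
    calc (2 : ℝ) ^ w * |p 0 - D.X ω 0| ≤ 2 ^ w * (1 / 2 ^ (a₀ + i * z)) := by gcongr
      _ = _ := by ring
  have hN : 0 ≤ N₀ * (1 / 2 ^ (y * z) + ρ) + δ := by
    have : 0 ≤ N₀ := by linarith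
    positivity
  have n1 : Near D a₀ z i j r r' Sl Gr (P (bb D i j r ω)) ω (exp (b * z)) (m + 1) p :=
    ⟨hp0.trans (div_le_div_of_nonneg_right (ex_one (by linarith) hzr) h2i.le), hps,
      fun u h1 h2 => by
        rw [← hpg u h1 h2, sub_self, abs_zero]
        positivity⟩
  obtain ⟨r1, r2⟩ := o1 D K₁ K' J a₀ w₀ z M i j r r' a y lam gam κ q E P Sl Gr hF m w N₀ δ ρ nn S t₀
    nD nv e0 e1 hm hw hδ hN₀ ω hω p n1 hpw
  have r3 : Bx (gw (a₀ + i * z) (D.g i j)) (atT (D.X ω 0) (P (bb D i j r ω))) (m + 1)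
      (exp (c₁ * z)) p := bx_gw r2 (hpr.trans (ex_one hc₁ hzr))
  have hR := (rl D K₁ K' J a₀ w₀ z M i j r r' a y lam gam κ q E P Sl Gr hF
    ((he' c₂ (by rw [he]; linarith)).trans haz)).1 ω ω' hω.mem hω'.mem hrc
  have r4 := hR.box (m + 1) (by omega) p r3
  have n2 : Near D a₀ z i j r r' Sl Gr (P (bb D i j r ω')) ω' (exp ((c₂ + 1) * z)) (m + 1) p := by
    refine ⟨?_, fun k h1 h2 => ?_, fun u h1 h2 => ?_⟩
    · rw [← hx0]
      exact hp0.trans (div_le_div_of_nonneg_right (ex_one (by linarith) hzr) h2i.le)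
    · have := r4 k h2
      rw [nat_gw' _ _ _ _ _ (hF.dic.s1 k h1).1] at this
      exact this.trans (ex_mono (by linarith) hzr)
    · rw [hΨ, ← hpg u h1 h2, sub_self, abs_zero]
      positivity
  obtain ⟨r5, -⟩ := o3 D K₁ K' J a₀ w₀ z M i j r r' a y lam gam κ q E P Sl Gr hF m w N₀ δ ρ nn S t₀
    nD nv e0 e1 hm hw hδ hN₀ ω' hω' p n2 (by rw [← hx0]; exact hpw)
  refine ⟨r1.trans (mul_le_mul_of_nonneg_right (he' _ (by rw [he]; linarith)) hN),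
    r5.trans (mul_le_mul_of_nonneg_right (he' _ (by rw [he]; linarith)) hN),
    r3.mono le_rfl (he' _ (by rw [he]; linarith)), r4.mono le_rfl (he' _ (by rw [he]; linarith))⟩

/-- Constants of `et`. -/
theorem et_cst {m n : ℕ} {e z N h δ E τ : ℝ} (hm : m ≤ n) (hz : 1 ≤ z) (he : 0 ≤ e)
    (hE : E = exp (e * z)) (hh : 0 ≤ h) (hN : 0 ≤ N) (hδ : 0 ≤ δ) (hτ : τ ≤ E * h) :
    (m + 1) * (2 * (E + E) * δ + 3 * (2 * N) * (2 * τ + (m + 1) * (E * (2 * τ + (m + 1) *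
      (E * h * (2 * E)))))) ≤ exp ((3 * n + 3 * e + 8) * z) * (N * h + δ) := by
  have hE1 : 1 ≤ E := by rw [hE]; exact ex_one he hz
  have hE0 : 0 ≤ E := by linarith
  have hn0 : (0 : ℝ) ≤ n := Nat.cast_nonneg n
  have hmn : (m : ℝ) + 1 ≤ n + 1 := by
    have : (m : ℝ) ≤ n := by exact_mod_cast hm
    linarith
  have hm1 : (1 : ℝ) ≤ m + 1 := by
    have : (0 : ℝ) ≤ m := Nat.cast_nonneg m
    linarith
  obtain ⟨u, hu⟩ : ∃ u : ℝ, u = (m : ℝ) + 1 := ⟨_, rfl⟩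
  rw [← hu] at hmn hm1 ⊢
  have hu0 : 0 ≤ u := by linarith
  have hE2 : E ≤ E * E := by nlinarith
  have hE3 : E * E ≤ E * E * E := by
    have : 0 ≤ E * E := by positivity
    nlinarith
  have huu : u ≤ u * u := by nlinarith
  have hu3 : u * u ≤ u * u * u := by
    have : 0 ≤ u * u := by positivity
    nlinarith
  obtain ⟨A, hA⟩ : ∃ A : ℝ, A = u * u * u * (E * E * E) := ⟨_, rfl⟩
  have hA0 : 0 ≤ A := by rw [hA]; positivity
  -- the parts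
  have p1 : u * (2 * (E + E) * δ) ≤ 4 * A * δ := by
    have : u * E ≤ A := by
      rw [hA]
      exact mul_le_mul (huu.trans hu3) (hE2.trans hE3) hE0 (by positivity)
    calc u * (2 * (E + E) * δ) = 4 * (u * E) * δ := by ring
      _ ≤ 4 * A * δ := by gcongr
  have q1 : 2 * τ ≤ 2 * (E * h) := by linarith
  have q2 : 2 * τ + u * (E * h * (2 * E)) ≤ 4 * (u * (E * E) * h) := by
    have : E * h ≤ u * (E * E) * h := by
      refine mul_le_mul_of_nonneg_right ?_ hh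
      nlinarith
    nlinarith
  have q3 : 2 * τ + u * (E * (2 * τ + u * (E * h * (2 * E)))) ≤
      6 * (u * u * (E * E * E) * h) := by
    have s1 : u * (E * (2 * τ + u * (E * h * (2 * E)))) ≤ u * (E * (4 * (u * (E * E) * h))) := by
      gcongr
    have s2 : u * (E * (4 * (u * (E * E) * h))) = 4 * (u * u * (E * E * E) * h) := by ring
    have s3 : E * h ≤ u * u * (E * E * E) * h := by
      refine mul_le_mul_of_nonneg_right ?_ hh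
      calc E ≤ 1 * (E * E * E) := by linarith
        _ ≤ u * u * (E * E * E) := by
          refine mul_le_mul_of_nonneg_right ?_ (by positivity)
          linarith
    linarith
  have p2 : u * (3 * (2 * N) * (2 * τ + u * (E * (2 * τ + u * (E * h * (2 * E)))))) ≤
      36 * A * (N * h) := by
    calc u * (3 * (2 * N) * (2 * τ + u * (E * (2 * τ + u * (E * h * (2 * E))))))
        ≤ u * (3 * (2 * N) * (6 * (u * u * (E * E * E) * h))) := by gcongr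
      _ = 36 * A * (N * h) := by rw [hA]; ring
  have hNh : 0 ≤ N * h := by positivity
  have p3 : u * (2 * (E + E) * δ + 3 * (2 * N) * (2 * τ + u * (E * (2 * τ + u *
      (E * h * (2 * E)))))) ≤ 36 * A * (N * h + δ) := by
    have : 4 * A * δ ≤ 36 * A * δ := by
      have : 0 ≤ A * δ := by positivity
      linarith
    rw [mul_add]
    linarith
  refine p3.trans (mul_le_mul_of_nonneg_right ?_ (by positivity))
  have g0 : (n : ℝ) + 1 ≤ exp ((n + 1) * z) := by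
    have := Real.add_one_le_exp (((n : ℝ) + 1) * z)
    nlinarith
  have g1 : u * u * u ≤ exp ((3 * n + 3) * z) := by
    have : u ≤ exp ((n + 1) * z) := hmn.trans g0
    calc u * u * u ≤ exp ((n + 1) * z) * exp ((n + 1) * z) * exp ((n + 1) * z) := by gcongr
      _ = _ := by rw [← exp_add, ← exp_add]; ring_nf
  have g2 : (36 : ℝ) ≤ exp (5 * z) := by
    have t1 : (5 : ℝ) * z + 1 ≤ exp (5 * z) := Real.add_one_le_exp _
    have t2 := Real.add_one_le_exp (1 : ℝ)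
    have t3 : (2.7 : ℝ) ≤ exp 1 := by
      have := Real.exp_one_gt_d9
      linarith
    calc (36 : ℝ) ≤ 2.7 ^ 5 := by norm_num
      _ ≤ exp 1 ^ 5 := pow_le_pow_left₀ (by norm_num) t3 5
      _ = exp (5 * 1) := by rw [← Real.exp_nat_mul]; norm_num
      _ ≤ exp (5 * z) := exp_le_exp.2 (by linarith)
  calc 36 * A = 36 * (u * u * u) * (E * E * E) := by rw [hA]; ring
    _ ≤ exp (5 * z) * exp ((3 * n + 3) * z) * (exp (e * z) * exp (e * z) * exp (e * z)) := by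
        rw [hE]
        gcongr
    _ = _ := by
        rw [← exp_add, ← exp_add, ← exp_add, ← exp_add]
        ring_nf

/-- **The exact time.** -/
theorem gd_exact (n K : ℕ) (C C₁ b : ℝ) (hC : 0 ≤ C) (hC₁ : 0 ≤ C₁) (hb : 1 ≤ b) :
    ∃ c' : ℝ, b ≤ c' ∧
    ∀ (D : NDat2) (K₁ K' J a₀ w₀ z M i j r r' a y : ℕ) (lam gam : ℕ → ℝ) (κ : ℝ)
      (q : D.Ω → ℝ) (E : D.Ω → Prop) (P : D.Γ × D.Γ → ℕ → PN) (Sl Gr : ℕ → Prop),
      Fx D n K K₁ K' J a₀ w₀ z M i j r r' a y lam gam κ C₁ C q E P Sl Gr →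
      exp (c' * z) ≤ 2 ^ (a * z) →
      ∀ (m w : ℕ) (N₀ δ ρ : ℝ) (nn : D.Ω → ℕ → ℝ) (S : D.Ω → ℕ → ℕ → ℝ) (t₀ : D.Ω → ℝ)
        (nD nv e0 e1 : D.Ω → ℕ → ℝ), m ≤ n → w₀ + j * z ≤ w → 0 ≤ δ → 1 ≤ N₀ →
        (2 : ℝ) ^ w / 2 ^ (a₀ + i * z) ≤ ρ →
      ∀ ω ω', Cvt D n J a₀ z i j r r' a y m w C N₀ δ E P Sl Gr nn S t₀ nD nv e0 e1 ω →
      Cvt D n J a₀ z i j r r' a y m w C N₀ δ E P Sl Gr nn S t₀ nD nv e0 e1 ω' →
      rcd D i j r a ω = rcd D i j r a ω' → D.s (i - r') (j + r) ω = D.s (i - r') (j + r) ω' →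
      nD ω = nD ω' → ∀ x : ℕ → ℝ, x 0 = D.X ω 0 →
      Bx (gw (a₀ + i * z) (D.g i j)) (atT (D.X ω 0) (P (bb D i j r ω))) (m + 1)
        (exp (b * z)) x →
      |(Lam (D.g i j) (P (bb D i j r ω')) Sl Gr m w (t₀ ω') (nv ω') (e0 ω') (e1 ω') x -
        lc Gr m (nv ω') (nn ω')) -
        (Lam (D.g i j) (P (bb D i j r ω)) Sl Gr m w (t₀ ω) (nv ω) (e0 ω) (e1 ω) x -
        lc Gr m (nv ω) (nn ω))| ≤ exp (c' * z) * (N₀ * (1 / 2 ^ (y * z) + ρ) + δ) := by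
  obtain ⟨c₁, h1, own⟩ := own_two n K C C₁ b hC hC₁ hb
  have hc₁ : 0 ≤ c₁ := by linarith
  obtain ⟨c₂, h2, rl⟩ := rep_rly n K C C₁ c₁ hC hC₁ hc₁
  obtain ⟨c₃, h3, rl'⟩ := rep_rly n K C C₁ c₂ hC hC₁ h2
  obtain ⟨e, he⟩ : ∃ e : ℝ, e = c₁ + c₂ + c₃ := ⟨_, rfl⟩
  have he0 : 0 ≤ e := by rw [he]; linarith
  obtain ⟨e2, he2⟩ : ∃ e2 : ℝ, e2 = 3 * n + 3 * e + 8 := ⟨_, rfl⟩
  have hn0 : (0 : ℝ) ≤ n := Nat.cast_nonneg n
  refine ⟨e2 + c₁ + 2, by rw [he2]; linarith, ?_⟩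
  intro D K₁ K' J a₀ w₀ z M i j r r' a y lam gam κ q E P Sl Gr hF haz m w N₀ δ ρ nn S t₀ nD nv e0 e1
    hm hw hδ hN₀ hρ ω ω' hω hω' hrc hsR hnD x hx0 hx
  have hzr : (1 : ℝ) ≤ z := by exact_mod_cast hF.z1
  have he' : ∀ t : ℝ, t ≤ e → exp (t * z) ≤ exp (e * z) := fun t ht => ex_mono ht hzr
  have hle : ∀ t : ℝ, t ≤ e2 + c₁ + 2 → exp (t * z) ≤ 2 ^ (a * z) := fun t ht =>
    (ex_mono ht hzr).trans haz
  have hTT : D.T ω = D.T ω' := congrArg Prod.fst hrc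
  have hX0 : D.X ω 0 = D.X ω' 0 := X0_eq hF.ok hTT
  have hPt : TriN (P (bb D i j r ω)) := (hF.fr ω hω.mem).2.2.tri
  have hPt' : TriN (P (bb D i j r ω')) := (hF.fr ω' hω'.mem).2.2.tri
  have hρ0 : 0 ≤ ρ := le_trans (by positivity) hρ
  -- the point of the own sheet
  obtain ⟨F, hFd⟩ : ∃ F, F = D.Ψ (i - r') (j + r) ω := ⟨_, rfl⟩
  have hFt : TriN F := by
    rw [hFd]
    exact hF.ok.G_tri _ _ _
  obtain ⟨p, hp⟩ : ∃ p, p = xsh Sl Gr (D.X ω 0) (P (bb D i j r ω)) F (m + 1) x := ⟨_, rfl⟩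
  have p0 : p 0 = D.X ω 0 := by rw [hp]; exact xsh_zero hF.dic hPt hFt
  have psl : ∀ k, Sl k → k < m + 1 → nat (D.g i j) (P (bb D i j r ω)) p k =
      nat (D.g i j) (P (bb D i j r ω)) x k := by
    intro k hk hkm
    rw [nat_eq, nat_eq, hp, xsh_slow hF.dic hPt hFt hk, if_pos hkm]
  have pgr : ∀ u, Gr u → u < m + 1 → p u = eval p (D.Ψ (i - r') (j + r) ω u) := by
    intro u hu _
    have := xsh_grp (t := D.X ω 0) (m := m + 1) (x := x) hF.dic hPt hFt hu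
    rw [← hp, hFd] at this
    exact this
  obtain ⟨o1, o2, o3, o4⟩ := own D K₁ K' J a₀ w₀ z M i j r r' a y lam gam κ q E P Sl Gr hF
    (hle _ (by rw [he2]; linarith)) m w N₀ δ ρ nn S t₀ nD nv e0 e1 hm hw hδ hN₀ hρ ω ω' hω hω' hrc hsR
    p (by rw [p0, sub_self, abs_zero]; positivity) (fun k hk hkm => by
      rw [psl k hk hkm]
      have := hx k hkm
      rwa [nat_gw' _ _ _ _ _ (hF.dic.s1 k hk).1] at this) pgr
  -- the relations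
  obtain ⟨rA, rB⟩ := rl D K₁ K' J a₀ w₀ z M i j r r' a y lam gam κ q E P Sl Gr hF
    (hle _ (by rw [he2, he]; linarith))
  obtain ⟨-, rB'⟩ := rl' D K₁ K' J a₀ w₀ z M i j r r' a y lam gam κ q E P Sl Gr hF
    (hle _ (by rw [he2, he]; linarith))
  have hRR := rA ω ω' hω.mem hω'.mem hrc
  obtain ⟨hWt, hRW⟩ := rB ω hω.mem
  obtain ⟨-, hRW'⟩ := rB' ω' hω'.mem
  rw [← hrc, ← hX0] at hRW'
  have x1 : Bx (gw (a₀ + i * z) (D.g i j)) (atT (D.X ω 0) (P (bb D i j r ω))) (m + 1)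
      (exp (c₁ * z)) x := hx.mono le_rfl (ex_mono h1 hzr)
  have x2 := hRR.box (m + 1) (by omega) x x1
  have x3 := hRR.box (m + 1) (by omega) p o3
  obtain ⟨Ee, hEe⟩ : ∃ Ee : ℝ, Ee = exp (e * z) := ⟨_, rfl⟩
  have hE1 : 1 ≤ Ee := by rw [hEe]; exact ex_one he0 hzr
  have l1 : exp (c₁ * z) ≤ Ee := by rw [hEe]; exact he' _ (by rw [he]; linarith)
  have l2 : exp (c₂ * z) ≤ Ee := by rw [hEe]; exact he' _ (by rw [he]; linarith)
  have l3 : exp (c₃ * z) ≤ Ee := by rw [hEe]; exact he' _ (by rw [he]; linarith)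
  obtain ⟨τ, hτ⟩ : ∃ τ : ℝ, τ = Ee / 2 ^ (a * z) := ⟨_, rfl⟩
  have t2 : exp (c₂ * z) / 2 ^ (a * z) ≤ τ := by
    rw [hτ]
    exact div_le_div_of_nonneg_right l2 (by positivity)
  have t3 : exp (c₃ * z) / 2 ^ (a * z) ≤ τ := by
    rw [hτ]
    exact div_le_div_of_nonneg_right l3 (by positivity)
  have hτ0 : 0 ≤ τ := by rw [hτ]; positivity
  have key := et (m := m) (w := w) (Sl := Sl) (Gr := Gr) (x := x) (x' := p)
    (r' := (r' : ℝ)) (N₀ := 2 * N₀) (δ := δ)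
    (t₀ := t₀ ω) (t₀' := t₀ ω') (nD := nD ω) (nv := nv ω) (nv' := nv ω') (e0 := e0 ω)
    (e0' := e0 ω') (e1 := e1 ω) (e1' := e1 ω') (hRW.mono le_rfl l2 t2) (hRW'.mono le_rfl l3 t3)
    (hRR.mono le_rfl l2 t2)
    (atT_tri hPt _) (atT_tri hPt' _) (atT_tri hWt _) hF.dic hF.num.dic hF.num.s1 hF.num.s2 hm
    (by rw [hx0, p0]) x1 o3 x2 x3 (exp_pos _).le hE1 hτ0
    (fun k hk hkm => by
      rw [nat_gw' _ _ _ _ _ (hF.dic.s1 k hk).1, nat_gw' _ _ _ _ _ (hF.dic.s1 k hk).1, psl k hk hkm])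
    (by linarith) hδ (fun v => (hω.bn v).trans (by linarith))
    (fun k hk hkm => by
      rw [hx0, hX0]
      refine (abs_add_le _ _).trans ?_
      rw [abs_mul]
      have a1 := hω'.b0 k
      have a2 := mul_le_mul (hω'.b1 k) hω'.tm (abs_nonneg _) (by linarith : (0 : ℝ) ≤ N₀)
      linarith)
    (fun u hu hum => by
      have := hω.c3 u hu hum
      unfold cM at this
      rw [show ((rcd D i j r a ω).1 : ℝ) / 2 ^ J = D.X ω 0 from (hF.ok.X_zero ω).symm] at this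
      exact this)
    (fun u hu hum => by
      have := hω'.c3 u hu hum
      unfold cM at this
      rw [show ((rcd D i j r a ω').1 : ℝ) / 2 ^ J = D.X ω' 0 from (hF.ok.X_zero ω').symm, ← hX0,
        ← hrc, ← hnD] at this
      exact this)
  rw [lam_gw hF.dic, lam_gw hF.dic, lam_gw hF.dic, lam_gw hF.dic] at key
  obtain ⟨h, hh⟩ : ∃ h : ℝ, h = 1 / 2 ^ (y * z) := ⟨_, rfl⟩
  have hh0 : 0 ≤ h := by rw [hh]; positivity
  have hτh : τ ≤ Ee * h := by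
    rw [hτ, hh, mul_one_div]
    exact div_le_div_of_nonneg_left (by linarith) (by positivity)
      (pow_le_pow_right₀ (by norm_num) (Nat.mul_le_mul_right z hF.ya))
  have hcst := et_cst (N := N₀) (δ := δ) hm hzr he0 hEe hh0 (by linarith) hδ hτh
  have hN0 : 0 ≤ N₀ := by linarith
  have hE0 : 0 ≤ Ee := by linarith
  have k1 : (m + 1) * (2 * (exp (c₁ * z) + exp (c₂ * z)) * δ + 3 * (2 * N₀) * (2 * τ + (m + 1) *
      (Ee * (2 * τ + (m + 1) * (Ee / 2 ^ (y * z) * (2 * exp (c₁ * z))))))) ≤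
      (m + 1) * (2 * (Ee + Ee) * δ + 3 * (2 * N₀) * (2 * τ + (m + 1) * (Ee * (2 * τ + (m + 1) *
      (Ee * h * (2 * Ee)))))) := by
    have : Ee / 2 ^ (y * z) = Ee * h := by
      rw [hh]
      ring
    rw [this]
    gcongr
  have key2 := key.trans (k1.trans hcst)
  rw [← he2] at key2
  obtain ⟨L, hL⟩ : ∃ L : ℝ, L = Lam (D.g i j) (P (bb D i j r ω)) Sl Gr m w (t₀ ω) (nv ω) (e0 ω)
    (e1 ω) x := ⟨_, rfl⟩
  obtain ⟨L', hL'⟩ : ∃ L' : ℝ, L' = Lam (D.g i j) (P (bb D i j r ω')) Sl Gr m w (t₀ ω') (nv ω')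
    (e0 ω') (e1 ω') x := ⟨_, rfl⟩
  obtain ⟨Q, hQ⟩ : ∃ Q : ℝ, Q = Lam (D.g i j) (P (bb D i j r ω)) Sl Gr m w (t₀ ω) (nv ω) (e0 ω)
    (e1 ω) p := ⟨_, rfl⟩
  obtain ⟨Q', hQ'⟩ : ∃ Q' : ℝ, Q' = Lam (D.g i j) (P (bb D i j r ω')) Sl Gr m w (t₀ ω') (nv ω')
    (e0 ω') (e1 ω') p := ⟨_, rfl⟩
  obtain ⟨c, hc⟩ : ∃ c : ℝ, c = lc Gr m (nv ω) (nn ω) := ⟨_, rfl⟩
  obtain ⟨c', hc'⟩ : ∃ c' : ℝ, c' = lc Gr m (nv ω') (nn ω') := ⟨_, rfl⟩
  rw [← hL, ← hL', ← hQ, ← hQ'] at key2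
  rw [← hQ, ← hc] at o1
  rw [← hQ', ← hc'] at o2
  rw [← hL, ← hL', ← hc, ← hc']
  have id : L' - c' - (L - c) = (L' - Q' - (L - Q)) + (Q' - c') - (Q - c) := by ring
  rw [id]
  obtain ⟨X, hX⟩ : ∃ X : ℝ, X = N₀ * (1 / 2 ^ (y * z) + ρ) + δ := ⟨_, rfl⟩
  have hX0' : 0 ≤ X := by rw [hX]; positivity
  have m1 : exp (e2 * z) * (N₀ * h + δ) ≤ exp (e2 * z) * X := by
    refine mul_le_mul_of_nonneg_left ?_ (exp_pos _).le
    rw [hX, hh]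
    have : 0 ≤ N₀ * ρ := by positivity
    nlinarith
  rw [← hX] at o1 o2 ⊢
  refine (abs_sub _ _).trans ((add_le_add ((abs_add_le _ _).trans (add_le_add (key2.trans m1) o2))
    o1).trans ?_)
  have f2 : (2 : ℝ) ≤ exp (1 * z) := by
    have := Real.add_one_le_exp (1 * (z : ℝ))
    linarith
  have f3 : exp (e2 * z) + exp (c₁ * z) + exp (c₁ * z) ≤ exp ((e2 + c₁ + 2) * z) := by
    have g1 : exp (e2 * z) ≤ exp ((e2 + c₁) * z) := ex_mono (by linarith) hzr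
    have g2 : exp (c₁ * z) ≤ exp ((e2 + c₁) * z) := ex_mono (by rw [he2]; linarith) hzr
    calc exp (e2 * z) + exp (c₁ * z) + exp (c₁ * z) ≤ 2 * 2 * exp ((e2 + c₁) * z) := by
          have := exp_pos ((e2 + c₁) * (z : ℝ))
          linarith
      _ ≤ exp (1 * z) * exp (1 * z) * exp ((e2 + c₁) * z) := by gcongr
      _ = _ := by rw [← exp_add, ← exp_add]; ring_nf
  calc exp (e2 * z) * X + exp (c₁ * z) * X + exp (c₁ * z) * X
      = (exp (e2 * z) + exp (c₁ * z) + exp (c₁ * z)) * X := by ring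
    _ ≤ _ := mul_le_mul_of_nonneg_right f3 hX0'

end Pool.P4
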