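import Pool.Agent.H52.P4.Mat2

/-!
# Two samples with the same exact point: all the points of the box of the radius
-/

set_option autoImplicit false

namespace Pool.P4

open Finset Real MvPolynomial
open Pool.Agent.H49.Ent Pool.Agent.H32.Dense Pool.STK Pool.STAT Pool.MIC.Frm Pool.FRM
open Pool.MIC.Fru (gw nat_gw nat_gw0 atT_tri atT_deg)

/-- **All the points.** -/
theorem gd_all (n K : ℕ) (C C₁ b : ℝ) (hC : 0 ≤ C) (hC₁ : 0 ≤ C₁) (hb : 1 ≤ b) :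
    ∃ c' : ℝ, b ≤ c' ∧
    ∀ (D : NDat2) (K₁ K' J a₀ w₀ z M i j r r' a y : ℕ) (lam gam : ℕ → ℝ) (κ : ℝ)
      (q : D.Ω → ℝ) (E : D.Ω → Prop) (P : D.Γ × D.Γ → ℕ → PN) (Sl Gr : ℕ → Prop),
      Fx D n K K₁ K' J a₀ w₀ z M i j r r' a y lam gam κ C₁ C q E P Sl Gr →
      exp (c' * z) ≤ 2 ^ (a * z) →
      ∀ (m w : ℕ) (N₀ δ ρ : ℝ) (nn : D.Ω → ℕ → ℝ) (S : D.Ω → ℕ → ℕ → ℝ) (t₀ : D.Ω → ℝ)
        (nD nv e0 e1 : D.Ω → ℕ → ℝ), m ≤ n → w₀ + j * z ≤ w → 0 ≤ δ → 1 ≤ N₀ →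
        (2 : ℝ) ^ w / 2 ^ (a₀ + i * z) ≤ ρ →
      ∀ ω ω', Cvt D n J a₀ z i j r r' a y m w C N₀ δ E P Sl Gr nn S t₀ nD nv e0 e1 ω →
      Cvt D n J a₀ z i j r r' a y m w C N₀ δ E P Sl Gr nn S t₀ nD nv e0 e1 ω' →
      rcd D i j r a ω = rcd D i j r a ω' → D.s (i - r') (j + r) ω = D.s (i - r') (j + r) ω' →
      nD ω = nD ω' → ∀ x : ℕ → ℝ, |x 0 - D.X ω 0| ≤ 1 / 2 ^ (a₀ + i * z) →
      Bx (D.g i j) (P (bb D i j r ω)) (m + 1) (exp (b * z)) x →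
      |(Lam (D.g i j) (P (bb D i j r ω')) Sl Gr m w (t₀ ω') (nv ω') (e0 ω') (e1 ω') x -
        lc Gr m (nv ω') (nn ω')) -
        (Lam (D.g i j) (P (bb D i j r ω)) Sl Gr m w (t₀ ω) (nv ω) (e0 ω) (e1 ω) x -
        lc Gr m (nv ω) (nn ω))| ≤ exp (c' * z) * (N₀ * (1 / 2 ^ (y * z) + ρ) + δ) := by
  obtain ⟨c₁, h1, own⟩ := own_two n K C C₁ b hC hC₁ hb
  have hc₁ : 0 ≤ c₁ := by linarith
  obtain ⟨c₂, h2, gx⟩ := gd_exact n K C C₁ c₁ hC hC₁ (by linarith)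
  obtain ⟨c₃, h3, rl⟩ := rep_rly n K C C₁ c₁ hC hC₁ hc₁
  obtain ⟨e, he⟩ : ∃ e : ℝ, e = c₁ + c₂ + c₃ := ⟨_, rfl⟩
  have he0 : 0 ≤ e := by rw [he]; linarith
  have hn0 : (0 : ℝ) ≤ n := Nat.cast_nonneg n
  obtain ⟨f, hf⟩ : ∃ f : ℝ, f = n + 1 + 2 * e + 6 := ⟨_, rfl⟩
  refine ⟨f, by rw [hf, he]; linarith, ?_⟩
  intro D K₁ K' J a₀ w₀ z M i j r r' a y lam gam κ q E P Sl Gr hF haz m w N₀ δ ρ nn S t₀ nD nv e0 e1
    hm hw hδ hN₀ hρ ω ω' hω hω' hrc hsR hnD x hx0 hx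
  have hzr : (1 : ℝ) ≤ z := by exact_mod_cast hF.z1
  have hle : ∀ t : ℝ, t ≤ f → exp (t * z) ≤ 2 ^ (a * z) := fun t ht =>
    (ex_mono ht hzr).trans haz
  have hTT : D.T ω = D.T ω' := congrArg Prod.fst hrc
  have hX0 : D.X ω 0 = D.X ω' 0 := X0_eq hF.ok hTT
  have hPt : TriN (P (bb D i j r ω)) := (hF.fr ω hω.mem).2.2.tri
  have hρ0 : 0 ≤ ρ := le_trans (by positivity) hρ
  have h2i : (0 : ℝ) < 2 ^ (a₀ + i * z) := by positivity
  have hpr : (2 : ℝ) ^ (a₀ + i * z) * |x 0 - D.X ω 0| ≤ 1 := by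
    rw [le_div_iff₀ h2i] at hx0
    linarith
  have hpw : (2 : ℝ) ^ w * |x 0 - D.X ω 0| ≤ ρ := by
    refine le_trans ?_ hρ
    calc (2 : ℝ) ^ w * |x 0 - D.X ω 0| ≤ 2 ^ w * (1 / 2 ^ (a₀ + i * z)) := by gcongr
      _ = _ := by ring
  -- the point of the own sheet
  obtain ⟨F, hFd⟩ : ∃ F, F = D.Ψ (i - r') (j + r) ω := ⟨_, rfl⟩
  have hFt : TriN F := by
    rw [hFd]
    exact hF.ok.G_tri _ _ _
  obtain ⟨p, hp⟩ : ∃ p, p = xsh Sl Gr (x 0) (P (bb D i j r ω)) F (m + 1) x := ⟨_, rfl⟩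
  have p0 : p 0 = x 0 := by rw [hp]; exact xsh_zero hF.dic hPt hFt
  have psl : ∀ k, Sl k → k < m + 1 → nat (D.g i j) (P (bb D i j r ω)) p k =
      nat (D.g i j) (P (bb D i j r ω)) x k := by
    intro k hk hkm
    rw [nat_eq, nat_eq, hp, xsh_slow hF.dic hPt hFt hk, if_pos hkm]
  have pgr : ∀ u, Gr u → u < m + 1 → p u = eval p (D.Ψ (i - r') (j + r) ω u) := by
    intro u hu _
    have := xsh_grp (t := x 0) (m := m + 1) (x := x) hF.dic hPt hFt hu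
    rw [← hp, hFd] at this
    exact this
  obtain ⟨o1, o2, o3, o4⟩ := own D K₁ K' J a₀ w₀ z M i j r r' a y lam gam κ q E P Sl Gr hF
    (hle _ (by rw [hf, he]; linarith)) m w N₀ δ ρ nn S t₀ nD nv e0 e1 hm hw hδ hN₀ hρ ω ω' hω hω' hrc
    hsR p (by rw [p0]; exact hx0) (fun k hk hkm => by
      rw [psl k hk hkm]
      exact hx k hkm) pgr
  -- the points at the exact time
  have x1 : Bx (gw (a₀ + i * z) (D.g i j)) (atT (D.X ω 0) (P (bb D i j r ω))) (m + 1)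
      (exp (c₁ * z)) x := (bx_gw hx (hpr.trans (ex_one (by linarith) hzr))).mono le_rfl
        (ex_mono h1 hzr)
  obtain ⟨xT, hxT⟩ : ∃ xT, xT = att (P (bb D i j r ω)) (D.X ω 0) x := ⟨_, rfl⟩
  obtain ⟨pT, hpT⟩ : ∃ pT, pT = att (P (bb D i j r ω)) (D.X ω 0) p := ⟨_, rfl⟩
  have xT0 : xT 0 = D.X ω 0 := by rw [hxT]; exact att_zero hPt _ _
  have pT0 : pT 0 = D.X ω 0 := by rw [hpT]; exact att_zero hPt _ _
  have x1T : Bx (gw (a₀ + i * z) (D.g i j)) (atT (D.X ω 0) (P (bb D i j r ω))) (m + 1)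
      (exp (c₁ * z)) xT := by
    rw [hxT]
    exact att_bx hPt _ _ _ x1 (exp_pos _).le
  have p1T : Bx (gw (a₀ + i * z) (D.g i j)) (atT (D.X ω 0) (P (bb D i j r ω))) (m + 1)
      (exp (c₁ * z)) pT := by
    rw [hpT]
    exact att_bx hPt _ _ _ o3 (exp_pos _).le
  have g1 := gx D K₁ K' J a₀ w₀ z M i j r r' a y lam gam κ q E P Sl Gr hF
    (hle _ (by rw [hf, he]; linarith)) m w N₀ δ ρ nn S t₀ nD nv e0 e1 hm hw hδ hN₀ hρ ω ω' hω hω' hrc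
    hsR hnD xT xT0 x1T
  have g2 := gx D K₁ K' J a₀ w₀ z M i j r r' a y lam gam κ q E P Sl Gr hF
    (hle _ (by rw [hf, he]; linarith)) m w N₀ δ ρ nn S t₀ nD nv e0 e1 hm hw hδ hN₀ hρ ω ω' hω hω' hrc
    hsR hnD pT pT0 p1T
  -- the relation
  have hRR := (rl D K₁ K' J a₀ w₀ z M i j r r' a y lam gam κ q E P Sl Gr hF
    (hle _ (by rw [hf, he]; linarith))).1 ω ω' hω.mem hω'.mem hrc
  have x2 := hRR.box (m + 1) (by omega) x x1
  have p2 := hRR.box (m + 1) (by omega) p o3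
  obtain ⟨Ee, hEe⟩ : ∃ Ee : ℝ, Ee = exp (e * z) := ⟨_, rfl⟩
  have l1 : exp (c₁ * z) ≤ Ee := by rw [hEe]; exact ex_mono (by rw [he]; linarith) hzr
  have l3 : exp (c₃ * z) ≤ Ee := by rw [hEe]; exact ex_mono (by rw [he]; linarith) hzr
  have hE1 : 1 ≤ Ee := by rw [hEe]; exact ex_one he0 hzr
  obtain ⟨h, hh⟩ : ∃ h : ℝ, h = 1 / 2 ^ (y * z) := ⟨_, rfl⟩
  have hh0 : 0 ≤ h := by rw [hh]; positivity
  obtain ⟨τ, hτ⟩ : ∃ τ : ℝ, τ = exp (c₃ * z) / 2 ^ (a * z) := ⟨_, rfl⟩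
  have hτ0 : 0 ≤ τ := by rw [hτ]; positivity
  have hτh : τ ≤ Ee * h := by
    rw [hτ, hh, mul_one_div]
    refine (div_le_div_of_nonneg_right l3 (by positivity)).trans ?_
    exact div_le_div_of_nonneg_left (by linarith) (by positivity)
      (pow_le_pow_right₀ (by norm_num) (Nat.mul_le_mul_right z hF.ya))
  rw [← hτ] at hRR
  have rt := rt_dif (m := m) (w := w) (Sl := Sl) (Gr := Gr) (x := x) (x' := xT) (p := p) (p' := pT)
    (N₀ := 2 * N₀) (ρ := ρ) (t₀ := t₀ ω) (t₀' := t₀ ω') (nv := nv ω) (nv' := nv ω') (e0 := e0 ω)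
    (e0' := e0 ω') (e1 := e1 ω) (e1' := e1 ω') hRR (atT_tri hPt _) hF.dic hm p0.symm
    (by rw [xT0, pT0]) x1 x1T o3 p1T x2 p2
    (fun k hk _ => by rw [hxT, att_nat hPt _ _ _ _ _ hk])
    (fun k hk _ => by rw [hpT, att_nat hPt _ _ _ _ _ hk]) hτ0 (by linarith)
    (fun v => (hω'.bv v).trans (by linarith)) (fun v => (hω.b1 v).trans (by linarith))
    (fun v => (hω'.b1 v).trans (by linarith))
    (fun k hk hkm => by
      rw [xT0, hX0]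
      refine (abs_add_le _ _).trans ?_
      rw [abs_mul]
      have a1 := hω'.b0 k
      have a2 := mul_le_mul (hω'.b1 k) hω'.tm (abs_nonneg _) (by linarith : (0 : ℝ) ≤ N₀)
      linarith) (by rw [xT0]; exact hpw)
  simp only [lam_gw hF.dic] at rt
  have hN0 : 0 ≤ N₀ := by linarith
  have hE0 : 0 ≤ Ee := by linarith
  obtain ⟨X, hX⟩ : ∃ X : ℝ, X = N₀ * (1 / 2 ^ (y * z) + ρ) + δ := ⟨_, rfl⟩
  have hX0' : 0 ≤ X := by rw [hX]; positivity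
  have hmn : (m : ℝ) + 1 ≤ exp ((n + 1) * z) := by
    have := Real.add_one_le_exp (((n : ℝ) + 1) * z)
    have h2 : (m : ℝ) ≤ n := by exact_mod_cast hm
    nlinarith
  have rt2 : (m + 1) * (8 * (2 * N₀ * τ) + 2 * (2 * N₀ * ρ * (exp (c₁ * z) + exp (c₃ * z)))) ≤
      exp ((n + 1 + e + 3) * z) * X := by
    have s1 : 8 * (2 * N₀ * τ) + 2 * (2 * N₀ * ρ * (exp (c₁ * z) + exp (c₃ * z))) ≤
        16 * Ee * X := by
      have t1 : 8 * (2 * N₀ * τ) ≤ 8 * (2 * N₀ * (Ee * h)) := by gcongr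
      have t2 : 2 * (2 * N₀ * ρ * (exp (c₁ * z) + exp (c₃ * z))) ≤
          2 * (2 * N₀ * ρ * (Ee + Ee)) := by gcongr
      have t3 : 0 ≤ N₀ * ρ * Ee := by positivity
      have t4 : 0 ≤ δ * Ee := by positivity
      rw [hX, ← hh]
      nlinarith
    have s2 : (16 : ℝ) ≤ exp (3 * z) := by
      have t3 : (2.7 : ℝ) ≤ exp 1 := by
        have := Real.exp_one_gt_d9
        linarith
      calc (16 : ℝ) ≤ 2.7 ^ 3 := by norm_num
        _ ≤ exp 1 ^ 3 := pow_le_pow_left₀ (by norm_num) t3 3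
        _ = exp (3 * 1) := by rw [← Real.exp_nat_mul]; norm_num
        _ ≤ exp (3 * z) := exp_le_exp.2 (by linarith)
    calc (m + 1) * (8 * (2 * N₀ * τ) + 2 * (2 * N₀ * ρ * (exp (c₁ * z) + exp (c₃ * z))))
        ≤ exp ((n + 1) * z) * (16 * Ee * X) := by gcongr
      _ ≤ exp ((n + 1) * z) * (exp (3 * z) * Ee * X) := by gcongr
      _ = _ := by
          rw [hEe, ← exp_add, ← mul_assoc, ← exp_add]
          ring_nf
  -- names
  obtain ⟨L, hL⟩ : ∃ L : (ℕ → ℝ) → ℝ, L = fun x => Lam (D.g i j) (P (bb D i j r ω)) Sl Gr m w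
    (t₀ ω) (nv ω) (e0 ω) (e1 ω) x := ⟨_, rfl⟩
  obtain ⟨L', hL'⟩ : ∃ L' : (ℕ → ℝ) → ℝ, L' = fun x => Lam (D.g i j) (P (bb D i j r ω')) Sl Gr m w
    (t₀ ω') (nv ω') (e0 ω') (e1 ω') x := ⟨_, rfl⟩
  have eL : ∀ x, Lam (D.g i j) (P (bb D i j r ω)) Sl Gr m w (t₀ ω) (nv ω) (e0 ω) (e1 ω) x = L x :=
    fun x => by rw [hL]
  have eL' : ∀ x, Lam (D.g i j) (P (bb D i j r ω')) Sl Gr m w (t₀ ω') (nv ω') (e0 ω') (e1 ω') x =
    L' x := fun x => by rw [hL']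
  obtain ⟨c, hc⟩ : ∃ c : ℝ, c = lc Gr m (nv ω) (nn ω) := ⟨_, rfl⟩
  obtain ⟨c', hc'⟩ : ∃ c' : ℝ, c' = lc Gr m (nv ω') (nn ω') := ⟨_, rfl⟩
  rw [eL, eL', eL, eL', eL, eL', eL, eL'] at rt
  rw [eL, eL', ← hc, ← hc', ← hX] at g1 g2
  rw [eL, ← hc, ← hX] at o1
  rw [eL', ← hc', ← hX] at o2
  rw [eL, eL', ← hc, ← hc', ← hX]
  have r1 := rt.trans rt2
  have id : L' x - c' - (L x - c) = ((L' x - L x - (L' xT - L xT)) -
      (L' p - L p - (L' pT - L pT))) + (L' xT - c' - (L xT - c)) + (L' p - c') - (L p - c) -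
      (L' pT - c' - (L pT - c)) := by ring
  rw [id]
  have q1 := abs_add_le ((L' x - L x - (L' xT - L xT)) - (L' p - L p - (L' pT - L pT)))
    (L' xT - c' - (L xT - c))
  have q2 := abs_add_le (((L' x - L x - (L' xT - L xT)) - (L' p - L p - (L' pT - L pT))) +
    (L' xT - c' - (L xT - c))) (L' p - c')
  have q3 := abs_sub (((L' x - L x - (L' xT - L xT)) - (L' p - L p - (L' pT - L pT))) +
    (L' xT - c' - (L xT - c)) + (L' p - c')) (L p - c)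
  have q4 := abs_sub (((L' x - L x - (L' xT - L xT)) - (L' p - L p - (L' pT - L pT))) +
    (L' xT - c' - (L xT - c)) + (L' p - c') - (L p - c)) (L' pT - c' - (L pT - c))
  have q5 : |((L' x - L x - (L' xT - L xT)) -
      (L' p - L p - (L' pT - L pT))) + (L' xT - c' - (L xT - c)) + (L' p - c') - (L p - c) -
      (L' pT - c' - (L pT - c))| ≤ exp ((n + 1 + e + 3) * z) * X + exp (c₂ * z) * X +
      exp (c₁ * z) * X + exp (c₁ * z) * X + exp (c₂ * z) * X := by linarith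
  refine q5.trans ?_
  have f2 : (5 : ℝ) ≤ exp (3 * z) := by
    have t3 : (2.7 : ℝ) ≤ exp 1 := by
      have := Real.exp_one_gt_d9
      linarith
    calc (5 : ℝ) ≤ 2.7 ^ 3 := by norm_num
      _ ≤ exp 1 ^ 3 := pow_le_pow_left₀ (by norm_num) t3 3
      _ = exp (3 * 1) := by rw [← Real.exp_nat_mul]; norm_num
      _ ≤ exp (3 * z) := exp_le_exp.2 (by linarith)
  obtain ⟨g, hg⟩ : ∃ g : ℝ, g = n + 1 + e + 3 := ⟨_, rfl⟩
  have f3 : exp (c₂ * z) ≤ exp (g * z) := ex_mono (by rw [hg, he]; linarith) hzr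
  have f4 : exp (c₁ * z) ≤ exp (g * z) := ex_mono (by rw [hg, he]; linarith) hzr
  rw [← hg]
  calc exp (g * z) * X + exp (c₂ * z) * X + exp (c₁ * z) * X + exp (c₁ * z) * X +
        exp (c₂ * z) * X
      ≤ 5 * exp (g * z) * X := by nlinarith
    _ ≤ exp (3 * z) * exp (g * z) * X := by gcongr
    _ = exp ((3 + g) * z) * X := by
        rw [← exp_add]
        ring_nf
    _ ≤ _ := mul_le_mul_of_nonneg_right (ex_mono (by rw [hg, hf]; linarith) hzr) hX0'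

end Pool.P4
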