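import Pool.Agent.H52.P4.Mat3

/-!
# The path and the natural box of the new label

`path_near`: the path of the line is near to the own sheet. `nb_box`: the points of the natural box
at `(i, j + 1)` have bounded coordinates over the closed frame at `(i, j)`.
-/

set_option autoImplicit false

namespace Pool.P4

open Finset Real MvPolynomial
open Pool.Agent.H49.Ent Pool.Agent.H32.Dense Pool.STK Pool.STAT Pool.MIC.Frm Pool.FRM
open Pool.MIC.Fru (gw nat_gw nat_gw0 atT_tri atT_deg)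

/-- **The path** is near to the own sheet. -/
theorem path_near (n K : ℕ) (C C₁ : ℝ) (hC : 0 ≤ C) :
    ∃ c' : ℝ, 1 ≤ c' ∧
    ∀ (D : NDat2) (K₁ K' J a₀ w₀ z M i j r r' a y : ℕ) (lam gam : ℕ → ℝ) (κ : ℝ)
      (q : D.Ω → ℝ) (E : D.Ω → Prop) (P : D.Γ × D.Γ → ℕ → PN) (Sl Gr : ℕ → Prop),
      Fx D n K K₁ K' J a₀ w₀ z M i j r r' a y lam gam κ C₁ C q E P Sl Gr →
      ∀ ω, E ω → ∀ t : ℝ, |t - D.X ω 0| ≤ 1 / 2 ^ (a₀ + i * z) →
      Near D a₀ z i j r r' Sl Gr (P (bb D i j r ω)) ω (exp (c' * z)) (n + 1)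
        (pp D (D.ln ω) t) := by
  obtain ⟨c₁, h1, bx⟩ := sp_box n K C 1 hC zero_le_one
  have hc₁ : 0 ≤ c₁ := by linarith
  obtain ⟨c₂, h2, rd⟩ := rad_sp n K C hC
  obtain ⟨c₃, h3, h3', gr⟩ := sp_grow n K c₂ c₁ h2 hc₁
  refine ⟨c₁ + |c₁| + |c₃| + 1, by
    have := abs_nonneg c₁
    have := abs_nonneg c₃
    linarith, ?_⟩
  intro D K₁ K' J a₀ w₀ z M i j r r' a y lam gam κ q E P Sl Gr hF ω hω t ht
  have hzr : (1 : ℝ) ≤ z := by exact_mod_cast hF.z1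
  have hO := hF.ok
  have hjM := hF.jM
  have hiM := hF.iM
  have hq := (hF.fr ω hω).1
  have hΦ : ∀ i j ω, Tg K n (D.Φ i j ω) := fun i j ω =>
    ⟨hO.P_tri i j _, fun l _ => (hO.P_deg i j _ l).trans hF.k1⟩
  have hΨ : ∀ i j ω, Tg K n (D.Ψ i j ω) := fun i j ω =>
    ⟨hO.G_tri i j _, fun l _ => (hO.G_deg i j _ l).trans hF.k1⟩
  obtain ⟨V, hV⟩ := frs_of hF hω
  obtain ⟨x, hx⟩ : ∃ x, x = pp D (D.ln ω) t := ⟨_, rfl⟩
  have x0 : x 0 = t := by
    rw [hx]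
    unfold pp
    rw [if_pos rfl]
  -- the radius is smaller than the windows
  have hthin : ∀ j' ≤ M, 1 / (2 : ℝ) ^ (a₀ + i * z) ≤ 1 / 2 ^ (w₀ + j' * z) := by
    intro j' hj'
    refine one_div_le_one_div_of_le (by positivity) (pow_le_pow_right₀ (by norm_num) ?_)
    have := hO.thin
    have b1 : j' * z ≤ (M + 1) * z := Nat.mul_le_mul_right z (by omega)
    have b2 : 0 ≤ i * z := Nat.zero_le _
    omega
  have pc : ∀ i' ≤ M, ∀ j' ≤ M, ∀ l ≤ n, |nat (D.g i' j') (D.Φ i' j' ω) x l| ≤ exp (1 * z) := by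
    intro i' hi' j' hj' l hl
    rw [hx]
    exact (hF.fr ω hω).2.1.pc i' hi' j' hj' l hl t (ht.trans (hthin j' hj'))
  rw [← hx]
  obtain ⟨e, he⟩ : ∃ e : ℝ, e = c₁ + |c₁| + |c₃| + 1 := ⟨_, rfl⟩
  rw [← he]
  have ha1 := abs_nonneg c₁
  have ha3 := abs_nonneg c₃
  have he' : ∀ t : ℝ, t ≤ e → exp (t * z) ≤ exp (e * z) := fun t ht => ex_mono ht hzr
  refine ⟨?_, fun k hk hkn => ?_, fun u hu hun => ?_⟩
  · rw [x0]
    refine ht.trans (div_le_div_of_nonneg_right (ex_one (by rw [he]; linarith) hzr)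
      (by positivity))
  · have hb := bx z (D.g i j) _ _ hzr hV.tP (hΦ i j ω) hV.P0 (n + 1) le_rfl x
      (fun l hl => pc i hiM.le j (by omega) l (by omega)) k hkn
    exact hb.trans (he' _ (by rw [he]; linarith))
  · -- the group, at `R`
    obtain ⟨iR, hiR⟩ : ∃ iR, iR = i - r' := ⟨_, rfl⟩
    obtain ⟨jR, hjR⟩ : ∃ jR, jR = j + r := ⟨_, rfl⟩
    have hVR := hV.VR
    rw [← hiR, ← hjR] at hVR ⊢
    have hu1 := hF.dic.g1 u hu
    have hb := bx z (D.g iR jR) V _ hzr hV.tV (hΦ iR jR ω) hVR (n + 1) le_rfl x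
      (fun l hl => pc iR (by omega) jR (by omega) l (by omega))
    have sp := rd D K₁ J a₀ w₀ z M lam gam κ C₁ q hO hF.k1 hF.z1 iR (by omega) jR (by omega) ω hq V
      hV.tV hVR
    have hb' : Bx (gw (a₀ + iR * z) (D.g iR jR)) (atT (D.X ω 0) V) (n + 1) (exp (c₁ * z)) x := by
      refine bx_gw hb ?_
      rw [x0]
      have : (2 : ℝ) ^ (a₀ + iR * z) * |t - D.X ω 0| ≤ 1 := by
        rw [le_div_iff₀ (by positivity)] at ht
        have h4 : (2 : ℝ) ^ (a₀ + iR * z) ≤ 2 ^ (a₀ + i * z) :=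
          pow_le_pow_right₀ (by norm_num)
            (Nat.add_le_add_left (Nat.mul_le_mul_right z (by omega)) _)
        calc (2 : ℝ) ^ (a₀ + iR * z) * |t - D.X ω 0| ≤ 2 ^ (a₀ + i * z) * |t - D.X ω 0| :=
              mul_le_mul_of_nonneg_right h4 (abs_nonneg _)
          _ ≤ 1 := by linarith
      exact this.trans (ex_one hc₁ hzr)
    have g1 := (gr z _ _ _ hzr (tg_atT hV.tV _) (tg_atT (hΨ iR jR ω) _) sp u hu1.2 x
      (hb'.mono (by omega) le_rfl)).1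
    rw [atT_ne _ _ hu1.1, atT_ne _ _ hu1.1, gw_ne _ _ hu1.1] at g1
    have g2 := hb u hun
    unfold nat at g2
    rw [abs_mul, abs_of_pos (by positivity : (0 : ℝ) < 2 ^ D.g iR jR u)] at g2
    have g3 : |x u - eval x (V u)| ≤ exp (c₁ * z) / 2 ^ D.g iR jR u := by
      rw [le_div_iff₀ (by positivity)]
      linarith
    calc |x u - eval x (D.Ψ iR jR ω u)|
        = |(x u - eval x (V u)) - (eval x (D.Ψ iR jR ω u) - eval x (V u))| := by ring_nf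
      _ ≤ _ := abs_sub _ _
      _ ≤ exp (c₁ * z) / 2 ^ D.g iR jR u + exp (c₃ * z) / 2 ^ D.g iR jR u := add_le_add g3 g1
      _ = (exp (c₁ * z) + exp (c₃ * z)) / 2 ^ D.g iR jR u := by ring
      _ ≤ exp (e * z) / 2 ^ D.g iR jR u := by
          refine div_le_div_of_nonneg_right ((ex_add hzr).trans (he' _ ?_)) (by positivity)
          rw [he]
          linarith

/-- **The natural box at `(i, j + 1)`** over the closed frame at `(i, j)`. -/
theorem nb_box (n K : ℕ) (C C₁ : ℝ) (hC : 0 ≤ C) (hC₁ : 0 ≤ C₁) :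
    ∃ c' : ℝ, 1 ≤ c' ∧
    ∀ (D : NDat2) (K₁ K' J a₀ w₀ z M i j r r' a y : ℕ) (lam gam : ℕ → ℝ) (κ : ℝ)
      (q : D.Ω → ℝ) (E : D.Ω → Prop) (P : D.Γ × D.Γ → ℕ → PN) (Sl Gr : ℕ → Prop),
      Fx D n K K₁ K' J a₀ w₀ z M i j r r' a y lam gam κ C₁ C q E P Sl Gr →
      j + 1 < M → (∀ l, 0 ≤ gam l) →
      ∀ ω, E ω → ∀ m ≤ n, ∀ x : ℕ → ℝ, D.NB i (j + 1) (a₀ + i * z) m ω x →
      Bx (D.g i j) (P (bb D i j r ω)) m (exp (c' * z)) x := by
  obtain ⟨c₁, h1, rd⟩ := rad_sp n K C hC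
  obtain ⟨c₂, h2, bx⟩ := sp_box n K c₁ 0 h1 le_rfl
  have hc₂ : 0 ≤ c₂ := h2
  obtain ⟨c₃, h3, sy⟩ := sp_symm n K C hC
  obtain ⟨c₄, h4, tr⟩ := sp_trans n K C c₃ hC (hC.trans h3)
  have hc₄ : 0 ≤ c₄ := hC.trans h4
  obtain ⟨f, hf⟩ : ∃ f : ℝ, f = c₂ + 2 * C₁ + (C + 2) := ⟨_, rfl⟩
  have hf0 : 0 ≤ f := by rw [hf]; linarith
  obtain ⟨c₅, h5, sy5⟩ := sp_symm n K c₄ hc₄
  obtain ⟨c₆, h6, bx6⟩ := sp_box n K c₅ f (hc₄.trans h5) hf0
  refine ⟨c₆ + 1, by linarith, ?_⟩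
  intro D K₁ K' J a₀ w₀ z M i j r r' a y lam gam κ q E P Sl Gr hF hj1 hgam ω hω m hm x hx
  have hzr : (1 : ℝ) ≤ z := by exact_mod_cast hF.z1
  have hO := hF.ok
  have hjM := hF.jM
  have hiM := hF.iM
  have hq := (hF.fr ω hω).1
  have hΦ : ∀ i j ω, Tg K n (D.Φ i j ω) := fun i j ω =>
    ⟨hO.P_tri i j _, fun l _ => (hO.P_deg i j _ l).trans hF.k1⟩
  have hΨ : ∀ i j ω, Tg K n (D.Ψ i j ω) := fun i j ω =>
    ⟨hO.G_tri i j _, fun l _ => (hO.G_deg i j _ l).trans hF.k1⟩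
  obtain ⟨V, hV1, hV2, hV3, hV4⟩ := (hF.fr ω hω).2.1.fc
  have tV : Tg K n V := ⟨hV1, fun l _ => (hV2 l).trans hF.k2⟩
  have V1 : Sp (D.g i (j + 1)) V (D.Φ i (j + 1) ω) n (exp (C * z)) :=
    sp_of_near tV (hΦ _ _ _) fun l hl => hV4 i hiM (j + 1) hj1 l hl
  have V0 : Sp (D.g i j) V (D.Φ i j ω) n (exp (C * z)) :=
    sp_of_near tV (hΦ _ _ _) fun l hl => hV4 i hiM j (by omega) l hl
  have hP := (hF.fr ω hω).2.2
  have tP : Tg K n (P (bb D i j r ω)) := frp_tg hP hF.k2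
  have P0 := (frp_sp hO hF.k1 hP hF.k2 (le_refl i)).1
  -- the box over `Ψ`, then over `V`
  have hpt : (2 : ℝ) ^ (a₀ + i * z) * |x 0 - D.X ω 0| ≤ 1 := by
    have := hx.1
    rw [le_div_iff₀ (by positivity)] at this
    linarith
  have b1 : Bx (gw (a₀ + i * z) (D.g i (j + 1))) (atT (D.X ω 0) (D.Ψ i (j + 1) ω)) m
      (exp (0 * z)) x := by
    rw [zero_mul, exp_zero]
    intro k hk
    rcases Nat.eq_zero_or_pos k with hk0 | hk0
    · rw [hk0, nat_gw0, abs_mul, abs_of_pos (by positivity : (0 : ℝ) < 2 ^ (a₀ + i * z))]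
      exact hpt
    · rw [nat_gw' _ _ _ _ _ hk0]
      unfold nat
      rw [abs_mul, abs_of_pos (by positivity : (0 : ℝ) < 2 ^ D.g i (j + 1) k)]
      have := hx.2 k hk0 hk
      rw [le_div_iff₀ (by positivity)] at this
      linarith
  have sp := rd D K₁ J a₀ w₀ z M lam gam κ C₁ q hO hF.k1 hF.z1 i hiM.le (j + 1) hj1.le ω hq V tV V1
  have b2 := bx z _ _ _ hzr (tg_atT tV _) (tg_atT (hΨ i (j + 1) ω) _) sp m (by omega) x b1
  -- the box over `V` at `(i, j)`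
  have b3 : Bx (D.g i j) V m (exp (f * z)) x := by
    intro k hk
    rcases Nat.eq_zero_or_pos k with hk0 | hk0
    · rw [hk0]
      have := t0_box hO hF.z1 hiM.le (by omega : j ≤ M) hq tV V0 (x := x) (b := 0) (by
        rw [zero_mul, exp_zero]
        exact hx.1)
      rw [abs_of_nonneg hC, abs_zero, add_zero] at this
      exact this.trans (ex_mono (by rw [hf]; linarith) hzr)
    · have a1 := b2 k hk
      rw [nat_gw' _ _ _ _ _ hk0] at a1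
      unfold nat at a1 ⊢
      rw [abs_mul, abs_of_pos (by positivity : (0 : ℝ) < 2 ^ D.g i (j + 1) k)] at a1
      rw [abs_mul, abs_of_pos (by positivity : (0 : ℝ) < 2 ^ D.g i j k)]
      have lv := lev2 hO hiM.le (by omega : j + 1 ≤ M) (i₂ := i) hiM.le (j₂ := j) (by omega) hk0
        (by omega : k ≤ n)
      rw [abs_le] at lv
      push_cast at lv
      have hp : (2 : ℝ) ^ D.g i j k ≤ exp (2 * C₁ * z) * 2 ^ D.g i (j + 1) k := by
        refine pw_le ?_ (by positivity)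
        have : 0 ≤ gam k * z := mul_nonneg (hgam k) (by linarith)
        nlinarith [lv.1, lv.2]
      calc (2 : ℝ) ^ D.g i j k * |x k - eval x (V k)|
          ≤ exp (2 * C₁ * z) * 2 ^ D.g i (j + 1) k * |x k - eval x (V k)| := by gcongr
        _ = exp (2 * C₁ * z) * (2 ^ D.g i (j + 1) k * |x k - eval x (V k)|) := by ring
        _ ≤ exp (2 * C₁ * z) * exp (c₂ * z) := by gcongr
        _ = exp ((2 * C₁ + c₂) * z) := by rw [← exp_add]; ring_nf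
        _ ≤ _ := ex_mono (by rw [hf]; linarith) hzr
  -- from `V` to `P`
  have s1 : Sp (D.g i j) (P (bb D i j r ω)) V n (exp (c₄ * z)) :=
    tr z _ _ _ _ hzr tP (hΦ i j ω) tV P0 (sy z _ _ _ hzr tV (hΦ i j ω) V0)
  have s1' : Sp (D.g i j) (P (bb D i j r ω)) V n (exp (c₅ * z)) :=
    s1.mono le_rfl (ex_mono h5 hzr)
  have b4 := bx6 z _ _ _ hzr tP tV s1' m (by omega) x b3
  exact b4.mono le_rfl (ex_mono (by linarith) hzr)

end Pool.P4
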