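import Pool.Agent.H52.P4.Aff
import Pool.Agent.H20.MIC.Fru

/-!
# Systems near to each other on boxes

`Sp g P Φ m S`: the labels of `Φ` and `P` differ by at most `S / 2 ^ g l` on the unit box of `P`.
All the constants have the form `exp (c z)`.
-/

set_option autoImplicit false

namespace Pool.P4

open Finset Real MvPolynomial
open Pool.STK Pool.STAT Pool.MIC.Frm Pool.FRM

/-- A triangular system of degree `≤ K` up to `m`. -/
structure Tg (K m : ℕ) (P : ℕ → PN) : Prop where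
  tri : TriN P
  deg : ∀ i ≤ m, (P i).totalDegree ≤ K

theorem Tg.mono {K m m' : ℕ} {P : ℕ → PN} (h : Tg K m P) (hm : m' ≤ m) : Tg K m' P :=
  ⟨h.tri, fun i hi => h.deg i (hi.trans hm)⟩

/-- The box of size `B`, coordinates before `l`. -/
def Bx (g : ℕ → ℕ) (P : ℕ → PN) (l : ℕ) (B : ℝ) (x : ℕ → ℝ) : Prop := ∀ k < l, |nat g P x k| ≤ B

theorem Bx.mono {g : ℕ → ℕ} {P : ℕ → PN} {l l' : ℕ} {B B' : ℝ} {x : ℕ → ℝ} (h : Bx g P l B x)
    (hl : l' ≤ l) (hB : B ≤ B') : Bx g P l' B' x := fun k hk => (h k (hk.trans_le hl)).trans hB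

/-- `Φ` is near to `P` on the unit box of `P`. -/
def Sp (g : ℕ → ℕ) (P Φ : ℕ → PN) (m : ℕ) (S : ℝ) : Prop :=
  ∀ l ≤ m, ∀ x : ℕ → ℝ, Bx g P l 1 x → |eval x (Φ l) - eval x (P l)| ≤ S / 2 ^ g l

theorem Sp.mono {g : ℕ → ℕ} {P Φ : ℕ → PN} {m m' : ℕ} {S S' : ℝ} (h : Sp g P Φ m S)
    (hm : m' ≤ m) (hS : S ≤ S') : Sp g P Φ m' S' := fun l hl x hx =>
  (h l (hl.trans hm) x hx).trans (div_le_div_of_nonneg_right hS (by positivity))

theorem ex_le {C : ℝ} (hC : 1 ≤ C) (D : ℕ) (b s : ℝ) {z : ℝ} (hz : 1 ≤ z) :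
    C * exp (b * z) ^ D * exp (s * z) ≤ exp ((C + D * b + s) * z) := by
  have h1 : C ≤ exp (C * z) := by
    have h2 := Real.add_one_le_exp (C * z)
    nlinarith
  calc C * exp (b * z) ^ D * exp (s * z) ≤ exp (C * z) * exp (b * z) ^ D * exp (s * z) := by
        gcongr
    _ = exp ((C + D * b + s) * z) := by
        rw [← Real.exp_nat_mul, ← Real.exp_add, ← Real.exp_add]
        congr 1
        ring

theorem ex_mono {c c' z : ℝ} (h : c ≤ c') (hz : 1 ≤ z) : exp (c * z) ≤ exp (c' * z) :=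
  exp_le_exp.2 (mul_le_mul_of_nonneg_right h (by linarith))

theorem ex_one {c z : ℝ} (h : 0 ≤ c) (hz : 1 ≤ z) : 1 ≤ exp (c * z) := by
  rw [← exp_zero]
  exact exp_le_exp.2 (mul_nonneg h (by linarith))

/-- A sum of two. -/
theorem ex_add {c c' z : ℝ} (hz : 1 ≤ z) : exp (c * z) + exp (c' * z) ≤
    exp ((|c| + |c'| + 1) * z) := by
  have h1 : exp (c * z) ≤ exp ((|c| + |c'|) * z) := ex_mono (by
    have := le_abs_self c
    have := abs_nonneg c'
    linarith) hz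
  have h2 : exp (c' * z) ≤ exp ((|c| + |c'|) * z) := ex_mono (by
    have := le_abs_self c'
    have := abs_nonneg c
    linarith) hz
  have h3 : (2 : ℝ) ≤ exp (1 * z) := by
    have := Real.add_one_le_exp (1 * z)
    linarith
  calc exp (c * z) + exp (c' * z) ≤ 2 * exp ((|c| + |c'|) * z) := by linarith
    _ ≤ exp (1 * z) * exp ((|c| + |c'|) * z) := by gcongr
    _ = _ := by rw [← exp_add]; ring_nf

/-- **Growth**: the values on large boxes, and the boxes of `Φ`. -/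
theorem sp_grow (m K : ℕ) (c b : ℝ) (hc : 0 ≤ c) (hb : 0 ≤ b) : ∃ c' : ℝ, c ≤ c' ∧ b ≤ c' ∧
    ∀ (z : ℝ) (g : ℕ → ℕ) (P Φ : ℕ → PN), 1 ≤ z → Tg K m P → Tg K m Φ →
    Sp g P Φ m (exp (c * z)) → ∀ l ≤ m, ∀ x : ℕ → ℝ, Bx g P l (exp (b * z)) x →
      |eval x (Φ l) - eval x (P l)| ≤ exp (c' * z) / 2 ^ g l ∧ Bx g Φ l (exp (c' * z)) x := by
  obtain ⟨C, D, hC, h⟩ := grow_fr m K
  obtain ⟨c₁, hc₁⟩ : ∃ c₁ : ℝ, c₁ = C + D * b + c := ⟨_, rfl⟩
  have hD : 0 ≤ (D : ℝ) * b := mul_nonneg (Nat.cast_nonneg D) hb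
  have hc₁0 : 0 ≤ c₁ := by rw [hc₁]; linarith
  refine ⟨|b| + |c₁| + 1, ?_, ?_, ?_⟩
  · rw [abs_of_nonneg hb, abs_of_nonneg hc₁0, hc₁]
    linarith
  · rw [abs_of_nonneg hb, abs_of_nonneg hc₁0]
    linarith
  intro z g P Φ hz hP hΦ hS
  have val : ∀ l ≤ m, ∀ x : ℕ → ℝ, Bx g P l (exp (b * z)) x →
      |eval x (Φ l) - eval x (P l)| ≤ exp (c₁ * z) / 2 ^ g l := by
    intro l hl x hx
    -- cut the coordinates after `l`
    obtain ⟨x', hx'⟩ : ∃ x' : ℕ → ℝ, x' = pt g P (fun k => if k < l then nat g P x k else 0) :=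
      ⟨_, rfl⟩
    have hn : ∀ k, nat g P x' k = if k < l then nat g P x k else 0 := fun k => by
      rw [hx', nat_pt hP.tri]
    have hxx : ∀ k < l, x' k = x k := by
      intro k
      induction k using Nat.strong_induction_on with
      | _ k ih =>
        intro hk
        have h1 := hn k
        rw [if_pos hk] at h1
        unfold nat at h1
        have h2 : eval x' (P k) = eval x (P k) :=
          Pool.SYS35.eval_congr (hP.tri k) fun i hi => ih i hi (hi.trans hk)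
        rw [h2] at h1
        have h3 : (2 : ℝ) ^ g k ≠ 0 := by positivity
        have := mul_left_cancel₀ h3 h1
        linarith
    have hv : (Φ l - P l).vars ⊆ range m :=
      (AdxRow.vars_sub_le (hΦ.tri l) (hP.tri l)).trans (Finset.range_mono hl)
    have hd : (Φ l - P l).totalDegree ≤ K :=
      (totalDegree_sub _ _).trans (max_le (hΦ.deg l hl) (hP.deg l hl))
    have key := h g P (Φ l - P l) (exp (c * z) / 2 ^ g l) (exp (b * z)) hP.tri
      (fun i hi => hP.deg i hi.le) (ex_one hb hz) hv hd (fun y hy => by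
        rw [map_sub]
        exact hS l hl y fun k hk => hy k (hk.trans_le hl)) x' (fun k _ => by
          rw [hn k]
          split_ifs with hk
          · exact hx k hk
          · rw [abs_zero]
            positivity)
    rw [map_sub] at key
    have e1 : eval x' (Φ l) = eval x (Φ l) := Pool.SYS35.eval_congr (hΦ.tri l) hxx
    have e2 : eval x' (P l) = eval x (P l) := Pool.SYS35.eval_congr (hP.tri l) hxx
    rw [e1, e2] at key
    refine key.trans ?_
    rw [← mul_div_assoc]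
    refine div_le_div_of_nonneg_right ?_ (by positivity)
    rw [hc₁]
    exact ex_le hC D b c hz
  intro l hl x hx
  have hle : exp (c₁ * z) ≤ exp ((|b| + |c₁| + 1) * z) := ex_mono (by
    have := le_abs_self c₁
    have := abs_nonneg b
    linarith) hz
  refine ⟨(val l hl x hx).trans (div_le_div_of_nonneg_right hle (by positivity)), ?_⟩
  intro k hk
  have h1 := val k (hk.le.trans hl) x (hx.mono hk.le le_rfl)
  have h2 := hx k hk
  have e : nat g Φ x k = nat g P x k - 2 ^ g k * (eval x (Φ k) - eval x (P k)) := by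
    unfold nat
    ring
  rw [e]
  refine (abs_sub _ _).trans ?_
  rw [abs_mul, abs_of_pos (by positivity : (0 : ℝ) < 2 ^ g k)]
  rw [le_div_iff₀ (by positivity), mul_comm] at h1
  refine le_trans ?_ (ex_add hz)
  linarith

/-- **The boxes of `P` contain the boxes of `Φ`.** -/
theorem sp_box (m K : ℕ) (c b : ℝ) (hc : 0 ≤ c) (hb : 0 ≤ b) : ∃ c' : ℝ, b ≤ c' ∧
    ∀ (z : ℝ) (g : ℕ → ℕ) (P Φ : ℕ → PN), 1 ≤ z → Tg K m P → Tg K m Φ →
    Sp g P Φ m (exp (c * z)) → ∀ l ≤ m + 1, ∀ x : ℕ → ℝ, Bx g Φ l (exp (b * z)) x →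
      Bx g P l (exp (c' * z)) x := by
  have main : ∀ m' ≤ m + 1, ∃ c' : ℝ, b ≤ c' ∧
      ∀ (z : ℝ) (g : ℕ → ℕ) (P Φ : ℕ → PN), 1 ≤ z → Tg K m P → Tg K m Φ →
      Sp g P Φ m (exp (c * z)) → ∀ l ≤ m', ∀ x : ℕ → ℝ, Bx g Φ l (exp (b * z)) x →
        Bx g P l (exp (c' * z)) x := by
    intro m'
    induction m' with
    | zero =>
      intro _
      refine ⟨b, le_rfl, ?_⟩
      intro z g P Φ _ _ _ _ l hl x _ k hk
      omega
    | succ m' ih =>
      intro hm'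
      obtain ⟨c₁, h1, h⟩ := ih (by omega)
      have hc₁ : 0 ≤ c₁ := hb.trans h1
      obtain ⟨c₂, h2, h2', h3⟩ := sp_grow m K c c₁ hc hc₁
      have hc₂ : 0 ≤ c₂ := hc₁.trans h2'
      refine ⟨|b| + |c₂| + 1, ?_, ?_⟩
      · have := le_abs_self b
        have := abs_nonneg c₂
        linarith
      intro z g P Φ hz hP hΦ hS l hl x hx
      have hcc : c₂ ≤ |b| + |c₂| + 1 := by
        have := le_abs_self c₂
        have := abs_nonneg b
        linarith
      have hB := h z g P Φ hz hP hΦ hS (min l m') (min_le_right _ _) x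
        (hx.mono (min_le_left _ _) le_rfl)
      intro k hk
      rcases Nat.lt_or_ge k m' with hk' | hk'
      · refine (hB k (lt_min hk hk')).trans ?_
        exact ex_mono (h2'.trans hcc) hz
      · have hkm : k = m' := by omega
        have e0 := (h3 z g P Φ hz hP hΦ hS k (by omega) x (fun k' hk'' =>
          hB k' (lt_min (hk''.trans hk) (by omega)))).1
        have e : nat g P x k = nat g Φ x k + 2 ^ g k * (eval x (Φ k) - eval x (P k)) := by
          unfold nat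
          ring
        rw [e]
        refine (abs_add_le _ _).trans ?_
        rw [abs_mul, abs_of_pos (by positivity : (0 : ℝ) < 2 ^ g k)]
        rw [le_div_iff₀ (by positivity), mul_comm] at e0
        refine le_trans ?_ (ex_add hz)
        have := hx k hk
        linarith
  obtain ⟨c', h1, h⟩ := main (m + 1) le_rfl
  exact ⟨c', h1, h⟩

/-- **Symmetry.** -/
theorem sp_symm (m K : ℕ) (c : ℝ) (hc : 0 ≤ c) : ∃ c' : ℝ, c ≤ c' ∧
    ∀ (z : ℝ) (g : ℕ → ℕ) (P Φ : ℕ → PN), 1 ≤ z → Tg K m P → Tg K m Φ →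
    Sp g P Φ m (exp (c * z)) → Sp g Φ P m (exp (c' * z)) := by
  obtain ⟨c₁, h1, h⟩ := sp_box m K c 0 hc le_rfl
  obtain ⟨c₂, h2, h2', h3⟩ := sp_grow m K c c₁ hc h1
  refine ⟨c₂, h2, ?_⟩
  intro z g P Φ hz hP hΦ hS l hl x hx
  rw [abs_sub_comm]
  refine (h3 z g P Φ hz hP hΦ hS l hl x ?_).1
  refine h z g P Φ hz hP hΦ hS l (by omega) x ?_
  rw [zero_mul, exp_zero]
  exact hx

/-- **Transitivity.** -/
theorem sp_trans (m K : ℕ) (c c₁ : ℝ) (hc : 0 ≤ c) (hc₁ : 0 ≤ c₁) : ∃ c' : ℝ, c ≤ c' ∧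
    ∀ (z : ℝ) (g : ℕ → ℕ) (P Φ Q : ℕ → PN), 1 ≤ z → Tg K m P → Tg K m Φ → Tg K m Q →
    Sp g P Φ m (exp (c * z)) → Sp g Φ Q m (exp (c₁ * z)) → Sp g P Q m (exp (c' * z)) := by
  obtain ⟨c₂, h2, h2', h⟩ := sp_grow m K c 0 hc le_rfl
  obtain ⟨c₃, h3, h3', h'⟩ := sp_grow m K c₁ c₂ hc₁ h2'
  refine ⟨|c₂| + |c₃| + 1, ?_, ?_⟩
  · have := le_abs_self c₂
    have := abs_nonneg c₃
    linarith
  intro z g P Φ Q hz hP hΦ hQ hS hS' l hl x hx
  have hx0 : Bx g P l (exp (0 * z)) x := by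
    rw [zero_mul, exp_zero]
    exact hx
  obtain ⟨a1, a2⟩ := h z g P Φ hz hP hΦ hS l hl x hx0
  have a3 := (h' z g Φ Q hz hΦ hQ hS' l hl x a2).1
  calc |eval x (Q l) - eval x (P l)|
      = |(eval x (Φ l) - eval x (P l)) + (eval x (Q l) - eval x (Φ l))| := by ring_nf
    _ ≤ _ := abs_add_le _ _
    _ ≤ exp (c₂ * z) / 2 ^ g l + exp (c₃ * z) / 2 ^ g l := add_le_add a1 a3
    _ = (exp (c₂ * z) + exp (c₃ * z)) / 2 ^ g l := by ring
    _ ≤ _ := div_le_div_of_nonneg_right (ex_add hz) (by positivity)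

/-- The norm in the chart, from the unit box. -/
theorem nrm_of_bx (m K : ℕ) : ∃ C : ℝ, 1 ≤ C ∧ ∀ (g : ℕ → ℕ) (P : ℕ → PN) (F : PN) (S : ℝ),
    TriN P → (∀ i < m, (P i).totalDegree ≤ K) → F.vars ⊆ range m → F.totalDegree ≤ K →
    (∀ x : ℕ → ℝ, Bx g P m 1 x → |eval x F| ≤ S) → nrm g (1 / 2) (chr P F) ≤ C * S := by
  obtain ⟨C, hC, h⟩ := Pool.SYS35.nrm_of_sup m (K * (K + 1) ^ m)
  refine ⟨C, hC, fun g P F S hP hK hv hF hS => ?_⟩
  refine h g (1 / 2) (chr P F) S (by norm_num) (chr_vars hP hv) (chr_deg hP hK hv hF) ?_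
  intro ζ hζ
  rw [chr_eval']
  refine hS _ fun k hk => ?_
  rw [nat_eq, zs_ps hP, abs_mul, abs_of_pos (by positivity : (0 : ℝ) < 2 ^ g k)]
  have := hζ k hk
  rw [half_pow, le_div_iff₀ (by positivity)] at this
  linarith

/-- The values on the unit box, from the norm in the chart. -/
theorem bx_of_nrm {m K : ℕ} {g : ℕ → ℕ} {P : ℕ → PN} {F : PN} {B S : ℝ} (hP : TriN P)
    (hK : ∀ i < m, (P i).totalDegree ≤ K) (hv : F.vars ⊆ range m) (hF : F.totalDegree ≤ K)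
    (hB : 1 ≤ B) (hS : nrm g (1 / 2) (chr P F) ≤ S) {x : ℕ → ℝ} (hx : Bx g P m B x) :
    |eval x F| ≤ B ^ (K * (K + 1) ^ m) * S := by
  rw [← chr_eval hP x F]
  refine (eval_le_nrm (chr_vars hP hv) (chr_deg hP hK hv hF) g hB (b := zs P x) fun k hk => ?_).trans
    (mul_le_mul_of_nonneg_left hS (by positivity))
  have := hx k hk
  rw [nat_eq, abs_mul, abs_of_pos (by positivity : (0 : ℝ) < 2 ^ g k)] at this
  rw [le_div_iff₀ (by positivity)]
  linarith

end Pool.P4
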