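import Pool.Agent.H52.P4.Nr

/-!
# Two systems near to each other at several scales

`kap0`, `kap`: the affine part of the difference of two systems, in natural units.
-/

set_option autoImplicit false

namespace Pool.P4

open Finset Real MvPolynomial
open Pool.STK Pool.STAT Pool.MIC.Frm Pool.FRM

/-- Powers of two. -/
theorem pw_le {a b : ℕ} {x : ℝ} (h : (a : ℝ) ≤ b + x) (hx : 0 ≤ x) :
    (2 : ℝ) ^ a ≤ exp x * 2 ^ b := by
  have hl : Real.log 2 ≤ 1 := by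
    have := Real.log_two_lt_d9
    linarith
  have hl0 : 0 ≤ Real.log 2 := Real.log_nonneg one_le_two
  have e : ∀ k : ℕ, (2 : ℝ) ^ k = exp (k * Real.log 2) := fun k => by
    rw [Real.exp_nat_mul, Real.exp_log two_pos]
  rw [e a, e b, ← exp_add]
  refine exp_le_exp.2 ?_
  have h1 := mul_le_mul_of_nonneg_right h hl0
  nlinarith

/-- The constant of the difference, natural units. -/
noncomputable def kap0 (d : ℕ → ℕ) (P P' : ℕ → PN) (l : ℕ) : ℝ :=
  2 ^ d l * coeff 0 (chr P (P' l - P l))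

/-- The linear part of the difference, natural units. -/
noncomputable def kap (d : ℕ → ℕ) (P P' : ℕ → PN) (l k : ℕ) : ℝ :=
  2 ^ d l / 2 ^ d k * coeff (Finsupp.single k 1) (chr P (P' l - P l))

/-- The affine part of the difference, natural units. -/
noncomputable def kaf (d : ℕ → ℕ) (P P' : ℕ → PN) (l : ℕ) (x : ℕ → ℝ) : ℝ :=
  kap0 d P P' l + ∑ k ∈ range l, kap d P P' l k * nat d P x k

theorem kaf_eq (d : ℕ → ℕ) (P P' : ℕ → PN) (l : ℕ) (x : ℕ → ℝ) :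
    kaf d P P' l x = 2 ^ d l * aff (chr P (P' l - P l)) l (zs P x) := by
  unfold kaf kap0 aff kap
  rw [mul_add, Finset.mul_sum]
  congr 1
  refine Finset.sum_congr rfl fun k _ => ?_
  rw [nat_eq]
  have : (2 : ℝ) ^ d k ≠ 0 := by positivity
  field_simp

theorem kaf_sub (d : ℕ → ℕ) (P P' : ℕ → PN) (l : ℕ) (x y : ℕ → ℝ) :
    kaf d P P' l x - kaf d P P' l y =
      ∑ k ∈ range l, kap d P P' l k * (nat d P x k - nat d P y k) := by
  unfold kaf
  rw [add_sub_add_left_eq_sub, ← Finset.sum_sub_distrib]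
  exact Finset.sum_congr rfl fun k _ => by ring

/-- The norm of the difference. -/
theorem nrm_dif (n K : ℕ) : ∃ C : ℝ, 1 ≤ C ∧ ∀ (g : ℕ → ℕ) (P P' : ℕ → PN) (S : ℝ), Tg K n P →
    Tg K n P' → Sp g P P' n S → ∀ l ≤ n, nrm g (1 / 2) (chr P (P' l - P l)) ≤ C * (S / 2 ^ g l) := by
  choose C hC h using fun m => nrm_of_bx m K
  refine ⟨∑ m ∈ range (n + 1), C m, ?_, ?_⟩
  · calc (1 : ℝ) ≤ C 0 := hC 0
      _ ≤ _ := Finset.single_le_sum (f := fun m => C m) (fun m _ => zero_le_one.trans (hC m))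
          (mem_range.2 (Nat.succ_pos n))
  intro g P P' S hP hP' hS l hl
  have hle : C l ≤ ∑ m ∈ range (n + 1), C m :=
    Finset.single_le_sum (f := fun m => C m) (fun m _ => zero_le_one.trans (hC m))
      (mem_range.2 (Nat.lt_succ_of_le hl))
  have h1 := h l g P (P' l - P l) (S / 2 ^ g l) hP.tri (fun i hi => hP.deg i (by omega))
    (AdxRow.vars_sub_le (hP'.tri l) (hP.tri l))
    ((totalDegree_sub _ _).trans (max_le (hP'.deg l hl) (hP.deg l hl))) (fun x hx => by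
      rw [map_sub]
      exact hS l hl x hx)
  have h0 : 0 ≤ S / 2 ^ g l := by
    refine (abs_nonneg _).trans (hS l hl (pt g P fun _ => 0) fun k _ => ?_)
    rw [nat_pt hP.tri, abs_zero]
    exact zero_le_one
  exact h1.trans (mul_le_mul_of_nonneg_right hle h0)

/-- **The affine part**: `d₁` is coarser than `d` by `s`. -/
theorem kaf_le (n K : ℕ) (c b : ℝ) (hc : 0 ≤ c) (hb : 0 ≤ b) : ∃ c' : ℝ, 0 ≤ c' ∧
    ∀ (z : ℝ) (d d₁ : ℕ → ℕ) (s : ℕ) (P P' : ℕ → PN), 1 ≤ z → Tg K n P → Tg K n P' →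
    (∀ k ≤ n, (2 : ℝ) ^ d₁ k * 2 ^ s ≤ exp (c * z) * 2 ^ d k) →
    (∀ k ≤ n, (2 : ℝ) ^ d k ≤ exp (c * z) * (2 ^ d₁ k * 2 ^ s)) →
    exp (c * z) ≤ 2 ^ s → Sp d₁ P P' n (exp (c * z)) →
    ∀ l ≤ n, ∀ x : ℕ → ℝ, Bx d P l (exp (b * z)) x →
      |2 ^ d l * (eval x (P' l) - eval x (P l)) - kaf d P P' l x| ≤ exp (c' * z) / 2 ^ s := by
  obtain ⟨C, hC, h⟩ := nrm_dif n K
  obtain ⟨K₂, hK₂⟩ : ∃ K₂ : ℕ, K₂ = K * (K + 1) ^ n := ⟨_, rfl⟩
  refine ⟨C + K₂ * b + (4 * c), by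
    have : 0 ≤ (K₂ : ℝ) * b := mul_nonneg (Nat.cast_nonneg _) hb
    linarith, ?_⟩
  intro z d d₁ s P P' hz hP hP' L1 L2 hs hS l hl x hx
  have hE : 0 < exp (c * z) := exp_pos _
  have h2s : (0 : ℝ) < 2 ^ s := by positivity
  have hv : (P' l - P l).vars ⊆ range l := AdxRow.vars_sub_le (hP'.tri l) (hP.tri l)
  have hdd : (P' l - P l).totalDegree ≤ K :=
    (totalDegree_sub _ _).trans (max_le (hP'.deg l hl) (hP.deg l hl))
  have hK' : (chr P (P' l - P l)).totalDegree ≤ K₂ := by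
    refine (chr_deg hP.tri (fun i hi => hP.deg i (by omega)) hv hdd).trans ?_
    rw [hK₂]
    exact Nat.mul_le_mul_left _ (Nat.pow_le_pow_right (Nat.succ_pos _) hl)
  have key := aff_le (chr_vars hP.tri hv) hK' d d₁ (ρ := exp (c * z) / 2 ^ s)
    (B := exp (b * z)) (ex_one hb hz) (by positivity) (by rw [div_le_one h2s]; exact hs)
    (fun k hk => by
      have e1 := L1 k (by omega)
      rw [mul_one_div, div_div, div_le_div_iff₀ (by positivity) (by positivity), one_mul]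
      linarith) (h d₁ P P' (exp (c * z)) hP hP' hS l hl) (ζ := zs P x) (fun k hk => by
      have := hx k hk
      rw [nat_eq, abs_mul, abs_of_pos (by positivity : (0 : ℝ) < 2 ^ d k)] at this
      rw [le_div_iff₀ (by positivity)]
      linarith)
  rw [chr_eval hP.tri, map_sub] at key
  rw [kaf_eq, ← mul_sub, abs_mul, abs_of_pos (by positivity : (0 : ℝ) < 2 ^ d l)]
  refine (mul_le_mul_of_nonneg_left key (by positivity)).trans ?_
  have e2 := L2 l hl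
  have e3 : (2 : ℝ) ^ d l * (exp (b * z) ^ K₂ * (exp (c * z) / 2 ^ s) ^ 2 *
      (C * (exp (c * z) / 2 ^ d₁ l))) =
      (C * exp (b * z) ^ K₂ * exp (c * z) ^ 3) * (2 ^ d l / (2 ^ d₁ l * (2 ^ s) ^ 2)) := by
    field_simp
  have e4 : (2 : ℝ) ^ d l / (2 ^ d₁ l * (2 ^ s) ^ 2) ≤ exp (c * z) / 2 ^ s := by
    rw [div_le_div_iff₀ (by positivity) h2s]
    calc (2 : ℝ) ^ d l * 2 ^ s ≤ exp (c * z) * (2 ^ d₁ l * 2 ^ s) * 2 ^ s := by gcongr
      _ = _ := by ring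
  rw [e3]
  calc (C * exp (b * z) ^ K₂ * exp (c * z) ^ 3) * (2 ^ d l / (2 ^ d₁ l * (2 ^ s) ^ 2))
      ≤ (C * exp (b * z) ^ K₂ * exp (c * z) ^ 3) * (exp (c * z) / 2 ^ s) := by gcongr
    _ = (C * exp (b * z) ^ K₂ * exp (4 * c * z)) / 2 ^ s := by
        have : exp (4 * c * z) = exp (c * z) ^ 3 * exp (c * z) := by
          rw [← pow_succ, ← Real.exp_nat_mul]
          congr 1
          push_cast
          ring
        rw [this]
        ring
    _ ≤ _ := div_le_div_of_nonneg_right (ex_le hC K₂ b (4 * c) hz) h2s.le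

/-- **The linear coefficients**, seen at the levels `d₂`. -/
theorem kap_le (n K : ℕ) (c : ℝ) (hc : 0 ≤ c) : ∃ c' : ℝ, 0 ≤ c' ∧
    ∀ (z : ℝ) (d d₂ : ℕ → ℕ) (P P' : ℕ → PN), 1 ≤ z → Tg K n P → Tg K n P' →
    Sp d₂ P P' n (exp (c * z)) → ∀ l ≤ n, ∀ k,
      |kap d P P' l k| ≤ exp (c' * z) * (2 ^ d l / 2 ^ d₂ l * (2 ^ d₂ k / 2 ^ d k)) := by
  obtain ⟨C, hC, h⟩ := nrm_dif n K
  refine ⟨C + c, by linarith, ?_⟩
  intro z d d₂ P P' hz hP hP' hS l hl k
  have e1 := aff_coeff d₂ (h d₂ P P' (exp (c * z)) hP hP' hS l hl) k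
  unfold kap
  rw [abs_mul, abs_of_pos (by positivity : (0 : ℝ) < 2 ^ d l / 2 ^ d k)]
  refine (mul_le_mul_of_nonneg_left e1 (by positivity)).trans ?_
  have e2 : (2 : ℝ) ^ d l / 2 ^ d k * (C * (exp (c * z) / 2 ^ d₂ l) * 2 ^ d₂ k) =
      (C * exp (c * z)) * (2 ^ d l / 2 ^ d₂ l * (2 ^ d₂ k / 2 ^ d k)) := by
    field_simp
  rw [e2]
  have e3 : C * exp (c * z) ≤ exp ((C + c) * z) := by
    have := ex_le hC 0 0 c hz
    rw [pow_zero, mul_one, Nat.cast_zero, zero_mul, add_zero] at this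
    exact this
  exact mul_le_mul_of_nonneg_right e3 (by positivity)

/-- The coefficients at the own scale. -/
theorem kap_le0 (n K : ℕ) (c : ℝ) (hc : 0 ≤ c) : ∃ c' : ℝ, 0 ≤ c' ∧
    ∀ (z : ℝ) (d : ℕ → ℕ) (P P' : ℕ → PN), 1 ≤ z → Tg K n P → Tg K n P' →
    Sp d P P' n (exp (c * z)) → ∀ l ≤ n, ∀ k, |kap d P P' l k| ≤ exp (c' * z) := by
  obtain ⟨c', h0, h⟩ := kap_le n K c hc
  refine ⟨c', h0, ?_⟩
  intro z d P P' hz hP hP' hS l hl k
  have := h z d d P P' hz hP hP' hS l hl k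
  rwa [div_self (by positivity), div_self (by positivity), mul_one, mul_one] at this

end Pool.P4
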