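import Pool.Agent.H52.P4.Tra
import Pool.Agent.H14.P4.Stm

/-!
# The visible record and the visible frame

`rcd`: the time and the visible labels at `(i, j)`, `(i - a, j)`, `(i - 1, j - r)`. `vfr`: the closed
frame of one sample with this record. The closed frames of two samples with the same record are
related by `Rly`.
-/

set_option autoImplicit false

namespace Pool.P4

open Finset Real MvPolynomial
open Pool.Agent.H49.Ent Pool.Agent.H32.Dense Pool.STK Pool.STAT Pool.MIC.Frm Pool.FRM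
open Pool.MIC.Fru (gw nat_gw nat_gw0 atT_tri atT_deg)

/-- The visible record: the time and the labels at `(i, j)`, `(i - a, j)`, `(i - 1, j - r)`. -/
def rcd (D : NDat2) (i j r a : ℕ) (ω : D.Ω) : ℕ × (D.S × (D.S × D.S)) :=
  (D.T ω, (D.s i j ω, (D.s (i - a) j ω, D.s (i - 1) (j - r) ω)))

open Classical in
/-- The visible frame: the closed frame of a sample of `E` with this record. -/
noncomputable def vfr (D : NDat2) (i j r a : ℕ) (E : D.Ω → Prop) (P : D.Γ × D.Γ → ℕ → PN)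
    (σ : ℕ × (D.S × (D.S × D.S))) : ℕ → PN :=
  if h : ∃ ω, E ω ∧ rcd D i j r a ω = σ then P (bb D i j r h.choose) else fun _ => 0

theorem vfr_ex {D : NDat2} (i j r a : ℕ) {E : D.Ω → Prop} (P : D.Γ × D.Γ → ℕ → PN) {ω : D.Ω}
    (hω : E ω) : ∃ ω', E ω' ∧ rcd D i j r a ω' = rcd D i j r a ω ∧
      vfr D i j r a E P (rcd D i j r a ω) = P (bb D i j r ω') := by
  have h : ∃ ω', E ω' ∧ rcd D i j r a ω' = rcd D i j r a ω := ⟨ω, hω, rfl⟩
  refine ⟨h.choose, h.choose_spec.1, h.choose_spec.2, ?_⟩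
  unfold vfr
  rw [dif_pos h]

/-- The record is a function of the contexts and the time. -/
theorem rcd_det {D : NDat2} {n K J a₀ w₀ z M : ℕ} {lam gam : ℕ → ℝ} {κ C₁ : ℝ} {q : D.Ω → ℝ}
    (hO : D.Ok2 n K J a₀ w₀ z M lam gam κ C₁ q) {i j : ℕ} (hi : i ≤ M) (hj : j ≤ M) (r a : ℕ) :
    Det q (fun ω => (bb D i j r ω, D.T ω)) (rcd D i j r a) := by
  intro ω ω' x x' h
  simp only [bb, Prod.mk.injEq] at h
  obtain ⟨⟨h1, h2⟩, h3⟩ := h
  have h4 : ∀ t, D.c (i - t) j ω = D.c (i - t) j ω' := by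
    intro t
    induction t with
    | zero => exact h1
    | succ t ih =>
      rcases Nat.lt_or_ge t i with h5 | h5
      · have e : i - t = i - (t + 1) + 1 := by omega
        rw [e] at ih
        exact hO.c_i (i - (t + 1)) (by omega) j hj ω ω' x x' ih
      · have e : i - (t + 1) = i - t := by omega
        rw [e]
        exact ih
  simp only [rcd, Prod.mk.injEq]
  refine ⟨h3, hO.s_c i hi j hj ω ω' x x' ?_, hO.s_c (i - a) (by omega) j hj ω ω' x x' ?_,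
    hO.s_c (i - 1) (by omega) (j - r) (by omega) ω ω' x x' ?_⟩
  · simp only [h1, h3]
  · simp only [h4 a, h3]
  · simp only [h2, h3]

/-- The record is a function of the point. -/
theorem rcd_pt {D : NDat2} {n K J a₀ w₀ z M : ℕ} {lam gam : ℕ → ℝ} {κ C₁ : ℝ} {q : D.Ω → ℝ}
    (hO : D.Ok2 n K J a₀ w₀ z M lam gam κ C₁ q) {i j : ℕ} (hi : i ≤ M) (hj : j ≤ M) (r a : ℕ) :
    Det q D.pt (rcd D i j r a) := by
  intro ω ω' x x' h
  simp only [rcd, Prod.mk.injEq]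
  exact ⟨hO.pt_T ω ω' x x' h, hO.s_pt i hi j hj ω ω' x x' h,
    hO.s_pt (i - a) (by omega) j hj ω ω' x x' h,
    hO.s_pt (i - 1) (by omega) (j - r) (by omega) ω ω' x x' h⟩

theorem frp_tg {D : NDat2} {n K K' z i j r : ℕ} {C : ℝ} {P : ℕ → PN} {ω : D.Ω}
    (h : FrP D n K' z i j r C P ω) (hK : K' ≤ K) : Tg K n P :=
  ⟨h.tri, fun l _ => (h.deg l).trans hK⟩

/-- Near on the unit box, from the norm. -/
theorem sp_of_near {K n : ℕ} {g : ℕ → ℕ} {P Φ : ℕ → PN} {S : ℝ} (hP : Tg K n P)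
    (hΦ : Tg K n Φ) (h : ∀ l ≤ n, nrm g (1 / 2) (chr P (Φ l - P l)) ≤ S / 2 ^ g l) :
    Sp g P Φ n S := by
  intro l hl x hx
  have := bx_of_nrm (m := l) (K := K) (g := g) (P := P) (F := Φ l - P l) (B := 1)
    (S := S / 2 ^ g l) hP.tri (fun i hi => hP.deg i (by omega))
    (AdxRow.vars_sub_le (hΦ.tri l) (hP.tri l))
    ((totalDegree_sub _ _).trans (max_le (hΦ.deg l hl) (hP.deg l hl))) le_rfl (h l hl) hx
  rw [one_pow, one_mul, map_sub] at this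
  exact this

theorem frp_sp {D : NDat2} {n K K' K₁ J a₀ w₀ z M i j r : ℕ} {lam gam : ℕ → ℝ} {κ C₁ C : ℝ}
    {q : D.Ω → ℝ} (hO : D.Ok2 n K₁ J a₀ w₀ z M lam gam κ C₁ q) (hK₁ : K₁ ≤ K) {P : ℕ → PN}
    {ω : D.Ω} (h : FrP D n K' z i j r C P ω) (hK : K' ≤ K) {i' : ℕ} (hi : i' ≤ i) :
    Sp (D.g i' j) P (D.Φ i' j ω) n (exp (C * z)) ∧
    Sp (D.g (i' - 1) (j - r)) P (D.Φ (i' - 1) (j - r) ω) n (exp (C * z)) := by
  have hΦ : ∀ i j, Tg K n (D.Φ i j ω) := fun i j =>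
    ⟨hO.P_tri i j _, fun l _ => (hO.P_deg i j _ l).trans hK₁⟩
  exact ⟨sp_of_near (frp_tg h hK) (hΦ _ _) fun l hl => (h.near i' hi l hl).1,
    sp_of_near (frp_tg h hK) (hΦ _ _) fun l hl => (h.near i' hi l hl).2⟩

/-- **The closed frames of two samples with the same record.** -/
theorem rly_rcd (n K : ℕ) (C C₁ b : ℝ) (hC : 0 ≤ C) (hC₁ : 0 ≤ C₁) (hb : 0 ≤ b) :
    ∃ c' : ℝ, 0 ≤ c' ∧
    ∀ (D : NDat2) (K₁ K' J a₀ w₀ z M : ℕ) (lam gam : ℕ → ℝ) (κ : ℝ) (q : D.Ω → ℝ),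
    D.Ok2 n K₁ J a₀ w₀ z M lam gam κ C₁ q → K₁ ≤ K → K' ≤ K → 1 ≤ z →
    (∀ l, 1 ≤ l → l ≤ n → lam l = 1) → ∀ i ≤ M, ∀ j ≤ M, ∀ a ≤ i, ∀ r ≤ j, ∀ y : ℕ,
    exp (c' * z) ≤ 2 ^ (a * z) → ∀ ω ω', 0 < q ω → 0 < q ω' →
    rcd D i j r a ω = rcd D i j r a ω' → ∀ P P' : ℕ → PN, FrP D n K' z i j r C P ω →
    FrP D n K' z i j r C P' ω' →
    Rly n y z r gam (gw (a₀ + i * z) (D.g i j)) (atT (D.X ω 0) P) (atT (D.X ω 0) P')
      (exp (b * z)) (exp (c' * z)) (exp (c' * z) / 2 ^ (a * z)) := by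
  obtain ⟨c', h0, h⟩ := rel n K C C₁ b hC hC₁ hb
  refine ⟨c', h0, ?_⟩
  intro D K₁ K' J a₀ w₀ z M lam gam κ q hO hK₁ hK hz hlam i hi j hj a ha r hr y haz ω ω' hω hω' hr'
    P P' hP hP'
  simp only [rcd, Prod.mk.injEq] at hr'
  obtain ⟨e1, e2, e3, e4⟩ := hr'
  exact h D K₁ J a₀ w₀ z M lam gam κ q hO hK₁ hz hlam i hi j hj a ha r hr y haz ω ω' hω hω' e1 e2
    e3 e4 P P' (frp_tg hP hK) (frp_tg hP' hK) (frp_sp hO hK₁ hP hK le_rfl).1
    (frp_sp hO hK₁ hP' hK le_rfl).1 (frp_sp hO hK₁ hP hK (Nat.sub_le _ _)).1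
    (frp_sp hO hK₁ hP' hK (Nat.sub_le _ _)).1 (frp_sp hO hK₁ hP hK le_rfl).2
    (frp_sp hO hK₁ hP' hK le_rfl).2

end Pool.P4
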