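import Pool.Agent.H52.P4.Pair
import Pool.Agent.H19.STAT.Sys2

/-!
# Closed frames of two samples with the same visible labels

`P` is near to the closed labels of the sample. At the scale of the radius, time included, `P` is
near to the visible labels. So the closed frames of two samples with the same visible labels at
three places differ by an affine function, up to the ratio of the scales.
-/

set_option autoImplicit false

namespace Pool.P4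

open Finset Real MvPolynomial
open Pool.Agent.H49.Ent Pool.Agent.H32.Dense Pool.STK Pool.STAT Pool.MIC.Frm Pool.FRM
open Pool.MIC.Fru (gw nat_gw nat_gw0 atT_tri atT_deg)

/-- Levels of two places. -/
theorem lev2 {D : NDat2} {n K J a₀ w₀ z M : ℕ} {lam gam : ℕ → ℝ} {κ C₁ : ℝ} {q : D.Ω → ℝ}
    (hO : D.Ok2 n K J a₀ w₀ z M lam gam κ C₁ q) {i₁ j₁ i₂ j₂ : ℕ} (h1 : i₁ ≤ M) (h2 : j₁ ≤ M)
    (h3 : i₂ ≤ M) (h4 : j₂ ≤ M) {l : ℕ} (h5 : 1 ≤ l) (h6 : l ≤ n) :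
    |(D.g i₁ j₁ l : ℝ) - D.g i₂ j₂ l -
      (lam l * ((i₁ : ℝ) - i₂) + gam l * ((j₁ : ℝ) - j₂)) * z| ≤ 2 * C₁ * z := by
  have e1 := hO.hom i₁ h1 j₁ h2 l h5 h6
  have e2 := hO.hom i₂ h3 j₂ h4 l h5 h6
  rw [abs_le] at e1 e2 ⊢
  constructor
  · nlinarith [e1.1, e1.2, e2.1, e2.2]
  · nlinarith [e1.1, e1.2, e2.1, e2.2]

theorem nat_gw' (w : ℕ) (g : ℕ → ℕ) (P : ℕ → PN) (x : ℕ → ℝ) (t : ℝ) {k : ℕ} (hk : 1 ≤ k) :
    nat (gw w g) (atT t P) x k = nat g P x k := nat_gw x hk t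

theorem gw_ne (w : ℕ) (g : ℕ → ℕ) {k : ℕ} (hk : 1 ≤ k) : gw w g k = g k := by
  unfold gw
  rw [Function.update_of_ne (by omega)]

theorem gw_z (w : ℕ) (g : ℕ → ℕ) : gw w g 0 = w := by
  unfold gw
  rw [Function.update_self]

theorem atT_ne (t : ℝ) (P : ℕ → PN) {k : ℕ} (hk : 1 ≤ k) : atT t P k = P k := by
  unfold atT
  rw [Function.update_of_ne (by omega)]

theorem tg_atT {K n : ℕ} {P : ℕ → PN} (h : Tg K n P) (t : ℝ) : Tg K n (atT t P) := by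
  refine ⟨atT_tri h.tri t, fun i hi => ?_⟩
  exact atT_deg (m := n + 1) (fun i hi => h.deg i (by omega)) t i (by omega)

/-- **The closed frame and the visible labels**, at the scale of the radius. -/
theorem rad_sp (n K : ℕ) (C : ℝ) (hC : 0 ≤ C) : ∃ c' : ℝ, 0 ≤ c' ∧
    ∀ (D : NDat2) (K₁ J a₀ w₀ z M : ℕ) (lam gam : ℕ → ℝ) (κ C₁ : ℝ) (q : D.Ω → ℝ),
    D.Ok2 n K₁ J a₀ w₀ z M lam gam κ C₁ q → K₁ ≤ K → 1 ≤ z → ∀ i ≤ M, ∀ j ≤ M,
    ∀ ω, 0 < q ω → ∀ P : ℕ → PN, Tg K n P →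
    Sp (D.g i j) P (D.Φ i j ω) n (exp (C * z)) →
    Sp (gw (a₀ + i * z) (D.g i j)) (atT (D.X ω 0) P) (atT (D.X ω 0) (D.Ψ i j ω)) n
      (exp (c' * z)) := by
  obtain ⟨c₁, h1, hbox⟩ := sp_box n K C 1 hC zero_le_one
  obtain ⟨c₂, h2, h2', hgr⟩ := sp_grow n K C c₁ hC (by linarith)
  obtain ⟨c₄, h4, hsy⟩ := sp_symm n K (|(0 : ℝ)| + |c₂| + 1) (by positivity)
  refine ⟨c₄, by
    have := abs_nonneg c₂
    have := abs_nonneg (0 : ℝ)
    linarith, ?_⟩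
  intro D K₁ J a₀ w₀ z M lam gam κ C₁ q hO hK hz i hi j hj ω hω P hP hS
  have hzr : (1 : ℝ) ≤ z := by exact_mod_cast hz
  have hΦ : Tg K n (D.Φ i j ω) := ⟨hO.P_tri i j _, fun l _ => (hO.P_deg i j _ l).trans hK⟩
  have hΨ : Tg K n (D.Ψ i j ω) := ⟨hO.G_tri i j _, fun l _ => (hO.G_deg i j _ l).trans hK⟩
  refine hsy z _ _ _ hzr (tg_atT hΨ _) (tg_atT hP _) ?_
  intro l hl x hx
  rcases Nat.eq_zero_or_pos l with h0 | h0
  · subst h0
    unfold atT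
    rw [Function.update_self, Function.update_self, sub_self, abs_zero]
    positivity
  -- the natural box
  have ht : |x 0 - D.X ω 0| ≤ 1 / 2 ^ (a₀ + i * z) := by
    have := hx 0 h0
    rw [nat_gw0, abs_mul, abs_of_pos (by positivity : (0 : ℝ) < 2 ^ (a₀ + i * z))] at this
    rw [le_div_iff₀ (by positivity)]
    linarith
  have hx1 : ∀ k, 1 ≤ k → k < l → |x k - eval x (D.Ψ i j ω k)| ≤ 1 / 2 ^ D.g i j k := by
    intro k hk1 hkl
    have := hx k hkl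
    rw [nat_gw' _ _ _ _ _ hk1] at this
    unfold nat at this
    rw [abs_mul, abs_of_pos (by positivity : (0 : ℝ) < 2 ^ D.g i j k)] at this
    rw [le_div_iff₀ (by positivity)]
    linarith
  have hnb : ∀ k ≤ l, D.NB i j (a₀ + i * z) k ω x := fun k hk =>
    ⟨ht, fun k' h1 h2 => hx1 k' h1 (by omega)⟩
  have hag : ∀ k, 1 ≤ k → k ≤ l →
      |eval x (D.Ψ i j ω k) - eval x (D.Φ i j ω k)| ≤ 1 / 2 ^ D.g i j k := fun k hk1 hkl =>
    hO.agr i hi j hj ω hω k hk1 (hkl.trans hl) x (hnb k hkl)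
  have e1 : (2 : ℝ) ≤ exp (1 * z) := by
    have := Real.add_one_le_exp (1 * (z : ℝ))
    linarith
  have hB : Bx (D.g i j) (D.Φ i j ω) l (exp (1 * z)) x := by
    intro k hk
    rcases Nat.eq_zero_or_pos k with hk0 | hk0
    · subst hk0
      have a1 := hO.hgt i hi j hj ω hω 0 (Nat.zero_le n)
      have a2 : eval (D.X ω) (D.Φ i j ω 0) = eval x (D.Φ i j ω 0) :=
        Pool.SYS35.eval_congr (hΦ.tri 0) fun i hi => absurd hi (Nat.not_lt_zero i)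
      unfold NDat2.rh at a1
      rw [a2] at a1
      have a3 : |x 0 - D.X ω 0| ≤ 1 / 2 ^ D.g i j 0 := by
        refine ht.trans ?_
        refine one_div_le_one_div_of_le (by positivity) (pow_le_pow_right₀ (by norm_num) ?_)
        rw [hO.g_zero]
        have := hO.thin
        have b1 : j * z ≤ (M + 1) * z := Nat.mul_le_mul_right z (by omega)
        have b2 : 0 ≤ i * z := Nat.zero_le _
        omega
      have a4 : |x 0 - eval x (D.Φ i j ω 0)| ≤ 2 / 2 ^ D.g i j 0 := by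
        calc |x 0 - eval x (D.Φ i j ω 0)|
            = |(x 0 - D.X ω 0) + (D.X ω 0 - eval x (D.Φ i j ω 0))| := by ring_nf
          _ ≤ _ := abs_add_le _ _
          _ ≤ 1 / 2 ^ D.g i j 0 + 1 / 2 ^ D.g i j 0 := add_le_add a3 a1
          _ = _ := by ring
      unfold nat
      rw [abs_mul, abs_of_pos (by positivity : (0 : ℝ) < 2 ^ D.g i j 0)]
      rw [le_div_iff₀ (by positivity)] at a4
      linarith
    · have a1 := hx1 k hk0 hk
      have a2 := hag k hk0 hk.le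
      have a4 : |x k - eval x (D.Φ i j ω k)| ≤ 2 / 2 ^ D.g i j k := by
        calc |x k - eval x (D.Φ i j ω k)|
            = |(x k - eval x (D.Ψ i j ω k)) +
                (eval x (D.Ψ i j ω k) - eval x (D.Φ i j ω k))| := by ring_nf
          _ ≤ _ := abs_add_le _ _
          _ ≤ 1 / 2 ^ D.g i j k + 1 / 2 ^ D.g i j k := add_le_add a1 a2
          _ = _ := by ring
      unfold nat
      rw [abs_mul, abs_of_pos (by positivity : (0 : ℝ) < 2 ^ D.g i j k)]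
      rw [le_div_iff₀ (by positivity)] at a4
      linarith
  have hB2 := hbox z (D.g i j) P (D.Φ i j ω) hzr hP hΦ hS l (by omega) x hB
  have e3 := (hgr z (D.g i j) P (D.Φ i j ω) hzr hP hΦ hS l hl x hB2).1
  rw [atT_ne _ _ h0, atT_ne _ _ h0, gw_ne _ _ h0, abs_sub_comm]
  have e4 := hag l h0 le_rfl
  calc |eval x (D.Ψ i j ω l) - eval x (P l)|
      = |(eval x (D.Ψ i j ω l) - eval x (D.Φ i j ω l)) +
          (eval x (D.Φ i j ω l) - eval x (P l))| := by ring_nf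
    _ ≤ _ := abs_add_le _ _
    _ ≤ 1 / 2 ^ D.g i j l + exp (c₂ * z) / 2 ^ D.g i j l := add_le_add e4 e3
    _ = (exp (0 * (z : ℝ)) + exp (c₂ * z)) / 2 ^ D.g i j l := by
        rw [zero_mul, exp_zero]
        ring
    _ ≤ _ := div_le_div_of_nonneg_right (ex_add hzr) (by positivity)

/-- **The closed frames of two samples with the same visible label**, at the scale of the
radius. -/
theorem rad_two (n K : ℕ) (C : ℝ) (hC : 0 ≤ C) : ∃ c' : ℝ, 0 ≤ c' ∧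
    ∀ (D : NDat2) (K₁ J a₀ w₀ z M : ℕ) (lam gam : ℕ → ℝ) (κ C₁ : ℝ) (q : D.Ω → ℝ),
    D.Ok2 n K₁ J a₀ w₀ z M lam gam κ C₁ q → K₁ ≤ K → 1 ≤ z → ∀ i ≤ M, ∀ j ≤ M,
    ∀ ω ω', 0 < q ω → 0 < q ω' → D.T ω = D.T ω' → D.s i j ω = D.s i j ω' →
    ∀ P P' : ℕ → PN, Tg K n P → Tg K n P' →
    Sp (D.g i j) P (D.Φ i j ω) n (exp (C * z)) →
    Sp (D.g i j) P' (D.Φ i j ω') n (exp (C * z)) →
    Sp (gw (a₀ + i * z) (D.g i j)) (atT (D.X ω 0) P) (atT (D.X ω 0) P') n (exp (c' * z)) := by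
  obtain ⟨c₁, h1, hr⟩ := rad_sp n K C hC
  obtain ⟨c₂, h2, hsy⟩ := sp_symm n K c₁ h1
  obtain ⟨c₃, h3, htr⟩ := sp_trans n K c₁ c₂ h1 (h1.trans h2)
  refine ⟨c₃, h1.trans h3, ?_⟩
  intro D K₁ J a₀ w₀ z M lam gam κ C₁ q hO hK hz i hi j hj ω ω' hω hω' hT hs P P' hP hP' hS hS'
  have hzr : (1 : ℝ) ≤ z := by exact_mod_cast hz
  have hx : D.X ω 0 = D.X ω' 0 := by rw [hO.X_zero, hO.X_zero, hT]
  have hΨ : Tg K n (D.Ψ i j ω) := ⟨hO.G_tri i j _, fun l _ => (hO.G_deg i j _ l).trans hK⟩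
  have e1 := hr D K₁ J a₀ w₀ z M lam gam κ C₁ q hO hK hz i hi j hj ω hω P hP hS
  have e2 := hr D K₁ J a₀ w₀ z M lam gam κ C₁ q hO hK hz i hi j hj ω' hω' P' hP' hS'
  have e3 : D.Ψ i j ω' = D.Ψ i j ω := by
    unfold NDat2.Ψ
    rw [hs]
  rw [e3, ← hx] at e2
  have e4 := hsy z _ _ _ hzr (tg_atT hP' _) (tg_atT hΨ _) e2
  exact htr z _ _ _ _ hzr (tg_atT hP _) (tg_atT hΨ _) (tg_atT hP' _) e1 e4

/-- The relation of two frames: `x₀` is the time, `d` the levels with the radius. -/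
structure Rly (n y z r : ℕ) (gam : ℕ → ℝ) (d : ℕ → ℕ) (P V : ℕ → PN) (B E τ : ℝ) : Prop where
  aff : ∀ l ≤ n, ∀ x : ℕ → ℝ, Bx d P l B x →
    |2 ^ d l * (eval x (V l) - eval x (P l)) - kaf d P V l x| ≤ τ
  bd : ∀ l ≤ n, ∀ k, |kap d P V l k| ≤ E
  sm : ∀ l, 1 ≤ l → l ≤ n → ∀ k, 1 ≤ k → k ≤ n → gam l * r + y ≤ gam k * r →
    |kap d P V l k| ≤ E / 2 ^ (y * z)
  box : ∀ l ≤ n + 1, ∀ x : ℕ → ℝ, Bx d P l B x → Bx d V l E x

/-- **(REL)** Two samples with the same time and the same visible labels at `(i, j)`, `(i - a, j)`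
and `(i - 1, j - r)`. -/
theorem rel (n K : ℕ) (C C₁ b : ℝ) (hC : 0 ≤ C) (hC₁ : 0 ≤ C₁) (hb : 0 ≤ b) :
    ∃ c' : ℝ, 0 ≤ c' ∧
    ∀ (D : NDat2) (K₁ J a₀ w₀ z M : ℕ) (lam gam : ℕ → ℝ) (κ : ℝ) (q : D.Ω → ℝ),
    D.Ok2 n K₁ J a₀ w₀ z M lam gam κ C₁ q → K₁ ≤ K → 1 ≤ z →
    (∀ l, 1 ≤ l → l ≤ n → lam l = 1) → ∀ i ≤ M, ∀ j ≤ M, ∀ a ≤ i, ∀ r ≤ j, ∀ y : ℕ,
    exp (c' * z) ≤ 2 ^ (a * z) →
    ∀ ω ω', 0 < q ω → 0 < q ω' → D.T ω = D.T ω' → D.s i j ω = D.s i j ω' →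
    D.s (i - a) j ω = D.s (i - a) j ω' → D.s (i - 1) (j - r) ω = D.s (i - 1) (j - r) ω' →
    ∀ P P' : ℕ → PN, Tg K n P → Tg K n P' →
    Sp (D.g i j) P (D.Φ i j ω) n (exp (C * z)) →
    Sp (D.g i j) P' (D.Φ i j ω') n (exp (C * z)) →
    Sp (D.g (i - a) j) P (D.Φ (i - a) j ω) n (exp (C * z)) →
    Sp (D.g (i - a) j) P' (D.Φ (i - a) j ω') n (exp (C * z)) →
    Sp (D.g (i - 1) (j - r)) P (D.Φ (i - 1) (j - r) ω) n (exp (C * z)) →
    Sp (D.g (i - 1) (j - r)) P' (D.Φ (i - 1) (j - r) ω') n (exp (C * z)) →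
    Rly n y z r gam (gw (a₀ + i * z) (D.g i j)) (atT (D.X ω 0) P) (atT (D.X ω 0) P')
      (exp (b * z)) (exp (c' * z)) (exp (c' * z) / 2 ^ (a * z)) := by
  obtain ⟨c₁, h1, hr⟩ := rad_two n K C hC
  obtain ⟨c₂, hc₂⟩ : ∃ c₂ : ℝ, c₂ = c₁ + 2 * C₁ := ⟨_, rfl⟩
  have h2 : 0 ≤ c₂ := by rw [hc₂]; linarith
  obtain ⟨c₃, h3, hk⟩ := kaf_le n K c₂ b h2 hb
  obtain ⟨c₄, h4, hk4⟩ := kap_le n K c₁ h1
  obtain ⟨c₅, h5, h5', hg5⟩ := sp_grow n K c₁ b h1 hb
  obtain ⟨c₆, hc₆⟩ : ∃ c₆ : ℝ, c₆ = c₂ + c₃ + (c₄ + 4 * C₁) + (|b| + |c₅| + 1) := ⟨_, rfl⟩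
  have hab := abs_nonneg b
  have hac := abs_nonneg c₅
  refine ⟨c₆, by rw [hc₆]; linarith, ?_⟩
  intro D K₁ J a₀ w₀ z M lam gam κ q hO hK hz hlam i hi j hj a ha r hrj y haz ω ω' hω hω' hT s1 s2 s3
    P P' hP hP' p1 p1' p2 p2' p3 p3'
  have hzr : (1 : ℝ) ≤ z := by exact_mod_cast hz
  have hz0 : (0 : ℝ) ≤ z := by linarith
  have e1 := hr D K₁ J a₀ w₀ z M lam gam κ C₁ q hO hK hz i hi j hj ω ω' hω hω' hT s1 P P' hP hP'
    p1 p1'
  have e2 := hr D K₁ J a₀ w₀ z M lam gam κ C₁ q hO hK hz (i - a) (by omega) j hj ω ω' hω hω' hT s2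
    P P' hP hP' p2 p2'
  have e3 := hr D K₁ J a₀ w₀ z M lam gam κ C₁ q hO hK hz (i - 1) (by omega) (j - r) (by omega) ω
    ω' hω hω' hT s3
    P P' hP hP' p3 p3'
  have hPt := tg_atT hP (D.X ω 0)
  have hPt' := tg_atT hP' (D.X ω 0)
  have hcast : ((i - a : ℕ) : ℝ) = (i : ℝ) - a := by rw [Nat.cast_sub ha]
  have hcast' : ((j - r : ℕ) : ℝ) = (j : ℝ) - r := by rw [Nat.cast_sub hrj]
  -- the two radii
  have L : ∀ k ≤ n, (2 : ℝ) ^ gw (a₀ + (i - a) * z) (D.g (i - a) j) k * 2 ^ (a * z) ≤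
      exp (c₂ * z) * 2 ^ gw (a₀ + i * z) (D.g i j) k ∧
      (2 : ℝ) ^ gw (a₀ + i * z) (D.g i j) k ≤
        exp (c₂ * z) * (2 ^ gw (a₀ + (i - a) * z) (D.g (i - a) j) k * 2 ^ (a * z)) := by
    intro k hkn
    have hE1 : (1 : ℝ) ≤ exp (c₂ * z) := ex_one h2 hzr
    rw [← pow_add]
    rcases Nat.eq_zero_or_pos k with hk0 | hk0
    · subst hk0
      rw [gw_z, gw_z]
      have e : a₀ + (i - a) * z + a * z = a₀ + i * z := by
        have : (i - a) * z + a * z = i * z := by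
          rw [← Nat.add_mul, Nat.sub_add_cancel ha]
        omega
      rw [e]
      have : (0 : ℝ) < 2 ^ (a₀ + i * z) := by positivity
      exact ⟨by nlinarith, by nlinarith⟩
    · rw [gw_ne _ _ hk0, gw_ne _ _ hk0]
      have f := lev2 hO hi hj (i₂ := i - a) (by omega) hj (j₂ := j) hk0 hkn
      rw [hlam k hk0 hkn, hcast, abs_le] at f
      constructor
      · refine pw_le ?_ (mul_nonneg h2 hz0)
        push_cast
        rw [hc₂]
        nlinarith [f.1, f.2]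
      · refine pw_le ?_ (mul_nonneg h2 hz0)
        push_cast
        rw [hc₂]
        nlinarith [f.1, f.2]
  have hm6 : ∀ c : ℝ, c ≤ c₆ → exp (c * z) ≤ exp (c₆ * z) := fun c h => ex_mono h hzr
  refine ⟨?_, ?_, ?_, ?_⟩
  · intro l hl x hx
    have hle : exp (c₂ * z) ≤ 2 ^ (a * z) := (hm6 c₂ (by rw [hc₆]; linarith)).trans haz
    have e2' := e2.mono le_rfl (ex_mono (show c₁ ≤ c₂ by rw [hc₂]; linarith) hzr)
    refine (hk z _ _ (a * z) _ _ hzr hPt hPt' (fun k hk' => (L k hk').1) (fun k hk' => (L k hk').2)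
      hle e2' l hl x hx).trans ?_
    exact div_le_div_of_nonneg_right (hm6 c₃ (by rw [hc₆]; linarith)) (by positivity)
  · intro l hl k
    have := hk4 z (gw (a₀ + i * z) (D.g i j)) _ _ _ hzr hPt hPt' e1 l hl k
    rw [div_self (by positivity), div_self (by positivity), mul_one, mul_one] at this
    exact this.trans (hm6 c₄ (by rw [hc₆]; linarith))
  · intro l hl1 hln k hk1 hkn hgk
    have f := hk4 z (gw (a₀ + i * z) (D.g i j)) (gw (a₀ + (i - 1) * z) (D.g (i - 1) (j - r))) _ _ hzr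
      hPt hPt'
      e3 l hln k
    rw [gw_ne _ _ hl1, gw_ne _ _ hl1, gw_ne _ _ hk1, gw_ne _ _ hk1] at f
    refine f.trans ?_
    have fl := lev2 hO hi hj (i₂ := i - 1) (by omega) (j₂ := j - r) (by omega) hl1 hln
    have fk := lev2 hO hi hj (i₂ := i - 1) (by omega) (j₂ := j - r) (by omega) hk1 hkn
    rw [hlam l hl1 hln, hcast', abs_le] at fl
    rw [hlam k hk1 hkn, hcast', abs_le] at fk
    have g1 : (2 : ℝ) ^ (D.g i j l + D.g (i - 1) (j - r) k + y * z) ≤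
        exp (4 * C₁ * z) * 2 ^ (D.g (i - 1) (j - r) l + D.g i j k) := by
      refine pw_le ?_ (by positivity)
      push_cast
      have := mul_le_mul_of_nonneg_right hgk hz0
      nlinarith [fl.1, fl.2, fk.1, fk.2]
    have g2 : (2 : ℝ) ^ D.g i j l / 2 ^ D.g (i - 1) (j - r) l *
        (2 ^ D.g (i - 1) (j - r) k / 2 ^ D.g i j k) ≤
        exp (4 * C₁ * z) / 2 ^ (y * z) := by
      rw [div_mul_div_comm, div_le_div_iff₀ (by positivity) (by positivity), ← pow_add, ← pow_add,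
        ← pow_add]
      exact g1
    calc exp (c₄ * z) * ((2 : ℝ) ^ D.g i j l / 2 ^ D.g (i - 1) (j - r) l *
          (2 ^ D.g (i - 1) (j - r) k / 2 ^ D.g i j k))
        ≤ exp (c₄ * z) * (exp (4 * C₁ * z) / 2 ^ (y * z)) := by gcongr
      _ = exp ((c₄ + 4 * C₁) * z) / 2 ^ (y * z) := by
          rw [← mul_div_assoc, ← exp_add]
          ring_nf
      _ ≤ _ := div_le_div_of_nonneg_right (hm6 _ (by rw [hc₆]; linarith)) (by positivity)
  · intro l hl x hx k hk'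
    rcases Nat.eq_zero_or_pos k with hk0 | hk0
    · subst hk0
      have := hx 0 hk'
      rw [nat_gw0] at this ⊢
      exact this.trans (hm6 b (by
        rw [hc₆]
        have := le_abs_self b
        linarith))
    · have f := (hg5 z _ _ _ hzr hPt hPt' e1 k (by omega) x (hx.mono (by omega) le_rfl)).1
      have f2 := hx k hk'
      have e : nat (gw (a₀ + i * z) (D.g i j)) (atT (D.X ω 0) P') x k =
          nat (gw (a₀ + i * z) (D.g i j)) (atT (D.X ω 0) P) x k -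
          2 ^ gw (a₀ + i * z) (D.g i j) k * (eval x (atT (D.X ω 0) P' k) -
            eval x (atT (D.X ω 0) P k)) := by
        unfold nat
        ring
      rw [e]
      refine (abs_sub _ _).trans ?_
      rw [abs_mul, abs_of_pos (by positivity :
        (0 : ℝ) < 2 ^ gw (a₀ + i * z) (D.g i j) k)]
      rw [le_div_iff₀ (by positivity), mul_comm] at f
      refine le_trans (by linarith) ((ex_add (c := b) (c' := c₅) hzr).trans (hm6 _ (by
        rw [hc₆]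
        linarith)))

end Pool.P4
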